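import Pool.Agent.Work.MP_3e8c7a_h.Interface

set_option autoImplicit false

namespace Pool.EH

open Module Pool.Agent.MP3e8c7a

/-- The linear functional `M ↦ ∑ A a b * M a b`. -/
noncomputable def CAR_L {n : ℕ} (A : Fin n → Fin n → ℝ) : (Fin n → Fin n → ℝ) →ₗ[ℝ] ℝ where
  toFun M := ∑ a, ∑ b, A a b * M a b
  map_add' M M' := by
    simp only [Pi.add_apply, mul_add, Finset.sum_add_distrib]
  map_smul' r M := by
    simp only [Pi.smul_apply, smul_eq_mul, RingHom.id_apply, Finset.mul_sum]
    refine Finset.sum_congr rfl fun a _ => Finset.sum_congr rfl fun b _ => ?_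
    ring

theorem p_CAR : Stmt_CAR := by
  intro n ι _ z μ hμ hs
  classical
  let zz : ι → (Fin n → Fin n → ℝ) := fun i a b => z i a * z i b
  have hP : (∑ i, μ i • zz i) ∈ convexHull ℝ (Set.range zz) := by
    refine (convex_convexHull ℝ (Set.range zz)).sum_mem (fun i _ => hμ i) hs ?_
    intro i _
    exact subset_convexHull ℝ _ ⟨i, rfl⟩
  obtain ⟨κ, hκ, y, w, hy, hai, hw, hw1, hsum⟩ := eq_pos_convex_span_of_mem_convexHull hP
  have hg : ∀ k : κ, ∃ i : ι, zz i = y k := fun k => hy ⟨k, rfl⟩
  choose g hg using hg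
  have hcard : Fintype.card κ ≤ n * n + 1 := by
    refine hai.card_le_finrank_succ.trans ?_
    refine Nat.add_le_add_right ?_ 1
    refine (Submodule.finrank_le _).trans ?_
    rw [Module.finrank_pi_fintype]
    simp
  have key : ∀ F : ι → ℝ, ∑ i ∈ Finset.univ.image g, (∑ k with g k = i, w k) * F i
      = ∑ k, w k * F (g k) := by
    intro F
    have h1 : ∀ i ∈ Finset.univ.image g, (∑ k with g k = i, w k) * F i
        = ∑ k with g k = i, w k * F (g k) := by
      intro i _
      rw [Finset.sum_mul]
      refine Finset.sum_congr rfl fun k hk => ?_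
      rw [(Finset.mem_filter.1 hk).2]
    rw [Finset.sum_congr rfl h1]
    exact Finset.sum_fiberwise_of_maps_to (fun k _ => Finset.mem_image_of_mem g (Finset.mem_univ k)) _
  refine ⟨Finset.univ.image g, fun i => ∑ k with g k = i, w k, ?_, ?_, ?_, ?_⟩
  · exact Finset.card_image_le.trans hcard
  · intro i
    exact Finset.sum_nonneg fun k _ => (hw k).le
  · have := key (fun _ => 1)
    simp only [mul_one] at this
    rw [this, hw1]
  · intro A
    rw [key]
    have hF : ∀ i, (∑ a, ∑ b, A a b * z i a * z i b) = CAR_L A (zz i) := by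
      intro i
      refine Finset.sum_congr rfl fun a _ => Finset.sum_congr rfl fun b _ => ?_
      simp only [zz]
      ring
    simp only [hF, hg]
    have h1 := congrArg (CAR_L A) hsum
    rw [map_sum, map_sum] at h1
    simpa only [map_smul, smul_eq_mul] using h1

end Pool.EH
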