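import Pool.Agent.Work.MP_3e8c7a_h.Interface

/-!
# Block DT1 (typed by helper15): the suprema of determinants, recursion
-/

set_option autoImplicit false

namespace Pool.EH

open Module Pool.Agent.MP3e8c7a

theorem DT1_bound {V : Type} [AddCommGroup V] [Module ℝ V] [FiniteDimensional ℝ V]
    (p r : Seminorm ℝ V) (hp : Def p) : ∃ Λ : ℝ, 0 ≤ Λ ∧ ∀ v, r v ≤ Λ * p v := by
  obtain ⟨e, he1, he2⟩ := Pool.RX.p_BAS (finrank ℝ V) V p hp rfl
  obtain ⟨b, hb⟩ : ∃ b : Fin (finrank ℝ V) → V, b = fun i => e.symm (Pi.single i 1) := ⟨_, rfl⟩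
  refine ⟨2 ^ finrank ℝ V * ∑ i, r (b i),
    mul_nonneg (by positivity) (Finset.sum_nonneg fun i _ => apply_nonneg r _), fun v => ?_⟩
  have h1 : v = ∑ i, e v i • b i := by
    apply e.injective
    rw [map_sum]
    have h2 : ∀ i, e (e v i • b i) = Pi.single i (e v i) := by
      intro i
      rw [map_smul, hb]
      simp only [LinearEquiv.apply_symm_apply]
      rw [← Pi.single_smul, smul_eq_mul, mul_one]
    rw [Finset.sum_congr rfl fun i _ => h2 i]
    exact (Finset.univ_sum_single (e v)).symm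
  have h3 : r v ≤ ∑ i, |e v i| * r (b i) := by
    conv_lhs => rw [h1]
    refine (Finset.le_sum_of_subadditive r (map_zero r).le (map_add_le_add r) _ _).trans
      (Finset.sum_le_sum fun i _ => ?_)
    rw [map_smul_eq_mul, Real.norm_eq_abs]
  refine h3.trans ?_
  calc ∑ i, |e v i| * r (b i) ≤ ∑ i, (2 ^ finrank ℝ V * p v) * r (b i) := by
        refine Finset.sum_le_sum fun i _ => mul_le_mul_of_nonneg_right ?_ (apply_nonneg r _)
        have h4 : |e v i| ≤ ‖e v‖ := by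
          rw [← Real.norm_eq_abs]
          exact norm_le_pi_norm (e v) i
        exact h4.trans (he1 v)
    _ = 2 ^ finrank ℝ V * (∑ i, r (b i)) * p v := by
        rw [← Finset.mul_sum]
        ring

theorem DT1_bdd {V : Type} [AddCommGroup V] [Module ℝ V] [FiniteDimensional ℝ V]
    (p r : Seminorm ℝ V) (hp : Def p) (j : ℕ) :
    BddAbove {D : ℝ | ∃ (f : Fin j → (V →ₗ[ℝ] ℝ)) (x : Fin j → V), (∀ i v, |f i v| ≤ r v) ∧
      (∀ l, p (x l) ≤ 1) ∧ D = |(Matrix.of fun i l => f i (x l)).det|} := by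
  obtain ⟨Λ, hΛ, hr⟩ := DT1_bound p r hp
  refine ⟨Nat.factorial (Fintype.card (Fin j)) • Λ ^ Fintype.card (Fin j), ?_⟩
  rintro D ⟨f, x, hf, hx, rfl⟩
  have h := Matrix.det_le (A := (Matrix.of fun i l => f i (x l))) (abv := AbsoluteValue.abs)
    (x := Λ) (fun i l => by
      show |f i (x l)| ≤ Λ
      calc |f i (x l)| ≤ r (x l) := hf i (x l)
        _ ≤ Λ * p (x l) := hr (x l)
        _ ≤ Λ * 1 := mul_le_mul_of_nonneg_left (hx l) hΛ
        _ = Λ := mul_one Λ)
  exact h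

theorem DT1_zero {V : Type} [AddCommGroup V] [Module ℝ V] (p r : Seminorm ℝ V) :
    DD p r 0 = 1 := by
  unfold DD
  have h : {D : ℝ | ∃ (f : Fin 0 → (V →ₗ[ℝ] ℝ)) (x : Fin 0 → V), (∀ i v, |f i v| ≤ r v) ∧
      (∀ l, p (x l) ≤ 1) ∧ D = |(Matrix.of fun i l => f i (x l)).det|} = {1} := by
    ext D
    constructor
    · rintro ⟨f, x, _, _, rfl⟩
      rw [Matrix.det_isEmpty, abs_one]
      rfl
    · intro hD
      rw [Set.mem_singleton_iff] at hD
      refine ⟨fun i => i.elim0, fun i => i.elim0, fun i => i.elim0, fun i => i.elim0, ?_⟩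
      rw [Matrix.det_isEmpty, abs_one, hD]
  rw [h, csSup_singleton]

theorem DT1_finrank {V : Type} [AddCommGroup V] [Module ℝ V] [FiniteDimensional ℝ V] (j : ℕ)
    (f : Fin j → (V →ₗ[ℝ] ℝ)) :
    finrank ℝ V ≤ finrank ℝ (LinearMap.ker (LinearMap.pi f)) + j := by
  have h1 := LinearMap.finrank_range_add_finrank_ker (LinearMap.pi f)
  have h2 : finrank ℝ (LinearMap.range (LinearMap.pi f)) ≤ finrank ℝ (Fin j → ℝ) :=
    Submodule.finrank_le _
  rw [Module.finrank_fin_fun] at h2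
  omega

theorem DT1_det {V : Type} [AddCommGroup V] [Module ℝ V] (j : ℕ)
    (f : Fin j → (V →ₗ[ℝ] ℝ)) (x : Fin j → V) (h : V →ₗ[ℝ] ℝ) (z : V) (hz : ∀ i, f i z = 0) :
    |(Matrix.of fun i l => (Fin.snoc f h : Fin (j + 1) → (V →ₗ[ℝ] ℝ)) i
      ((Fin.snoc x z : Fin (j + 1) → V) l)).det| =
      |h z| * |(Matrix.of fun i l => f i (x l)).det| := by
  rw [Matrix.det_succ_column _ (Fin.last j), Finset.sum_eq_single (Fin.last j)]
  · rw [abs_mul, abs_mul, abs_pow, abs_neg, abs_one, one_pow, one_mul]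
    congr 1
    · simp
    · congr 2
      ext i l
      simp [Matrix.submatrix_apply, Fin.succAbove_last]
  · intro i _ hi
    obtain ⟨i', rfl⟩ : ∃ i' : Fin j, i = i'.castSucc := ⟨i.castPred hi, (Fin.castSucc_castPred i hi).symm⟩
    simp [hz i']
  · intro hl
    exact absurd (Finset.mem_univ _) hl

theorem p_DT1 : Stmt_DT1 := by
  intro V _ _ _ p r hp hr
  refine ⟨DT1_zero p r, DT1_bdd p r hp, ?_⟩
  intro j ρ hρ hX
  have hne : {D : ℝ | ∃ (f : Fin j → (V →ₗ[ℝ] ℝ)) (x : Fin j → V), (∀ i v, |f i v| ≤ r v) ∧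
      (∀ l, p (x l) ≤ 1) ∧ D = |(Matrix.of fun i l => f i (x l)).det|}.Nonempty := by
    refine ⟨_, fun _ => 0, fun _ => 0, fun i v => ?_, fun l => ?_, rfl⟩
    · rw [LinearMap.zero_apply, abs_zero]
      exact apply_nonneg r v
    · rw [map_zero]
      exact zero_le_one
  have key : ∀ D ∈ {D : ℝ | ∃ (f : Fin j → (V →ₗ[ℝ] ℝ)) (x : Fin j → V), (∀ i v, |f i v| ≤ r v) ∧
      (∀ l, p (x l) ≤ 1) ∧ D = |(Matrix.of fun i l => f i (x l)).det|}, D ≤ DD p r (j + 1) / ρ := by
    rintro D ⟨f, x, hf, hx, rfl⟩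
    rw [le_div_iff₀ hρ]
    obtain ⟨z, hz, hzr⟩ := hX _ (DT1_finrank j f)
    have hz0 : ∀ i, f i z = 0 := by
      intro i
      have h1 := LinearMap.mem_ker.1 hz
      exact congrFun h1 i
    have hne0 : z ≠ 0 := by
      intro h0
      rw [h0, map_zero, map_zero, mul_zero] at hzr
      exact lt_irrefl _ hzr
    have hpz : 0 < p z := lt_of_le_of_ne (apply_nonneg p z) fun h0 => hne0 (hp z h0.symm)
    obtain ⟨w, hw⟩ : ∃ w : V, w = (p z)⁻¹ • z := ⟨_, rfl⟩
    have hw0 : w ≠ 0 := by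
      rw [hw]
      exact smul_ne_zero (inv_ne_zero hpz.ne') hne0
    obtain ⟨h, hh1, hh2⟩ := Pool.RX.BAS_norming r w hw0
    have hpw : p w = 1 := by
      rw [hw, map_smul_eq_mul, Real.norm_eq_abs, abs_of_pos (inv_pos.2 hpz),
        inv_mul_cancel₀ hpz.ne']
    have hrw : ρ ≤ r w := by
      rw [hw, map_smul_eq_mul, Real.norm_eq_abs, abs_of_pos (inv_pos.2 hpz),
        le_inv_mul_iff₀ hpz, mul_comm]
      exact hzr.le
    have hfw : ∀ i, f i w = 0 := by
      intro i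
      rw [hw, map_smul, hz0 i, smul_zero]
    have hdet := DT1_det j f x h w hfw
    have hmem : |h w| * |(Matrix.of fun i l => f i (x l)).det| ≤ DD p r (j + 1) := by
      rw [← hdet]
      refine le_csSup (DT1_bdd p r hp (j + 1)) ⟨_, _, ?_, ?_, rfl⟩
      · intro i v
        refine Fin.lastCases ?_ (fun i' => ?_) i
        · rw [Fin.snoc_last]
          exact hh1 v
        · rw [Fin.snoc_castSucc]
          exact hf i' v
      · intro l
        refine Fin.lastCases ?_ (fun l' => ?_) l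
        · rw [Fin.snoc_last, hpw]
        · rw [Fin.snoc_castSucc]
          exact hx l'
    refine le_trans ?_ hmem
    rw [hh2, abs_of_nonneg (apply_nonneg r w), mul_comm]
    exact mul_le_mul_of_nonneg_right hrw (abs_nonneg _)
  have h1 : DD p r j ≤ DD p r (j + 1) / ρ := csSup_le hne key
  rw [le_div_iff₀ hρ] at h1
  rwa [mul_comm]

end Pool.EH
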