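import Pool.Agent.Work.MP_3e8c7a_h.Interface

/-!
# Block DT2 (typed by helper21): upper bound for maximal determinants
-/

set_option autoImplicit false

namespace Pool.EH

open Module Pool.Agent.MP3e8c7a

theorem DT2_eq {W : Type} [AddCommGroup W] [Module ℝ W] [FiniteDimensional ℝ W] {C : ℝ}
    {N : Seminorm ℝ W} (hN : Def N) (h : Eu C N) (e : ℕ) (he : finrank ℝ W = e) :
    ∃ T : W →ₗ[ℝ] EuclideanSpace ℝ (Fin e), Function.Injective T ∧
      ∀ x, ‖T x‖ ≤ N x ∧ N x ≤ C * ‖T x‖ := by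
  subst he
  obtain ⟨T, hT⟩ := h.exists_equiv hN
  exact ⟨T.toLinearMap, T.injective, hT⟩

theorem DT2_sys (hSDG : Stmt_SDG) {V : Type} [AddCommGroup V] [Module ℝ V]
    [FiniteDimensional ℝ V] (p r : Seminorm ℝ V) (C : ℝ) (J : ℕ) (hp : Def p) (hr : Def r)
    (hlp : Loc C J p) (hlr : Loc C J r) (x : Fin J → V) (hx : LinearIndependent ℝ x) :
    ∃ (u : (Fin J → ℝ) →ₗ[ℝ] V) (s : Fin J → ℝ), Function.Injective u ∧ Antitone s ∧
      (∀ i, 0 < s i) ∧
      (∀ t, Real.sqrt (∑ i, t i ^ 2) ≤ p (u t) ∧ p (u t) ≤ C * Real.sqrt (∑ i, t i ^ 2)) ∧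
      (∀ t, Real.sqrt (∑ i, (s i * t i) ^ 2) ≤ r (u t) ∧
        r (u t) ≤ C * Real.sqrt (∑ i, (s i * t i) ^ 2)) ∧ ∀ l, ∃ ξ, u ξ = x l := by
  obtain ⟨X, hX⟩ : ∃ X : Submodule ℝ V, X = Submodule.span ℝ (Set.range x) := ⟨_, rfl⟩
  have hfin : finrank ℝ X = J := by
    rw [hX, finrank_span_eq_card hx, Fintype.card_fin]
  have hpX : Def (p.comp X.subtype) := hp.comp _ X.injective_subtype
  have hrX : Def (r.comp X.subtype) := hr.comp _ X.injective_subtype
  obtain ⟨T, hTi, hT⟩ := DT2_eq hpX (hlp X hfin.le) J hfin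
  obtain ⟨S, hSi, hS⟩ := DT2_eq hrX (hlr X hfin.le) J hfin
  obtain ⟨u, s, hs, hs0, hu1, hu2⟩ := hSDG X J J T S hfin hTi hSi
  have e1 : ∀ t, ‖T (u t)‖ = Real.sqrt (∑ i, t i ^ 2) := fun t => by
    rw [← hu1, Real.sqrt_sq (norm_nonneg _)]
  have e2 : ∀ t, ‖S (u t)‖ = Real.sqrt (∑ i, (s i * t i) ^ 2) := fun t => by
    rw [← hu2, Real.sqrt_sq (norm_nonneg _)]
  refine ⟨X.subtype ∘ₗ u.toLinearMap, s, X.injective_subtype.comp u.injective, hs, hs0,
    fun t => ?_, fun t => ?_, fun l => ?_⟩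
  · have h := hT (u t)
    rw [e1] at h
    exact h
  · have h := hS (u t)
    rw [e2] at h
    exact h
  · have hl : x l ∈ X := by
      rw [hX]
      exact Submodule.subset_span ⟨l, rfl⟩
    refine ⟨u.symm ⟨x l, hl⟩, ?_⟩
    show X.subtype (u (u.symm ⟨x l, hl⟩)) = x l
    rw [LinearEquiv.apply_symm_apply]
    rfl

theorem DT2_small {V : Type} [AddCommGroup V] [Module ℝ V] (p r : Seminorm ℝ V) (C ρ : ℝ)
    (m n : ℕ) (hC : 1 ≤ C) (hρ : 0 < ρ)
    (hG : ∀ G : Submodule ℝ V, finrank ℝ G = m + 1 → ∃ y ∈ G, r y < ρ * p y)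
    (u : (Fin (m + n) → ℝ) →ₗ[ℝ] V) (hu : Function.Injective u) (s : Fin (m + n) → ℝ)
    (hs : Antitone s) (hp : ∀ t, p (u t) ≤ C * Real.sqrt (∑ i, t i ^ 2))
    (hr : ∀ t, Real.sqrt (∑ i, (s i * t i) ^ 2) ≤ r (u t)) (i₀ : Fin (m + n))
    (hi₀ : m ≤ i₀.val) : s i₀ ≤ C * ρ := by
  by_contra hcon
  rw [not_le] at hcon
  have hmn : m + 1 ≤ m + n := by
    have := i₀.isLt
    omega
  obtain ⟨J, hJd⟩ : ∃ J : (Fin (m + 1) → ℝ) →ₗ[ℝ] (Fin (m + n) → ℝ), ∀ t i,
      J t i = if h : i.val < m + 1 then t ⟨i.val, h⟩ else 0 := by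
    refine ⟨{ toFun := fun t i => if h : i.val < m + 1 then t ⟨i.val, h⟩ else 0
              map_add' := ?_
              map_smul' := ?_ }, fun _ _ => rfl⟩
    · intro a b
      ext i
      show (if h : i.val < m + 1 then (a + b) ⟨i.val, h⟩ else 0) =
        (if h : i.val < m + 1 then a ⟨i.val, h⟩ else 0) +
          (if h : i.val < m + 1 then b ⟨i.val, h⟩ else 0)
      split_ifs
      · rfl
      · rw [add_zero]
    · intro a b
      ext i
      show (if h : i.val < m + 1 then (a • b) ⟨i.val, h⟩ else 0) =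
        a * (if h : i.val < m + 1 then b ⟨i.val, h⟩ else 0)
      split_ifs
      · rfl
      · rw [mul_zero]
  have hJ : Function.Injective J := by
    intro a b hab
    ext i
    have h := congrFun hab (Fin.castLE hmn i)
    rw [hJd, hJd] at h
    have hi : (Fin.castLE hmn i).val < m + 1 := i.isLt
    rw [dif_pos hi, dif_pos hi] at h
    exact h
  have hinj : Function.Injective (u ∘ₗ J) := by
    rw [LinearMap.coe_comp]
    exact hu.comp hJ
  obtain ⟨y, hy, h1⟩ := hG (LinearMap.range (u ∘ₗ J)) (by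
    rw [LinearMap.finrank_range_of_inj hinj, Module.finrank_fin_fun])
  obtain ⟨t, rfl⟩ := hy
  have hCρ : 0 ≤ C * ρ := by positivity
  have h2 : (C * ρ) ^ 2 * ∑ i, (J t i) ^ 2 ≤ ∑ i, (s i * J t i) ^ 2 := by
    rw [Finset.mul_sum]
    refine Finset.sum_le_sum fun i _ => ?_
    by_cases h : i.val < m + 1
    · have h3 : s i₀ ≤ s i := hs (by
        rw [Fin.le_def]
        omega)
      rw [mul_pow (s i)]
      exact mul_le_mul_of_nonneg_right (pow_le_pow_left₀ hCρ (hcon.le.trans h3) 2) (sq_nonneg _)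
    · have h4 : J t i = 0 := by rw [hJd, dif_neg h]
      rw [h4]
      simp
  have h3 : C * ρ * Real.sqrt (∑ i, (J t i) ^ 2) ≤ Real.sqrt (∑ i, (s i * J t i) ^ 2) := by
    apply Real.le_sqrt_of_sq_le
    rw [mul_pow, Real.sq_sqrt (Finset.sum_nonneg fun i _ => sq_nonneg _)]
    exact h2
  have h6 : ρ * p (u (J t)) ≤ r (u (J t)) := by
    calc ρ * p (u (J t)) ≤ ρ * (C * Real.sqrt (∑ i, (J t i) ^ 2)) :=
          mul_le_mul_of_nonneg_left (hp (J t)) hρ.le
      _ = C * ρ * Real.sqrt (∑ i, (J t i) ^ 2) := by ring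
      _ ≤ Real.sqrt (∑ i, (s i * J t i) ^ 2) := h3
      _ ≤ r (u (J t)) := hr (J t)
  exact absurd h1 (not_lt.mpr h6)

theorem DT2_det (hHAD : Stmt_HAD) {V : Type} [AddCommGroup V] [Module ℝ V] (r : Seminorm ℝ V)
    (C : ℝ) (J : ℕ) (hC : 0 ≤ C) (u : (Fin J → ℝ) →ₗ[ℝ] V) (s : Fin J → ℝ) (hs0 : ∀ i, 0 < s i)
    (hr : ∀ t, r (u t) ≤ C * Real.sqrt (∑ i, (s i * t i) ^ 2)) (f : Fin J → (V →ₗ[ℝ] ℝ))
    (x : Fin J → V) (hf : ∀ i v, |f i v| ≤ r v) (ξ : Fin J → Fin J → ℝ)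
    (hξ : ∀ l, u (ξ l) = x l) (hξ1 : ∀ l, Real.sqrt (∑ i, ξ l i ^ 2) ≤ 1) :
    |(Matrix.of fun i l => f i (x l)).det| ≤ C ^ J * ∏ i, s i := by
  obtain ⟨Φ, hΦ⟩ : ∃ Φ : Matrix (Fin J) (Fin J) ℝ, ∀ i a,
      Φ i a = f i (u (Pi.single a 1)) / s a :=
    ⟨Matrix.of fun i a => f i (u (Pi.single a 1)) / s a, fun _ _ => rfl⟩
  have h1 : ∀ (i : Fin J) (t : Fin J → ℝ), f i (u t) = ∑ a, Φ i a * (s a * t a) := by
    intro i t
    have e1 : t = ∑ a, t a • (Pi.single a 1 : Fin J → ℝ) := by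
      ext b
      simp [Finset.sum_apply, Pi.single_apply]
    conv_lhs => rw [e1]
    rw [map_sum, map_sum]
    refine Finset.sum_congr rfl fun a _ => ?_
    rw [map_smul, map_smul, hΦ, smul_eq_mul]
    have := (hs0 a).ne'
    field_simp
  have h2 : ∀ i, Real.sqrt (∑ a, Φ i a ^ 2) ≤ C := by
    intro i
    have e : ∀ a, s a * (Φ i a / s a) = Φ i a := fun a => by
      have := (hs0 a).ne'
      field_simp
    have h3 := h1 i (fun a => Φ i a / s a)
    have h4 := (le_abs_self _).trans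
      ((hf i (u (fun a => Φ i a / s a))).trans (hr (fun a => Φ i a / s a)))
    rw [h3] at h4
    simp only [e] at h4
    obtain ⟨q, hq⟩ : ∃ q : ℝ, q = ∑ a, Φ i a ^ 2 := ⟨_, rfl⟩
    have hq0 : 0 ≤ q := by
      rw [hq]
      exact Finset.sum_nonneg fun a _ => sq_nonneg _
    have h5 : q ≤ C * Real.sqrt q := by
      have e2 : ∑ a, Φ i a * Φ i a = q := by
        rw [hq]
        exact Finset.sum_congr rfl fun a _ => (sq _).symm
      rw [e2, ← hq] at h4
      exact h4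
    rw [← hq]
    rcases hq0.eq_or_lt with h | h
    · rw [← h, Real.sqrt_zero]
      exact hC
    · have h6 : 0 < Real.sqrt q := Real.sqrt_pos.mpr h
      have h7 : Real.sqrt q * Real.sqrt q ≤ C * Real.sqrt q := by
        rw [Real.mul_self_sqrt hq0]
        exact h5
      exact le_of_mul_le_mul_right h7 h6
  have h8 : (Matrix.of fun i l => f i (x l)) =
      Φ * Matrix.diagonal s * (Matrix.of ξ).transpose := by
    ext i l
    rw [Matrix.mul_apply, Matrix.of_apply, ← hξ l, h1]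
    refine Finset.sum_congr rfl fun a _ => ?_
    rw [Matrix.mul_diagonal, Matrix.transpose_apply, Matrix.of_apply]
    ring
  have h9 : |Φ.det| ≤ C ^ J := (hHAD J Φ).trans (by
    calc ∏ i, Real.sqrt (∑ l, Φ i l ^ 2) ≤ ∏ _i : Fin J, C :=
          Finset.prod_le_prod (fun i _ => Real.sqrt_nonneg _) (fun i _ => h2 i)
      _ = C ^ J := by rw [Finset.prod_const, Finset.card_univ, Fintype.card_fin])
  have h10 : |(Matrix.of ξ).det| ≤ 1 :=
    (hHAD J _).trans (Finset.prod_le_one (fun i _ => Real.sqrt_nonneg _) (fun i _ => hξ1 i))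
  have h11 : 0 < ∏ i, s i := Finset.prod_pos fun i _ => hs0 i
  rw [h8, Matrix.det_mul, Matrix.det_mul, Matrix.det_transpose, Matrix.det_diagonal, abs_mul,
    abs_mul, abs_of_pos h11]
  calc |Φ.det| * (∏ i, s i) * |(Matrix.of ξ).det| ≤ C ^ J * (∏ i, s i) * 1 := by
        refine mul_le_mul (mul_le_mul_of_nonneg_right h9 h11.le) h10 (abs_nonneg _) ?_
        exact mul_nonneg (pow_nonneg hC _) h11.le
    _ = C ^ J * ∏ i, s i := mul_one _

theorem DT2_prod {V : Type} [AddCommGroup V] [Module ℝ V] (p r : Seminorm ℝ V) (C : ℝ)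
    (m n : ℕ) (hC : 1 ≤ C)
    (hbd : BddAbove {D : ℝ | ∃ (f : Fin m → (V →ₗ[ℝ] ℝ)) (x : Fin m → V),
      (∀ i v, |f i v| ≤ r v) ∧ (∀ l, p (x l) ≤ 1) ∧
      D = |(Matrix.of fun i l => f i (x l)).det|})
    (u : (Fin (m + n) → ℝ) →ₗ[ℝ] V) (hu : Function.Injective u) (s : Fin (m + n) → ℝ)
    (hs0 : ∀ i, 0 < s i) (hp : ∀ t, p (u t) ≤ C * Real.sqrt (∑ i, t i ^ 2))
    (hr : ∀ t, Real.sqrt (∑ i, (s i * t i) ^ 2) ≤ r (u t)) :
    ∏ i : Fin m, s (Fin.castAdd n i) ≤ C ^ m * DD p r m := by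
  have hC0 : 0 < C := by linarith
  have hg : ∀ a : Fin (m + n), ∃ g : V →ₗ[ℝ] ℝ, (∀ t, g (u t) = s a * t a) ∧
      ∀ v, |g v| ≤ r v := by
    intro a
    obtain ⟨g, hg1, hg2⟩ := exists_ext r u hu (C := 1) zero_le_one
      (s a • (LinearMap.proj a : (Fin (m + n) → ℝ) →ₗ[ℝ] ℝ)) (fun t => by
        rw [one_mul]
        refine le_trans ?_ (hr t)
        rw [LinearMap.smul_apply, LinearMap.proj_apply, smul_eq_mul]
        apply Real.le_sqrt_of_sq_le
        rw [sq_abs]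
        exact Finset.single_le_sum (f := fun i => (s i * t i) ^ 2) (fun i _ => sq_nonneg _)
          (Finset.mem_univ a))
    refine ⟨g, fun t => ?_, fun v => ?_⟩
    · rw [hg1]
      rfl
    · have h := hg2 v
      rwa [one_mul] at h
  choose g hg1 hg2 using hg
  have hprod : 0 < ∏ i : Fin m, s (Fin.castAdd n i) := Finset.prod_pos fun i _ => hs0 _
  have hmem : C⁻¹ ^ m * ∏ i : Fin m, s (Fin.castAdd n i) ≤ DD p r m := by
    apply le_csSup hbd
    refine ⟨fun i => g (Fin.castAdd n i), fun l => C⁻¹ • u (Pi.single (Fin.castAdd n l) 1),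
      fun i v => hg2 _ v, fun l => ?_, ?_⟩
    · rw [map_smul_eq_mul, Real.norm_eq_abs, abs_of_pos (inv_pos.mpr hC0),
        inv_mul_le_iff₀ hC0, mul_one]
      have h := hp (Pi.single (Fin.castAdd n l) 1)
      have e : ∑ i, (Pi.single (Fin.castAdd n l) (1 : ℝ) : Fin (m + n) → ℝ) i ^ 2 = 1 := by
        rw [Finset.sum_eq_single (Fin.castAdd n l)]
        · rw [Pi.single_eq_same, one_pow]
        · intro b _ hb
          rw [Pi.single_eq_of_ne hb]
          simp
        · intro h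
          exact absurd (Finset.mem_univ _) h
      rw [e, Real.sqrt_one, mul_one] at h
      exact h
    · have e : (Matrix.of fun (i l : Fin m) =>
          g (Fin.castAdd n i) (C⁻¹ • u (Pi.single (Fin.castAdd n l) 1))) =
          Matrix.diagonal (fun i => C⁻¹ * s (Fin.castAdd n i)) := by
        ext i l
        rw [Matrix.of_apply, map_smul, hg1, smul_eq_mul]
        by_cases h : i = l
        · subst h
          rw [Matrix.diagonal_apply_eq, Pi.single_eq_same, mul_one]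
        · rw [Matrix.diagonal_apply_ne _ h, Pi.single_eq_of_ne, mul_zero, mul_zero]
          intro h'
          exact h (Fin.castAdd_injective m n h')
      rw [e, Matrix.det_diagonal, Finset.prod_mul_distrib, Finset.prod_const, Finset.card_univ,
        Fintype.card_fin, abs_of_pos]
      exact mul_pos (pow_pos (inv_pos.mpr hC0) _) hprod
  have h1 := mul_le_mul_of_nonneg_left hmem (pow_nonneg hC0.le m)
  rw [← mul_assoc, ← mul_pow, mul_inv_cancel₀ hC0.ne', one_pow, one_mul] at h1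
  exact h1

theorem p_DT2 (hHAD : Stmt_HAD) (hSDG : Stmt_SDG) (hDT1 : Stmt_DT1) : Stmt_DT2 := by
  intro V _ _ _ p r C ρ m n hp hr hC hρ hlp hlr hG
  obtain ⟨-, hbd, -⟩ := hDT1 V p r hp hr
  have hDD : 0 ≤ DD p r m := Real.sSup_nonneg (by
    rintro _ ⟨f, x, -, -, rfl⟩
    exact abs_nonneg _)
  have hC0 : 0 < C := by linarith
  have hR : 0 ≤ C ^ (2 * m + n) * (C * ρ) ^ n * DD p r m := by positivity
  refine csSup_le ⟨_, fun _ => 0, fun _ => 0, fun i v => ?_, fun l => ?_, rfl⟩ ?_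
  · rw [LinearMap.zero_apply, abs_zero]
    exact apply_nonneg r v
  · rw [map_zero]
    exact zero_le_one
  rintro _ ⟨f, x, hf, hx, rfl⟩
  by_cases hli : LinearIndependent ℝ x
  · obtain ⟨u, s, hu, hs, hs0, h1, h2, h3⟩ := DT2_sys hSDG p r C (m + n) hp hr hlp hlr x hli
    choose ξ hξ using h3
    have d1 := DT2_det hHAD r C (m + n) hC0.le u s hs0 (fun t => (h2 t).2) f x hf ξ hξ
      (fun l => by
        have h := (h1 (ξ l)).1
        rw [hξ] at h
        exact h.trans (hx l))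
    have d2 : ∀ i : Fin (m + n), m ≤ i.val → s i ≤ C * ρ := fun i hi =>
      DT2_small p r C ρ m n hC hρ hG u hu s hs (fun t => (h1 t).2) (fun t => (h2 t).1) i hi
    have d3 := DT2_prod p r C m n hC (hbd m) u hu s hs0 (fun t => (h1 t).2)
      (fun t => (h2 t).1)
    rw [Fin.prod_univ_add] at d1
    have d4 : ∏ i : Fin n, s (Fin.natAdd m i) ≤ (C * ρ) ^ n := by
      calc ∏ i : Fin n, s (Fin.natAdd m i) ≤ ∏ _i : Fin n, (C * ρ) :=
            Finset.prod_le_prod (fun i _ => (hs0 _).le) (fun i _ => d2 _ (by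
              rw [Fin.val_natAdd]
              omega))
        _ = (C * ρ) ^ n := by rw [Finset.prod_const, Finset.card_univ, Fintype.card_fin]
    have d5 : 0 ≤ ∏ i : Fin n, s (Fin.natAdd m i) := Finset.prod_nonneg fun i _ => (hs0 _).le
    refine d1.trans ?_
    calc C ^ (m + n) * ((∏ i : Fin m, s (Fin.castAdd n i)) * ∏ i : Fin n, s (Fin.natAdd m i))
        ≤ C ^ (m + n) * ((C ^ m * DD p r m) * (C * ρ) ^ n) := by
          refine mul_le_mul_of_nonneg_left ?_ (pow_nonneg hC0.le _)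
          exact mul_le_mul d3 d4 d5 (mul_nonneg (pow_nonneg hC0.le _) hDD)
      _ = C ^ (2 * m + n) * (C * ρ) ^ n * DD p r m := by ring
  · have h0 : (Matrix.of fun i l => f i (x l)).det = 0 := by
      rw [Fintype.not_linearIndependent_iff] at hli
      obtain ⟨c, hc, i, hi⟩ := hli
      apply Matrix.exists_mulVec_eq_zero_iff.mp
      refine ⟨c, fun h => hi (congrFun h i), ?_⟩
      ext j
      have h1 := congrArg (f j) hc
      rw [map_sum, map_zero] at h1
      rw [Pi.zero_apply, ← h1]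
      simp only [Matrix.mulVec, dotProduct, Matrix.of_apply, map_smul, smul_eq_mul]
      exact Finset.sum_congr rfl fun l _ => mul_comm _ _
    rw [h0, abs_zero]
    exact hR

end Pool.EH

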