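import Pool.Agent.Work.MP_3e8c7a_h.Interface
import Pool.Agent.Work.MP_3e8c7a_r.B_BAS

/-! Block GAP of THEOREM H (helper4). -/

set_option autoImplicit false

namespace Pool.EH

open Module Pool.Agent.MP3e8c7a

/-- Every norm on a finite dimensional space is `D`-Euclidean for some `D`. -/
lemma GAP_exists {W : Type} [AddCommGroup W] [Module ℝ W] [FiniteDimensional ℝ W] (N : Seminorm ℝ W)
    (hN : Def N) : ∃ D : ℝ, 1 ≤ D ∧ Eu D N := by
  obtain ⟨m, hm⟩ : ∃ m, finrank ℝ W = m := ⟨_, rfl⟩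
  obtain ⟨e, he1, he2⟩ := Pool.RX.p_BAS m W N hN hm
  set c : ℝ := (m : ℝ) * 2 ^ m + 1 with hc
  have hc0 : 0 < c := by positivity
  have hco : ∀ (y : EuclideanSpace ℝ (Fin m)) (i : Fin m), |y i| ≤ ‖y‖ := by
    intro y i
    have h1 := PiLp.norm_apply_le y i
    rwa [Real.norm_eq_abs] at h1
  let S : W →ₗ[ℝ] EuclideanSpace ℝ (Fin m) := (WithLp.linearEquiv 2 ℝ (Fin m → ℝ)).symm.toLinearMap ∘ₗ e.toLinearMap
  have hS : ∀ x i, S x i = e x i := fun x i => rfl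
  have hS2 : ∀ x, ‖S x‖ ≤ m * ‖e x‖ := by
    intro x
    have h1 : ‖S x‖ ^ 2 ≤ (m * ‖e x‖) ^ 2 := by
      rw [EuclideanSpace.norm_sq_eq]
      calc ∑ i, ‖S x i‖ ^ 2 ≤ ∑ _i : Fin m, ‖e x‖ ^ 2 := by
            refine Finset.sum_le_sum fun i _ => ?_
            rw [hS]
            exact pow_le_pow_left₀ (norm_nonneg _) (norm_le_pi_norm (e x) i) 2
        _ = m * ‖e x‖ ^ 2 := by
            rw [Finset.sum_const, Finset.card_univ, Fintype.card_fin, nsmul_eq_mul]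
        _ ≤ (m * ‖e x‖) ^ 2 := by
            rw [mul_pow]
            refine mul_le_mul_of_nonneg_right ?_ (by positivity)
            rcases Nat.eq_zero_or_pos m with h | h
            · rw [h]; norm_num
            · have : (1 : ℝ) ≤ m := by exact_mod_cast h
              nlinarith
    exact (abs_le_of_sq_le_sq' h1 (by positivity)).2
  refine ⟨c * (m + 1), ?_, m, c⁻¹ • S, fun x => ?_⟩
  · have h1 : (1 : ℝ) ≤ c := by rw [hc]; have : (0 : ℝ) ≤ (m : ℝ) * 2 ^ m := by positivity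
                                linarith
    have h2 : (1 : ℝ) ≤ (m : ℝ) + 1 := by have : (0 : ℝ) ≤ (m : ℝ) := by positivity
                                          linarith
    nlinarith
  · have e1 : ‖(c⁻¹ • S) x‖ = c⁻¹ * ‖S x‖ := by
      rw [LinearMap.smul_apply, norm_smul, Real.norm_eq_abs, abs_of_pos (inv_pos.2 hc0)]
    rw [e1]
    constructor
    · rw [inv_mul_le_iff₀ hc0]
      calc ‖S x‖ ≤ m * ‖e x‖ := hS2 x
        _ ≤ m * (2 ^ m * N x) := mul_le_mul_of_nonneg_left (he1 x) (by positivity)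
        _ = (m * 2 ^ m) * N x := by ring
        _ ≤ c * N x := mul_le_mul_of_nonneg_right (by rw [hc]; linarith) (apply_nonneg _ _)
    · calc N x ≤ ∑ i, |e x i| := he2 x
        _ ≤ ∑ _i : Fin m, ‖S x‖ := Finset.sum_le_sum fun i _ => by
            rw [← hS]; exact hco (S x) i
        _ = m * ‖S x‖ := by rw [Finset.sum_const, Finset.card_univ, Fintype.card_fin, nsmul_eq_mul]
        _ ≤ (m + 1) * ‖S x‖ := mul_le_mul_of_nonneg_right (by linarith) (norm_nonneg _)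
        _ = c * (m + 1) * (c⁻¹ * ‖S x‖) := by field_simp

/-- Isometric embeddings. -/
lemma GAP_emb {m μ : ℕ} (h : m ≤ μ) : ∃ J : EuclideanSpace ℝ (Fin m) →ₗ[ℝ] EuclideanSpace ℝ (Fin μ),
    ∀ x, ‖J x‖ = ‖x‖ := by
  obtain ⟨k, rfl⟩ := Nat.exists_eq_add_of_le h
  refine ⟨{ toFun := fun x => WithLp.toLp 2 (Fin.append (fun i => x i) (fun _ : Fin k => (0 : ℝ)))
            map_add' := fun x y => ?_
            map_smul' := fun c x => ?_ }, fun x => ?_⟩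
  · ext i
    show Fin.append (fun i => (x + y) i) (fun _ : Fin k => (0 : ℝ)) i =
      Fin.append (fun i => x i) (fun _ : Fin k => (0 : ℝ)) i + Fin.append (fun i => y i) (fun _ : Fin k => (0 : ℝ)) i
    refine Fin.addCases (fun i => ?_) (fun i => ?_) i
    · simp
    · simp
  · ext i
    show Fin.append (fun i => (c • x) i) (fun _ : Fin k => (0 : ℝ)) i =
      c • Fin.append (fun i => x i) (fun _ : Fin k => (0 : ℝ)) i
    refine Fin.addCases (fun i => ?_) (fun i => ?_) i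
    · simp
    · simp
  · have h1 : ∀ y : EuclideanSpace ℝ (Fin (m + k)), (∀ i, y i = Fin.append (fun i => x i) (fun _ : Fin k => (0 : ℝ)) i) →
        ‖y‖ = ‖x‖ := by
      intro y hy
      have h2 : ‖y‖ ^ 2 = ‖x‖ ^ 2 := by
        rw [EuclideanSpace.norm_sq_eq, EuclideanSpace.norm_sq_eq, Fin.sum_univ_add]
        simp only [hy, Fin.append_left, Fin.append_right, norm_zero]
        simp
      exact (sq_eq_sq₀ (norm_nonneg _) (norm_nonneg _)).1 h2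
    exact h1 _ fun i => rfl

/-- Copying a Hilbert norm on `W` into a space of at least the same dimension. -/
lemma GAP_copy {W Z : Type} [AddCommGroup W] [Module ℝ W] [FiniteDimensional ℝ W] [AddCommGroup Z] [Module ℝ Z]
    [FiniteDimensional ℝ Z] {d : ℕ} (S : W →ₗ[ℝ] EuclideanSpace ℝ (Fin d)) (hS : Function.Injective S)
    (T : Z ≃ₗ[ℝ] EuclideanSpace ℝ (Fin (finrank ℝ Z))) (h : finrank ℝ W ≤ finrank ℝ Z) :
    ∃ U : W →ₗ[ℝ] Z, ∀ w, ‖T (U w)‖ = ‖S w‖ := by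
  have hN : Def ((normSeminorm ℝ (EuclideanSpace ℝ (Fin d))).comp S) := by
    intro x hx
    have h1 : ‖S x‖ = 0 := hx
    exact hS (by rw [norm_eq_zero.1 h1, map_zero])
  have hE : Eu 1 ((normSeminorm ℝ (EuclideanSpace ℝ (Fin d))).comp S) :=
    ⟨d, S, fun x => ⟨le_refl _, by rw [one_mul]; exact le_refl _⟩⟩
  obtain ⟨S', hS'⟩ := hE.exists_equiv hN
  have hS1 : ∀ w, ‖S' w‖ = ‖S w‖ := by
    intro w
    have h1 := (hS' w).1
    have h2 := (hS' w).2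
    rw [one_mul] at h2
    exact le_antisymm h1 h2
  obtain ⟨J, hJ⟩ := GAP_emb h
  refine ⟨T.symm.toLinearMap ∘ₗ J ∘ₗ S'.toLinearMap, fun w => ?_⟩
  have h1 : T ((T.symm.toLinearMap ∘ₗ J ∘ₗ S'.toLinearMap) w) = J (S' w) := T.apply_symm_apply _
  rw [h1, hJ, hS1]

/-- The map `w ↦ w + U w`. -/
lemma GAP_map {V : Type} [AddCommGroup V] [Module ℝ V] (q : Seminorm ℝ V) {C₂ : ℝ} {F Y : Submodule ℝ V}
    (hq : Def q) (h : ∀ w ∈ F, ∀ y ∈ Y, q w + q y ≤ C₂ * q (w + y)) (U : F →ₗ[ℝ] Y) :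
    (∀ w : F, (F.subtype + Y.subtype ∘ₗ U) w ∈ F ⊔ Y) ∧ Function.Injective (F.subtype + Y.subtype ∘ₗ U) ∧
    (∀ w : F, q w + q (U w) ≤ C₂ * q ((F.subtype + Y.subtype ∘ₗ U) w)) ∧
    (∀ w : F, q ((F.subtype + Y.subtype ∘ₗ U) w) ≤ q w + q (U w)) := by
  have h3 : ∀ w : F, q w + q (U w) ≤ C₂ * q ((F.subtype + Y.subtype ∘ₗ U) w) := fun w =>
    h w w.2 (U w) (U w).2
  refine ⟨fun w => Submodule.add_mem_sup w.2 (U w).2, ?_, h3, fun w => map_add_le_add q _ _⟩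
  rw [injective_iff_map_eq_zero]
  intro w hw
  have h4 := h3 w
  rw [hw, map_zero, mul_zero] at h4
  have h5 : q (w : V) = 0 := le_antisymm (by linarith [apply_nonneg q (U w : V)]) (apply_nonneg _ _)
  exact Subtype.ext (hq _ h5)

/-- One step of the iteration. -/
lemma GAP_step (hTRF : Stmt_TRF) {b C C₂ : ℝ} (hb : 1 ≤ b) (hC : 1 ≤ C) (hC₂ : 1 ≤ C₂)
    {V : Type} [AddCommGroup V] [Module ℝ V] [FiniteDimensional ℝ V] {p r : Seminorm ℝ V} {k : ℕ} {s : ℝ}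
    (hp : Def p) (hr : Def r) (H : Hyp b k p r) {F Y Y' E : Submodule ℝ V} (hFY : finrank ℝ F ≤ finrank ℝ Y)
    (hFY' : finrank ℝ F ≤ finrank ℝ Y') (hFE : finrank ℝ F + finrank ℝ E = k)
    (h1 : ∀ w ∈ F, ∀ y ∈ Y, p w + p y ≤ C₂ * p (w + y) ∧ r w + r y ≤ C₂ * r (w + y))
    (h2 : ∀ w ∈ F, ∀ y ∈ Y', p w + p y ≤ C₂ * p (w + y) ∧ r w + r y ≤ C₂ * r (w + y))
    (h3 : ∀ z ∈ F ⊔ Y, ∀ x ∈ E, p z + p x ≤ C₂ * p (z + x) ∧ r z + r x ≤ C₂ * r (z + x))
    (h4 : ∀ z ∈ F ⊔ Y', ∀ x ∈ E, p z + p x ≤ C₂ * p (z + x) ∧ r z + r x ≤ C₂ * r (z + x))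
    (hEp : Eu C (p.comp E.subtype)) (hEr : Eu C (r.comp E.subtype)) (hYp : Eu C (p.comp Y.subtype))
    (hYr : Eu C (r.comp Y.subtype)) (hYp' : Eu C (p.comp Y'.subtype)) (hs : 0 < s)
    (K₁ K₂ : ℝ) (hK₁ : K₁ = 2 * b * C * C₂) (hK₂ : K₂ = 2 * K₁ ^ 2 * C ^ 2 * C₂ ^ 4)
    (hR : ∀ y ∈ Y, 2 * K₂ * C ^ 2 * s * p y ≤ r y) (hR' : ∀ y ∈ Y', r y ≤ s * p y)
    {D : ℝ} (hD1 : 1 ≤ D) (hD : Eu D (r.comp F.subtype)) : Eu (K₂ * C + D / 2) (r.comp F.subtype) := by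
  have hC0 : 0 < C := by linarith
  have hb0 : 0 < b := by linarith
  have hC₂0 : 0 < C₂ := by linarith
  have hK₁1 : 1 ≤ K₁ := by
    rw [hK₁]
    have e1 : 1 ≤ b * C := one_le_mul_of_one_le_of_one_le hb hC
    have e2 : 1 ≤ b * C * C₂ := one_le_mul_of_one_le_of_one_le e1 hC₂
    linarith
  have hK₂1 : 1 ≤ K₂ := by
    rw [hK₂]
    have e1 : 1 ≤ K₁ ^ 2 * C ^ 2 := one_le_mul_of_one_le_of_one_le (one_le_pow₀ hK₁1) (one_le_pow₀ hC)
    have e2 : 1 ≤ K₁ ^ 2 * C ^ 2 * C₂ ^ 4 := one_le_mul_of_one_le_of_one_le e1 (one_le_pow₀ hC₂)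
    linarith
  have hK₂0 : 0 < K₂ := by linarith
  obtain ⟨T, hT⟩ := hD.exists_equiv (hr.comp F.subtype Subtype.val_injective)
  obtain ⟨TY, hTY⟩ := hYr.exists_equiv (hr.comp Y.subtype Subtype.val_injective)
  obtain ⟨TP, hTP⟩ := hYp.exists_equiv (hp.comp Y.subtype Subtype.val_injective)
  obtain ⟨TQ, hTQ⟩ := hYp'.exists_equiv (hp.comp Y'.subtype Subtype.val_injective)
  obtain ⟨U₀, hU₀⟩ := GAP_copy T.toLinearMap T.injective TY hFY
  set σ : ℝ := 2 * K₂ with hσ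
  have hσ0 : 0 < σ := by positivity
  let U : F →ₗ[ℝ] Y := σ • U₀
  have hU : ∀ w, ‖TY (U w)‖ = σ * ‖T w‖ := by
    intro w
    have e1 : U w = σ • U₀ w := rfl
    rw [e1, map_smul, norm_smul, hU₀, Real.norm_eq_abs, abs_of_pos hσ0]
    rfl
  have hUi : Function.Injective U := by
    rw [injective_iff_map_eq_zero]
    intro w hw
    have e1 := hU w
    rw [hw, map_zero, norm_zero] at e1
    have e2 : ‖T w‖ = 0 := by
      rcases mul_eq_zero.1 e1.symm with e | e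
      · exact absurd e hσ0.ne'
      · exact e
    exact T.injective (by rw [norm_eq_zero.1 e2, map_zero])
  obtain ⟨U', hU'⟩ := GAP_copy (TP.toLinearMap ∘ₗ U) (TP.injective.comp hUi) TQ hFY'
  obtain ⟨a1, a2, a3, a4⟩ := GAP_map r hr (fun w hw y hy => (h1 w hw y hy).2) U
  obtain ⟨-, -, b3, b4⟩ := GAP_map p hp (fun w hw y hy => (h1 w hw y hy).1) U
  obtain ⟨c1, c2, c3, c4⟩ := GAP_map r hr (fun w hw y hy => (h2 w hw y hy).2) U'
  obtain ⟨-, -, d3, d4⟩ := GAP_map p hp (fun w hw y hy => (h2 w hw y hy).1) U'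
  set u : F →ₗ[ℝ] V := F.subtype + Y.subtype ∘ₗ U with hu
  set u' : F →ₗ[ℝ] V := F.subtype + Y'.subtype ∘ₗ U' with hu'
  have tY : ∀ w : F, ‖TY (U w)‖ ≤ r (U w) ∧ r (U w) ≤ C * ‖TY (U w)‖ := fun w => hTY (U w)
  have tP : ∀ w : F, ‖TP (U w)‖ ≤ p (U w) ∧ p (U w) ≤ C * ‖TP (U w)‖ := fun w => hTP (U w)
  have tQ : ∀ w : F, ‖TQ (U' w)‖ ≤ p (U' w) ∧ p (U' w) ≤ C * ‖TQ (U' w)‖ := fun w => hTQ (U' w)
  have tF : ∀ w : F, ‖T w‖ ≤ r w ∧ r w ≤ D * ‖T w‖ := fun w => hT w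
  have hh : ∀ w : F, ‖TQ (U' w)‖ = ‖TP (U w)‖ := fun w => hU' w
  -- first map
  have E1 : Eu (C₂ * (C + D / σ)) (r.comp u) := by
    refine ⟨finrank ℝ F, (σ / C₂) • T.toLinearMap, fun w => ?_⟩
    have e1 : ‖((σ / C₂) • T.toLinearMap) w‖ = σ / C₂ * ‖T w‖ := by
      rw [LinearMap.smul_apply, norm_smul, Real.norm_eq_abs, abs_of_pos (by positivity)]
      rfl
    have e2 : (r.comp u) w = r (u w) := rfl
    rw [e1, e2]
    have f1 := a3 w
    have f2 := a4 w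
    have f3 := tY w
    have f4 := tF w
    rw [hU] at f3
    have f5 := apply_nonneg r (w : V)
    constructor
    · rw [div_mul_eq_mul_div, div_le_iff₀ hC₂0]
      linarith
    · calc r (u w) ≤ D * ‖T w‖ + C * (σ * ‖T w‖) := by linarith
        _ = C₂ * (C + D / σ) * (σ / C₂ * ‖T w‖) := by field_simp; ring
  have hDσ : 1 ≤ C₂ * (C + D / σ) := by
    have e1 : 0 ≤ D / σ := by positivity
    exact one_le_mul_of_one_le_of_one_le hC₂ (by linarith)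
  have E2 : Eu (K₁ * (C₂ * (C + D / σ))) (p.comp u) := by
    have e := hTRF V F r p k b C C₂ (C₂ * (C + D / σ)) u E hr hp (H.symm hb0) hb hC hC₂ hDσ a2 hFE
      (fun w x hx => (h3 _ (a1 w) x hx).2) hEr E1
    rw [hK₁]
    exact e
  have E3 : Eu ((C * C₂) * (C * C₂) * (K₁ * (C₂ * (C + D / σ)))) (p.comp u') := by
    have key : ∀ x y z t g : ℝ, 0 ≤ x → 0 ≤ g → x ≤ y + C * g → y + g ≤ C₂ * z → 0 ≤ y → x ≤ C * C₂ * z := by
      intro x y z t g _ hg hx hz hy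
      calc x ≤ y + C * g := hx
        _ ≤ C * (y + g) := by nlinarith
        _ ≤ C * (C₂ * z) := mul_le_mul_of_nonneg_left hz hC0.le
        _ = C * C₂ * z := by ring
    refine E2.equiv (by positivity) (by positivity) (fun w => ?_) (fun w => ?_)
    · have e2 : (p.comp u) w = p (u w) := rfl
      have e3 : (p.comp u') w = p (u' w) := rfl
      rw [e2, e3]
      refine key _ (p w) _ 0 ‖TP (U w)‖ (apply_nonneg _ _) (norm_nonneg _) ?_ ?_ (apply_nonneg _ _)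
      · linarith [b4 w, (tP w).2]
      · linarith [d3 w, (tQ w).1, hh w]
    · have e2 : (p.comp u) w = p (u w) := rfl
      have e3 : (p.comp u') w = p (u' w) := rfl
      rw [e2, e3]
      refine key _ (p w) _ 0 ‖TP (U w)‖ (apply_nonneg _ _) (norm_nonneg _) ?_ ?_ (apply_nonneg _ _)
      · have f1 := (tQ w).2
        rw [hh] at f1
        linarith [d4 w]
      · linarith [b3 w, (tP w).1]
  have E4 : Eu (K₁ * ((C * C₂) * (C * C₂) * (K₁ * (C₂ * (C + D / σ))))) (r.comp u') := by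
    have e0 : 1 ≤ (C * C₂) * (C * C₂) * (K₁ * (C₂ * (C + D / σ))) := by
      have e1 : 1 ≤ C * C₂ := one_le_mul_of_one_le_of_one_le hC hC₂
      exact one_le_mul_of_one_le_of_one_le (one_le_mul_of_one_le_of_one_le e1 e1)
        (one_le_mul_of_one_le_of_one_le hK₁1 hDσ)
    have e := hTRF V F p r k b C C₂ _ u' E hp hr H hb hC hC₂ e0 c2 hFE
      (fun w x hx => (h4 _ (c1 w) x hx).1) hEp E3
    rw [hK₁] at e ⊢
    exact e
  -- the perturbation is small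
  have hsm : ∀ w : F, r (U' w) ≤ r w := by
    intro w
    have f1 := hR' (U' w) (U' w).2
    have f2 := (tQ w).2
    rw [hh] at f2
    have f3 := (tP w).1
    have f4 := hR (U w) (U w).2
    have f5 := (tY w).2
    rw [hU] at f5
    have f6 := (tF w).1
    have g1 : 2 * K₂ * C ^ 2 * (s * p (U w)) ≤ 2 * K₂ * C * ‖T w‖ := by
      calc 2 * K₂ * C ^ 2 * (s * p (U w)) = 2 * K₂ * C ^ 2 * s * p (U w) := by ring
        _ ≤ r (U w) := f4
        _ ≤ C * (σ * ‖T w‖) := f5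
        _ = 2 * K₂ * C * ‖T w‖ := by rw [hσ]; ring
    have g2 : C * (s * p (U w)) ≤ ‖T w‖ := by
      have e1 : 2 * K₂ * C * (C * (s * p (U w))) ≤ 2 * K₂ * C * ‖T w‖ := by
        calc 2 * K₂ * C * (C * (s * p (U w))) = 2 * K₂ * C ^ 2 * (s * p (U w)) := by ring
          _ ≤ _ := g1
      exact le_of_mul_le_mul_left e1 (by positivity)
    calc r (U' w) ≤ s * p (U' w) := f1
      _ ≤ s * (C * p (U w)) := mul_le_mul_of_nonneg_left (f2.trans (mul_le_mul_of_nonneg_left f3 hC0.le)) hs.le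
      _ = C * (s * p (U w)) := by ring
      _ ≤ ‖T w‖ := g2
      _ ≤ r w := f6
  have E5 : Eu (2 * C₂ * (K₁ * ((C * C₂) * (C * C₂) * (K₁ * (C₂ * (C + D / σ)))))) (r.comp F.subtype) := by
    refine E4.equiv two_pos hC₂0.le (fun w => ?_) (fun w => ?_)
    · have e2 : (r.comp F.subtype) w = r (w : V) := rfl
      have e3 : (r.comp u') w = r (u' w) := rfl
      rw [e2, e3]
      linarith [c4 w, hsm w]
    · have e2 : (r.comp F.subtype) w = r (w : V) := rfl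
      have e3 : (r.comp u') w = r (u' w) := rfl
      rw [e2, e3]
      linarith [c3 w, apply_nonneg r (U' w : V)]
  have hfin : 2 * C₂ * (K₁ * ((C * C₂) * (C * C₂) * (K₁ * (C₂ * (C + D / σ))))) = K₂ * C + D / 2 := by
    have e1 : 2 * C₂ * (K₁ * ((C * C₂) * (C * C₂) * (K₁ * (C₂ * (C + D / σ))))) = K₂ * (C + D / σ) := by
      rw [hK₂]; ring
    rw [e1, hσ]
    field_simp
  rw [hfin] at E5
  exact E5

theorem p_GAP (hTRF : Stmt_TRF) : Stmt_GAP := by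
  intro b C C₂ hb hC hC₂
  obtain ⟨K₁, hK₁⟩ : ∃ K₁ : ℝ, K₁ = 2 * b * C * C₂ := ⟨_, rfl⟩
  obtain ⟨K₂, hK₂⟩ : ∃ K₂ : ℝ, K₂ = 2 * K₁ ^ 2 * C ^ 2 * C₂ ^ 4 := ⟨_, rfl⟩
  have hC0 : 0 < C := by linarith
  have hb0 : 0 < b := by linarith
  have hC₂0 : 0 < C₂ := by linarith
  have hK₁1 : 1 ≤ K₁ := by
    rw [hK₁]
    have e1 : 1 ≤ b * C := one_le_mul_of_one_le_of_one_le hb hC
    have e2 : 1 ≤ b * C * C₂ := one_le_mul_of_one_le_of_one_le e1 hC₂
    linarith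
  have hK₂1 : 1 ≤ K₂ := by
    rw [hK₂]
    have e1 : 1 ≤ K₁ ^ 2 * C ^ 2 := one_le_mul_of_one_le_of_one_le (one_le_pow₀ hK₁1) (one_le_pow₀ hC)
    have e2 : 1 ≤ K₁ ^ 2 * C ^ 2 * C₂ ^ 4 := one_le_mul_of_one_le_of_one_le e1 (one_le_pow₀ hC₂)
    linarith
  have hK₂0 : 0 < K₂ := by linarith
  have hKC : 1 ≤ K₂ * C := one_le_mul_of_one_le_of_one_le hK₂1 hC
  have hA : 1 ≤ 2 * K₂ * C + 1 := by linarith
  refine ⟨2 * K₂ * C ^ 2, K₁ * (2 * K₂ * C + 1), ?_, one_le_mul_of_one_le_of_one_le hK₁1 hA, ?_⟩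
  · have e1 : 1 ≤ K₂ * C ^ 2 := one_le_mul_of_one_le_of_one_le hK₂1 (one_le_pow₀ hC)
    linarith
  intro V _ _ _ p r k s hp hr H F Y Y' E hFY hFY' hFE h1 h2 h3 h4 hEp hEr hYp hYr hYp' hs hR hR'
  obtain ⟨D₀, hD₀, hE₀⟩ := GAP_exists (r.comp F.subtype) (hr.comp F.subtype Subtype.val_injective)
  have hit : ∀ n : ℕ, Eu (2 * K₂ * C + D₀ / 2 ^ n) (r.comp F.subtype) := by
    intro n
    induction n with
    | zero => exact hE₀.mono (by rw [pow_zero, div_one]; linarith)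
    | succ n ih =>
      have e0 : 0 ≤ D₀ / 2 ^ n := by positivity
      have e := GAP_step hTRF hb hC hC₂ hp hr H hFY hFY' hFE h1 h2 h3 h4 hEp hEr hYp hYr hYp' hs K₁ K₂ hK₁ hK₂
        hR hR' (D := 2 * K₂ * C + D₀ / 2 ^ n) (by linarith) ih
      have e1 : K₂ * C + (2 * K₂ * C + D₀ / 2 ^ n) / 2 = 2 * K₂ * C + D₀ / 2 ^ (n + 1) := by
        rw [pow_succ]
        field_simp
        ring
      rwa [e1] at e
  obtain ⟨n, hn⟩ := pow_unbounded_of_one_lt D₀ (one_lt_two)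
  have hr1 : Eu (2 * K₂ * C + 1) (r.comp F.subtype) := by
    refine (hit n).mono ?_
    have e1 : D₀ / 2 ^ n ≤ 1 := by
      rw [div_le_one (by positivity)]
      exact hn.le
    linarith
  refine ⟨?_, hr1.mono ?_⟩
  · have e := hTRF V F r p k b C C₂ (2 * K₂ * C + 1) F.subtype E hr hp (H.symm hb0) hb hC hC₂ hA
      Subtype.val_injective hFE (fun w x hx => (h3 _ (Submodule.mem_sup_left w.2) x hx).2) hEr hr1
    rw [hK₁]
    exact e
  · calc 2 * K₂ * C + 1 = 1 * (2 * K₂ * C + 1) := by ring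
      _ ≤ K₁ * (2 * K₂ * C + 1) := mul_le_mul_of_nonneg_right hK₁1 (by linarith)

end Pool.EH
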