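import Pool.Agent.Work.MP_3e8c7a_h.Interface

/-! Block GPL of THEOREM H (helper11). -/

set_option autoImplicit false

namespace Pool.EH

open Module Pool.Agent.MP3e8c7a

/-- Subspaces of a prescribed dimension. -/
lemma GPL_sub {V : Type} [AddCommGroup V] [Module ℝ V] [FiniteDimensional ℝ V] (E : Submodule ℝ V) {d : ℕ}
    (h : d ≤ finrank ℝ E) : ∃ E' : Submodule ℝ V, E' ≤ E ∧ finrank ℝ E' = d := by
  obtain ⟨f, hf⟩ := exists_linearIndependent_of_le_finrank (R := ℝ) (M := E) h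
  refine ⟨(Submodule.span ℝ (Set.range f)).map E.subtype, Submodule.map_subtype_le _ _, ?_⟩
  rw [← (Submodule.equivMapOfInjective E.subtype Subtype.val_injective _).finrank_eq, finrank_span_eq_card hf,
    Fintype.card_fin]

theorem p_GPL (hPOS : Stmt_POS) (hGAP : Stmt_GAP) : Stmt_GPL := by
  intro β b C hβ hβ1 hb hC
  obtain ⟨θ₁, C₁, hθ₁, hθ₁1, hC₁, hpos1⟩ := hPOS β C hβ hβ1 hC
  obtain ⟨θ₂, C₂', hθ₂, hθ₂1, hC₂', hpos2⟩ := hPOS (1 / 2) C (by norm_num) (by norm_num) hC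
  set C₂ : ℝ := 2 * max C₁ C₂' + 1 with hC₂
  have hm1 : C₁ ≤ max C₁ C₂' := le_max_left _ _
  have hm2 : C₂' ≤ max C₁ C₂' := le_max_right _ _
  have hC₂1 : 1 ≤ C₂ := by rw [hC₂]; linarith
  obtain ⟨R, C', hR, hC', hgap⟩ := hGAP b C C₂ hb hC hC₂1
  refine ⟨min (θ₁ * β) (min θ₂ (1 / 2)), R, C', by positivity, ?_, hR, hC', ?_⟩
  · exact (min_le_right _ _).trans ((min_le_right _ _).trans (by norm_num))
  intro V _ _ _ p r k μ s hp hr hH E Y Y' hE hY hY' hμ hμk hEp hEr hYp hYr hY'p hY'r hs h1 h2 F hF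
  set θ := min (θ₁ * β) (min θ₂ (1 / 2)) with hθ
  have hθa : θ ≤ θ₁ * β := min_le_left _ _
  have hθb : θ ≤ θ₂ := (min_le_right _ _).trans (min_le_left _ _)
  have hθc : θ ≤ 1 / 2 := (min_le_right _ _).trans (min_le_right _ _)
  have hμ0 : (0 : ℝ) ≤ μ := Nat.cast_nonneg _
  have hn0 : (0 : ℝ) ≤ finrank ℝ V := Nat.cast_nonneg _
  have hF2 : (finrank ℝ F : ℝ) ≤ μ / 2 := by nlinarith
  have hFμ : finrank ℝ F ≤ μ := by
    have : (finrank ℝ F : ℝ) ≤ μ := by linarith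
    exact_mod_cast this
  -- position with respect to `E`
  have hdim : finrank ℝ ((F ⊔ Y) ⊔ Y' : Submodule ℝ V) ≤ 3 * μ := by
    have e1 := Submodule.finrank_add_le_finrank_add_finrank (F ⊔ Y) Y'
    have e2 := Submodule.finrank_add_le_finrank_add_finrank F Y
    omega
  have hEn : (finrank ℝ E : ℝ) ≤ finrank ℝ V := by exact_mod_cast Submodule.finrank_le E
  have hk0 : (0 : ℝ) ≤ k := Nat.cast_nonneg _
  have hdim' : (finrank ℝ ((F ⊔ Y) ⊔ Y' : Submodule ℝ V) : ℝ) ≤ θ₁ * finrank ℝ E := by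
    have e1 : (finrank ℝ ((F ⊔ Y) ⊔ Y' : Submodule ℝ V) : ℝ) ≤ 3 * μ := by exact_mod_cast hdim
    have e2 : θ * finrank ℝ V ≤ θ₁ * β * finrank ℝ V := mul_le_mul_of_nonneg_right hθa hn0
    have e3 : θ₁ * (β * finrank ℝ V) ≤ θ₁ * finrank ℝ E := mul_le_mul_of_nonneg_left (by linarith) hθ₁.le
    calc (finrank ℝ ((F ⊔ Y) ⊔ Y' : Submodule ℝ V) : ℝ) ≤ 3 * μ := e1
      _ ≤ θ * finrank ℝ V := hμ
      _ ≤ θ₁ * β * finrank ℝ V := e2
      _ = θ₁ * (β * finrank ℝ V) := by ring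
      _ ≤ θ₁ * finrank ℝ E := e3
  obtain ⟨E', hE'E, hE'dim, hE'p, hE'r⟩ := hpos1 V p r hp hr E ((F ⊔ Y) ⊔ Y') hEp hEr hdim'
  have hkE' : k ≤ finrank ℝ E' := by
    have : (k : ℝ) ≤ finrank ℝ E' := by nlinarith
    exact_mod_cast this
  have hFk : finrank ℝ F ≤ k := hFμ.trans hμk
  obtain ⟨E'', hE''E', hE''dim⟩ := GPL_sub E' (d := k - finrank ℝ F) (by omega)
  -- halves of `Y`, `Y'`
  have half : ∀ Z : Submodule ℝ V, finrank ℝ Z = μ → Eu C (p.comp Z.subtype) → Eu C (r.comp Z.subtype) →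
      ∃ Z' : Submodule ℝ V, Z' ≤ Z ∧ finrank ℝ F ≤ finrank ℝ Z' ∧ Pos C₂' p F Z' ∧ Pos C₂' r F Z' := by
    intro Z hZ hZp hZr
    obtain ⟨Z', hZ'Z, hZ'dim, hZ'p, hZ'r⟩ := hpos2 V p r hp hr Z F hZp hZr (by
      rw [hZ]
      exact hF.trans (mul_le_mul_of_nonneg_right hθb hμ0))
    refine ⟨Z', hZ'Z, ?_, hZ'p, hZ'r⟩
    have : (finrank ℝ F : ℝ) ≤ finrank ℝ Z' := by
      rw [hZ] at hZ'dim
      linarith
    exact_mod_cast this
  obtain ⟨Y₁, hY₁, hFY₁, hY₁p, hY₁r⟩ := half Y hY hYp hYr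
  obtain ⟨Y₁', hY₁', hFY₁', hY₁'p, hY₁'r⟩ := half Y' hY' hY'p hY'r
  have up : ∀ {c x : ℝ}, c ≤ max C₁ C₂' → 0 ≤ x → (2 * c + 1) * x ≤ C₂ * x := by
    intro c x hc hx
    exact mul_le_mul_of_nonneg_right (by rw [hC₂]; linarith) hx
  refine hgap V p r k s hp hr hH F Y₁ Y₁' E'' hFY₁ hFY₁' (by omega) ?_ ?_ ?_ ?_ (hEp.sub (hE''E'.trans hE'E))
    (hEr.sub (hE''E'.trans hE'E)) (hYp.sub hY₁) (hYr.sub hY₁) (hY'p.sub hY₁') hs
    (fun y hy => h1 y (hY₁ hy)) (fun y hy => h2 y (hY₁' hy))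
  · intro w hw y hy
    exact ⟨(hY₁p.split w hw y hy).trans (up hm2 (apply_nonneg _ _)),
      (hY₁r.split w hw y hy).trans (up hm2 (apply_nonneg _ _))⟩
  · intro w hw y hy
    exact ⟨(hY₁'p.split w hw y hy).trans (up hm2 (apply_nonneg _ _)),
      (hY₁'r.split w hw y hy).trans (up hm2 (apply_nonneg _ _))⟩
  · intro z hz x hx
    have hz' : z ∈ (F ⊔ Y) ⊔ Y' := (le_sup_of_le_left (sup_le_sup_left hY₁ F)) hz
    exact ⟨(hE'p.split z hz' x (hE''E' hx)).trans (up hm1 (apply_nonneg _ _)),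
      (hE'r.split z hz' x (hE''E' hx)).trans (up hm1 (apply_nonneg _ _))⟩
  · intro z hz x hx
    have hz' : z ∈ (F ⊔ Y) ⊔ Y' := (sup_le (le_sup_of_le_left le_sup_left) (hY₁'.trans le_sup_right)) hz
    exact ⟨(hE'p.split z hz' x (hE''E' hx)).trans (up hm1 (apply_nonneg _ _)),
      (hE'r.split z hz' x (hE''E' hx)).trans (up hm1 (apply_nonneg _ _))⟩

end Pool.EH
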