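import Pool.Agent.Work.MP_3e8c7a_h.Interface

set_option autoImplicit false

open Module Pool.Agent.MP3e8c7a

namespace Pool.EH

theorem p_HAD : Stmt_HAD := by
  intro j A
  have hfact : Fact (finrank ℝ (EuclideanSpace ℝ (Fin j)) = j) := ⟨by simp⟩
  let b : OrthonormalBasis (Fin j) ℝ (EuclideanSpace ℝ (Fin j)) := EuclideanSpace.basisFun (Fin j) ℝ
  let o : Orientation ℝ (EuclideanSpace ℝ (Fin j)) (Fin j) := b.toBasis.orientation
  let v : Fin j → EuclideanSpace ℝ (Fin j) := fun i => WithLp.toLp 2 (A i)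
  have h1 := o.abs_volumeForm_apply_le v
  rw [o.volumeForm_robust' b v] at h1
  have h2 : b.toBasis.det v = A.det := by
    rw [Basis.det_apply]
    have h3 : b.toBasis.toMatrix v = A.transpose := by
      ext i l
      rw [Basis.toMatrix_apply]
      simp [b, v]
    rw [h3, Matrix.det_transpose]
  rw [h2] at h1
  refine h1.trans (le_of_eq ?_)
  refine Finset.prod_congr rfl fun i _ => ?_
  rw [EuclideanSpace.norm_eq]
  simp [v, sq_abs]

end Pool.EH
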