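import Pool.Agent.Work.MP_3e8c7a_h.Interface
import Pool.Agent.Work.MP_3e8c7a_r.B_BAS

set_option autoImplicit false

namespace Pool.EH

open Module Pool.Agent.MP3e8c7a
open scoped Pointwise

/-- The Gram matrix. -/
def KWA_G {m d : ℕ} (x : Fin m → Fin d → ℝ) : Fin d → Fin d → ℝ := fun i j => ∑ l, x l i * x l j

/-- The rank one matrix. -/
def KWA_op {d : ℕ} (v : Fin d → ℝ) : Fin d → Fin d → ℝ := fun i j => v i * v j

lemma KWA_hull {m d : ℕ} (N : Seminorm ℝ (Fin d → ℝ)) (hN : ∀ v, N v = 0 → v = 0) (hm : d * d + 1 ≤ m) :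
    convexHull ℝ {a | ∃ v, N v = 1 ∧ a = KWA_op v}
      = {a | ∃ x : Fin m → Fin d → ℝ, ∑ l, N (x l) ^ 2 = 1 ∧ a = KWA_G x} := by
  apply Set.Subset.antisymm
  · intro a ha
    obtain ⟨ι, hι, z, w, hz, hz1, hw, hw1, hwz⟩ := eq_pos_convex_span_of_mem_convexHull ha
    have hcard : Fintype.card ι ≤ m := by
      have h1 := hz1.card_le_finrank_succ
      have h2 := Submodule.finrank_le (vectorSpan ℝ (Set.range z))
      have h3 : finrank ℝ (Fin d → Fin d → ℝ) = d * d := by
        rw [finrank_pi_fintype]; simp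
      omega
    obtain ⟨φ⟩ : Nonempty (ι ↪ Fin m) := Function.Embedding.nonempty_of_card_le (by simpa using hcard)
    choose v hv1 hv2 using fun i => hz (Set.mem_range_self i)
    let x' : ι → Fin d → ℝ := fun i => Real.sqrt (w i) • v i
    let x : Fin m → Fin d → ℝ := Function.extend φ x' 0
    have hx : ∀ (F : (Fin d → ℝ) → ℝ), F 0 = 0 → ∑ l, F (x l) = ∑ i, F (x' i) := by
      intro F hF
      symm
      apply Fintype.sum_of_injective φ φ.injective
      · intro l hl
        show F (Function.extend φ x' 0 l) = 0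
        rw [Function.extend_apply' _ _ _ hl]
        exact hF
      · intro i
        show F (x' i) = F (Function.extend φ x' 0 (φ i))
        rw [φ.injective.extend_apply]
    refine ⟨x, ?_, ?_⟩
    · rw [hx (fun v => N v ^ 2) (by simp), ← hw1]
      refine Finset.sum_congr rfl fun i _ => ?_
      show N (Real.sqrt (w i) • v i) ^ 2 = w i
      rw [map_smul_eq_mul, hv1, mul_one, Real.norm_eq_abs, sq_abs, Real.sq_sqrt (hw i).le]
    · rw [← hwz]
      funext i j
      show (∑ k, w k • z k) i j = ∑ l, x l i * x l j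
      rw [hx (fun v => v i * v j) (by simp), Finset.sum_apply, Finset.sum_apply]
      refine Finset.sum_congr rfl fun k _ => ?_
      rw [hv2 k]
      show w k * (v k i * v k j) = (Real.sqrt (w k) * v k i) * (Real.sqrt (w k) * v k j)
      have := Real.mul_self_sqrt (hw k).le
      linear_combination (-(v k i * v k j)) * this
  · rintro a ⟨x, hx1, rfl⟩
    have h1 : KWA_G x = ∑ l ∈ Finset.univ.filter (fun l => N (x l) ≠ 0), N (x l) ^ 2 • KWA_op ((N (x l))⁻¹ • x l) := by
      funext i j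
      rw [Finset.sum_apply, Finset.sum_apply]
      have h2 : ∀ l ∈ (Finset.univ : Finset (Fin m)), x l i * x l j ≠ 0 → N (x l) ≠ 0 := by
        intro l _ h3 h4
        apply h3
        rw [hN _ h4]
        simp
      show ∑ l, x l i * x l j = _
      rw [← Finset.sum_filter_of_ne h2]
      refine Finset.sum_congr rfl fun l hl => ?_
      have h3 : N (x l) ≠ 0 := (Finset.mem_filter.1 hl).2
      show _ = N (x l) ^ 2 * (((N (x l))⁻¹ * x l i) * ((N (x l))⁻¹ * x l j))
      field_simp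
    rw [h1]
    apply (convex_convexHull ℝ _).sum_mem
    · intro l _
      positivity
    · rw [Finset.sum_filter_of_ne, hx1]
      intro l _ h2 h3
      exact h2 (by rw [h3]; ring)
    · intro l hl
      have h3 : N (x l) ≠ 0 := (Finset.mem_filter.1 hl).2
      apply subset_convexHull
      refine ⟨_, ?_, rfl⟩
      rw [map_smul_eq_mul, norm_inv, Real.norm_eq_abs, abs_of_nonneg (apply_nonneg N _), inv_mul_cancel₀ h3]

lemma KWA_comp {m d : ℕ} (N : Seminorm ℝ (Fin d → ℝ)) (R : ℝ) (hR0 : 0 ≤ R) (hR : ∀ v, ‖v‖ ≤ R * N v)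
    (hN1 : ∀ v, N v ≤ ∑ i, |v i|) :
    IsCompact {a | ∃ x : Fin m → Fin d → ℝ, ∑ l, N (x l) ^ 2 = 1 ∧ a = KWA_G x} := by
  have hcont : Continuous N := by
    refine Seminorm.continuous_of_le (q := Pool.RX.oneS d) ?_ (fun v => hN1 v)
    show Continuous fun v : Fin d → ℝ => ∑ i, |v i|
    fun_prop
  have hS : IsCompact {x : Fin m → Fin d → ℝ | ∑ l, N (x l) ^ 2 = 1} := by
    apply Metric.isCompact_of_isClosed_isBounded
    · exact isClosed_eq (continuous_finsetSum _ fun l _ => (hcont.comp (continuous_apply l)).pow 2) continuous_const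
    · rw [Metric.isBounded_iff_subset_closedBall 0]
      refine ⟨R, fun x hx => ?_⟩
      rw [mem_closedBall_zero_iff, pi_norm_le_iff_of_nonneg hR0]
      intro l
      have hx' : ∑ l, N (x l) ^ 2 = 1 := hx
      have h1 : N (x l) ^ 2 ≤ 1 := by
        rw [← hx']
        exact Finset.single_le_sum (f := fun l => N (x l) ^ 2) (fun i _ => sq_nonneg _) (Finset.mem_univ l)
      have h2 : N (x l) ≤ 1 := by nlinarith [apply_nonneg N (x l)]
      exact (hR _).trans (by nlinarith)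
  have h3 := hS.image (f := KWA_G) (by
    unfold KWA_G
    fun_prop)
  convert h3 using 1
  ext a
  constructor
  · rintro ⟨x, h1, h2⟩
    exact ⟨x, h1, h2.symm⟩
  · rintro ⟨x, h1, h2⟩
    exact ⟨x, h1, h2.symm⟩

/-- A positive quadratic form is a sum of squares. -/
lemma KWA_form {d : ℕ} (f : (Fin d → Fin d → ℝ) →ₗ[ℝ] ℝ) (hf : ∀ v, 0 ≤ f (KWA_op v)) :
    ∃ (n : ℕ) (T : (Fin d → ℝ) →ₗ[ℝ] EuclideanSpace ℝ (Fin n)), ∀ v, ‖T v‖ ^ 2 = f (KWA_op v) := by
  classical
  let M : Matrix (Fin d) (Fin d) ℝ := Matrix.of fun i j =>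
    (f (Pi.single i (Pi.single j 1)) + f (Pi.single j (Pi.single i 1))) / 2
  have hsum : ∀ v, f (KWA_op v) = ∑ i, ∑ j, v i * v j * f (Pi.single i (Pi.single j 1)) := by
    intro v
    have h1 : KWA_op v = ∑ i, ∑ j, (v i * v j) • (Pi.single i (Pi.single j (1 : ℝ)) : Fin d → Fin d → ℝ) := by
      funext a b
      simp only [Finset.sum_apply, Pi.smul_apply, smul_eq_mul, KWA_op]
      rw [Finset.sum_eq_single a, Finset.sum_eq_single b]
      · simp
      · intro j _ hj
        rw [Pi.single_eq_same, Pi.single_eq_of_ne hj.symm, mul_zero]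
      · simp
      · intro i _ hi
        refine Finset.sum_eq_zero fun j _ => ?_
        rw [Pi.single_eq_of_ne hi.symm]
        simp
      · simp
    rw [h1, map_sum]
    refine Finset.sum_congr rfl fun i _ => ?_
    rw [map_sum]
    refine Finset.sum_congr rfl fun j _ => ?_
    rw [map_smul, smul_eq_mul]
  have hM : ∀ v : Fin d → ℝ, ∑ i, ∑ j, v i * v j * M i j = f (KWA_op v) := by
    intro v
    rw [hsum]
    have h1 : ∑ i, ∑ j, v i * v j * f (Pi.single j (Pi.single i 1)) = ∑ i, ∑ j, v i * v j * f (Pi.single i (Pi.single j 1)) := by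
      rw [Finset.sum_comm]
      refine Finset.sum_congr rfl fun i _ => Finset.sum_congr rfl fun j _ => ?_
      ring
    have h2 : ∑ i, ∑ j, v i * v j * M i j = (∑ i, ∑ j, v i * v j * f (Pi.single i (Pi.single j 1))
        + ∑ i, ∑ j, v i * v j * f (Pi.single j (Pi.single i 1))) / 2 := by
      rw [← Finset.sum_add_distrib, Finset.sum_div]
      refine Finset.sum_congr rfl fun i _ => ?_
      rw [← Finset.sum_add_distrib, Finset.sum_div]
      refine Finset.sum_congr rfl fun j _ => ?_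
      show v i * v j * ((f (Pi.single i (Pi.single j 1)) + f (Pi.single j (Pi.single i 1))) / 2) = _
      ring
    rw [h2, h1]
    ring
  have hpos : M.PosSemidef := by
    refine Matrix.PosSemidef.of_dotProduct_mulVec_nonneg ?_ fun v => ?_
    · ext i j
      show M j i = M i j
      show (f (Pi.single j (Pi.single i 1)) + f (Pi.single i (Pi.single j 1))) / 2
        = (f (Pi.single i (Pi.single j 1)) + f (Pi.single j (Pi.single i 1))) / 2
      ring
    · have h1 : star v ⬝ᵥ M.mulVec v = f (KWA_op v) := by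
        rw [← hM v]
        show ∑ i, v i * ∑ j, M i j * v j = _
        refine Finset.sum_congr rfl fun i _ => ?_
        rw [Finset.mul_sum]
        refine Finset.sum_congr rfl fun j _ => ?_
        ring
      rw [h1]
      exact hf v
  obtain ⟨n, B, hB⟩ := Matrix.posSemidef_iff_eq_sum_vecMulVec.1 hpos
  refine ⟨n, (WithLp.linearEquiv 2 ℝ (Fin n → ℝ)).symm.toLinearMap ∘ₗ (Matrix.of B).mulVecLin, fun v => ?_⟩
  rw [EuclideanSpace.norm_sq_eq, ← hM v, hB]
  have h1 : ∀ k, ‖((WithLp.linearEquiv 2 ℝ (Fin n → ℝ)).symm.toLinearMap ∘ₗ (Matrix.of B).mulVecLin) v k‖ ^ 2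
      = (∑ i, B k i * v i) ^ 2 := by
    intro k
    rw [Real.norm_eq_abs, sq_abs]
    rfl
  rw [Finset.sum_congr rfl fun k _ => h1 k]
  have h2 : ∀ i j, (∑ k, Matrix.vecMulVec (B k) (star (B k))) i j = ∑ k, B k i * B k j := by
    intro i j
    rw [Matrix.sum_apply]
    rfl
  simp only [h2]
  have h3 : ∀ i j, v i * v j * ∑ k, B k i * B k j = ∑ k, (B k i * v i) * (B k j * v j) := by
    intro i j
    rw [Finset.mul_sum]
    refine Finset.sum_congr rfl fun k _ => ?_
    ring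
  simp only [h3]
  simp only [sq, Finset.sum_mul_sum]
  rw [Finset.sum_comm]
  refine Finset.sum_congr rfl fun i _ => ?_
  rw [Finset.sum_comm]

theorem p_KWA (hGRM : Stmt_GRM) : Stmt_KWA := by
  intro W _ _ _ N₀ m K K' hN₀ hm hK hKK' hyp₀
  obtain ⟨d, hd⟩ : ∃ d, d = finrank ℝ W := ⟨_, rfl⟩
  obtain ⟨e, he1, he2⟩ := Pool.RX.p_BAS d W N₀ hN₀ hd.symm
  rw [← hd] at hm
  let N : Seminorm ℝ (Fin d → ℝ) := N₀.comp e.symm.toLinearMap
  have hNe : ∀ x, N (e x) = N₀ x := fun x => by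
    show N₀ (e.symm (e x)) = N₀ x
    rw [LinearEquiv.symm_apply_apply]
  have hN : ∀ v, N v = 0 → v = 0 := by
    intro v hv
    have h1 : e.symm v = 0 := hN₀ _ hv
    rwa [LinearEquiv.map_eq_zero_iff] at h1
  have hR : ∀ v, ‖v‖ ≤ 2 ^ d * N v := by
    intro v
    have h1 := he1 (e.symm v)
    rwa [LinearEquiv.apply_symm_apply] at h1
  have hN1 : ∀ v, N v ≤ ∑ i, |v i| := by
    intro v
    have h1 := he2 (e.symm v)
    rwa [LinearEquiv.apply_symm_apply] at h1
  have hyp : ∀ U ∈ Matrix.orthogonalGroup (Fin m) ℝ, ∀ x y : Fin m → Fin d → ℝ, (∀ j, y j = ∑ i, U j i • x i) →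
      ∑ j, N (y j) ^ 2 ≤ K ^ 2 * ∑ i, N (x i) ^ 2 := by
    intro U hU x y hxy
    refine hyp₀ U hU (fun i => e.symm (x i)) (fun j => e.symm (y j)) fun j => ?_
    rw [hxy, map_sum]
    refine Finset.sum_congr rfl fun i _ => ?_
    rw [map_smul]
  have hK'0 : 0 < K' := by linarith
  have hKsq : K ^ 2 < K' ^ 2 := by nlinarith
  have hK1 : 1 < K' ^ 2 := by nlinarith
  -- trivial space
  by_cases htriv : ∀ v : Fin d → ℝ, N v ≠ 1
  · have hz : ∀ v : Fin d → ℝ, N v = 0 := by
      intro v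
      by_contra h
      apply htriv ((N v)⁻¹ • v)
      rw [map_smul_eq_mul, norm_inv, Real.norm_eq_abs, abs_of_nonneg (apply_nonneg N _), inv_mul_cancel₀ h]
    refine ⟨0, 0, fun x => ?_⟩
    rw [LinearMap.zero_apply, norm_zero, mul_zero, ← hNe x, hz]
    exact ⟨le_rfl, le_rfl⟩
  push Not at htriv
  obtain ⟨v₁, hv₁⟩ := htriv
  let A : Set (Fin d → Fin d → ℝ) := {a | ∃ x : Fin m → Fin d → ℝ, ∑ l, N (x l) ^ 2 = 1 ∧ a = KWA_G x}
  have hA : convexHull ℝ {a | ∃ v, N v = 1 ∧ a = KWA_op v} = A := KWA_hull N hN hm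
  have hAc : IsCompact A := KWA_comp N (2 ^ d) (by positivity) hR hN1
  have hAconv : Convex ℝ A := by
    rw [← hA]
    exact convex_convexHull ℝ _
  have hopA : ∀ v, N v = 1 → KWA_op v ∈ A := by
    intro v hv
    rw [← hA]
    exact subset_convexHull ℝ _ ⟨v, hv, rfl⟩
  have hB : IsCompact (K' ^ 2 • A) := hAc.smul (K' ^ 2)
  have hBconv : Convex ℝ (K' ^ 2 • A) := hAconv.smul _
  have hdisj : Disjoint A (K' ^ 2 • A) := by
    rw [Set.disjoint_left]
    rintro a ⟨x, hx1, hx2⟩ ⟨b, ⟨z, hz1, hz2⟩, hb⟩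
    have hb' : K' ^ 2 • b = a := hb
    obtain ⟨U, hU, hUx⟩ := hGRM m d x (fun l => K' • z l) (by
      intro i j
      have h1 : a i j = ∑ l, x l i * x l j := by rw [hx2]; rfl
      have h2 : a i j = K' ^ 2 * ∑ l, z l i * z l j := by rw [← hb', hz2]; rfl
      rw [← h1, h2, Finset.mul_sum]
      refine Finset.sum_congr rfl fun l _ => ?_
      show K' ^ 2 * (z l i * z l j) = (K' * z l i) * (K' * z l j)
      ring)
    have h3 := hyp U hU x (fun l => K' • z l) hUx
    rw [hx1, mul_one] at h3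
    have h4 : ∑ j, N (K' • z j) ^ 2 = K' ^ 2 := by
      have h5 : ∀ j, N (K' • z j) ^ 2 = K' ^ 2 * N (z j) ^ 2 := by
        intro j
        rw [map_smul_eq_mul, Real.norm_eq_abs, mul_pow, sq_abs]
      rw [Finset.sum_congr rfl fun j _ => h5 j, ← Finset.mul_sum, hz1, mul_one]
    rw [h4] at h3
    linarith
  obtain ⟨f, u, v, hfu, huv, hfv⟩ := geometric_hahn_banach_compact_closed hAconv hAc hBconv hB.isClosed hdisj
  have hf1 : ∀ x, N x = 1 → f (KWA_op x) < u ∧ v < K' ^ 2 * f (KWA_op x) := by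
    intro x hx
    refine ⟨hfu _ (hopA x hx), ?_⟩
    have h1 := hfv (K' ^ 2 • KWA_op x) (Set.smul_mem_smul_set (hopA x hx))
    rwa [map_smul, smul_eq_mul] at h1
  have hf0 : ∀ x, N x = 1 → 0 < f (KWA_op x) := by
    intro x hx
    obtain ⟨h1, h2⟩ := hf1 x hx
    nlinarith
  have hu : 0 < u := (hf0 v₁ hv₁).trans (hf1 v₁ hv₁).1
  have hop : ∀ (c : ℝ) (x : Fin d → ℝ), KWA_op (c • x) = c ^ 2 • KWA_op x := by
    intro c x
    funext i j
    show (c * x i) * (c * x j) = c ^ 2 * (x i * x j)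
    ring
  have hfg : ∀ x, 0 ≤ f (KWA_op x) ∧ f (KWA_op x) ≤ u * N x ^ 2 ∧ u * N x ^ 2 ≤ K' ^ 2 * f (KWA_op x) := by
    intro x
    by_cases hx : N x = 0
    · have h1 : x = 0 := hN x hx
      have h2 : KWA_op x = 0 := by
        rw [h1]
        funext i j
        show (0 : ℝ) * 0 = 0
        ring
      rw [h2, hx, map_zero]
      simp
    · have h1 : N ((N x)⁻¹ • x) = 1 := by
        rw [map_smul_eq_mul, norm_inv, Real.norm_eq_abs, abs_of_nonneg (apply_nonneg N _), inv_mul_cancel₀ hx]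
      have h2 := hf1 _ h1
      have h3 := hf0 _ h1
      have h4 : KWA_op x = N x ^ 2 • KWA_op ((N x)⁻¹ • x) := by
        rw [hop, smul_smul]
        have : N x ^ 2 * (N x)⁻¹ ^ 2 = 1 := by
          field_simp
        rw [this, one_smul]
      have h5 : f (KWA_op x) = N x ^ 2 * f (KWA_op ((N x)⁻¹ • x)) := by
        conv_lhs => rw [h4]
        rw [map_smul, smul_eq_mul]
      have h6 : 0 < N x ^ 2 := by positivity
      rw [h5]
      refine ⟨by positivity, ?_, ?_⟩
      · nlinarith [h2.1]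
      · nlinarith [h2.2, huv]
  obtain ⟨n, T, hT⟩ := KWA_form (u⁻¹ • (f : (Fin d → Fin d → ℝ) →ₗ[ℝ] ℝ)) (fun v => by
    show 0 ≤ u⁻¹ * f (KWA_op v)
    have := (hfg v).1
    positivity)
  have hT' : ∀ v, ‖T v‖ ^ 2 = u⁻¹ * f (KWA_op v) := hT
  refine ⟨n, T ∘ₗ e.toLinearMap, fun x => ?_⟩
  have h1 := hfg (e x)
  have h2 := hT' (e x)
  rw [hNe] at h1
  show ‖T (e x)‖ ≤ N₀ x ∧ N₀ x ≤ K' * ‖T (e x)‖
  have h3 : 0 ≤ N₀ x := apply_nonneg _ _
  have h4 : u * ‖T (e x)‖ ^ 2 = f (KWA_op (e x)) := by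
    rw [h2]
    field_simp
  rw [← h4] at h1
  constructor
  · have h5 : ‖T (e x)‖ ^ 2 ≤ N₀ x ^ 2 := le_of_mul_le_mul_left h1.2.1 hu
    exact (sq_le_sq₀ (norm_nonneg _) h3).1 h5
  · have h5 : N₀ x ^ 2 ≤ (K' * ‖T (e x)‖) ^ 2 := by
      refine le_of_mul_le_mul_left ?_ hu
      have := h1.2.2
      nlinarith
    exact (sq_le_sq₀ h3 (by positivity)).1 h5

end Pool.EH
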