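import Pool.Agent.Work.MP_3e8c7a_h.Interface

set_option autoImplicit false

namespace Pool.EH

open Module Pool.Agent.MP3e8c7a

theorem p_LAR (hSCL : Stmt_SCL) : Stmt_LAR := by
  intro c C hc hC
  obtain ⟨κ, hκ⟩ := pow_unbounded_of_one_lt (2 / c) (one_lt_two : (1 : ℝ) < 2)
  obtain ⟨C', hC', h⟩ := hSCL C (κ + 1) hC
  refine ⟨C', ⌈4 / c⌉₊, hC', ?_⟩
  intro V _ _ _ N a hN hn ha hL
  have h1 : 4 / c ≤ (finrank ℝ V : ℝ) := (Nat.le_ceil _).trans (by exact_mod_cast hn)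
  have h2 : 4 ≤ c * (finrank ℝ V : ℝ) := by
    rw [div_le_iff₀ hc] at h1
    linarith
  have h3 : (4 : ℝ) ≤ a := h2.trans ha
  have h4 : 4 ≤ a := by exact_mod_cast h3
  have h5 := h V N a hN (by omega) hL
  have h6 : (finrank ℝ V : ℝ) ≤ (a : ℝ) ^ (κ + 1) := by
    have h7 : (2 : ℝ) ^ κ ≤ (a : ℝ) ^ κ := pow_le_pow_left₀ (by norm_num) (by linarith) κ
    have h8 : 2 / c ≤ (a : ℝ) ^ κ := hκ.le.trans h7
    rw [pow_succ]
    calc (finrank ℝ V : ℝ) ≤ 2 * finrank ℝ V := by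
          have : (0 : ℝ) ≤ finrank ℝ V := Nat.cast_nonneg _
          linarith
      _ = 2 / c * (c * finrank ℝ V) := by field_simp
      _ ≤ (a : ℝ) ^ κ * a := mul_le_mul h8 ha (by linarith) (by positivity)
  have h9 : finrank ℝ (⊤ : Submodule ℝ V) ≤ a ^ (κ + 1) := by
    rw [finrank_top]
    exact_mod_cast h6
  have h10 := (h5 ⊤ h9).comp (Submodule.topEquiv.symm.toLinearMap : V →ₗ[ℝ] (⊤ : Submodule ℝ V))
  have e : (N.comp (⊤ : Submodule ℝ V).subtype).comp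
      (Submodule.topEquiv.symm.toLinearMap : V →ₗ[ℝ] (⊤ : Submodule ℝ V)) = N := by
    ext x
    rfl
  rw [e] at h10
  exact h10

end Pool.EH
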