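import Pool.Agent.Work.MP_3e8c7a_h.Interface

/-!
# Block LFW: lifting with weights
-/

set_option autoImplicit false

namespace Pool.EH

open Module Pool.Agent.MP3e8c7a
open scoped RealInnerProductSpace

/-- the quadratic form of a linear map into a Euclidean space -/
theorem LFW_quad {n d : ℕ} (M : (Fin n → ℝ) →ₗ[ℝ] EuclideanSpace ℝ (Fin d)) (y : Fin n → ℝ) :
    ‖M y‖ ^ 2 = ∑ a, ∑ b, ⟪M (fun j => if a = j then 1 else 0), M (fun j => if b = j then 1 else 0)⟫ *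
      y a * y b := by
  rw [← real_inner_self_eq_norm_sq, LinearMap.pi_apply_eq_sum_univ M y, sum_inner]
  refine Finset.sum_congr rfl fun a _ => ?_
  rw [inner_sum]
  refine Finset.sum_congr rfl fun b _ => ?_
  rw [real_inner_smul_left, real_inner_smul_right]
  ring

theorem LFW_span {V : Type} [AddCommGroup V] [Module ℝ V] (n : ℕ) (q : V →ₗ[ℝ] (Fin n → ℝ))
    (H : Submodule ℝ V) (w : Fin n → V) (hw : ∀ a, q (w a) = fun j => if a = j then 1 else 0)
    (hH : ∀ a, w a ∈ H) : Function.Surjective (q ∘ₗ H.subtype) := by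
  intro y
  refine ⟨⟨∑ a, y a • w a, H.sum_mem fun a _ => H.smul_mem _ (hH a)⟩, ?_⟩
  show q (∑ a, y a • w a) = y
  rw [map_sum]
  funext j
  rw [Finset.sum_apply]
  have : ∀ a, (q (y a • w a)) j = if a = j then y a else 0 := by
    intro a
    rw [map_smul, hw a, Pi.smul_apply, smul_eq_mul]
    split_ifs <;> simp
  rw [Finset.sum_congr rfl fun a _ => this a]
  simp

theorem p_LFW (hCAR : Stmt_CAR) (hORL : Stmt_ORL) : Stmt_LFW := by
  classical
  intro V _ _ _ p n C q ι _ z v μ hp hC hq hLoc hz hv hμ hμ1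
  obtain ⟨I, c, hI, hc, hc1, hA⟩ := hCAR n ι z μ hμ hμ1
  obtain ⟨w, hw⟩ : ∃ w : Fin n → V, ∀ a, q (w a) = fun j => if a = j then 1 else 0 := by
    choose w hw using fun a : Fin n => hq (fun j => if a = j then 1 else 0)
    exact ⟨w, hw⟩
  obtain ⟨S, hS⟩ : ∃ S : Finset V, S = I.image v ∪ Finset.univ.image w := ⟨_, rfl⟩
  obtain ⟨H, hH⟩ : ∃ H : Submodule ℝ V, H = Submodule.span ℝ (S : Set V) := ⟨_, rfl⟩
  have hcard : finrank ℝ H ≤ n * n + n + 1 := by
    have h1 : finrank ℝ H ≤ S.card := by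
      rw [hH]
      exact finrank_span_finset_le_card S
    have h2 : S.card ≤ I.card + n := by
      rw [hS]
      refine (Finset.card_union_le _ _).trans (add_le_add Finset.card_image_le ?_)
      refine Finset.card_image_le.trans ?_
      simp
    omega
  have hvH : ∀ i ∈ I, v i ∈ H := by
    intro i hi
    rw [hH]
    apply Submodule.subset_span
    rw [hS]
    exact Finset.mem_coe.2 (Finset.mem_union_left _ (Finset.mem_image_of_mem v hi))
  have hwH : ∀ a, w a ∈ H := by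
    intro a
    rw [hH]
    apply Submodule.subset_span
    rw [hS]
    exact Finset.mem_coe.2 (Finset.mem_union_right _ (Finset.mem_image_of_mem w (Finset.mem_univ a)))
  obtain ⟨d, T, hT⟩ := hLoc H hcard
  have hdef : Def (p.comp H.subtype) := by
    intro x hx
    have : (x : V) = 0 := hp _ hx
    exact Subtype.ext this
  have hTi : Function.Injective T := Eu.inj hdef hT
  obtain ⟨L0, hL1, hL2⟩ := hORL H (Fin n → ℝ) d T (q ∘ₗ H.subtype) hTi
    (LFW_span n q H w hw hwH)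
  refine ⟨H.subtype ∘ₗ L0, fun y => hL1 y, ?_⟩
  have hle : ∀ i ∈ I, ‖T (L0 (z i))‖ ^ 2 ≤ 1 := by
    intro i hi
    have e1 : (q ∘ₗ H.subtype) ⟨v i, hvH i hi⟩ = z i := hz i
    have e2 := hL2 ⟨v i, hvH i hi⟩
    rw [e1] at e2
    have e3 := (hT ⟨v i, hvH i hi⟩).1
    have e4 : ‖T (L0 (z i))‖ ≤ 1 := e2.trans (e3.trans (hv i))
    exact pow_le_one₀ (norm_nonneg _) e4
  have hsum : ∑ i, μ i * ‖T (L0 (z i))‖ ^ 2 ≤ 1 := by
    have e1 : ∀ i, ‖T (L0 (z i))‖ ^ 2 = ∑ a, ∑ b,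
        (fun a b => ⟪T (L0 (fun j => if a = j then 1 else 0)),
          T (L0 (fun j => if b = j then 1 else 0))⟫) a b * z i a * z i b :=
      fun i => LFW_quad (T ∘ₗ L0) (z i)
    have e2 := hA (fun a b => ⟪T (L0 (fun j => if a = j then 1 else 0)),
          T (L0 (fun j => if b = j then 1 else 0))⟫)
    have e3 : ∑ i ∈ I, c i * ‖T (L0 (z i))‖ ^ 2 = ∑ i, μ i * ‖T (L0 (z i))‖ ^ 2 := by
      rw [Finset.sum_congr rfl fun i _ => by rw [e1 i], e2]
      exact Finset.sum_congr rfl fun i _ => by rw [e1 i]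
    rw [← e3, ← hc1]
    refine Finset.sum_le_sum fun i hi => ?_
    calc c i * ‖T (L0 (z i))‖ ^ 2 ≤ c i * 1 := mul_le_mul_of_nonneg_left (hle i hi) (hc i)
      _ = c i := mul_one _
  have hpt : ∀ i, μ i * p ((H.subtype ∘ₗ L0) (z i)) ^ 2 ≤ C ^ 2 * (μ i * ‖T (L0 (z i))‖ ^ 2) := by
    intro i
    have e1 : p ((H.subtype ∘ₗ L0) (z i)) ≤ C * ‖T (L0 (z i))‖ := (hT (L0 (z i))).2
    have e2 : p ((H.subtype ∘ₗ L0) (z i)) ^ 2 ≤ (C * ‖T (L0 (z i))‖) ^ 2 :=
      pow_le_pow_left₀ (apply_nonneg _ _) e1 2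
    calc μ i * p ((H.subtype ∘ₗ L0) (z i)) ^ 2 ≤ μ i * (C * ‖T (L0 (z i))‖) ^ 2 :=
          mul_le_mul_of_nonneg_left e2 (hμ i)
      _ = C ^ 2 * (μ i * ‖T (L0 (z i))‖ ^ 2) := by ring
  calc ∑ i, μ i * p ((H.subtype ∘ₗ L0) (z i)) ^ 2 ≤
        ∑ i, C ^ 2 * (μ i * ‖T (L0 (z i))‖ ^ 2) := Finset.sum_le_sum fun i _ => hpt i
    _ = C ^ 2 * ∑ i, μ i * ‖T (L0 (z i))‖ ^ 2 := by rw [Finset.mul_sum]
    _ ≤ C ^ 2 * 1 := mul_le_mul_of_nonneg_left hsum (sq_nonneg C)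
    _ = C ^ 2 := mul_one _

end Pool.EH
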