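import Pool.Agent.Work.MP_3e8c7a_h.Interface

/-!
# Block LIF: complemented subspaces
-/

set_option autoImplicit false

namespace Pool.EH

open Module Pool.Agent.MP3e8c7a

/-- a priori bound for a linear map -/
theorem LIF_bound {V : Type} [AddCommGroup V] [Module ℝ V] [FiniteDimensional ℝ V]
    (p : Seminorm ℝ V) (hp : Def p) (F : V →ₗ[ℝ] V) :
    ∃ A : ℝ, 0 ≤ A ∧ ∀ x, p (F x) ≤ A * p x := by
  obtain ⟨e, he1, _⟩ := Pool.RX.p_BAS (finrank ℝ V) V p hp rfl
  refine ⟨(∑ i, p (F (e.symm (fun j => if i = j then 1 else 0)))) * 2 ^ finrank ℝ V, ?_, ?_⟩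
  · exact mul_nonneg (Finset.sum_nonneg fun i _ => apply_nonneg _ _) (by positivity)
  · intro x
    have e1 : F x = ∑ i, (e x) i • F (e.symm (fun j => if i = j then 1 else 0)) := by
      have := LinearMap.pi_apply_eq_sum_univ (F ∘ₗ e.symm.toLinearMap) (e x)
      simpa using this
    have e2 : p (F x) ≤ ∑ i, |(e x) i| * p (F (e.symm (fun j => if i = j then 1 else 0))) := by
      rw [e1]
      refine (Finset.le_sum_of_subadditive p (map_zero p).le (map_add_le_add p) _ _).trans
        (Finset.sum_le_sum fun i _ => ?_)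
      rw [map_smul_eq_mul, Real.norm_eq_abs]
    have e3 : ∀ i, |(e x) i| ≤ 2 ^ finrank ℝ V * p x := fun i => by
      have h := norm_le_pi_norm (e x) i
      rw [Real.norm_eq_abs] at h
      exact h.trans (he1 x)
    calc p (F x) ≤ ∑ i, |(e x) i| * p (F (e.symm (fun j => if i = j then 1 else 0))) := e2
      _ ≤ ∑ i, (2 ^ finrank ℝ V * p x) * p (F (e.symm (fun j => if i = j then 1 else 0))) :=
          Finset.sum_le_sum fun i _ => mul_le_mul_of_nonneg_right (e3 i) (apply_nonneg _ _)
      _ = (∑ i, p (F (e.symm (fun j => if i = j then 1 else 0)))) * 2 ^ finrank ℝ V * p x := by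
          rw [← Finset.mul_sum]
          ring

/-- the bound from the net -/
theorem LIF_net {V : Type} [AddCommGroup V] [Module ℝ V] [FiniteDimensional ℝ V]
    (p : Seminorm ℝ V) (hp : Def p) (F : V →ₗ[ℝ] V) (T : Finset V) (B : ℝ) (hB : 0 ≤ B)
    (hT : ∀ w, p w ≤ 1 → ∃ y ∈ T, p (w - y) ≤ 1 / 2) (hF : ∀ v ∈ T, p (F v) ≤ B) :
    ∀ x, p (F x) ≤ 2 * B * p x := by
  obtain ⟨A, hA0, hA⟩ := LIF_bound p hp F
  have key : ∀ (k : ℕ) (x : V), p (F x) ≤ (2 * B + A / 2 ^ k) * p x := by
    intro k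
    induction k with
    | zero =>
      intro x
      refine (hA x).trans (mul_le_mul_of_nonneg_right ?_ (apply_nonneg _ _))
      rw [pow_zero, div_one]
      linarith
    | succ k ih =>
      intro x
      by_cases hx : p x = 0
      · have : x = 0 := hp x hx
        rw [this, map_zero, map_zero, mul_zero]
      · have hx0 : 0 < p x := lt_of_le_of_ne (apply_nonneg _ _) (Ne.symm hx)
        obtain ⟨u, hu⟩ : ∃ u, u = (p x)⁻¹ • x := ⟨_, rfl⟩
        have hpu : p u ≤ 1 := by
          rw [hu, map_smul_eq_mul, Real.norm_eq_abs, abs_of_pos (inv_pos.2 hx0),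
            inv_mul_cancel₀ hx]
        obtain ⟨y, hy, hyu⟩ := hT u hpu
        have h1 : p (F (u - y)) ≤ (2 * B + A / 2 ^ k) * (1 / 2) :=
          (ih (u - y)).trans (mul_le_mul_of_nonneg_left hyu (by positivity))
        have h2 : p (F u) ≤ p (F y) + p (F (u - y)) := by
          have e : F u = F y + F (u - y) := by
            rw [← map_add]
            congr 1
            abel
          rw [e]
          exact map_add_le_add p _ _
        have h3 : p (F u) ≤ 2 * B + A / 2 ^ (k + 1) := by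
          have := hF y hy
          have e : A / 2 ^ (k + 1) = A / 2 ^ k * (1 / 2) := by
            rw [pow_succ]
            field_simp
          rw [e]
          linarith
        have h4 : x = p x • u := by
          rw [hu, smul_smul, mul_inv_cancel₀ hx, one_smul]
        have h5 : p (F x) = p x * p (F u) := by
          conv_lhs => rw [h4]
          rw [map_smul, map_smul_eq_mul, Real.norm_eq_abs, abs_of_pos hx0]
        rw [h5, mul_comm]
        exact mul_le_mul_of_nonneg_right h3 hx0.le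
  intro x
  have hlim : Filter.Tendsto (fun k : ℕ => (2 * B + A / 2 ^ k) * p x) Filter.atTop
      (nhds ((2 * B + 0) * p x)) := by
    refine Filter.Tendsto.mul_const _ (Filter.Tendsto.const_add _ ?_)
    exact tendsto_const_nhds.div_atTop (tendsto_pow_atTop_atTop_of_one_lt one_lt_two)
  have := ge_of_tendsto' hlim fun k => key k x
  rwa [add_zero] at this

theorem p_LIF (hNE1 : Stmt_NE1) (hLFW : Stmt_LFW) (hMMX : Stmt_MMX) : Stmt_LIF := by
  classical
  intro V _ _ _ p n C X hp hC hdim hLoc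
  obtain ⟨q, hq, hker⟩ : ∃ q : V →ₗ[ℝ] (Fin n → ℝ), Function.Surjective q ∧
      ∀ x, q x = 0 ↔ x ∈ X := by
    have hfr : finrank ℝ (V ⧸ X) = finrank ℝ (Fin n → ℝ) := by
      have h1 := Submodule.finrank_quotient_add_finrank X
      rw [Module.finrank_fin_fun]
      omega
    obtain ⟨e⟩ : Nonempty ((V ⧸ X) ≃ₗ[ℝ] (Fin n → ℝ)) := ⟨LinearEquiv.ofFinrankEq _ _ hfr⟩
    refine ⟨e.toLinearMap ∘ₗ X.mkQ, ?_, ?_⟩
    · exact e.surjective.comp X.mkQ_surjective
    · intro x
      show e (X.mkQ x) = 0 ↔ x ∈ X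
      rw [LinearEquiv.map_eq_zero_iff, Submodule.mkQ_apply, Submodule.Quotient.mk_eq_zero]
  obtain ⟨T, _, hT1, hT2⟩ := hNE1 V p hp
  have hM := hMMX ((Fin n → ℝ) →ₗ[ℝ] V) {L | ∀ y, q (L y) = y} T
    (fun v L => p (L (q v)) ^ 2) ((C + 1) ^ 2) ?_ ?_ ?_ ?_
  · obtain ⟨L, hL, hLT⟩ := hM
    have hLT' : ∀ v ∈ T, p (L (q v)) ≤ C + 1 := by
      intro v hv
      have h : p (L (q v)) ^ 2 < (C + 1) ^ 2 := hLT ⟨v, hv⟩
      exact (lt_of_pow_lt_pow_left₀ 2 (by linarith) h).le
    have hbd := LIF_net p hp (L ∘ₗ q) T (C + 1) (by linarith) hT2 hLT'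
    refine ⟨LinearMap.id - L ∘ₗ q, ?_, ?_, ?_⟩
    · intro x
      rw [← hker]
      show q (x - L (q x)) = 0
      rw [map_sub, hL, sub_self]
    · intro x hx
      show x - L (q x) = x
      rw [(hker x).2 hx, map_zero, sub_zero]
    · intro x
      have h1 : p (x - L (q x)) ≤ p x + p (L (q x)) := map_sub_le_add p _ _
      have h2 : p (L (q x)) ≤ 2 * (C + 1) * p x := hbd x
      show p (x - L (q x)) ≤ (2 * C + 3) * p x
      linarith
  · intro L hL L' hL' a b _ _ hab y
    show q ((a • L + b • L') y) = y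
    rw [LinearMap.add_apply, LinearMap.smul_apply, LinearMap.smul_apply, map_add, map_smul,
      map_smul, hL, hL', ← add_smul, hab, one_smul]
  · obtain ⟨g, hg⟩ := LinearMap.exists_rightInverse_of_surjective q (LinearMap.range_eq_top.2 hq)
    exact ⟨g, fun y => by
      have := LinearMap.congr_fun hg y
      exact this⟩
  · intro v
    have h1 : ConvexOn ℝ Set.univ (p.comp (LinearMap.applyₗ (R := ℝ) (q (v : V)) :
        ((Fin n → ℝ) →ₗ[ℝ] V) →ₗ[ℝ] V)) := Seminorm.convexOn _
    have hconv : Convex ℝ {L : (Fin n → ℝ) →ₗ[ℝ] V | ∀ y, q (L y) = y} := by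
      intro L hL L' hL' a b _ _ hab y
      show q ((a • L + b • L') y) = y
      rw [LinearMap.add_apply, LinearMap.smul_apply, LinearMap.smul_apply, map_add, map_smul,
        map_smul, hL, hL', ← add_smul, hab, one_smul]
    have h2 := (h1.subset (Set.subset_univ _) hconv).pow (fun L _ => apply_nonneg _ _) 2
    exact h2
  · intro μ hμ hμ1
    obtain ⟨L, hL1, hL2⟩ := hLFW V p n C q T (fun v => q v) (fun v => v) μ hp hC hq hLoc
      (fun _ => rfl) (fun v => hT1 v v.2) hμ hμ1
    refine ⟨L, hL1, lt_of_le_of_lt hL2 ?_⟩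
    nlinarith

end Pool.EH
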