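import Pool.Agent.Work.MP_3e8c7a_h.Interface

/-! Block LOB of THEOREM H (helper44). -/

set_option autoImplicit false

namespace Pool.EH

open Module Pool.Agent.MP3e8c7a

/-- Every norm on a space of dimension `m` is Euclidean with a constant which depends only on `m`. -/
lemma LOB_aux {W : Type} [AddCommGroup W] [Module ℝ W] [FiniteDimensional ℝ W] {N : Seminorm ℝ W} (hN : Def N)
    (m : ℕ) (hm : finrank ℝ W = m) : Eu (((m : ℝ) + 1) * (m * 2 ^ m + 1)) N := by
  obtain ⟨e, he1, he2⟩ := Pool.RX.p_BAS m W N hN hm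
  set A : ℝ := m * 2 ^ m + 1 with hA
  have hA0 : 0 < A := by positivity
  refine ⟨m, A⁻¹ • ((WithLp.linearEquiv 2 ℝ (Fin m → ℝ)).symm.toLinearMap ∘ₗ e.toLinearMap), fun x => ?_⟩
  · set y : EuclideanSpace ℝ (Fin m) := (WithLp.linearEquiv 2 ℝ (Fin m → ℝ)).symm (e x) with hy
    have hyi : ∀ i, y i = e x i := fun i => rfl
    have h1 : ‖(A⁻¹ • ((WithLp.linearEquiv 2 ℝ (Fin m → ℝ)).symm.toLinearMap ∘ₗ e.toLinearMap)) x‖ = A⁻¹ * ‖y‖ := by
      show ‖A⁻¹ • y‖ = _
      rw [norm_smul, Real.norm_eq_abs, abs_of_pos (inv_pos.2 hA0)]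
    have hyn := norm_nonneg y
    have h2 : ‖y‖ ≤ m * ‖e x‖ := by
      have h3 : ‖y‖ ^ 2 ≤ (m * ‖e x‖) ^ 2 := by
        rw [EuclideanSpace.norm_sq_eq]
        calc ∑ i, ‖y i‖ ^ 2 ≤ ∑ _i : Fin m, ‖e x‖ ^ 2 := by
              refine Finset.sum_le_sum fun i _ => ?_
              rw [hyi]
              exact pow_le_pow_left₀ (norm_nonneg _) (norm_le_pi_norm (e x) i) 2
          _ = m * ‖e x‖ ^ 2 := by rw [Finset.sum_const, Finset.card_univ, Fintype.card_fin, nsmul_eq_mul]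
          _ ≤ (m * ‖e x‖) ^ 2 := by
              rw [mul_pow]
              refine mul_le_mul_of_nonneg_right ?_ (by positivity)
              rcases Nat.eq_zero_or_pos m with h0 | h0
              · rw [h0]; norm_num
              · have : (1 : ℝ) ≤ m := by exact_mod_cast h0
                nlinarith
      exact abs_le_of_sq_le_sq' h3 (by positivity) |>.2
    have h3 : ∀ i, |e x i| ≤ ‖y‖ := by
      intro i
      have h4 : |y i| ≤ ‖y‖ := by
        rw [← Real.norm_eq_abs]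
        exact PiLp.norm_apply_le y i
      rwa [hyi] at h4
    rw [h1]
    constructor
    · rw [inv_mul_le_iff₀ hA0]
      calc ‖y‖ ≤ m * ‖e x‖ := h2
        _ ≤ m * (2 ^ m * N x) := mul_le_mul_of_nonneg_left (he1 x) (Nat.cast_nonneg _)
        _ ≤ A * N x := by
            have := apply_nonneg N x
            rw [hA]
            nlinarith
    · calc N x ≤ ∑ i, |e x i| := he2 x
        _ ≤ ∑ _i : Fin m, ‖y‖ := Finset.sum_le_sum fun i _ => h3 i
        _ = m * ‖y‖ := by rw [Finset.sum_const, Finset.card_univ, Fintype.card_fin, nsmul_eq_mul]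
        _ ≤ (m + 1) * ‖y‖ := by nlinarith
        _ = (m + 1) * A * (A⁻¹ * ‖y‖) := by field_simp


theorem p_LOB : Stmt_LOB := by
  intro a
  have hA0 : (0 : ℝ) ≤ (a : ℝ) * 2 ^ a := by positivity
  have ha : (0 : ℝ) ≤ (a : ℝ) := Nat.cast_nonneg a
  refine ⟨((a : ℝ) + 1) * (a * 2 ^ a + 1), by nlinarith, ?_⟩
  intro V _ _ _ N hN F hF
  refine (LOB_aux (hN.comp (u := F.subtype) F.injective_subtype) (finrank ℝ F) rfl).mono ?_
  have h1 : ((finrank ℝ F : ℕ) : ℝ) ≤ a := by exact_mod_cast hF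
  have h2 : (2 : ℝ) ^ (finrank ℝ F) ≤ 2 ^ a := pow_le_pow_right₀ (by norm_num) hF
  have h3 : (0 : ℝ) ≤ ((finrank ℝ F : ℕ) : ℝ) := Nat.cast_nonneg _
  have h4 : ((finrank ℝ F : ℕ) : ℝ) * 2 ^ (finrank ℝ F) ≤ a * 2 ^ a :=
    mul_le_mul h1 h2 (by positivity) ha
  exact mul_le_mul (by linarith) (by linarith) (by positivity) (by linarith)

end Pool.EH
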