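import Pool.Agent.Work.MP_3e8c7a_h.Interface

/-!
# Block MAI: the main theorem for norms (helper48)
-/

set_option autoImplicit false

namespace Pool.EH

open Module Pool.Agent.MP3e8c7a

section scale

variable {U W : Type} [AddCommGroup U] [Module ℝ U] [AddCommGroup W] [Module ℝ W]

/-- The seminorm `lam * r`. -/
noncomputable def MAI_sc (lam : ℝ) (r : Seminorm ℝ W) : Seminorm ℝ W := r.comp (lam • LinearMap.id)

theorem MAI_sc_apply {lam : ℝ} (hl : 0 < lam) (r : Seminorm ℝ W) (x : W) : MAI_sc lam r x = lam * r x := by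
  show r (lam • x) = _
  rw [map_smul_eq_mul, Real.norm_eq_abs, abs_of_pos hl]

theorem MAI_iso {lam c : ℝ} (hl : 0 < lam) {p : Seminorm ℝ U} {r : Seminorm ℝ W} (h : Iso c p r) :
    Iso c p (MAI_sc lam r) := by
  obtain ⟨T, hT⟩ := h
  refine ⟨T.trans (LinearEquiv.smulOfNeZero ℝ W lam⁻¹ (inv_ne_zero hl.ne')), fun x => ?_⟩
  have e : MAI_sc lam r ((T.trans (LinearEquiv.smulOfNeZero ℝ W lam⁻¹ (inv_ne_zero hl.ne'))) x) = r (T x) := by
    rw [MAI_sc_apply hl]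
    show lam * r (lam⁻¹ • T x) = r (T x)
    rw [map_smul_eq_mul, Real.norm_eq_abs, abs_of_pos (inv_pos.2 hl), mul_inv_cancel_left₀ hl.ne']
  rw [e]
  exact hT x

theorem MAI_iso' {lam c : ℝ} (hl : 0 < lam) {p : Seminorm ℝ U} {r : Seminorm ℝ W}
    (h : Iso c p (MAI_sc lam r)) : Iso c p r := by
  obtain ⟨T, hT⟩ := h
  refine ⟨T.trans (LinearEquiv.smulOfNeZero ℝ W lam hl.ne'), fun x => ?_⟩
  have e : r ((T.trans (LinearEquiv.smulOfNeZero ℝ W lam hl.ne')) x) = MAI_sc lam r (T x) := rfl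
  rw [e]
  exact hT x

theorem MAI_def {lam : ℝ} (hl : 0 < lam) {r : Seminorm ℝ W} (h : Def r) : Def (MAI_sc lam r) := by
  intro x hx
  rw [MAI_sc_apply hl] at hx
  exact h x ((mul_eq_zero.1 hx).resolve_left hl.ne')

theorem MAI_hyp {lam b : ℝ} (hl : 0 < lam) {k : ℕ} {p r : Seminorm ℝ W} (h : Hyp b k p r) :
    Hyp b k p (MAI_sc lam r) := fun E hE => MAI_iso hl (h E hE)

theorem MAI_eu {lam C : ℝ} {r : Seminorm ℝ W} {E : Submodule ℝ W} (h : Eu C (r.comp E.subtype)) :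
    Eu C ((MAI_sc lam r).comp E.subtype) := by
  have e : (MAI_sc lam r).comp E.subtype = (r.comp E.subtype).comp (lam • LinearMap.id) := by
    ext x
    rfl
  rw [e]
  exact h.comp (lam • LinearMap.id)

theorem MAI_top [FiniteDimensional ℝ W] {C : ℝ} {a : ℕ} {N : Seminorm ℝ W} (h : Loc C a N)
    (ha : finrank ℝ W ≤ a) : Eu C N := by
  have h1 := h ⊤ (by rwa [finrank_top])
  exact h1.comp Submodule.topEquiv.symm.toLinearMap

end scale

theorem p_MAI (h1 : Stmt_LOB) (h2 : Stmt_LAR) (h3 : Stmt_STZ) (h4 : Stmt_GPL) (h5 : Stmt_STP)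
    (h6 : Stmt_SPL) : Stmt_MAI := by
  intro α ε b M hα hε hε1 hb hM
  obtain ⟨C₀, n₀, hC₀, hSTZ⟩ := h3 α b M hα hb hM
  obtain ⟨C₁, hC₁, hC₁0, hC₁M⟩ : ∃ C₁ : ℝ, 1 ≤ C₁ ∧ C₀ ≤ C₁ ∧ M ≤ C₁ :=
    ⟨max C₀ M, hM.trans (le_max_right _ _), le_max_left _ _, le_max_right _ _⟩
  have hβ : 0 < ε / 2 := by linarith
  have hβ1 : ε / 2 ≤ 1 := by linarith
  obtain ⟨θ, R, C₂, hθ, hθ1, hR, hC₂, hGPL⟩ := h4 (ε / 2) b C₁ hβ hβ1 hb hC₁
  obtain ⟨δ, hδ, hδ1, hδ2, hδ3⟩ : ∃ δ : ℝ, 0 < δ ∧ δ ≤ θ / 3 ∧ δ ≤ ε / 8 ∧ δ ≤ α / 2 :=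
    ⟨min (θ / 3) (min (ε / 8) (α / 2)), by positivity, min_le_left _ _,
      (min_le_right _ _).trans (min_le_left _ _), (min_le_right _ _).trans (min_le_right _ _)⟩
  obtain ⟨C₃, n₁, hC₃, hLAR⟩ := h2 (θ * δ / 2) C₂ (by positivity) hC₂
  have hΛ : 1 ≤ R * C₁ ^ 4 := by
    have : 1 ≤ C₁ ^ 4 := one_le_pow₀ hC₁
    nlinarith
  obtain ⟨C₄, n₂, hC₄, hSTP⟩ := h5 α (ε / 2) b C₁ (R * C₁ ^ 4) hα hβ hβ1 hb hC₁ hΛ
  obtain ⟨N, hN0, hN1, hN2, hN3, hN4⟩ : ∃ N : ℕ, n₀ ≤ N ∧ n₁ ≤ N ∧ n₂ ≤ N ∧ ⌈4 / (θ * δ)⌉₊ ≤ N ∧ 1 ≤ N :=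
    ⟨n₀ + n₁ + n₂ + ⌈4 / (θ * δ)⌉₊ + 1, by omega, by omega, by omega, by omega, by omega⟩
  obtain ⟨C₅, hC₅, hLOB⟩ := h1 N
  refine ⟨C₅ * C₅ + C₃ * C₃ + C₄, by nlinarith, ?_⟩
  intro V _ _ _ p r k hp hr hH hk E hE hEM
  have hC5p : 0 ≤ C₅ * C₅ := by positivity
  have hC3p : 0 ≤ C₃ * C₃ := by positivity
  rcases le_or_gt (finrank ℝ V) N with hn | hn
  · have hE1 : Eu C₅ p := MAI_top (hLOB V p hp) hn
    have hE2 : Eu C₅ r := MAI_top (hLOB V r hr) hn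
    exact (Eu.iso hp hr hC₅ hE1 hE2 rfl).mono (by linarith)
  · set n := finrank ℝ V with hnd
    have hn1 : (1 : ℝ) ≤ n := by
      have : 1 ≤ n := by omega
      exact_mod_cast this
    have hkE : k ≤ finrank ℝ E := by
      have h7 : (k : ℝ) ≤ finrank ℝ E := by
        have : 0 ≤ ε * n := by positivity
        linarith
      exact_mod_cast h7
    have hpE : Eu C₁ (p.comp E.subtype) := hEM.mono hC₁M
    have hrE : Eu C₁ (r.comp E.subtype) := (hSTZ V p r k E hp hr hH (by omega) hk hkE hEM).mono hC₁0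
    set μ := ⌊δ * n⌋₊ with hμ
    have hμ1 : (μ : ℝ) ≤ δ * n := Nat.floor_le (by positivity)
    have hμ2 : δ * n < μ + 1 := Nat.lt_floor_add_one _
    have hn0 : (0 : ℝ) < n := by linarith
    have hμε : (μ : ℝ) ≤ ε / 8 * n := hμ1.trans (mul_le_mul_of_nonneg_right hδ2 hn0.le)
    have hεn : 0 < ε * n := by positivity
    have h2μ : 2 * μ < finrank ℝ E := by
      have h7 : ((2 * μ : ℕ) : ℝ) < finrank ℝ E := by
        push_cast
        have : (0 : ℝ) ≤ k := Nat.cast_nonneg _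
        linarith
      exact_mod_cast h7
    rcases h6 V p r C₁ R μ hp hr hC₁ hR E h2μ hpE hrE with hA | hA
    · obtain ⟨Y, Y', t, hY, hY', hYd, hYd', ht, hYt, hYt'⟩ := hA
      have hμk : μ ≤ k := by
        have h7 : (μ : ℝ) ≤ k := by
          have h8 : (μ : ℝ) ≤ α / 2 * n := hμ1.trans (mul_le_mul_of_nonneg_right hδ3 hn0.le)
          have h9 : 0 < α * n := by positivity
          linarith
        exact_mod_cast h7
      have h3μ : 3 * (μ : ℝ) ≤ θ * n := by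
        have h8 : (μ : ℝ) ≤ θ / 3 * n := hμ1.trans (mul_le_mul_of_nonneg_right hδ1 hn0.le)
        linarith
      have hG := hGPL V p r k μ t hp hr hH E Y Y' (by linarith) hYd hYd' h3μ hμk hpE hrE
        (hpE.sub hY) (hrE.sub hY) (hpE.sub hY') (hrE.sub hY') ht hYt hYt'
      have hfl : (⌊θ * μ⌋₊ : ℝ) ≤ θ * μ := Nat.floor_le (by positivity)
      have hfl2 : θ * μ < ⌊θ * (μ : ℝ)⌋₊ + 1 := Nat.lt_floor_add_one _
      have hcn : θ * δ / 2 * n ≤ (⌊θ * (μ : ℝ)⌋₊ : ℝ) := by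
        have hθδ : 0 < θ * δ := by positivity
        have h8 : 4 / (θ * δ) ≤ n := by
          calc 4 / (θ * δ) ≤ (⌈4 / (θ * δ)⌉₊ : ℝ) := Nat.le_ceil _
            _ ≤ n := by exact_mod_cast (by omega : ⌈4 / (θ * δ)⌉₊ ≤ n)
        rw [div_le_iff₀ hθδ] at h8
        have h9 : θ * (δ * n) ≤ θ * (μ + 1) := mul_le_mul_of_nonneg_left hμ2.le hθ.le
        have h10 : θ * (δ * n) = θ * δ * n := by ring
        have h11 : θ * ((μ : ℝ) + 1) = θ * μ + θ := by ring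
        linarith
      have hLp : Loc C₂ ⌊θ * (μ : ℝ)⌋₊ p := fun F hF => (hG F (by
        have : (finrank ℝ F : ℝ) ≤ ⌊θ * (μ : ℝ)⌋₊ := by exact_mod_cast hF
        linarith)).1
      have hLr : Loc C₂ ⌊θ * (μ : ℝ)⌋₊ r := fun F hF => (hG F (by
        have : (finrank ℝ F : ℝ) ≤ ⌊θ * (μ : ℝ)⌋₊ := by exact_mod_cast hF
        linarith)).2
      have e1 := hLAR V p _ hp (by omega) hcn hLp
      have e2 := hLAR V r _ hr (by omega) hcn hLr
      exact (Eu.iso hp hr hC₃ e1 e2 rfl).mono (by linarith)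
    · obtain ⟨E₁, lam, hE₁, hE₁d, hlam, hE₁x⟩ := hA
      have hd : (k : ℝ) + ε / 2 * n ≤ finrank ℝ E₁ := by
        have h8 : (finrank ℝ E₁ : ℝ) + 2 * μ = finrank ℝ E := by exact_mod_cast hE₁d
        linarith
      have hfin := hSTP V p (MAI_sc lam r) k hp (MAI_def hlam hr) (MAI_hyp hlam hH) (by omega) hk E₁ hd
        (hpE.sub hE₁) (MAI_eu (hrE.sub hE₁)) (fun x hx => by
          rw [MAI_sc_apply hlam]
          refine ⟨(hE₁x x hx).1.trans ?_, (hE₁x x hx).2⟩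
          have h8 : 0 ≤ lam * r x := mul_nonneg hlam.le (apply_nonneg _ _)
          nlinarith)
      exact (MAI_iso' hlam hfin).mono (by linarith)

end Pool.EH
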