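import Pool.Agent.Work.MP_3e8c7a_h.Interface

set_option autoImplicit false

namespace Pool.EH

open Module Pool.Agent.MP3e8c7a

theorem MMX_lin (ι : Type) [Fintype ι] [DecidableEq ι] (φ : StrongDual ℝ (ι → ℝ)) (t : ι → ℝ) :
    φ t = ∑ i, t i * φ (Pi.single i 1) := by
  conv_lhs => rw [pi_eq_sum_univ' t]
  rw [map_sum]
  refine Finset.sum_congr rfl fun i _ => ?_
  rw [map_smul, smul_eq_mul]

theorem p_MMX : Stmt_MMX := by
  classical
  intro X _ _ 𝓛 ι _ f τ hL hne hf hμ
  by_contra hcon
  push Not at hcon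
  obtain ⟨L0, hL0⟩ := hne
  set A : Set (ι → ℝ) := {t | ∃ L ∈ 𝓛, ∀ i, f i L ≤ t i} with hA
  set B : Set (ι → ℝ) := {t | ∀ i, t i < τ} with hB
  have hAc : Convex ℝ A := by
    rintro t ⟨L, hLm, ht⟩ s ⟨M, hMm, hs⟩ a b ha hb hab
    refine ⟨a • L + b • M, hL hLm hMm ha hb hab, fun i => ?_⟩
    have h1 := (hf i).2 hLm hMm ha hb hab
    have h2 : a * f i L ≤ a * t i := mul_le_mul_of_nonneg_left (ht i) ha
    have h3 : b * f i M ≤ b * s i := mul_le_mul_of_nonneg_left (hs i) hb
    simp only [Pi.add_apply, Pi.smul_apply, smul_eq_mul] at h1 ⊢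
    linarith
  have hBc : Convex ℝ B := by
    intro t ht s hs a b ha hb hab i
    have h1 : t i < τ := ht i
    have h2 : s i < τ := hs i
    simp only [Pi.add_apply, Pi.smul_apply, smul_eq_mul]
    have h3 : a * t i ≤ a * τ := mul_le_mul_of_nonneg_left h1.le ha
    have h4 : b * s i ≤ b * τ := mul_le_mul_of_nonneg_left h2.le hb
    rcases ha.eq_or_lt with h | h
    · have hb1 : b = 1 := by linarith
      rw [← h, hb1]
      linarith
    · have h5 : a * t i < a * τ := mul_lt_mul_of_pos_left h1 h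
      have h6 : a * τ + b * τ = τ := by rw [← add_mul, hab, one_mul]
      linarith
  have hBo : IsOpen B := by
    have : B = ⋂ i, {t : ι → ℝ | t i < τ} := by
      ext t
      simp [hB]
    rw [this]
    exact isOpen_iInter_of_finite fun i => isOpen_lt (continuous_apply i) continuous_const
  have hdis : Disjoint B A := by
    rw [Set.disjoint_left]
    rintro t ht ⟨L, hLm, hLt⟩
    obtain ⟨i, hi⟩ := hcon L hLm
    exact absurd (lt_of_le_of_lt (hLt i) (ht i)) (not_lt.mpr hi)
  obtain ⟨φ, u, hφB, hφA⟩ := geometric_hahn_banach_open hBc hBo hAc hdis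
  set c : ι → ℝ := fun i => φ (Pi.single i 1) with hc
  have hlin : ∀ t : ι → ℝ, φ t = ∑ i, t i * c i := fun t => MMX_lin ι φ t
  have hA0 : (fun i => f i L0) ∈ A := ⟨L0, hL0, fun i => le_rfl⟩
  have hc0 : ∀ i, 0 ≤ c i := by
    intro i
    by_contra hneg
    push Not at hneg
    have hs : ∀ s : ℝ, 0 ≤ s → u ≤ φ (fun j => f j L0) + s * c i := by
      intro s hs
      have hmem : ((fun j => f j L0) + s • (Pi.single i 1 : ι → ℝ)) ∈ A := by
        refine ⟨L0, hL0, fun j => ?_⟩
        simp only [Pi.add_apply, Pi.smul_apply, smul_eq_mul]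
        have : 0 ≤ s * (Pi.single i (1 : ℝ) : ι → ℝ) j := by
          refine mul_nonneg hs ?_
          rw [Pi.single_apply]
          split_ifs <;> norm_num
        linarith
      have := hφA _ hmem
      rwa [map_add, map_smul, smul_eq_mul] at this
    have h1 := hs ((|φ (fun j => f j L0) - u| + 1) / (-c i)) (by
      apply div_nonneg
      · positivity
      · linarith)
    have h2 : (|φ (fun j => f j L0) - u| + 1) / (-c i) * c i = -(|φ (fun j => f j L0) - u| + 1) := by
      have hne : c i ≠ 0 := hneg.ne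
      rw [div_neg, neg_mul, div_mul_cancel₀ _ hne]
    rw [h2] at h1
    have h3 := le_abs_self (φ (fun j => f j L0) - u)
    linarith
  set S : ℝ := ∑ i, c i with hS
  have hS0 : 0 ≤ S := Finset.sum_nonneg fun i _ => hc0 i
  have hub : ∀ δ : ℝ, 0 < δ → (τ - δ) * S < u := by
    intro δ hδ
    have hmem : (fun _ : ι => τ - δ) ∈ B := fun i => by simp only; linarith
    have := hφB _ hmem
    rw [hlin] at this
    rwa [← Finset.mul_sum] at this
  have hSpos : 0 < S := by
    rcases hS0.eq_or_lt with h | h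
    · exfalso
      have hz : ∀ i, c i = 0 := by
        intro i
        have := (Finset.sum_eq_zero_iff_of_nonneg fun i (_ : i ∈ Finset.univ) => hc0 i).1 h.symm i (Finset.mem_univ i)
        exact this
      have h1 := hφA _ hA0
      rw [hlin] at h1
      simp only [hz, mul_zero, Finset.sum_const_zero] at h1
      have h2 := hub 1 one_pos
      rw [← h, mul_zero] at h2
      linarith
    · exact h
  obtain ⟨L, hLm, hLt⟩ := hμ (fun i => c i / S) (fun i => div_nonneg (hc0 i) hS0) (by
    rw [← Finset.sum_div]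
    exact div_self hSpos.ne')
  have h1 : ∑ i, c i / S * f i L = (∑ i, f i L * c i) / S := by
    rw [Finset.sum_div]
    refine Finset.sum_congr rfl fun i _ => ?_
    ring
  rw [h1, div_lt_iff₀ hSpos] at hLt
  have h2 : u ≤ ∑ i, f i L * c i := by
    have := hφA _ (show (fun i => f i L) ∈ A from ⟨L, hLm, fun i => le_rfl⟩)
    rwa [hlin] at this
  have h3 : 0 < (τ * S - ∑ i, f i L * c i) / (2 * S) := by
    apply div_pos
    · linarith
    · linarith
  have h4 := hub _ h3
  have h5 : (τ - (τ * S - ∑ i, f i L * c i) / (2 * S)) * S = (τ * S + ∑ i, f i L * c i) / 2 := by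
    field_simp
    ring
  rw [h5] at h4
  linarith

end Pool.EH
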