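import Pool.Agent.Work.MP_3e8c7a_h.Interface

/-!
# Block NE1: a net with few points (helper46)
-/

set_option autoImplicit false

namespace Pool.EH

open Module Pool.Agent.MP3e8c7a MeasureTheory ProbabilityTheory
open scoped RealInnerProductSpace

theorem NE1_card (W : Type) [AddCommGroup W] [Module ℝ W] [FiniteDimensional ℝ W]
    (N : Seminorm ℝ W) (hN : Def N) (s : Finset W) (hs : ∀ c ∈ s, N c ≤ 2)
    (h : ∀ c ∈ s, ∀ d ∈ s, c ≠ d → 1 ≤ N (c - d)) : s.card ≤ 5 ^ finrank ℝ W := by
  let f : AddGroupNorm W :=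
    { toFun := N
      map_zero' := map_zero N
      add_le' := map_add_le_add N
      neg' := map_neg_eq_map N
      eq_zero_of_map_eq_zero' := hN }
  let _ : NormedAddCommGroup W := f.toNormedAddCommGroup
  let _ : NormedSpace ℝ W :=
    { (inferInstance : Module ℝ W) with
      norm_smul_le := fun a x => le_of_eq (map_smul_eq_mul N a x) }
  exact Besicovitch.card_le_of_separated s hs h

theorem NE1_card2 (W : Type) [AddCommGroup W] [Module ℝ W] [FiniteDimensional ℝ W]
    (N : Seminorm ℝ W) (hN : Def N) (s : Finset W) (hs : ∀ c ∈ s, N c ≤ 1)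
    (h : ∀ c ∈ s, ∀ d ∈ s, c ≠ d → 1 / 2 ≤ N (c - d)) : s.card ≤ 5 ^ finrank ℝ W := by
  classical
  have hinj : Function.Injective (fun x : W => (2 : ℝ) • x) := smul_right_injective W two_ne_zero
  have hN2 : ∀ x : W, N ((2 : ℝ) • x) = 2 * N x := by
    intro x
    rw [map_smul_eq_mul, Real.norm_of_nonneg (by norm_num)]
  rw [← Finset.card_image_of_injective s hinj]
  apply NE1_card W N hN
  · intro c hc
    obtain ⟨x, hx, rfl⟩ := Finset.mem_image.1 hc
    rw [hN2]
    linarith [hs x hx]
  · intro c hc d hd hne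
    obtain ⟨x, hx, rfl⟩ := Finset.mem_image.1 hc
    obtain ⟨y, hy, rfl⟩ := Finset.mem_image.1 hd
    have hxy : x ≠ y := fun e => hne (by rw [e])
    change 1 ≤ N ((2 : ℝ) • x - (2 : ℝ) • y)
    rw [← smul_sub, hN2]
    linarith [h x hx y hy hxy]

theorem p_NE1 : Stmt_NE1 := by
  classical
  intro W _ _ _ N hN
  by_contra hcon
  push Not at hcon
  have key : ∀ n : ℕ, ∃ s : Finset W, (∀ c ∈ s, N c ≤ 1) ∧
      (∀ c ∈ s, ∀ d ∈ s, c ≠ d → 1 / 2 ≤ N (c - d)) ∧ s.card = n := by
    intro n
    induction n with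
    | zero => exact ⟨∅, by simp, by simp, rfl⟩
    | succ n ih =>
      obtain ⟨s, h1, h2, h3⟩ := ih
      obtain ⟨w, hw, hws⟩ := hcon s (NE1_card2 W N hN s h1 h2) h1
      have hws' : w ∉ s := by
        intro h
        have := hws w h
        rw [sub_self, map_zero] at this
        linarith
      refine ⟨insert w s, ?_, ?_, ?_⟩
      · intro c hc
        rcases Finset.mem_insert.1 hc with rfl | hc
        · exact hw
        · exact h1 c hc
      · intro c hc d hd hne
        rcases Finset.mem_insert.1 hc with e1 | hc' <;>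
          rcases Finset.mem_insert.1 hd with e2 | hd'
        · exact absurd (e1.trans e2.symm) hne
        · rw [e1]
          exact (hws d hd').le
        · rw [e2, map_sub_rev]
          exact (hws c hc').le
        · exact h2 c hc' d hd' hne
      · rw [Finset.card_insert_of_notMem hws', h3]
  obtain ⟨s, h1, h2, h3⟩ := key (5 ^ finrank ℝ W + 1)
  have := NE1_card2 W N hN s h1 h2
  omega

end Pool.EH
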