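import Pool.Agent.Work.MP_3e8c7a_h.Interface

/-! # Block NET -/

set_option autoImplicit false

namespace Pool.EH

open Module Pool.Agent.MP3e8c7a

theorem p_NET (h1 : Stmt_NE1) : Stmt_NET := by
  classical
  intro W _ _ _ N hN j
  obtain ⟨T1, hT1, -, hT1'⟩ := h1 W N hN
  induction j with
  | zero =>
    refine ⟨{0}, by simp, fun w hw => ⟨0, by simp, ?_⟩⟩
    rw [sub_zero, pow_zero, div_one]
    exact hw
  | succ j ih =>
    obtain ⟨T, hT, hT'⟩ := ih
    refine ⟨(T ×ˢ T1).image (fun q : W × W => q.1 + ((1 : ℝ) / 2 ^ j) • q.2), ?_, fun w hw => ?_⟩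
    · refine Finset.card_image_le.trans ?_
      rw [Finset.card_product, add_mul, one_mul, pow_add]
      exact Nat.mul_le_mul hT hT1
    · obtain ⟨y, hy, hy'⟩ := hT' w hw
      have hp : (0 : ℝ) < 2 ^ j := by positivity
      have hz : N ((2 : ℝ) ^ j • (w - y)) ≤ 1 := by
        rw [map_smul_eq_mul, Real.norm_eq_abs, abs_of_pos hp]
        calc (2 : ℝ) ^ j * N (w - y) ≤ 2 ^ j * (1 / 2 ^ j) := mul_le_mul_of_nonneg_left hy' hp.le
          _ = 1 := by field_simp
      obtain ⟨v, hv, hv'⟩ := hT1' _ hz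
      refine ⟨y + ((1 : ℝ) / 2 ^ j) • v, Finset.mem_image.2 ⟨(y, v), Finset.mk_mem_product hy hv,
        rfl⟩, ?_⟩
      have h2 : w - (y + ((1 : ℝ) / 2 ^ j) • v) = ((1 : ℝ) / 2 ^ j) • ((2 : ℝ) ^ j • (w - y) - v) := by
        rw [smul_sub, smul_smul, one_div_mul_cancel hp.ne', one_smul]
        abel
      rw [h2, map_smul_eq_mul, Real.norm_eq_abs, abs_of_pos (by positivity)]
      calc (1 : ℝ) / 2 ^ j * N ((2 : ℝ) ^ j • (w - y) - v) ≤ 1 / 2 ^ j * (1 / 2) :=
            mul_le_mul_of_nonneg_left hv' (by positivity)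
        _ = 1 / 2 ^ (j + 1) := by
          rw [pow_succ]
          field_simp

end Pool.EH
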