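import Pool.Agent.Work.MP_3e8c7a_h.Interface

set_option autoImplicit false

open Module Pool.Agent.MP3e8c7a

namespace Pool.EH

theorem p_ORL : Stmt_ORL := by
  intro H Q _ _ _ _ _ d T q hT hq
  classical
  let K : Submodule ℝ H := LinearMap.ker q
  let TK : Submodule ℝ (EuclideanSpace ℝ (Fin d)) := K.map T
  let e : K ≃ₗ[ℝ] TK := Submodule.equivMapOfInjective T hT K
  let κ : H →ₗ[ℝ] H := K.subtype ∘ₗ e.symm.toLinearMap ∘ₗ
    (TK.orthogonalProjectionOnto : EuclideanSpace ℝ (Fin d) →ₗ[ℝ] TK) ∘ₗ T
  have hTκ : ∀ x, T (κ x) = TK.starProjection (T x) := by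
    intro x
    change T ((e.symm (TK.orthogonalProjectionOnto (T x)) : K) : H) = _
    rw [Submodule.map_equivMapOfInjective_symm_apply]
    rfl
  have hqκ : ∀ x, q (κ x) = 0 := by
    intro x
    have : κ x ∈ K := (e.symm (TK.orthogonalProjectionOnto (T x))).2
    exact this
  have hκK : ∀ x ∈ K, κ x = x := by
    intro x hx
    apply hT
    rw [hTκ]
    exact (Submodule.starProjection_eq_self_iff).2 (Submodule.mem_map_of_mem hx)
  let R : H →ₗ[ℝ] H := LinearMap.id - κ
  obtain ⟨s, hs⟩ := LinearMap.exists_rightInverse_of_surjective q (LinearMap.range_eq_top.2 hq)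
  have hRq : ∀ x, R (s (q x)) = R x := by
    intro x
    have h1 : s (q x) - x ∈ K := by
      change q (s (q x) - x) = 0
      rw [map_sub]
      have := congrArg (fun g => g (q x)) hs
      simp only [LinearMap.comp_apply, LinearMap.id_apply] at this
      rw [this, sub_self]
    have h2 : R (s (q x) - x) = 0 := by
      change (s (q x) - x) - κ (s (q x) - x) = 0
      rw [hκK _ h1, sub_self]
    rw [map_sub, sub_eq_zero] at h2
    exact h2
  refine ⟨R ∘ₗ s, ?_, ?_⟩
  · intro y
    change q (s y - κ (s y)) = y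
    rw [map_sub, hqκ, sub_zero]
    exact congrArg (fun g => g y) hs
  · intro x
    change ‖T (R (s (q x)))‖ ≤ _
    rw [hRq]
    change ‖T (x - κ x)‖ ≤ _
    rw [map_sub, hTκ, ← Submodule.starProjection_orthogonal_val]
    exact Submodule.norm_starProjection_apply_le _ _

end Pool.EH
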