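import Pool.Agent.Work.MP_3e8c7a_h.Interface

/-!
# Block ORT: rotations (helper48)
-/

set_option autoImplicit false

namespace Pool.EH

open Module Pool.Agent.MP3e8c7a MeasureTheory

/-- The closed unit ball of the Euclidean space. -/
def ORT_B (m : ℕ) : Set (EuclideanSpace ℝ (Fin m)) := Metric.closedBall 0 1

/-- The isometry given by an orthogonal matrix. -/
theorem ORT_iso (m : ℕ) (U : Matrix (Fin m) (Fin m) ℝ) (hU : U ∈ Matrix.orthogonalGroup (Fin m) ℝ) :
    ∃ e : EuclideanSpace ℝ (Fin m) ≃ₗᵢ[ℝ] EuclideanSpace ℝ (Fin m), ∀ t i, e t i = ∑ j, U i j * t j := by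
  have hU1 : U.transpose * U = 1 := (Matrix.mem_orthogonalGroup_iff' (Fin m) ℝ).1 hU
  have hL : ∀ t : EuclideanSpace ℝ (Fin m), ‖Matrix.toEuclideanLin U t‖ = ‖t‖ := by
    intro t
    have h1 : ‖Matrix.toEuclideanLin U t‖ ^ 2 = ‖t‖ ^ 2 := by
      rw [EuclideanSpace.norm_sq_eq, EuclideanSpace.norm_sq_eq]
      have h2 : ∀ s : Fin m → ℝ, ∑ i, ‖s i‖ ^ 2 = dotProduct s s := by
        intro s
        rw [dotProduct]
        refine Finset.sum_congr rfl fun i _ => ?_
        rw [Real.norm_eq_abs, sq_abs, sq]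
      have h3 := h2 (Matrix.mulVec U (WithLp.ofLp t))
      have h4 := h2 (WithLp.ofLp t)
      rw [Matrix.dotProduct_mulVec, ← Matrix.mulVec_transpose, Matrix.mulVec_mulVec, hU1,
        Matrix.one_mulVec] at h3
      exact h3.trans h4.symm
    exact (pow_left_inj₀ (norm_nonneg _) (norm_nonneg _) two_ne_zero).1 h1
  let L : EuclideanSpace ℝ (Fin m) →ₗᵢ[ℝ] EuclideanSpace ℝ (Fin m) := ⟨Matrix.toEuclideanLin U, hL⟩
  refine ⟨L.toLinearIsometryEquiv rfl, fun t i => ?_⟩
  rfl

/-- Invariance of the integral over the ball. -/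
theorem ORT_inv (m : ℕ) (e : EuclideanSpace ℝ (Fin m) ≃ₗᵢ[ℝ] EuclideanSpace ℝ (Fin m))
    (f : EuclideanSpace ℝ (Fin m) → ℝ) : ∫ t in ORT_B m, f (e t) = ∫ t in ORT_B m, f t := by
  have h := e.measurePreserving.setIntegral_preimage_emb e.toHomeomorph.measurableEmbedding f (ORT_B m)
  rw [← h]
  have h2 : e ⁻¹' (ORT_B m) = ORT_B m := by
    ext t
    rw [Set.mem_preimage, ORT_B, mem_closedBall_zero_iff, mem_closedBall_zero_iff, e.norm_map]
  rw [h2]

theorem ORT_int (m : ℕ) (f : EuclideanSpace ℝ (Fin m) → ℝ) (hf : Continuous f) :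
    IntegrableOn f (ORT_B m) :=
  hf.continuousOn.integrableOn_compact (isCompact_closedBall _ _)

variable {V : Type} [AddCommGroup V] [Module ℝ V]

theorem ORT_cont (N : Seminorm ℝ V) (m : ℕ) (x : Fin m → V) :
    Continuous fun t : EuclideanSpace ℝ (Fin m) => N (∑ i, t i • x i) := by
  have hA : 0 ≤ ∑ i, N (x i) := Finset.sum_nonneg fun i _ => apply_nonneg _ _
  have h : LipschitzWith (∑ i, N (x i)).toNNReal fun t : EuclideanSpace ℝ (Fin m) => N (∑ i, t i • x i) := by
    refine LipschitzWith.of_dist_le_mul fun t s => ?_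
    rw [Real.coe_toNNReal _ hA, Real.dist_eq, dist_eq_norm]
    refine (abs_sub_map_le_sub N _ _).trans ?_
    rw [← Finset.sum_sub_distrib]
    have h1 : ∀ i, t i • x i - s i • x i = (t i - s i) • x i := fun i => (sub_smul _ _ _).symm
    simp only [h1]
    calc N (∑ i, (t i - s i) • x i) ≤ ∑ i, N ((t i - s i) • x i) :=
          Finset.le_sum_of_subadditive N (map_zero N).le (map_add_le_add N) _ _
      _ ≤ ∑ i, N (x i) * ‖t - s‖ := by
          refine Finset.sum_le_sum fun i _ => ?_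
          rw [map_smul_eq_mul, mul_comm]
          refine mul_le_mul_of_nonneg_left ?_ (apply_nonneg _ _)
          exact PiLp.norm_apply_le (t - s) i
      _ = (∑ i, N (x i)) * ‖t - s‖ := by rw [Finset.sum_mul]
  exact h.continuous

/-- The second moments. -/
noncomputable def ORT_c (m : ℕ) (i : Fin m) : ℝ := ∫ t in ORT_B m, t i ^ 2

theorem ORT_c_eq (m : ℕ) (i j : Fin m) : ORT_c m i = ORT_c m j := by
  let e : EuclideanSpace ℝ (Fin m) ≃ₗᵢ[ℝ] EuclideanSpace ℝ (Fin m) :=
    LinearIsometryEquiv.piLpCongrLeft 2 ℝ ℝ (Equiv.swap i j)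
  have h := ORT_inv m e fun t => t i ^ 2
  rw [ORT_c, ORT_c, ← h]
  refine integral_congr_ae (Filter.Eventually.of_forall fun t => ?_)
  show (e t i) ^ 2 = t j ^ 2
  congr 1
  rw [LinearIsometryEquiv.piLpCongrLeft_apply]
  show t ((Equiv.swap i j).symm i) = t j
  rw [Equiv.symm_swap, Equiv.swap_apply_left]

theorem ORT_c_pos (m : ℕ) (i : Fin m) : 0 < ORT_c m i := by
  have hc : Continuous fun t : EuclideanSpace ℝ (Fin m) => t i ^ 2 := by fun_prop
  rw [ORT_c, integral_pos_iff_support_of_nonneg (fun t => sq_nonneg _) (ORT_int m _ hc)]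
  have hm : MeasurableSet (Function.support fun t : EuclideanSpace ℝ (Fin m) => t i ^ 2) :=
    hc.isOpen_support.measurableSet
  rw [Measure.restrict_apply hm]
  have ho : IsOpen ((Function.support fun t : EuclideanSpace ℝ (Fin m) => t i ^ 2) ∩
      Metric.ball (0 : EuclideanSpace ℝ (Fin m)) 1) := hc.isOpen_support.inter Metric.isOpen_ball
  have hne : ((Function.support fun t : EuclideanSpace ℝ (Fin m) => t i ^ 2) ∩
      Metric.ball (0 : EuclideanSpace ℝ (Fin m)) 1).Nonempty := by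
    refine ⟨EuclideanSpace.single i (1 / 2), ?_, ?_⟩
    · rw [Function.mem_support]
      simp
    · rw [mem_ball_zero_iff, EuclideanSpace.norm_single]
      norm_num
  refine (ho.measure_pos volume hne).trans_le (measure_mono ?_)
  exact Set.inter_subset_inter_right _ Metric.ball_subset_closedBall

/-- The quadratic average. -/
noncomputable def ORT_I (N : Seminorm ℝ V) (m : ℕ) (x : Fin m → V) : ℝ :=
  ∫ t in ORT_B m, N (∑ i, t i • x i) ^ 2

theorem ORT_sign (N : Seminorm ℝ V) (m : ℕ) (x : Fin m → V) :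
    2 ^ m * ORT_I N m x = ∫ t in ORT_B m, ∑ g : Fin m → Bool, N (∑ i, sg (g i) • (t i • x i)) ^ 2 := by
  rw [integral_finset_sum]
  · have h : ∀ g : Fin m → Bool, ∫ t in ORT_B m, N (∑ i, sg (g i) • (t i • x i)) ^ 2 = ORT_I N m x := by
      intro g
      have hg : Matrix.diagonal (fun i => sg (g i)) ∈ Matrix.orthogonalGroup (Fin m) ℝ := by
        rw [Matrix.mem_orthogonalGroup_iff, Matrix.diagonal_transpose,
          Matrix.diagonal_mul_diagonal, ← Matrix.diagonal_one]
        congr 1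
        funext i
        rw [sg]
        split_ifs <;> norm_num
      obtain ⟨e, he⟩ := ORT_iso m _ hg
      have h1 := ORT_inv m e fun t => N (∑ i, t i • x i) ^ 2
      rw [ORT_I, ← h1]
      refine integral_congr_ae (Filter.Eventually.of_forall fun t => ?_)
      show N (∑ i, sg (g i) • (t i • x i)) ^ 2 = N (∑ i, e t i • x i) ^ 2
      congr 3
      funext i
      rw [he]
      have h2 : ∑ j, Matrix.diagonal (fun i => sg (g i)) i j * t j = sg (g i) * t i := by
        rw [Finset.sum_eq_single i]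
        · rw [Matrix.diagonal_apply_eq]
        · intro j _ hj
          rw [Matrix.diagonal_apply_ne _ hj.symm, zero_mul]
        · intro hi
          exact absurd (Finset.mem_univ i) hi
      rw [h2, smul_smul]
    rw [Finset.sum_congr rfl fun g _ => h g, Finset.sum_const, Finset.card_univ, Fintype.card_fun,
      Fintype.card_bool, Fintype.card_fin, nsmul_eq_mul]
    push_cast
    rfl
  · intro g _
    refine ORT_int m _ ?_
    have h := ORT_cont N m fun i => sg (g i) • x i
    have h2 : (fun t : EuclideanSpace ℝ (Fin m) => N (∑ i, sg (g i) • (t i • x i)) ^ 2) =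
        fun t => N (∑ i, t i • (sg (g i) • x i)) ^ 2 := by
      funext t
      congr 3
      funext i
      rw [smul_comm]
    rw [h2]
    exact h.pow 2

theorem ORT_mom (N : Seminorm ℝ V) (m : ℕ) (x : Fin m → V) (i₀ : Fin m) :
    ∫ t in ORT_B m, ∑ i, N (t i • x i) ^ 2 = ORT_c m i₀ * ∑ i, N (x i) ^ 2 := by
  rw [integral_finset_sum]
  · rw [Finset.mul_sum]
    refine Finset.sum_congr rfl fun i _ => ?_
    rw [ORT_c_eq m i₀ i, ORT_c, ← integral_mul_const]
    refine integral_congr_ae (Filter.Eventually.of_forall fun t => ?_)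
    show N (t i • x i) ^ 2 = t i ^ 2 * N (x i) ^ 2
    rw [map_smul_eq_mul, mul_pow, Real.norm_eq_abs, sq_abs]
  · intro i _
    refine ORT_int m _ ?_
    have h2 : (fun t : EuclideanSpace ℝ (Fin m) => N (t i • x i) ^ 2) = fun t => t i ^ 2 * N (x i) ^ 2 := by
      funext t
      rw [map_smul_eq_mul, mul_pow, Real.norm_eq_abs, sq_abs]
    rw [h2]
    fun_prop

theorem ORT_cS (N : Seminorm ℝ V) (m : ℕ) (x : Fin m → V) :
    Continuous fun t : EuclideanSpace ℝ (Fin m) => ∑ g : Fin m → Bool, N (∑ i, sg (g i) • (t i • x i)) ^ 2 := by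
  refine continuous_finset_sum _ fun g _ => ?_
  have h := ORT_cont N m fun i => sg (g i) • x i
  have h2 : (fun t : EuclideanSpace ℝ (Fin m) => N (∑ i, sg (g i) • (t i • x i)) ^ 2) =
      fun t => N (∑ i, t i • (sg (g i) • x i)) ^ 2 := by
    funext t
    congr 3
    funext i
    rw [smul_comm]
  rw [h2]
  exact h.pow 2

theorem ORT_cM (N : Seminorm ℝ V) (m : ℕ) (x : Fin m → V) :
    Continuous fun t : EuclideanSpace ℝ (Fin m) => ∑ i, N (t i • x i) ^ 2 := by
  refine continuous_finset_sum _ fun i _ => ?_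
  have h2 : (fun t : EuclideanSpace ℝ (Fin m) => N (t i • x i) ^ 2) = fun t => t i ^ 2 * N (x i) ^ 2 := by
    funext t
    rw [map_smul_eq_mul, mul_pow, Real.norm_eq_abs, sq_abs]
  rw [h2]
  fun_prop

theorem ORT_rot (N : Seminorm ℝ V) (m : ℕ) (U : Matrix (Fin m) (Fin m) ℝ)
    (hU : U ∈ Matrix.orthogonalGroup (Fin m) ℝ) (x y : Fin m → V) (hy : ∀ j, y j = ∑ i, U j i • x i) :
    ORT_I N m y = ORT_I N m x := by
  have hU' : U.transpose ∈ Matrix.orthogonalGroup (Fin m) ℝ := by
    rw [Matrix.mem_orthogonalGroup_iff]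
    have h := (Matrix.mem_orthogonalGroup_iff' (Fin m) ℝ).1 hU
    rw [Matrix.transpose_transpose]
    exact h
  obtain ⟨e, he⟩ := ORT_iso m _ hU'
  have h1 := ORT_inv m e fun t => N (∑ i, t i • x i) ^ 2
  rw [ORT_I, ORT_I, ← h1]
  refine integral_congr_ae (Filter.Eventually.of_forall fun t => ?_)
  show N (∑ j, t j • y j) ^ 2 = N (∑ i, e t i • x i) ^ 2
  congr 2
  have h2 : ∀ j, t j • y j = ∑ i, (U j i * t j) • x i := by
    intro j
    rw [hy, Finset.smul_sum]
    refine Finset.sum_congr rfl fun i _ => ?_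
    rw [smul_smul, mul_comm]
  rw [Finset.sum_congr rfl fun j _ => h2 j, Finset.sum_comm]
  refine Finset.sum_congr rfl fun i _ => ?_
  rw [he, Finset.sum_smul]
  rfl

theorem p_ORT : Stmt_ORT := by
  intro V _ _ _ N T S m hT hS hTy hCo U hU x y hy
  rcases Nat.eq_zero_or_pos m with rfl | hm
  · simp
  have hc := ORT_c_pos m ⟨0, hm⟩
  set c := ORT_c m ⟨0, hm⟩ with hcd
  have h2 : (0 : ℝ) < 2 ^ m := by positivity
  have hA : 2 ^ m * ORT_I N m x ≤ 2 ^ m * (T ^ 2 * (c * ∑ i, N (x i) ^ 2)) := by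
    rw [ORT_sign, hcd, ← ORT_mom N m x ⟨0, hm⟩, ← integral_const_mul, ← integral_const_mul]
    refine integral_mono (ORT_int m _ (ORT_cS N m x))
      (ORT_int m _ (((ORT_cM N m x).const_mul _).const_mul _)) fun t => ?_
    exact hTy fun i => t i • x i
  have hB : 2 ^ m * (c * ∑ j, N (y j) ^ 2) ≤ S ^ 2 * (2 ^ m * ORT_I N m y) := by
    rw [ORT_sign, hcd, ← ORT_mom N m y ⟨0, hm⟩, ← integral_const_mul, ← integral_const_mul]
    refine integral_mono (ORT_int m _ ((ORT_cM N m y).const_mul _))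
      (ORT_int m _ ((ORT_cS N m y).const_mul _)) fun t => ?_
    exact hCo fun i => t i • y i
  rw [ORT_rot N m U hU x y hy] at hB
  have hA' := le_of_mul_le_mul_left hA h2
  have hB' : c * ∑ j, N (y j) ^ 2 ≤ S ^ 2 * ORT_I N m x := by
    refine le_of_mul_le_mul_left ?_ h2
    calc 2 ^ m * (c * ∑ j, N (y j) ^ 2) ≤ S ^ 2 * (2 ^ m * ORT_I N m x) := hB
      _ = 2 ^ m * (S ^ 2 * ORT_I N m x) := by ring
  refine le_of_mul_le_mul_left ?_ hc
  calc c * ∑ j, N (y j) ^ 2 ≤ S ^ 2 * ORT_I N m x := hB'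
    _ ≤ S ^ 2 * (T ^ 2 * (c * ∑ i, N (x i) ^ 2)) := mul_le_mul_of_nonneg_left hA' (sq_nonneg _)
    _ = c * ((T * S) ^ 2 * ∑ i, N (x i) ^ 2) := by ring

end Pool.EH
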