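import Pool.Agent.Work.MP_3e8c7a_h.Interface

/-!
# Block PCK: packing (helper48)
-/

set_option autoImplicit false

namespace Pool.EH

open Module Pool.Agent.MP3e8c7a MeasureTheory
open scoped Pointwise

/-- A separated set of unit vectors with small `p`. -/
def PCK_good (n : ℕ) (p : Seminorm ℝ (EuclideanSpace ℝ (Fin n))) (R τ : ℝ)
    (T : Finset (EuclideanSpace ℝ (Fin n))) : Prop :=
  (∀ x ∈ T, ‖x‖ = 1 ∧ p x ≤ 1 / R) ∧ ∀ x ∈ T, ∀ y ∈ T, x ≠ y → τ < ‖x - y‖

theorem PCK_card (n : ℕ) (p : Seminorm ℝ (EuclideanSpace ℝ (Fin n))) (A R τ : ℝ) (hA : 1 ≤ A) (hτ : 0 < τ)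
    (hRτ : 2 ≤ R * τ) (hp : ∀ x, p x ≤ ‖x‖)
    (hv : volume {x : EuclideanSpace ℝ (Fin n) | p x ≤ 1} ≤
      ENNReal.ofReal (A ^ n) * volume (Metric.closedBall (0 : EuclideanSpace ℝ (Fin n)) 1))
    (T : Finset (EuclideanSpace ℝ (Fin n))) (hT : PCK_good n p R τ T) : (T.card : ℝ) ≤ (2 * A) ^ n := by
  have hR : 0 < R := by
    by_contra h
    have h1 : R * τ ≤ 0 := mul_nonpos_of_nonpos_of_nonneg (not_lt.1 h) hτ.le
    linarith
  set ρ := R * τ / 2 with hρ
  have hρ1 : 1 ≤ ρ := by rw [hρ]; linarith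
  have hρ0 : 0 < ρ := by linarith
  have hfin : finrank ℝ (EuclideanSpace ℝ (Fin n)) = n := by
    rw [finrank_euclideanSpace, Fintype.card_fin]
  set v := volume (Metric.closedBall (0 : EuclideanSpace ℝ (Fin n)) 1) with hvd
  have hv0 : v ≠ 0 := (Metric.measure_closedBall_pos volume _ one_pos).ne'
  have hvt : v ≠ ⊤ := measure_closedBall_lt_top.ne
  have hball : ∀ x : EuclideanSpace ℝ (Fin n), volume (Metric.closedBall x ρ) = ENNReal.ofReal (ρ ^ n) * v := by
    intro x
    rw [Measure.addHaar_closedBall volume x hρ0.le, hfin, hvd,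
      Measure.addHaar_unitClosedBall_eq_addHaar_unitBall]
  have hset : {x : EuclideanSpace ℝ (Fin n) | p x ≤ 1 + ρ} =
      (1 + ρ) • {x : EuclideanSpace ℝ (Fin n) | p x ≤ 1} := by
    have h0 : (1 + ρ) ≠ 0 := by linarith
    ext x
    rw [Set.mem_smul_set_iff_inv_smul_mem₀ h0, Set.mem_setOf_eq, Set.mem_setOf_eq, map_smul_eq_mul,
      Real.norm_eq_abs, abs_of_pos (inv_pos.2 (by linarith)), inv_mul_le_iff₀ (by linarith), mul_one]
  have hvol : volume {x : EuclideanSpace ℝ (Fin n) | p x ≤ 1 + ρ} ≤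
      ENNReal.ofReal ((1 + ρ) ^ n) * (ENNReal.ofReal (A ^ n) * v) := by
    rw [hset, Measure.addHaar_smul, hfin, abs_of_pos (by positivity)]
    gcongr
  have hsub : (⋃ x ∈ T, Metric.closedBall (R • x) ρ) ⊆ {x : EuclideanSpace ℝ (Fin n) | p x ≤ 1 + ρ} := by
    intro z hz
    rw [Set.mem_iUnion₂] at hz
    obtain ⟨x, hx, hz⟩ := hz
    rw [Metric.mem_closedBall, dist_eq_norm] at hz
    have h1 : p (R • x) ≤ 1 := by
      rw [map_smul_eq_mul, Real.norm_eq_abs, abs_of_pos hR]
      calc R * p x ≤ R * (1 / R) := mul_le_mul_of_nonneg_left (hT.1 x hx).2 hR.le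
        _ = 1 := by field_simp
    have h2 : p z ≤ p (R • x) + p (z - R • x) := by
      calc p z = p (R • x + (z - R • x)) := by rw [add_sub_cancel]
        _ ≤ p (R • x) + p (z - R • x) := map_add_le_add p _ _
    have h3 := hp (z - R • x)
    show p z ≤ 1 + ρ
    linarith
  have hdisj : (T : Set (EuclideanSpace ℝ (Fin n))).PairwiseDisjoint fun x => Metric.closedBall (R • x) ρ := by
    intro x hx y hy hxy
    refine Metric.closedBall_disjoint_closedBall ?_
    rw [dist_eq_norm, ← smul_sub, norm_smul, Real.norm_eq_abs, abs_of_pos hR]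
    have h1 := hT.2 x hx y hy hxy
    calc ρ + ρ = R * τ := by rw [hρ]; ring
      _ < R * ‖x - y‖ := mul_lt_mul_of_pos_left h1 hR
  have hsum : volume (⋃ x ∈ T, Metric.closedBall (R • x) ρ) = T.card * (ENNReal.ofReal (ρ ^ n) * v) := by
    rw [measure_biUnion_finset hdisj fun x _ => Metric.isClosed_closedBall.measurableSet]
    simp only [hball, Finset.sum_const, nsmul_eq_mul]
  have hmain : (T.card : ENNReal) * (ENNReal.ofReal (ρ ^ n) * v) ≤
      ENNReal.ofReal ((1 + ρ) ^ n) * (ENNReal.ofReal (A ^ n) * v) := by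
    rw [← hsum]
    exact (measure_mono hsub).trans hvol
  have hmain2 : (T.card : ENNReal) * ENNReal.ofReal (ρ ^ n) ≤
      ENNReal.ofReal ((1 + ρ) ^ n) * ENNReal.ofReal (A ^ n) := by
    rw [← mul_assoc, ← mul_assoc] at hmain
    exact (ENNReal.mul_le_mul_iff_left hv0 hvt).1 hmain
  have hmain3 : (T.card : ℝ) * ρ ^ n ≤ (1 + ρ) ^ n * A ^ n := by
    rw [← ENNReal.ofReal_natCast, ← ENNReal.ofReal_mul (Nat.cast_nonneg _),
      ← ENNReal.ofReal_mul (by positivity), ENNReal.ofReal_le_ofReal_iff (by positivity)] at hmain2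
    exact hmain2
  have h4 : (1 + ρ) ^ n * A ^ n ≤ (2 * A) ^ n * ρ ^ n := by
    rw [← mul_pow, ← mul_pow]
    refine pow_le_pow_left₀ (by positivity) ?_ n
    nlinarith
  exact le_of_mul_le_mul_right (hmain3.trans h4) (by positivity)

theorem p_PCK : Stmt_PCK := by
  classical
  intro n p A R τ hA hτ hRτ hp hv
  have hcard := PCK_card n p A R τ hA hτ hRτ hp hv
  let P : ℕ → Prop := fun k => ∃ T : Finset (EuclideanSpace ℝ (Fin n)), T.card = k ∧ PCK_good n p R τ T
  have hbd : ∀ k, P k → k ≤ ⌊(2 * A) ^ n⌋₊ := by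
    rintro k ⟨T, rfl, hT⟩
    exact Nat.le_floor (hcard T hT)
  have hP0 : P 0 := ⟨∅, Finset.card_empty, by
    constructor
    · intro x hx
      exact absurd hx (Finset.notMem_empty x)
    · intro x hx
      exact absurd hx (Finset.notMem_empty x)⟩
  obtain ⟨T, hTc, hT⟩ := Nat.findGreatest_spec (P := P) (Nat.zero_le ⌊(2 * A) ^ n⌋₊) hP0
  refine ⟨T, hcard T hT, fun x hx => (hT.1 x hx).1, fun x hx hpx => ?_⟩
  by_contra hcon
  push Not at hcon
  have hxT : x ∉ T := by
    intro hxT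
    have h1 := hcon x hxT
    rw [sub_self, norm_zero] at h1
    linarith
  have hgood : PCK_good n p R τ (insert x T) := by
    constructor
    · intro y hy
      rcases Finset.mem_insert.1 hy with rfl | hy
      · exact ⟨hx, hpx⟩
      · exact hT.1 y hy
    · intro y hy z hz hyz
      rcases Finset.mem_insert.1 hy with hy1 | hy1
      · rcases Finset.mem_insert.1 hz with hz1 | hz1
        · exact absurd (hy1.trans hz1.symm) hyz
        · rw [hy1]
          exact hcon z hz1
      · rcases Finset.mem_insert.1 hz with hz1 | hz1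
        · rw [norm_sub_rev, hz1]
          exact hcon y hy1
        · exact hT.2 y hy1 z hz1 hyz
  have hP : P (T.card + 1) := ⟨insert x T, Finset.card_insert_of_notMem hxT, hgood⟩
  exact Nat.findGreatest_is_greatest (P := P) (n := ⌊(2 * A) ^ n⌋₊) (k := T.card + 1)
    (by rw [← hTc]; exact Nat.lt_succ_self _) (hbd _ hP) hP

end Pool.EH
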