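import Pool.Agent.Work.MP_3e8c7a_h.Interface

/-! # Block PO1 (helper83): good position -/

set_option autoImplicit false

namespace Pool.EH

open Module Pool.Agent.MP3e8c7a

theorem PO1_main {V : Type} [AddCommGroup V] [Module ℝ V] [FiniteDimensional ℝ V]
    (h1 : Stmt_NET) {τ κ C C₁ : ℝ} {j c : ℕ} (hτ : 0 < τ)
    (hRND : ∀ d c : ℕ, 1 ≤ c → (d : ℝ) ≤ κ * c →
      ∀ T : Finset (EuclideanSpace ℝ (Fin d)), (∀ x ∈ T, ‖x‖ = 1) → (T.card : ℝ) ≤ 2 ^ c →
      ∃ E : Submodule ℝ (EuclideanSpace ℝ (Fin d)), d ≤ finrank ℝ E + c ∧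
        ∀ x ∈ T, ∀ y ∈ E, τ ≤ ‖x - y‖)
    (hC : 1 ≤ C) (hC₁ : C₁ = 32 * C / τ) (hC₂ : 2 ≤ C₁) (hj : C₁ ≤ 2 ^ j)
    (N : Seminorm ℝ V) (hN : Def N) (E F : Submodule ℝ V) (hE : Eu C (N.comp E.subtype))
    (hc : 1 ≤ c) (hec : (finrank ℝ E : ℝ) ≤ κ * c) (hm : 3 * (j * finrank ℝ F) ≤ c) :
    ∃ E' : Submodule ℝ V, E' ≤ E ∧ finrank ℝ E ≤ finrank ℝ E' + c ∧ Pos C₁ N F E' := by
  classical
  have hC0 : 0 < C := by linarith
  have hC10 : 0 < C₁ := by linarith
  obtain ⟨T, hT⟩ := hE.exists_equiv (hN.comp E.subtype E.injective_subtype)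
  obtain ⟨TF, hcard, hnet⟩ := h1 F (N.comp F.subtype) (hN.comp F.subtype F.injective_subtype) j
  let P : F → E → Prop := fun w' x => N ((w' : V) + x) ≤ 2 / C₁ ∧ 1 / (4 * C) ≤ ‖T x‖
  let f : F → E := fun w' => if h : ∃ x, P w' x then h.choose else 0
  have hf : ∀ w', (∃ x, P w' x) → P w' (f w') := by
    intro w' h
    have e : f w' = h.choose := by simp only [f]; rw [dif_pos h]
    rw [e]
    exact h.choose_spec
  let S : Finset F := TF.filter (fun w' => ∃ x, P w' x)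
  let 𝒯 : Finset (EuclideanSpace ℝ (Fin (finrank ℝ E))) :=
    S.image (fun w' => (‖T (f w')‖)⁻¹ • T (f w'))
  have hpos : ∀ w' ∈ S, 0 < ‖T (f w')‖ := by
    intro w' hw'
    have h2 := (hf w' (Finset.mem_filter.1 hw').2).2
    have h3 : 0 < 1 / (4 * C) := by positivity
    linarith
  have hunit : ∀ x ∈ 𝒯, ‖x‖ = 1 := by
    intro x hx
    obtain ⟨w', hw', rfl⟩ := Finset.mem_image.1 hx
    have h2 := hpos w' hw'
    rw [norm_smul, norm_inv, norm_norm, inv_mul_cancel₀ h2.ne']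
  have hcard2 : (𝒯.card : ℝ) ≤ 2 ^ c := by
    have h2 : 𝒯.card ≤ 5 ^ (j * finrank ℝ F) :=
      (Finset.card_image_le.trans (Finset.card_filter_le _ _)).trans hcard
    have h3 : 5 ^ (j * finrank ℝ F) ≤ 2 ^ c := by
      calc 5 ^ (j * finrank ℝ F) ≤ (2 ^ 3) ^ (j * finrank ℝ F) := Nat.pow_le_pow_left (by norm_num) _
        _ = 2 ^ (3 * (j * finrank ℝ F)) := by rw [← pow_mul]
        _ ≤ 2 ^ c := Nat.pow_le_pow_right (by norm_num) hm
    exact_mod_cast h2.trans h3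
  obtain ⟨E₁, hE₁, hsep⟩ := hRND (finrank ℝ E) c hc hec 𝒯 hunit hcard2
  refine ⟨(E₁.comap (T : E →ₗ[ℝ] EuclideanSpace ℝ (Fin (finrank ℝ E)))).map E.subtype,
    Submodule.map_subtype_le _ _, ?_, ?_⟩
  · have e1 : finrank ℝ ((E₁.comap (T : E →ₗ[ℝ] EuclideanSpace ℝ (Fin (finrank ℝ E)))).map
        E.subtype) = finrank ℝ E₁ := by
      rw [← (Submodule.equivMapOfInjective E.subtype E.injective_subtype _).finrank_eq]
      have h2 : E₁.comap (T : E →ₗ[ℝ] EuclideanSpace ℝ (Fin (finrank ℝ E))) =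
          E₁.map (T.symm : EuclideanSpace ℝ (Fin (finrank ℝ E)) →ₗ[ℝ] E) :=
        Submodule.comap_equiv_eq_map_symm T E₁
      rw [h2]
      exact (Submodule.equivMapOfInjective _ T.symm.injective _).finrank_eq.symm
    rw [e1]
    exact hE₁
  · intro w hw x hx
    by_contra hcon
    rw [not_le] at hcon
    have hNw : 0 < N w := lt_of_le_of_lt (mul_nonneg hC10.le (apply_nonneg _ _)) hcon
    obtain ⟨z, hz, rfl⟩ := (Submodule.mem_map).1 hx
    have hz1 : T z ∈ E₁ := hz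
    set a : ℝ := (N w)⁻¹ with ha
    have ha0 : 0 < a := inv_pos.2 hNw
    let w1 : F := ⟨a • w, F.smul_mem a hw⟩
    have hw1 : N (a • w) = 1 := by
      rw [map_smul_eq_mul, Real.norm_eq_abs, abs_of_pos ha0, ha, inv_mul_cancel₀ hNw.ne']
    have hwx : N (a • w + a • (z : V)) ≤ 1 / C₁ := by
      rw [← smul_add, map_smul_eq_mul, Real.norm_eq_abs, abs_of_pos ha0, le_div_iff₀ hC10]
      have h2 : a * (C₁ * N (w + (z : V))) ≤ a * N w := by
        apply mul_le_mul_of_nonneg_left hcon.le ha0.le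
      have h3 : a * N w = 1 := by rw [ha, inv_mul_cancel₀ hNw.ne']
      calc a * N (w + (z : V)) * C₁ = a * (C₁ * N (w + (z : V))) := by ring
        _ ≤ 1 := by rw [← h3]; exact h2
    obtain ⟨w', hw', hd⟩ := hnet w1 (le_of_eq hw1)
    have hd2 : N (a • w - (w' : V)) ≤ 1 / C₁ := by
      have h2 : N (a • w - (w' : V)) ≤ 1 / 2 ^ j := hd
      refine h2.trans ?_
      exact one_div_le_one_div_of_le hC10 hj
    have hx1 : N ((w' : V) + a • (z : V)) ≤ 2 / C₁ := by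
      have e : (w' : V) + a • (z : V) = (a • w + a • (z : V)) - (a • w - (w' : V)) := by abel
      rw [e]
      calc N ((a • w + a • (z : V)) - (a • w - (w' : V)))
          ≤ N (a • w + a • (z : V)) + N (a • w - (w' : V)) := map_sub_le_add N _ _
        _ ≤ 1 / C₁ + 1 / C₁ := add_le_add hwx hd2
        _ = 2 / C₁ := by ring
    have hNx : 1 / 2 ≤ N (a • (z : V)) := by
      have e : a • w = (a • w + a • (z : V)) - a • (z : V) := by abel
      have h2 : N (a • w) ≤ N (a • w + a • (z : V)) + N (a • (z : V)) := by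
        calc N (a • w) = N ((a • w + a • (z : V)) - a • (z : V)) := by rw [← e]
          _ ≤ _ := map_sub_le_add N _ _
      have h3 : 1 / C₁ ≤ 1 / 2 := one_div_le_one_div_of_le (by norm_num) hC₂
      rw [hw1] at h2
      linarith
    have hTz : 1 / (4 * C) ≤ ‖T (a • z)‖ := by
      have h2 : N (a • (z : V)) ≤ C * ‖T (a • z)‖ := (hT (a • z)).2
      rw [div_le_iff₀ (by positivity)]
      have h3 : 1 / 2 ≤ C * ‖T (a • z)‖ := hNx.trans h2
      nlinarith
    have hex : ∃ x, P w' x := ⟨a • z, hx1, hTz⟩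
    have hS : w' ∈ S := Finset.mem_filter.2 ⟨hw', hex⟩
    obtain ⟨hu1, hu2⟩ := hf w' hex
    have hdiff : ‖T (f w') - T (a • z)‖ ≤ 4 / C₁ := by
      rw [← map_sub]
      refine (hT _).1.trans ?_
      show N (((f w' - a • z : E) : V)) ≤ 4 / C₁
      have e : ((f w' - a • z : E) : V) =
          ((w' : V) + (f w' : V)) - ((w' : V) + a • (z : V)) := by
        push_cast
        abel
      rw [e]
      calc N (((w' : V) + (f w' : V)) - ((w' : V) + a • (z : V)))
          ≤ N ((w' : V) + (f w' : V)) + N ((w' : V) + a • (z : V)) := map_sub_le_add N _ _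
        _ ≤ 2 / C₁ + 2 / C₁ := add_le_add hu1 hx1
        _ = 4 / C₁ := by ring
    have hβ := hpos w' hS
    have h5 := hsep _ (Finset.mem_image_of_mem _ hS) ((‖T (f w')‖)⁻¹ • T (a • z))
      (E₁.smul_mem _ (by rw [map_smul]; exact E₁.smul_mem _ hz1))
    rw [← smul_sub, norm_smul, norm_inv, norm_norm] at h5
    have h6 : (‖T (f w')‖)⁻¹ ≤ 4 * C := by
      rw [inv_le_comm₀ hβ (by positivity)]
      have : (4 * C)⁻¹ = 1 / (4 * C) := (one_div _).symm
      rw [this]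
      exact hu2
    have h7 : (‖T (f w')‖)⁻¹ * ‖T (f w') - T (a • z)‖ ≤ (4 * C) * (4 / C₁) :=
      mul_le_mul h6 hdiff (norm_nonneg _) (by positivity)
    have h8 : (4 * C) * (4 / C₁) = τ / 2 := by
      rw [hC₁]
      field_simp
      ring
    linarith

theorem p_PO1 (h1 : Stmt_NET) (h2 : Stmt_RND) : Stmt_PO1 := by
  intro η C hη hη1 hC
  have hκ : 1 ≤ 2 / η := by
    rw [le_div_iff₀ hη]
    linarith
  obtain ⟨τ, hτ, hτ1, hRND⟩ := h2 (2 / η) 2 hκ (by norm_num)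
  have hC₂ : 32 ≤ 32 * C / τ := by
    rw [le_div_iff₀ hτ]
    nlinarith
  obtain ⟨j, hj⟩ := pow_unbounded_of_one_lt (32 * C / τ) (one_lt_two : (1 : ℝ) < 2)
  have hj1 : 1 ≤ j := by
    by_contra h
    have : j = 0 := by omega
    rw [this] at hj
    norm_num at hj
    linarith
  have hj0 : (0 : ℝ) < j := by exact_mod_cast hj1
  have hκ0 : 0 < 2 / η := by positivity
  have hθ0 : 0 < min (η / 2) (1 / (3 * (2 / η) * j)) := by
    apply lt_min
    · linarith
    · positivity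
  refine ⟨min (η / 2) (1 / (3 * (2 / η) * j)), 32 * C / τ, hθ0,
    (min_le_left _ _).trans (by linarith), by linarith, ?_⟩
  intro V _ _ _ N hN E F hE hdim
  by_cases hm : finrank ℝ F = 0
  · have hF : F = ⊥ := Submodule.finrank_eq_zero.1 hm
    refine ⟨E, le_rfl, ?_, ?_⟩
    · have : (0 : ℝ) ≤ finrank ℝ E := Nat.cast_nonneg _
      nlinarith
    · intro w hw x hx
      rw [hF, Submodule.mem_bot] at hw
      rw [hw, map_zero]
      exact mul_nonneg (by linarith) (apply_nonneg _ _)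
  · have hm1 : (1 : ℝ) ≤ finrank ℝ F := by
      exact_mod_cast Nat.one_le_iff_ne_zero.2 hm
    set e : ℝ := (finrank ℝ E : ℝ) with he
    have he0 : 0 ≤ e := Nat.cast_nonneg _
    have h3 : 1 ≤ η / 2 * e := by
      calc (1 : ℝ) ≤ min (η / 2) (1 / (3 * (2 / η) * j)) * e := hm1.trans hdim
        _ ≤ η / 2 * e := by
          apply mul_le_mul_of_nonneg_right (min_le_left _ _) he0
    have h4 : 2 ≤ η * e := by linarith
    have h5 : (⌊η * e⌋₊ : ℝ) ≤ η * e := Nat.floor_le (by linarith)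
    have h6 : η * e < ⌊η * e⌋₊ + 1 := Nat.lt_floor_add_one _
    have h7 : η * e / 2 ≤ ⌊η * e⌋₊ := by linarith
    have hc1 : 1 ≤ ⌊η * e⌋₊ := by
      have : (1 : ℝ) ≤ ⌊η * e⌋₊ := by linarith
      exact_mod_cast this
    have hec : e ≤ 2 / η * ⌊η * e⌋₊ := by
      calc e = 2 / η * (η * e / 2) := by field_simp
        _ ≤ 2 / η * ⌊η * e⌋₊ := by gcongr
    have hm3 : 3 * (j * finrank ℝ F) ≤ ⌊η * e⌋₊ := by
      have h8 : (3 : ℝ) * (j * finrank ℝ F) ≤ ⌊η * e⌋₊ := by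
        have h9 : (finrank ℝ F : ℝ) ≤ 1 / (3 * (2 / η) * j) * e := by
          refine hdim.trans ?_
          exact mul_le_mul_of_nonneg_right (min_le_right _ _) he0
        calc (3 : ℝ) * (j * finrank ℝ F) ≤ 3 * (j * (1 / (3 * (2 / η) * j) * e)) := by gcongr
          _ = η * e / 2 := by field_simp
          _ ≤ ⌊η * e⌋₊ := h7
      exact_mod_cast h8
    obtain ⟨E', hE', hfin, hpos⟩ := PO1_main h1 hτ hRND hC rfl (by linarith) hj.le N hN E F hE
      hc1 hec hm3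
    refine ⟨E', hE', ?_, hpos⟩
    have h10 : (finrank ℝ E : ℝ) ≤ finrank ℝ E' + ⌊η * e⌋₊ := by exact_mod_cast hfin
    rw [← he] at h10
    linarith

end Pool.EH
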