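import Pool.Agent.Work.MP_3e8c7a_h.Interface

/-! # Block POS -/

set_option autoImplicit false

namespace Pool.EH

open Module Pool.Agent.MP3e8c7a

theorem p_POS (h1 : Stmt_PO1) : Stmt_POS := by
  intro η C hη hη1 hC
  obtain ⟨θ, C₁, hθ, hθ1, hC1, h⟩ := h1 (η / 2) C (by linarith) (by linarith) hC
  refine ⟨θ / 2, C₁, by linarith, by linarith, hC1, ?_⟩
  intro V _ _ _ p r hp hr E F hEp hEr hF
  have hE0 : (0 : ℝ) ≤ finrank ℝ E := Nat.cast_nonneg _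
  obtain ⟨E1, hE1, hE1', hP1⟩ := h V p hp E F hEp (by nlinarith)
  have h2 : (1 / 2 : ℝ) * finrank ℝ E ≤ finrank ℝ E1 := by nlinarith
  obtain ⟨E2, hE2, hE2', hP2⟩ := h V r hr E1 F (hEr.sub hE1) (by nlinarith)
  refine ⟨E2, hE2.trans hE1, ?_, hP1.mono le_rfl le_rfl hE2, hP2⟩
  have h3 : (1 - η / 2) * ((1 - η / 2) * finrank ℝ E) ≤ (1 - η / 2) * (finrank ℝ E1 : ℝ) :=
    mul_le_mul_of_nonneg_left hE1' (by linarith)
  have h4 : (1 - η) * (finrank ℝ E : ℝ) ≤ (1 - η / 2) * ((1 - η / 2) * finrank ℝ E) := by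
    have h5 : 0 ≤ (η / 2) ^ 2 * (finrank ℝ E : ℝ) := by positivity
    nlinarith
  linarith

end Pool.EH
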