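import Pool.Agent.Work.MP_3e8c7a_h.Interface

/-! Block RND (helper90): random kernels. -/

set_option autoImplicit false

namespace Pool.EH

open Module Pool.Agent.MP3e8c7a MeasureTheory ProbabilityTheory
open scoped RealInnerProductSpace

/-- The seminorm `∑ |⟪g s, y⟫|`, as a function. -/
noncomputable def RND_L {d c : ℕ} (g : Fin c → EuclideanSpace ℝ (Fin d))
    (y : EuclideanSpace ℝ (Fin d)) : ℝ := ∑ s, |⟪g s, y⟫|

theorem RND_add {d c : ℕ} (g : Fin c → EuclideanSpace ℝ (Fin d)) (x y : EuclideanSpace ℝ (Fin d)) :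
    RND_L g (x + y) ≤ RND_L g x + RND_L g y := by
  unfold RND_L
  rw [← Finset.sum_add_distrib]
  refine Finset.sum_le_sum fun s _ => ?_
  rw [inner_add_right]
  exact abs_add_le _ _

theorem RND_smul {d c : ℕ} (g : Fin c → EuclideanSpace ℝ (Fin d)) (r : ℝ)
    (y : EuclideanSpace ℝ (Fin d)) : RND_L g (r • y) = |r| * RND_L g y := by
  unfold RND_L
  rw [Finset.mul_sum]
  refine Finset.sum_congr rfl fun s _ => ?_
  rw [real_inner_smul_right, abs_mul]

theorem RND_ball {d c : ℕ} (g : Fin c → EuclideanSpace ℝ (Fin d)) (u : ℝ)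
    (S : Finset (EuclideanSpace ℝ (Fin d))) (hS : ∀ x ∈ S, RND_L g x < u)
    (hnet : ∀ w : EuclideanSpace ℝ (Fin d), ‖w‖ ≤ 1 → ∃ y ∈ S, ‖w - y‖ ≤ 1 / 2)
    (y : EuclideanSpace ℝ (Fin d)) (hy : ‖y‖ ≤ 1) : RND_L g y ≤ 2 * u := by
  have key : ∀ n : ℕ, ∀ y : EuclideanSpace ℝ (Fin d), ‖y‖ ≤ 1 →
      RND_L g y ≤ 2 * u + (∑ s, ‖g s‖) * (1 / 2) ^ n := by
    intro n
    induction n with
    | zero =>
      intro y hy
      obtain ⟨z, hz, -⟩ := hnet 0 (by simp)
      have hu : 0 ≤ u := le_trans (Finset.sum_nonneg fun s _ => abs_nonneg _) (hS z hz).le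
      have h1 : RND_L g y ≤ ∑ s, ‖g s‖ := by
        refine Finset.sum_le_sum fun s _ => ?_
        refine (abs_real_inner_le_norm _ _).trans ?_
        exact mul_le_of_le_one_right (norm_nonneg _) hy
      rw [pow_zero, mul_one]
      linarith
    | succ n ih =>
      intro y hy
      obtain ⟨z, hz, hyz⟩ := hnet y hy
      have h1 : ‖(2 : ℝ) • (y - z)‖ ≤ 1 := by
        rw [norm_smul, Real.norm_eq_abs, abs_of_pos (by norm_num : (0 : ℝ) < 2)]
        linarith
      have h2 := ih _ h1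
      rw [RND_smul, abs_of_pos (by norm_num : (0 : ℝ) < 2)] at h2
      have h3 := RND_add g z (y - z)
      rw [add_sub_cancel] at h3
      have h4 := hS z hz
      rw [pow_succ]
      linarith
  have hlim : Filter.Tendsto (fun n : ℕ => 2 * u + (∑ s, ‖g s‖) * (1 / 2 : ℝ) ^ n) Filter.atTop
      (nhds (2 * u + (∑ s, ‖g s‖) * 0)) :=
    tendsto_const_nhds.add ((tendsto_pow_atTop_nhds_zero_of_lt_one (by norm_num)
      (by norm_num)).const_mul _)
  rw [mul_zero, add_zero] at hlim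
  exact ge_of_tendsto' hlim fun n => key n y hy

theorem RND_all {d c : ℕ} (g : Fin c → EuclideanSpace ℝ (Fin d)) (u : ℝ)
    (h : ∀ y : EuclideanSpace ℝ (Fin d), ‖y‖ ≤ 1 → RND_L g y ≤ u)
    (y : EuclideanSpace ℝ (Fin d)) : RND_L g y ≤ u * ‖y‖ := by
  by_cases hy : y = 0
  · subst hy
    rw [norm_zero, mul_zero]
    simp [RND_L]
  · have hy' : 0 < ‖y‖ := norm_pos_iff.2 hy
    have h1 := h (‖y‖⁻¹ • y) (by rw [norm_smul, norm_inv, norm_norm, inv_mul_cancel₀ hy'.ne'])
    rw [RND_smul, abs_of_pos (inv_pos.2 hy'), inv_mul_le_iff₀ hy'] at h1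
    linarith

theorem p_RND (hROW : Stmt_ROW) (hNE1 : Stmt_NE1) : Stmt_RND := by
  intro κ Γ hκ hΓ
  have h5 : (1 : ℝ) ≤ 5 ^ κ := Real.one_le_rpow (by norm_num) (by linarith)
  have h5' : (0 : ℝ) < 5 ^ κ := by linarith
  set t : ℝ := 1 + Real.log (16 * 5 ^ κ) with ht
  have hlog : 0 ≤ Real.log (16 * 5 ^ κ) := Real.log_nonneg (by linarith)
  have ht1 : 1 ≤ t := by linarith
  have hexp : Real.exp (-t) ≤ 1 / (16 * 5 ^ κ) := by
    calc Real.exp (-t) ≤ Real.exp (-Real.log (16 * 5 ^ κ)) := Real.exp_le_exp.2 (by linarith)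
      _ = 1 / (16 * 5 ^ κ) := by
        rw [Real.exp_neg, Real.exp_log (by positivity), one_div]
  have hΓ0 : 0 < Γ := by linarith
  set a : ℝ := 1 / (16 * Γ) with ha
  have ha0 : 0 < a := by positivity
  have ha1 : a ≤ 1 := by
    rw [ha, div_le_one (by positivity)]
    linarith
  refine ⟨a / (2 * t), by positivity, ?_, ?_⟩
  · rw [div_le_one (by positivity)]
    linarith
  intro d c hc hdc T hT hTc
  obtain ⟨S, hS1, hS2, hS3⟩ := hNE1 (EuclideanSpace ℝ (Fin d))
    (normSeminorm ℝ (EuclideanSpace ℝ (Fin d))) (fun x hx => norm_eq_zero.1 hx)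
  rw [finrank_euclideanSpace_fin] at hS1
  have hc0 : (0 : ℝ) < c := by exact_mod_cast hc
  have hsum : (T.card : ℝ) * (Real.exp 1 * a) ^ c + (S.card : ℝ) * (4 * Real.exp (-t)) ^ c < 1 := by
    have h1 : (T.card : ℝ) * (Real.exp 1 * a) ^ c ≤ (1 / 4) ^ c := by
      calc (T.card : ℝ) * (Real.exp 1 * a) ^ c ≤ Γ ^ c * (Real.exp 1 * a) ^ c :=
            mul_le_mul_of_nonneg_right hTc (by positivity)
        _ = (Γ * (Real.exp 1 * a)) ^ c := (mul_pow _ _ _).symm
        _ ≤ (1 / 4) ^ c := by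
          refine pow_le_pow_left₀ (by positivity) ?_ c
          have h2 : Γ * (Real.exp 1 * a) = Real.exp 1 / 16 := by
            rw [ha]
            field_simp
          rw [h2]
          have := Real.exp_one_lt_d9
          linarith
    have h2 : (S.card : ℝ) * (4 * Real.exp (-t)) ^ c ≤ (1 / 4) ^ c := by
      have h3 : (S.card : ℝ) ≤ ((5 : ℝ) ^ κ) ^ c := by
        calc (S.card : ℝ) ≤ (5 : ℝ) ^ d := by exact_mod_cast hS1
          _ = (5 : ℝ) ^ (d : ℝ) := (Real.rpow_natCast _ _).symm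
          _ ≤ (5 : ℝ) ^ (κ * c) := Real.rpow_le_rpow_of_exponent_le (by norm_num) hdc
          _ = ((5 : ℝ) ^ κ) ^ c := by rw [Real.rpow_mul (by norm_num), Real.rpow_natCast]
      calc (S.card : ℝ) * (4 * Real.exp (-t)) ^ c ≤ ((5 : ℝ) ^ κ) ^ c * (4 * Real.exp (-t)) ^ c :=
            mul_le_mul_of_nonneg_right h3 (by positivity)
        _ = ((5 : ℝ) ^ κ * (4 * Real.exp (-t))) ^ c := (mul_pow _ _ _).symm
        _ ≤ (1 / 4) ^ c := by
          refine pow_le_pow_left₀ (by positivity) ?_ c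
          calc (5 : ℝ) ^ κ * (4 * Real.exp (-t)) ≤ (5 : ℝ) ^ κ * (4 * (1 / (16 * 5 ^ κ))) := by
                gcongr
            _ = 1 / 4 := by
                field_simp
                norm_num
    have h3 : (1 / 4 : ℝ) ^ c ≤ 1 / 4 := by
      calc (1 / 4 : ℝ) ^ c ≤ (1 / 4 : ℝ) ^ 1 :=
            pow_le_pow_of_le_one (by norm_num) (by norm_num) hc
        _ = 1 / 4 := pow_one _
    linarith
  obtain ⟨g, hg1, hg2⟩ := hROW d c a t ha0 T S hT hS2 hsum
  let L : EuclideanSpace ℝ (Fin d) →ₗ[ℝ] (Fin c → ℝ) :=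
    LinearMap.pi fun s => (innerSL ℝ (g s)).toLinearMap
  have hker : ∀ y ∈ LinearMap.ker L, ∀ s, ⟪g s, y⟫ = 0 := by
    intro y hy s
    have h1 : L y = 0 := LinearMap.mem_ker.1 hy
    have h2 := congrFun h1 s
    exact h2
  refine ⟨LinearMap.ker L, ?_, ?_⟩
  · have h1 := LinearMap.finrank_range_add_finrank_ker L
    rw [finrank_euclideanSpace_fin] at h1
    have h2 : finrank ℝ (LinearMap.range L) ≤ c := by
      have := Submodule.finrank_le (LinearMap.range L)
      rwa [finrank_fin_fun] at this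
    omega
  · intro x hx y hy
    have h1 : RND_L g (x - y) ≤ 2 * (t * c) * ‖x - y‖ :=
      RND_all g _ (RND_ball g (t * c) S hg2 hS3) (x - y)
    have h2 : RND_L g (x - y) = RND_L g x := by
      unfold RND_L
      refine Finset.sum_congr rfl fun s _ => ?_
      rw [inner_sub_right, hker y hy s, sub_zero]
    have h3 : a * c < RND_L g x := hg1 x hx
    rw [h2] at h1
    rw [div_le_iff₀ (by positivity)]
    have h4 : a * c < 2 * (t * c) * ‖x - y‖ := h3.trans_le h1
    have h5 : c * a < c * (‖x - y‖ * (2 * t)) := by linarith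
    exact (lt_of_mul_lt_mul_left h5 hc0.le).le

end Pool.EH
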