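import Pool.Agent.Work.MP_3e8c7a_h.Interface

/-!
# Block ROW: good matrices (helper46)

First moment method for the sum of the exponential moments.
-/

set_option autoImplicit false

namespace Pool.EH

open Module Pool.Agent.MP3e8c7a MeasureTheory ProbabilityTheory
open scoped RealInnerProductSpace

theorem ROW_prod (d c : ℕ) (φ : EuclideanSpace ℝ (Fin d) → ℝ)
    (hφ : Integrable φ (stdGaussian (EuclideanSpace ℝ (Fin d)))) (hp : ∀ g, 0 ≤ φ g) (K B : ℝ)
    (hK : 0 ≤ K) (hB : ∫ g, φ g ∂(stdGaussian (EuclideanSpace ℝ (Fin d))) ≤ B) :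
    Integrable (fun g : Fin c → EuclideanSpace ℝ (Fin d) => K * ∏ s, φ (g s))
      (Measure.pi fun _ => stdGaussian (EuclideanSpace ℝ (Fin d))) ∧
    ∫ g : Fin c → EuclideanSpace ℝ (Fin d), K * ∏ s, φ (g s)
      ∂(Measure.pi fun _ => stdGaussian (EuclideanSpace ℝ (Fin d))) ≤ K * B ^ c := by
  constructor
  · exact (Integrable.fintype_prod (f := fun _ => φ) fun _ => hφ).const_mul K
  · rw [integral_const_mul, integral_fintype_prod_eq_pow, Fintype.card_fin]
    exact mul_le_mul_of_nonneg_left (pow_le_pow_left₀ (integral_nonneg hp) hB c) hK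

theorem p_ROW (h1 : Stmt_GEX) : Stmt_ROW := by
  intro d c a t ha T S hT hS hlt
  have hexp : ∀ (u : ℝ), Real.exp u < 1 → u < 0 := by
    intro u hu
    by_contra h
    exact absurd hu (not_lt.2 (Real.one_le_exp (not_lt.1 h)))
  have hA : ∀ x ∈ T, Integrable (fun g : Fin c → EuclideanSpace ℝ (Fin d) =>
        Real.exp c * ∏ s, Real.exp (-|⟪g s, x⟫| / a))
      (Measure.pi fun _ => stdGaussian (EuclideanSpace ℝ (Fin d))) ∧
      ∫ g : Fin c → EuclideanSpace ℝ (Fin d), Real.exp c * ∏ s, Real.exp (-|⟪g s, x⟫| / a)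
      ∂(Measure.pi fun _ => stdGaussian (EuclideanSpace ℝ (Fin d))) ≤ (Real.exp 1 * a) ^ c := by
    intro x hx
    have hI : Integrable (fun g : EuclideanSpace ℝ (Fin d) => Real.exp (-|⟪g, x⟫| / a))
        (stdGaussian (EuclideanSpace ℝ (Fin d))) := by
      refine (integrable_const (1 : ℝ)).mono' ?_ ?_
      · have : Measurable (fun g : EuclideanSpace ℝ (Fin d) => Real.exp (-|⟪g, x⟫| / a)) := by
          fun_prop
        exact this.aestronglyMeasurable
      · refine Filter.Eventually.of_forall fun g => ?_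
        rw [Real.norm_of_nonneg (Real.exp_pos _).le, Real.exp_le_one_iff]
        exact div_nonpos_of_nonpos_of_nonneg (neg_nonpos.2 (abs_nonneg _)) ha.le
    have h2 := ROW_prod d c _ hI (fun g => (Real.exp_pos _).le) (Real.exp c) a (Real.exp_pos _).le
      ((h1 d x).1 (hT x hx) a ha)
    refine ⟨h2.1, h2.2.trans_eq ?_⟩
    rw [mul_pow, ← Real.exp_nat_mul, mul_one]
  have hC : ∀ x ∈ S, Integrable (fun g : Fin c → EuclideanSpace ℝ (Fin d) =>
        Real.exp (-(t * c)) * ∏ s, Real.exp |⟪g s, x⟫|)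
      (Measure.pi fun _ => stdGaussian (EuclideanSpace ℝ (Fin d))) ∧
      ∫ g : Fin c → EuclideanSpace ℝ (Fin d), Real.exp (-(t * c)) * ∏ s, Real.exp |⟪g s, x⟫|
      ∂(Measure.pi fun _ => stdGaussian (EuclideanSpace ℝ (Fin d))) ≤
        (4 * Real.exp (-t)) ^ c := by
    intro x hx
    have h3 := (h1 d x).2 (hS x hx)
    have h2 := ROW_prod d c _ h3.1 (fun g => (Real.exp_pos _).le) (Real.exp (-(t * c))) 4
      (Real.exp_pos _).le h3.2
    refine ⟨h2.1, h2.2.trans_eq ?_⟩
    rw [mul_pow, ← Real.exp_nat_mul, mul_comm, mul_neg, mul_comm (c : ℝ) t]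
  have hIA := integrable_finsetSum T fun x hx => (hA x hx).1
  have hIC := integrable_finsetSum S fun x hx => (hC x hx).1
  obtain ⟨g, hg⟩ := exists_le_integral (hIA.add hIC)
  have hle : (∑ x ∈ T, Real.exp c * ∏ s, Real.exp (-|⟪g s, x⟫| / a)) +
      ∑ x ∈ S, Real.exp (-(t * c)) * ∏ s, Real.exp |⟪g s, x⟫| < 1 := by
    refine lt_of_le_of_lt hg ?_
    rw [integral_add' hIA hIC, integral_finsetSum T fun x hx => (hA x hx).1,
      integral_finsetSum S fun x hx => (hC x hx).1]
    refine lt_of_le_of_lt (add_le_add (Finset.sum_le_card_nsmul T _ _ fun x hx => (hA x hx).2)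
      (Finset.sum_le_card_nsmul S _ _ fun x hx => (hC x hx).2)) ?_
    rw [nsmul_eq_mul, nsmul_eq_mul]
    exact hlt
  have p1 : ∀ x ∈ T, 0 ≤ Real.exp c * ∏ s, Real.exp (-|⟪g s, x⟫| / a) := fun x _ =>
    mul_nonneg (Real.exp_pos _).le (Finset.prod_nonneg fun s _ => (Real.exp_pos _).le)
  have p2 : ∀ x ∈ S, 0 ≤ Real.exp (-(t * c)) * ∏ s, Real.exp |⟪g s, x⟫| := fun x _ =>
    mul_nonneg (Real.exp_pos _).le (Finset.prod_nonneg fun s _ => (Real.exp_pos _).le)
  refine ⟨g, fun x hx => ?_, fun x hx => ?_⟩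
  · have h4 := Finset.single_le_sum p1 hx
    have h5 := Finset.sum_nonneg p2
    have h6 : Real.exp c * ∏ s, Real.exp (-|⟪g s, x⟫| / a) < 1 := by linarith
    rw [← Real.exp_sum, ← Real.exp_add] at h6
    have h7 := hexp _ h6
    rw [← Finset.sum_div, Finset.sum_neg_distrib] at h7
    have h8 : (c : ℝ) < (∑ s, |⟪g s, x⟫|) / a := by
      rw [neg_div] at h7
      linarith
    rw [lt_div_iff₀ ha] at h8
    linarith
  · have h4 := Finset.single_le_sum p2 hx
    have h5 := Finset.sum_nonneg p1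
    have h6 : Real.exp (-(t * c)) * ∏ s, Real.exp |⟪g s, x⟫| < 1 := by linarith
    rw [← Real.exp_sum, ← Real.exp_add] at h6
    have h7 := hexp _ h6
    linarith

end Pool.EH
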