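import Pool.Agent.Work.MP_3e8c7a_h.Interface

/-!
# MP_3e8c7a_an, THEOREM H, block SCL: change of scale
-/

set_option autoImplicit false

namespace Pool.EH

open Module Pool.Agent.MP3e8c7a

theorem SCL_ty {V W : Type} [AddCommGroup V] [Module ℝ V] [AddCommGroup W] [Module ℝ W]
    {N : Seminorm ℝ V} {T : ℝ} {m : ℕ} (h : Ty T m N) (u : W →ₗ[ℝ] V) : Ty T m (N.comp u) := by
  intro x
  have h1 := h (fun l => u (x l))
  have e : ∀ g : Fin m → Bool, (N.comp u) (∑ l, sg (g l) • x l) = N (∑ l, sg (g l) • u (x l)) := by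
    intro g
    rw [Seminorm.comp_apply, map_sum]
    congr 1
    exact Finset.sum_congr rfl fun l _ => by rw [map_smul]
  simp only [e]
  exact h1

theorem SCL_co {V W : Type} [AddCommGroup V] [Module ℝ V] [AddCommGroup W] [Module ℝ W]
    {N : Seminorm ℝ V} {T : ℝ} {m : ℕ} (h : Co T m N) (u : W →ₗ[ℝ] V) : Co T m (N.comp u) := by
  intro x
  have h1 := h (fun l => u (x l))
  have e : ∀ g : Fin m → Bool, (N.comp u) (∑ l, sg (g l) • x l) = N (∑ l, sg (g l) • u (x l)) := by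
    intro g
    rw [Seminorm.comp_apply, map_sum]
    congr 1
    exact Finset.sum_congr rfl fun l _ => by rw [map_smul]
  simp only [e]
  exact h1

theorem p_SCL (hTYL : Stmt_TYL) (hTYM : Stmt_TYM) (hORT : Stmt_ORT) (hKWA : Stmt_KWA) :
    Stmt_SCL := by
  intro C κ hC
  have hC0 : 0 ≤ C := by linarith
  obtain ⟨j, hj⟩ : ∃ j : ℕ, j = 2 * κ + 1 := ⟨_, rfl⟩
  have hCj : 1 ≤ C ^ j := one_le_pow₀ hC
  have hCC : 1 ≤ C ^ j * C ^ j := one_le_mul_of_one_le_of_one_le hCj hCj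
  refine ⟨C ^ j * C ^ j + 1, by linarith, ?_⟩
  intro V _ _ _ N a hN ha hloc
  have key : ∀ i : ℕ, 1 ≤ i → Ty (C ^ i) (a ^ i) N ∧ Co (C ^ i) (a ^ i) N := by
    intro i hi
    induction i, hi using Nat.le_induction with
    | base =>
      rw [pow_one, pow_one]
      exact hTYL V N C a hC hloc
    | succ i hi ih =>
      have h1 := hTYL V N C a hC hloc
      have h2 := hTYM V N (C ^ i) C (a ^ i) a
      rw [pow_succ, pow_succ]
      exact ⟨h2.1 ih.1 h1.1, h2.2 ih.2 h1.2⟩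
  obtain ⟨hty, hco⟩ := key j (by omega)
  intro F hF
  have hdef : Def (N.comp F.subtype) := hN.comp F.subtype F.injective_subtype
  refine hKWA F (N.comp F.subtype) (a ^ j) (C ^ j * C ^ j) (C ^ j * C ^ j + 1) hdef ?_ hCC
    (by linarith) ?_
  · have h1 : finrank ℝ F * finrank ℝ F ≤ a ^ κ * a ^ κ := Nat.mul_le_mul hF hF
    have h2 : 1 ≤ a ^ κ * a ^ κ := by
      have : 0 < a ^ κ * a ^ κ := by positivity
      omega
    have h3 : a ^ j = a * (a ^ κ * a ^ κ) := by
      rw [hj]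
      ring
    have h4 : 2 * (a ^ κ * a ^ κ) ≤ a * (a ^ κ * a ^ κ) := Nat.mul_le_mul_right _ ha
    omega
  · intro U hU x y hxy
    have h5 := hORT F (N.comp F.subtype) (C ^ j) (C ^ j) (a ^ j) (by positivity) (by positivity)
      (SCL_ty hty F.subtype) (SCL_co hco F.subtype) U hU x y hxy
    exact h5

end Pool.EH
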