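import Pool.Agent.Work.MP_3e8c7a_h.Interface

/-!
# MP_3e8c7a_an, THEOREM H, block SDG: simultaneous diagonalisation
-/

set_option autoImplicit false

namespace Pool.EH

open Module Pool.Agent.MP3e8c7a
open scoped RealInnerProductSpace

lemma SDG_sym {e d : ℕ} (B : EuclideanSpace ℝ (Fin e) →ₗ[ℝ] EuclideanSpace ℝ (Fin d)) :
    (LinearMap.adjoint B ∘ₗ B).IsSymmetric := by
  intro x y
  simp only [LinearMap.comp_apply]
  rw [LinearMap.adjoint_inner_left, LinearMap.adjoint_inner_right]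

lemma SDG_main {e d : ℕ} (B : EuclideanSpace ℝ (Fin e) →ₗ[ℝ] EuclideanSpace ℝ (Fin d))
    (hBi : Function.Injective B) :
    ∃ (b : OrthonormalBasis (Fin e) ℝ (EuclideanSpace ℝ (Fin e))) (lam : Fin e → ℝ),
      Antitone lam ∧ (∀ i, 0 < lam i) ∧ ∀ x, ‖B x‖ ^ 2 = ∑ i, lam i * (⟪b i, x⟫ : ℝ) ^ 2 := by
  have hsym := SDG_sym B
  have hn : finrank ℝ (EuclideanSpace ℝ (Fin e)) = e := finrank_euclideanSpace_fin
  obtain ⟨b, hbdef⟩ : ∃ b, b = hsym.eigenvectorBasis hn := ⟨_, rfl⟩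
  obtain ⟨lam, hlam⟩ : ∃ lam, lam = hsym.eigenvalues hn := ⟨_, rfl⟩
  have hb : ∀ i, (LinearMap.adjoint B ∘ₗ B) (b i) = lam i • b i := fun i => by
    have := hsym.apply_eigenvectorBasis hn i
    rw [hbdef, hlam]
    exact this
  have hquad : ∀ x : EuclideanSpace ℝ (Fin e), ‖B x‖ ^ 2 = ∑ i, lam i * (⟪b i, x⟫ : ℝ) ^ 2 := by
    intro x
    have h1 : ‖B x‖ ^ 2 = ⟪(LinearMap.adjoint B ∘ₗ B) x, x⟫ := by
      rw [LinearMap.comp_apply, LinearMap.adjoint_inner_left, real_inner_self_eq_norm_sq]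
    rw [h1, ← b.sum_inner_mul_inner]
    refine Finset.sum_congr rfl fun i _ => ?_
    rw [hsym x (b i), hb i, real_inner_smul_right, real_inner_comm x (b i)]
    ring
  refine ⟨b, lam, ?_, ?_, hquad⟩
  · rw [hlam]; exact hsym.eigenvalues_antitone hn
  intro i
  have h1 := hquad (b i)
  have h2 : ∑ j, lam j * (⟪b j, b i⟫ : ℝ) ^ 2 = lam i := by
    rw [Finset.sum_eq_single i]
    · rw [real_inner_self_eq_norm_sq, b.norm_eq_one]; norm_num
    · intro j _ hj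
      rw [b.inner_eq_zero hj]; norm_num
    · intro h; exact absurd (Finset.mem_univ i) h
  rw [h2] at h1
  rw [← h1]
  have hne : B (b i) ≠ 0 := by
    intro h0
    have h3 : b i = 0 := hBi (by rw [h0, map_zero])
    have h4 := b.norm_eq_one i
    rw [h3, norm_zero] at h4
    exact zero_ne_one h4
  have := norm_pos_iff.mpr hne
  positivity

theorem p_SDG : Stmt_SDG := by
  intro W _ _ _ e d T S he hT hS
  have hfr : finrank ℝ W = finrank ℝ (EuclideanSpace ℝ (Fin e)) := by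
    rw [he, finrank_euclideanSpace_fin]
  obtain ⟨Te, hTe⟩ : ∃ Te : W ≃ₗ[ℝ] EuclideanSpace ℝ (Fin e), ∀ w, Te w = T w :=
    ⟨LinearMap.linearEquivOfInjective T hT hfr, fun w => rfl⟩
  obtain ⟨b, lam, hanti, hpos, hquad⟩ := SDG_main (S ∘ₗ Te.symm.toLinearMap)
    (hS.comp Te.symm.injective)
  let u : (Fin e → ℝ) ≃ₗ[ℝ] W :=
    ((WithLp.linearEquiv 2 ℝ (Fin e → ℝ)).symm.trans b.repr.symm.toLinearEquiv).trans Te.symm
  have hu : ∀ t, u t = Te.symm (b.repr.symm (WithLp.toLp 2 t)) := fun t => rfl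
  have hrep : ∀ (t : Fin e → ℝ) i, (⟪b i, b.repr.symm (WithLp.toLp 2 t)⟫ : ℝ) = t i := by
    intro t i
    rw [← b.repr_apply_apply, LinearIsometryEquiv.apply_symm_apply]
  refine ⟨u, fun i => Real.sqrt (lam i), ?_, fun i => Real.sqrt_pos.mpr (hpos i), ?_, ?_⟩
  · intro i j hij
    exact Real.sqrt_le_sqrt (hanti hij)
  · intro t
    rw [← hTe, hu, LinearEquiv.apply_symm_apply, LinearIsometryEquiv.norm_map, EuclideanSpace.real_norm_sq_eq]
  · intro t
    have h1 : S (u t) = (S ∘ₗ Te.symm.toLinearMap) (b.repr.symm (WithLp.toLp 2 t)) := rfl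
    rw [h1, hquad]
    refine Finset.sum_congr rfl fun i _ => ?_
    rw [hrep, mul_pow, Real.sq_sqrt (hpos i).le]

end Pool.EH
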