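import Pool.Agent.Work.MP_3e8c7a_h.Interface

/-! Block SFL of THEOREM H. -/

set_option autoImplicit false

namespace Pool.EH

open Module Pool.Agent.MP3e8c7a

/-- Subspaces of a prescribed dimension. -/
lemma SFL_sub {V : Type} [AddCommGroup V] [Module ℝ V] [FiniteDimensional ℝ V] (E : Submodule ℝ V) {d : ℕ}
    (h : d ≤ finrank ℝ E) : ∃ E' : Submodule ℝ V, E' ≤ E ∧ finrank ℝ E' = d := by
  obtain ⟨f, hf⟩ := exists_linearIndependent_of_le_finrank (R := ℝ) (M := E) h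
  refine ⟨(Submodule.span ℝ (Set.range f)).map E.subtype, Submodule.map_subtype_le _ _, ?_⟩
  rw [← (Submodule.equivMapOfInjective E.subtype Subtype.val_injective _).finrank_eq, finrank_span_eq_card hf,
    Fintype.card_fin]

/-- Orthogonal vectors. -/
lemma SFL_orth {d : ℕ} (u v : EuclideanSpace ℝ (Fin d)) (h : inner ℝ u v = 0) :
    ‖u‖ + ‖v‖ ≤ 2 * ‖u + v‖ := by
  have h1 : ‖u + v‖ * ‖u + v‖ = ‖u‖ * ‖u‖ + ‖v‖ * ‖v‖ :=
    norm_add_sq_eq_norm_sq_add_norm_sq_real h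
  have h2 := norm_nonneg u
  have h3 := norm_nonneg v
  have h4 := norm_nonneg (u + v)
  nlinarith [sq_nonneg (‖u‖ - ‖v‖)]

/-- Two orthogonal subspaces. -/
lemma SFL_split {V : Type} [AddCommGroup V] [Module ℝ V] [FiniteDimensional ℝ V] (p : Seminorm ℝ V)
    (hp : Def p) (C : ℝ) (hC : 1 ≤ C) (E : Submodule ℝ V) (hE : Eu C (p.comp E.subtype)) (a m : ℕ)
    (h : a + m ≤ finrank ℝ E) :
    ∃ X Y : Submodule ℝ V, X ≤ E ∧ Y ≤ E ∧ finrank ℝ X = a ∧ finrank ℝ Y = m ∧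
      ∀ y ∈ Y, ∀ x ∈ X, p y + p x ≤ 2 * C * p (y + x) := by
  obtain ⟨T, hT⟩ := hE.exists_equiv (hp.comp E.subtype Subtype.val_injective)
  obtain ⟨A, -, hA⟩ := SFL_sub (⊤ : Submodule ℝ (EuclideanSpace ℝ (Fin (finrank ℝ E)))) (d := a) (by
    rw [finrank_top, finrank_euclideanSpace_fin]
    omega)
  have hAo : finrank ℝ A + finrank ℝ Aᗮ = finrank ℝ E := by
    rw [Submodule.finrank_add_finrank_orthogonal, finrank_euclideanSpace_fin]
  obtain ⟨B, hBA, hB⟩ := SFL_sub Aᗮ (d := m) (by omega)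
  have hdim : ∀ D : Submodule ℝ (EuclideanSpace ℝ (Fin (finrank ℝ E))),
      finrank ℝ ((D.map T.symm.toLinearMap).map E.subtype : Submodule ℝ V) = finrank ℝ D := by
    intro D
    rw [← (Submodule.equivMapOfInjective E.subtype Subtype.val_injective _).finrank_eq,
      ← (Submodule.equivMapOfInjective T.symm.toLinearMap T.symm.injective _).finrank_eq]
  have hmem : ∀ (D : Submodule ℝ (EuclideanSpace ℝ (Fin (finrank ℝ E)))) (x : V),
      x ∈ (D.map T.symm.toLinearMap).map E.subtype → ∃ d ∈ D, x = (T.symm d : V) := by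
    intro D x hx
    rw [Submodule.mem_map] at hx
    obtain ⟨z, hz, rfl⟩ := hx
    rw [Submodule.mem_map] at hz
    obtain ⟨d, hd, rfl⟩ := hz
    exact ⟨d, hd, rfl⟩
  refine ⟨(A.map T.symm.toLinearMap).map E.subtype, (B.map T.symm.toLinearMap).map E.subtype,
    Submodule.map_subtype_le _ _, Submodule.map_subtype_le _ _, (hdim A).trans hA, (hdim B).trans hB, ?_⟩
  intro y hy x hx
  obtain ⟨v, hv, rfl⟩ := hmem B y hy
  obtain ⟨u, hu, rfl⟩ := hmem A x hx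
  have hvu : inner ℝ v u = 0 := by
    have h1 := (Submodule.mem_orthogonal A v).1 (hBA hv) u hu
    rw [real_inner_comm]
    exact h1
  have e1 : p (T.symm v : V) ≤ C * ‖v‖ := by
    have h1 := (hT (T.symm v)).2
    rw [LinearEquiv.apply_symm_apply] at h1
    exact h1
  have e2 : p (T.symm u : V) ≤ C * ‖u‖ := by
    have h1 := (hT (T.symm u)).2
    rw [LinearEquiv.apply_symm_apply] at h1
    exact h1
  have e3 : ‖v + u‖ ≤ p ((T.symm v : V) + (T.symm u : V)) := by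
    have h1 := (hT (T.symm (v + u))).1
    rw [LinearEquiv.apply_symm_apply, map_add] at h1
    exact h1
  have e4 := SFL_orth v u hvu
  have hC0 : 0 ≤ C := by linarith
  calc p (T.symm v : V) + p (T.symm u : V) ≤ C * ‖v‖ + C * ‖u‖ := add_le_add e1 e2
    _ = C * (‖v‖ + ‖u‖) := by ring
    _ ≤ C * (2 * ‖v + u‖) := mul_le_mul_of_nonneg_left e4 hC0
    _ ≤ C * (2 * p ((T.symm v : V) + (T.symm u : V))) :=
        mul_le_mul_of_nonneg_left (mul_le_mul_of_nonneg_left e3 (by norm_num)) hC0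
    _ = 2 * C * p ((T.symm v : V) + (T.symm u : V)) := by ring

/-- The combination of the two splittings. -/
lemma SFL_comb {V : Type} [AddCommGroup V] [Module ℝ V] (N : Seminorm ℝ V) (A B C₂ : ℝ) (hA : 1 ≤ A)
    (hB : 1 ≤ B) (hC₂ : A * B ≤ C₂) (w y x : V) (h1 : N w + N (y + x) ≤ A * N (w + (y + x)))
    (h2 : N y + N x ≤ B * N (y + x)) : N (w + y) + N x ≤ C₂ * N (w + y + x) := by
  have e1 : N (w + y) ≤ N w + N y := map_add_le_add N w y
  have e2 : N (w + y + x) = N (w + (y + x)) := by rw [add_assoc]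
  have n1 : 0 ≤ N w := apply_nonneg N w
  have n2 : 0 ≤ N (w + (y + x)) := apply_nonneg N _
  have n3 : 0 ≤ N (y + x) := apply_nonneg N _
  rw [e2]
  calc N (w + y) + N x ≤ N w + B * N (y + x) := by linarith
    _ ≤ B * (N w + N (y + x)) := by nlinarith
    _ ≤ B * (A * N (w + (y + x))) := mul_le_mul_of_nonneg_left h1 (by linarith)
    _ = A * B * N (w + (y + x)) := by ring
    _ ≤ C₂ * N (w + (y + x)) := mul_le_mul_of_nonneg_right hC₂ n2

theorem p_SFL (hPOS : Stmt_POS) (hSLF : Stmt_SLF) : Stmt_SFL := by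
  intro β b C Λ hβ hβ1 hb hC hΛ
  obtain ⟨θ₁, C₁, hθ₁, hθ₁1, hC₁, hpos⟩ := hPOS β C hβ hβ1 hC
  obtain ⟨B, hB⟩ : ∃ B : ℝ, B = 2 * C * Λ ^ 2 := ⟨_, rfl⟩
  have hΛ2 : 1 ≤ Λ ^ 2 := one_le_pow₀ hΛ
  have hCB : 2 * C ≤ B := by rw [hB]; nlinarith
  have hB1 : 1 ≤ B := by linarith
  obtain ⟨A, hA⟩ : ∃ A : ℝ, A = 2 * C₁ + 1 := ⟨_, rfl⟩
  have hA1 : 1 ≤ A := by rw [hA]; linarith
  have hAB : A ≤ A * B := le_mul_of_one_le_right (by linarith) hB1
  have hAB1 : 1 ≤ A * B := hA1.trans hAB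
  obtain ⟨R, C', hR, hC', hslf⟩ := hSLF b C (A * B) Λ hb hC hAB1 hΛ
  refine ⟨θ₁ * β, R, C', by positivity, ?_, hR, hC', ?_⟩
  · calc θ₁ * β ≤ 1 * 1 := mul_le_mul hθ₁1 hβ1 hβ.le (by norm_num)
      _ = 1 := by norm_num
  intro V _ _ _ p r k hp hr hH E G hE hG hGk hEp hEr hcomp hRG
  have hn0 : (0 : ℝ) ≤ finrank ℝ V := Nat.cast_nonneg _
  have hk0 : (0 : ℝ) ≤ k := Nat.cast_nonneg _
  have hEn : (finrank ℝ E : ℝ) ≤ finrank ℝ V := by exact_mod_cast Submodule.finrank_le E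
  have hGE : (finrank ℝ G : ℝ) ≤ θ₁ * finrank ℝ E := by
    calc (finrank ℝ G : ℝ) ≤ θ₁ * β * finrank ℝ V := hG
      _ = θ₁ * (β * finrank ℝ V) := by ring
      _ ≤ θ₁ * finrank ℝ E := mul_le_mul_of_nonneg_left (by linarith) hθ₁.le
  obtain ⟨E', hE'E, hE'dim, hE'p, hE'r⟩ := hpos V p r hp hr E G hEp hEr hGE
  have hkE' : k ≤ finrank ℝ E' := by
    have : (k : ℝ) ≤ finrank ℝ E' := by nlinarith
    exact_mod_cast this
  obtain ⟨X, Y, hXE, hYE, hXdim, hYdim, hXY⟩ := SFL_split p hp C hC E' (hEp.sub hE'E)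
    (k - finrank ℝ G) (finrank ℝ G) (by omega)
  have hXYr : ∀ y ∈ Y, ∀ x ∈ X, r y + r x ≤ B * r (y + x) := by
    intro y hy x hx
    have h1 := (hcomp y (hE'E (hYE hy))).2
    have h2 := (hcomp x (hE'E (hXE hx))).2
    have h3 := (hcomp (y + x) (E.add_mem (hE'E (hYE hy)) (hE'E (hXE hx)))).1
    have h4 := hXY y hy x hx
    have h5 : Λ * (p y + p x) ≤ Λ * (2 * C * (Λ * r (y + x))) := by
      refine mul_le_mul_of_nonneg_left (h4.trans ?_) (by linarith)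
      exact mul_le_mul_of_nonneg_left h3 (by linarith)
    calc r y + r x ≤ Λ * (p y + p x) := by linarith
      _ ≤ Λ * (2 * C * (Λ * r (y + x))) := h5
      _ = B * r (y + x) := by rw [hB]; ring
  have hXYp : ∀ y ∈ Y, ∀ x ∈ X, p y + p x ≤ B * p (y + x) := by
    intro y hy x hx
    exact (hXY y hy x hx).trans (mul_le_mul_of_nonneg_right hCB (apply_nonneg _ _))
  refine hslf V p r k hp hr hH G Y X (by omega) (by omega) ?_ ?_ (hEp.sub (hXE.trans hE'E))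
    (hEr.sub (hXE.trans hE'E)) (hEp.sub (hYE.trans hE'E)) (fun y hy => (hcomp y (hE'E (hYE hy))).2) hRG
  · intro w hw y hy
    have h1 := hE'p.split w hw y (hYE hy)
    have h2 := hE'r.split w hw y (hYE hy)
    rw [← hA] at h1 h2
    exact ⟨h1.trans (mul_le_mul_of_nonneg_right hAB (apply_nonneg _ _)),
      h2.trans (mul_le_mul_of_nonneg_right hAB (apply_nonneg _ _))⟩
  · intro z hz x hx
    obtain ⟨w, hw, y, hy, rfl⟩ := Submodule.mem_sup.1 hz
    have hyx : y + x ∈ E' := E'.add_mem (hYE hy) (hXE hx)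
    have h1 := hE'p.split w hw (y + x) hyx
    have h2 := hE'r.split w hw (y + x) hyx
    rw [← hA] at h1 h2
    exact ⟨SFL_comb p A B (A * B) hA1 hB1 le_rfl w y x h1 (hXYp y hy x hx),
      SFL_comb r A B (A * B) hA1 hB1 le_rfl w y x h2 (hXYr y hy x hx)⟩

end Pool.EH
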