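import Pool.Agent.Work.MP_3e8c7a_h.Interface

/-! Block SLF of THEOREM H (helper11). -/

set_option autoImplicit false

namespace Pool.EH

open Module Pool.Agent.MP3e8c7a
open scoped RealInnerProductSpace

/-- Infimum argument. -/
lemma SLF_inf {W : Type} [AddCommGroup W] [Module ℝ W] {N : Seminorm ℝ W} {A : ℝ}
    (h0 : ∃ D : ℝ, 1 ≤ D ∧ Eu D N) (hstep : ∀ D : ℝ, 1 ≤ D → Eu D N → Eu (A + D / 2) N) :
    Eu (max (2 * A + 1) 2) N := by
  let S : Set ℝ := {D | 1 ≤ D ∧ Eu D N}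
  have hne : S.Nonempty := h0
  have hbd : BddBelow S := ⟨1, fun D hD => hD.1⟩
  set D₀ := sInf S with hD₀
  have h2 : D₀ ≤ max (2 * A) 1 := by
    by_contra hcon
    have hcon := not_le.1 hcon
    have h3 : 2 * A < D₀ := (le_max_left _ _).trans_lt hcon
    have h4 : 1 < D₀ := (le_max_right _ _).trans_lt hcon
    obtain ⟨D, hD, hD'⟩ : ∃ D ∈ S, D < 2 * D₀ - 2 * max A (1 / 2) := by
      refine exists_lt_of_csInf_lt hne ?_
      have : max A (1 / 2) < D₀ / 2 := max_lt (by linarith) (by linarith)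
      rw [← hD₀]
      linarith
    have h5 : max (A + D / 2) 1 ∈ S := ⟨le_max_right _ _, (hstep D hD.1 hD.2).mono (le_max_left _ _)⟩
    have h6 : D₀ ≤ max (A + D / 2) 1 := csInf_le hbd h5
    have h7 : max (A + D / 2) 1 < D₀ := by
      refine max_lt ?_ h4
      have := le_max_left A (1 / 2)
      linarith
    linarith
  obtain ⟨D, hD, hD'⟩ : ∃ D ∈ S, D < D₀ + 1 := exists_lt_of_csInf_lt hne (by rw [← hD₀]; linarith)
  refine hD.2.mono (hD'.le.trans ?_)
  rcases le_total (2 * A) 1 with h | h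
  · rw [max_eq_right h] at h2
    exact le_trans (by linarith) (le_max_right _ _)
  · rw [max_eq_left h] at h2
    exact le_trans (by linarith) (le_max_left _ _)

/-- Every norm on a finite dimensional space is Euclidean with some constant. -/
lemma SLF_exists {W : Type} [AddCommGroup W] [Module ℝ W] [FiniteDimensional ℝ W] {N : Seminorm ℝ W} (hN : Def N) :
    ∃ D : ℝ, 1 ≤ D ∧ Eu D N := by
  obtain ⟨m, hm⟩ : ∃ m, finrank ℝ W = m := ⟨_, rfl⟩
  obtain ⟨e, he1, he2⟩ := Pool.RX.p_BAS m W N hN hm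
  set A : ℝ := m * 2 ^ m + 1 with hA
  have hA0 : 0 < A := by positivity
  refine ⟨(m + 1) * A, ?_, m, A⁻¹ • ((WithLp.linearEquiv 2 ℝ (Fin m → ℝ)).symm.toLinearMap ∘ₗ e.toLinearMap), fun x => ?_⟩
  · have : (1 : ℝ) ≤ A := by rw [hA]; linarith [show (0 : ℝ) ≤ m * 2 ^ m by positivity]
    have h2 : (1 : ℝ) ≤ (m : ℝ) + 1 := by linarith [Nat.cast_nonneg (α := ℝ) m]
    nlinarith
  · set y : EuclideanSpace ℝ (Fin m) := (WithLp.linearEquiv 2 ℝ (Fin m → ℝ)).symm (e x) with hy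
    have hyi : ∀ i, y i = e x i := fun i => rfl
    have h1 : ‖(A⁻¹ • ((WithLp.linearEquiv 2 ℝ (Fin m → ℝ)).symm.toLinearMap ∘ₗ e.toLinearMap)) x‖ = A⁻¹ * ‖y‖ := by
      show ‖A⁻¹ • y‖ = _
      rw [norm_smul, Real.norm_eq_abs, abs_of_pos (inv_pos.2 hA0)]
    have hyn := norm_nonneg y
    have h2 : ‖y‖ ≤ m * ‖e x‖ := by
      have h3 : ‖y‖ ^ 2 ≤ (m * ‖e x‖) ^ 2 := by
        rw [EuclideanSpace.norm_sq_eq]
        calc ∑ i, ‖y i‖ ^ 2 ≤ ∑ _i : Fin m, ‖e x‖ ^ 2 := by
              refine Finset.sum_le_sum fun i _ => ?_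
              rw [hyi]
              exact pow_le_pow_left₀ (norm_nonneg _) (norm_le_pi_norm (e x) i) 2
          _ = m * ‖e x‖ ^ 2 := by rw [Finset.sum_const, Finset.card_univ, Fintype.card_fin, nsmul_eq_mul]
          _ ≤ (m * ‖e x‖) ^ 2 := by
              rw [mul_pow]
              refine mul_le_mul_of_nonneg_right ?_ (by positivity)
              rcases Nat.eq_zero_or_pos m with h0 | h0
              · rw [h0]; norm_num
              · have : (1 : ℝ) ≤ m := by exact_mod_cast h0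
                nlinarith
      exact abs_le_of_sq_le_sq' h3 (by positivity) |>.2
    have h3 : ∀ i, |e x i| ≤ ‖y‖ := by
      intro i
      have h4 : |y i| ≤ ‖y‖ := by
        rw [← Real.norm_eq_abs]
        exact PiLp.norm_apply_le y i
      rwa [hyi] at h4
    rw [h1]
    constructor
    · rw [inv_mul_le_iff₀ hA0]
      calc ‖y‖ ≤ m * ‖e x‖ := h2
        _ ≤ m * (2 ^ m * N x) := mul_le_mul_of_nonneg_left (he1 x) (Nat.cast_nonneg _)
        _ ≤ A * N x := by
            have := apply_nonneg N x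
            rw [hA]
            nlinarith
    · calc N x ≤ ∑ i, |e x i| := he2 x
        _ ≤ ∑ _i : Fin m, ‖y‖ := Finset.sum_le_sum fun i _ => h3 i
        _ = m * ‖y‖ := by rw [Finset.sum_const, Finset.card_univ, Fintype.card_fin, nsmul_eq_mul]
        _ ≤ (m + 1) * ‖y‖ := by nlinarith
        _ = (m + 1) * A * (A⁻¹ * ‖y‖) := by field_simp

/-- Isometric embedding of Euclidean spaces. -/
lemma SLF_emb {g y : ℕ} (h : g ≤ y) : ∃ J : EuclideanSpace ℝ (Fin g) →ₗ[ℝ] EuclideanSpace ℝ (Fin y), ∀ x, ‖J x‖ = ‖x‖ := by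
  let v : Fin g → EuclideanSpace ℝ (Fin y) := fun i => EuclideanSpace.basisFun (Fin y) ℝ (Fin.castLE h i)
  have hv : Orthonormal ℝ v := (EuclideanSpace.basisFun (Fin y) ℝ).orthonormal.comp _ (Fin.castLE_injective h)
  refine ⟨(Fintype.linearCombination ℝ v) ∘ₗ (WithLp.linearEquiv 2 ℝ (Fin g → ℝ)).toLinearMap, fun x => ?_⟩
  have e1 : ((Fintype.linearCombination ℝ v) ∘ₗ (WithLp.linearEquiv 2 ℝ (Fin g → ℝ)).toLinearMap) x = ∑ i, x i • v i := rfl
  rw [e1]
  have h2 : ‖∑ i, x i • v i‖ ^ 2 = ‖x‖ ^ 2 := by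
    rw [← real_inner_self_eq_norm_sq, hv.inner_sum, EuclideanSpace.norm_sq_eq]
    refine Finset.sum_congr rfl fun i _ => ?_
    rw [Real.norm_eq_abs, sq_abs, sq]
    rfl
  exact (pow_left_inj₀ (norm_nonneg _) (norm_nonneg _) (by norm_num)).1 h2

/-- A linear map between Euclidean norms multiplying the norm by a given factor. -/
lemma SLF_map {W W' : Type} [AddCommGroup W] [Module ℝ W] [AddCommGroup W'] [Module ℝ W'] [FiniteDimensional ℝ W]
    [FiniteDimensional ℝ W'] (T : W ≃ₗ[ℝ] EuclideanSpace ℝ (Fin (finrank ℝ W)))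
    (S : W' ≃ₗ[ℝ] EuclideanSpace ℝ (Fin (finrank ℝ W'))) (h : finrank ℝ W ≤ finrank ℝ W') {lam : ℝ} (hl : 0 ≤ lam) :
    ∃ U : W →ₗ[ℝ] W', ∀ w, ‖S (U w)‖ = lam * ‖T w‖ := by
  obtain ⟨J, hJ⟩ := SLF_emb h
  refine ⟨lam • (S.symm.toLinearMap ∘ₗ J ∘ₗ T.toLinearMap), fun w => ?_⟩
  show ‖S (lam • S.symm (J (T w)))‖ = _
  rw [map_smul, LinearEquiv.apply_symm_apply, norm_smul, hJ, Real.norm_eq_abs, abs_of_nonneg hl]

theorem p_SLF (hTRF : Stmt_TRF) : Stmt_SLF := by
  intro b C C₂ Λ hb hC hC₂ hΛ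
  set K₁ : ℝ := 2 * b * C * C₂ with hK₁
  set K₃ : ℝ := 2 * C₂ ^ 2 * K₁ ^ 2 with hK₃
  have hK₁1 : 1 ≤ K₁ := by
    have h1 : 1 ≤ b * C := by nlinarith
    have h2 : 1 ≤ b * C * C₂ := by nlinarith
    rw [hK₁]; nlinarith
  have hK₃1 : 1 ≤ K₃ := by
    have h1 : 1 ≤ C₂ ^ 2 := by nlinarith
    have h2 : 1 ≤ K₁ ^ 2 := by nlinarith
    rw [hK₃]; nlinarith
  set lam : ℝ := 2 * K₃ with hlam
  have hlam0 : 0 < lam := by rw [hlam]; linarith
  set R : ℝ := lam * Λ * C with hR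
  have hR1 : 1 ≤ R := by
    have h1 : 1 ≤ Λ * C := by nlinarith
    rw [hR]; nlinarith
  set D₁ : ℝ := max (2 * (K₃ * C) + 1) 2 with hD₁
  have hD₁1 : 1 ≤ D₁ := le_trans (by norm_num) (le_max_right _ _)
  refine ⟨R, K₁ * D₁, hR1, by nlinarith, ?_⟩
  intro V _ _ _ p r k hp hr hH G Y E hGY hk hA hB hEp hEr hYp hY hG
  have hC₂0 : 0 < C₂ := by linarith
  have hpG : Def (p.comp G.subtype) := hp.comp _ Subtype.val_injective
  have hpY : Def (p.comp Y.subtype) := hp.comp _ Subtype.val_injective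
  -- the inclusion
  have inc : ∀ w : G, ∀ x ∈ E, p (G.subtype w) + p x ≤ C₂ * p (G.subtype w + x) := fun w x hx =>
    (hB w (Submodule.mem_sup_left w.2) x hx).1
  have inc' : ∀ w : G, ∀ x ∈ E, r (G.subtype w) + r x ≤ C₂ * r (G.subtype w + x) := fun w x hx =>
    (hB w (Submodule.mem_sup_left w.2) x hx).2
  have hstep : ∀ D : ℝ, 1 ≤ D → Eu D (p.comp G.subtype) → Eu (K₃ * C + D / 2) (p.comp G.subtype) := by
    intro D hD hDE
    obtain ⟨T, hT⟩ := hDE.exists_equiv hpG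
    obtain ⟨S, hS⟩ := hYp.exists_equiv hpY
    obtain ⟨U, hU⟩ := SLF_map T S hGY hlam0.le
    let u : G →ₗ[ℝ] V := G.subtype + Y.subtype ∘ₗ U
    have hu : ∀ w, u w = (w : V) + (U w : V) := fun w => rfl
    have hpU : ∀ w, lam * ‖T w‖ ≤ p (U w : V) ∧ p (U w : V) ≤ C * (lam * ‖T w‖) := by
      intro w
      have h1 := hS (U w)
      rw [hU] at h1
      exact h1
    have hpw : ∀ w : G, ‖T w‖ ≤ p (w : V) ∧ p (w : V) ≤ D * ‖T w‖ := fun w => hT w
    have hlow : ∀ w : G, p (w : V) + p (U w : V) ≤ C₂ * p (u w) := fun w => by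
      rw [hu]; exact (hA w w.2 (U w) (U w).2).1
    have hlow' : ∀ w : G, r (w : V) + r (U w : V) ≤ C₂ * r (u w) := fun w => by
      rw [hu]; exact (hA w w.2 (U w) (U w).2).2
    have huinj : Function.Injective u := by
      rw [injective_iff_map_eq_zero]
      intro w hw
      have h1 := hlow w
      rw [hw, map_zero, mul_zero] at h1
      have h2 : p (w : V) = 0 := le_antisymm (by linarith [apply_nonneg p (U w : V)]) (apply_nonneg _ _)
      exact Subtype.ext (hp _ h2)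
    set D' : ℝ := C₂ * (C + D / lam) with hD'
    have hD'1 : 1 ≤ D' := by
      have : 0 ≤ D / lam := by positivity
      rw [hD']; nlinarith
    have hEu1 : Eu D' (p.comp u) := by
      refine ⟨_, (lam / C₂) • T.toLinearMap, fun w => ?_⟩
      have e1 : ‖((lam / C₂) • T.toLinearMap) w‖ = lam / C₂ * ‖T w‖ := by
        show ‖(lam / C₂) • T w‖ = _
        rw [norm_smul, Real.norm_eq_abs, abs_of_pos (by positivity)]
      rw [e1]
      constructor
      · rw [div_mul_eq_mul_div, div_le_iff₀ hC₂0]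
        have h1 := hlow w
        have h2 := (hpU w).1
        have h3 : (p.comp u) w = p (u w) := rfl
        rw [h3]
        linarith [apply_nonneg p (w : V)]
      · calc (p.comp u) w = p ((w : V) + (U w : V)) := rfl
          _ ≤ p (w : V) + p (U w : V) := map_add_le_add p _ _
          _ ≤ D * ‖T w‖ + C * (lam * ‖T w‖) := add_le_add (hpw w).2 (hpU w).2
          _ = D' * (lam / C₂ * ‖T w‖) := by rw [hD']; field_simp; ring
    have hEu2 : Eu (2 * b * C * C₂ * D') (r.comp u) := by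
      refine hTRF V G p r k b C C₂ D' u E hp hr hH hb hC hC₂ hD'1 huinj hk (fun w x hx => ?_) hEp hEu1
      exact (hB (u w) (Submodule.add_mem_sup w.2 (U w).2) x hx).1
    -- r on G
    have hrU : ∀ w : G, r (U w : V) ≤ r (w : V) := by
      intro w
      calc r (U w : V) ≤ Λ * p (U w : V) := hY _ (U w).2
        _ ≤ Λ * (C * (lam * ‖T w‖)) := mul_le_mul_of_nonneg_left (hpU w).2 (by linarith)
        _ = R * ‖T w‖ := by rw [hR]; ring
        _ ≤ R * p (w : V) := mul_le_mul_of_nonneg_left (hpw w).1 (by linarith)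
        _ ≤ r (w : V) := hG _ w.2
    have hEu3 : Eu (2 * C₂ * (2 * b * C * C₂ * D')) (r.comp G.subtype) := by
      refine hEu2.equiv (by norm_num) hC₂0.le (fun w => ?_) (fun w => ?_)
      · show r ((w : V) + (U w : V)) ≤ 2 * r (w : V)
        have h1 := map_add_le_add r (w : V) (U w : V)
        have h2 := hrU w
        linarith
      · show r (w : V) ≤ C₂ * r (u w)
        have h1 := hlow' w
        have h2 := apply_nonneg r (U w : V)
        linarith
    have hEu4 := hTRF V G r p k b C C₂ (2 * C₂ * (2 * b * C * C₂ * D')) G.subtype E hr hp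
      (hH.symm (by linarith)) hb hC hC₂ (by
        have h1 : 1 ≤ K₁ * D' := by nlinarith
        have h2 : 1 ≤ 2 * C₂ := by linarith
        have e : 2 * C₂ * (2 * b * C * C₂ * D') = 2 * C₂ * (K₁ * D') := by rw [hK₁]
        rw [e]; nlinarith) Subtype.val_injective hk inc' hEr hEu3
    refine hEu4.mono (le_of_eq ?_)
    have e : 2 * b * C * C₂ * (2 * C₂ * (2 * b * C * C₂ * D')) = K₃ * (C + D / lam) := by
      rw [hK₃, hK₁, hD']; ring
    rw [e, hlam]
    have : K₃ ≠ 0 := by positivity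
    field_simp
  have hfin : Eu D₁ (p.comp G.subtype) := SLF_inf (SLF_exists hpG) hstep
  refine ⟨hfin.mono (by nlinarith), ?_⟩
  exact hTRF V G p r k b C C₂ D₁ G.subtype E hp hr hH hb hC hC₂ hD₁1 Subtype.val_injective hk inc hEp hfin

end Pool.EH
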