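import Pool.Agent.Work.MP_3e8c7a_h.Interface

/-!
# Block SPL: splitting `E` (helper48)
-/

set_option autoImplicit false

namespace Pool.EH

open Module Pool.Agent.MP3e8c7a

theorem SPL_sum {a e : ℕ} (φ : Fin a → Fin e) (hφ : Function.Injective φ) (t : Fin a → ℝ) (w : Fin e → ℝ) :
    ∑ i, (w i * Function.extend φ t 0 i) ^ 2 = ∑ j, (w (φ j) * t j) ^ 2 := by
  classical
  have h1 : ∑ j, (w (φ j) * t j) ^ 2 = ∑ j, (fun i => (w i * Function.extend φ t 0 i) ^ 2) (φ j) := by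
    refine Finset.sum_congr rfl fun j _ => ?_
    show _ = (w (φ j) * Function.extend φ t 0 (φ j)) ^ 2
    rw [hφ.extend_apply]
  rw [h1, ← Finset.sum_image (s := Finset.univ) (g := φ)
    (f := fun i => (w i * Function.extend φ t 0 i) ^ 2) (fun x _ y _ h => hφ h)]
  symm
  refine Finset.sum_subset (Finset.subset_univ _) fun i _ hi => ?_
  have h2 : ¬ ∃ j, φ j = i := by
    rintro ⟨j, hj⟩
    exact hi (Finset.mem_image.2 ⟨j, Finset.mem_univ _, hj⟩)
  show (w i * Function.extend φ t 0 i) ^ 2 = 0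
  rw [Function.extend_apply' _ _ _ h2, Pi.zero_apply, mul_zero, zero_pow two_ne_zero]

theorem SPL_sub {V : Type} [AddCommGroup V] [Module ℝ V] [FiniteDimensional ℝ V] (p r : Seminorm ℝ V)
    (C : ℝ) (hC : 1 ≤ C) (E : Submodule ℝ V) (e d : ℕ) (T : E →ₗ[ℝ] EuclideanSpace ℝ (Fin e))
    (S : E →ₗ[ℝ] EuclideanSpace ℝ (Fin d)) (hT : ∀ x : E, ‖T x‖ ≤ p x ∧ p x ≤ C * ‖T x‖)
    (hS : ∀ x : E, ‖S x‖ ≤ r x ∧ r x ≤ C * ‖S x‖) (u : (Fin e → ℝ) ≃ₗ[ℝ] E) (s : Fin e → ℝ)
    (hs : ∀ i, 0 < s i) (hu1 : ∀ t, ‖T (u t)‖ ^ 2 = ∑ i, t i ^ 2)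
    (hu2 : ∀ t, ‖S (u t)‖ ^ 2 = ∑ i, (s i * t i) ^ 2) (a : ℕ) (φ : Fin a → Fin e)
    (hφ : Function.Injective φ) :
    ∃ Y : Submodule ℝ V, Y ≤ E ∧ finrank ℝ Y = a ∧
      (∀ lo : ℝ, 0 ≤ lo → (∀ j, lo ≤ s (φ j)) → ∀ y ∈ Y, lo * p y ≤ C * r y) ∧
      (∀ hi : ℝ, 0 ≤ hi → (∀ j, s (φ j) ≤ hi) → ∀ y ∈ Y, r y ≤ C * hi * p y) := by
  let L : (Fin a → ℝ) →ₗ[ℝ] V :=
    E.subtype ∘ₗ u.toLinearMap ∘ₗ Function.ExtendByZero.linearMap ℝ φ
  have hL : ∀ t, L t = ((u (Function.extend φ t 0) : E) : V) := fun t => rfl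
  have hLi : Function.Injective L := by
    intro t t' h
    rw [hL, hL] at h
    have h2 := u.injective (Subtype.ext h)
    funext j
    have h3 := congrFun h2 (φ j)
    rwa [hφ.extend_apply, hφ.extend_apply] at h3
  have e1 : ∀ t : Fin a → ℝ, ‖T (u (Function.extend φ t 0))‖ ^ 2 = ∑ j, t j ^ 2 := by
    intro t
    have h := SPL_sum φ hφ t fun _ => 1
    simp only [one_mul] at h
    rw [hu1, h]
  have e2 : ∀ t : Fin a → ℝ, ‖S (u (Function.extend φ t 0))‖ ^ 2 = ∑ j, (s (φ j) * t j) ^ 2 := by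
    intro t
    rw [hu2, SPL_sum φ hφ t s]
  refine ⟨LinearMap.range L, ?_, ?_, ?_, ?_⟩
  · rintro _ ⟨t, rfl⟩
    rw [hL]
    exact (u (Function.extend φ t 0)).2
  · rw [LinearMap.finrank_range_of_inj hLi, finrank_fintype_fun_eq_card, Fintype.card_fin]
  · rintro lo hlo hj _ ⟨t, rfl⟩
    rw [hL]
    have h1 := hT (u (Function.extend φ t 0))
    have h2 := hS (u (Function.extend φ t 0))
    have h3 : lo * ‖T (u (Function.extend φ t 0))‖ ≤ ‖S (u (Function.extend φ t 0))‖ := by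
      refine (pow_le_pow_iff_left₀ (mul_nonneg hlo (norm_nonneg _)) (norm_nonneg _) two_ne_zero).1 ?_
      rw [mul_pow, e1, e2, Finset.mul_sum]
      refine Finset.sum_le_sum fun j _ => ?_
      rw [mul_pow]
      exact mul_le_mul_of_nonneg_right (pow_le_pow_left₀ hlo (hj j) 2) (sq_nonneg _)
    calc lo * p (u (Function.extend φ t 0)) ≤ lo * (C * ‖T (u (Function.extend φ t 0))‖) :=
          mul_le_mul_of_nonneg_left h1.2 hlo
      _ = C * (lo * ‖T (u (Function.extend φ t 0))‖) := by ring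
      _ ≤ C * ‖S (u (Function.extend φ t 0))‖ := mul_le_mul_of_nonneg_left h3 (by linarith)
      _ ≤ C * r (u (Function.extend φ t 0)) := mul_le_mul_of_nonneg_left h2.1 (by linarith)
  · rintro hi hhi hj _ ⟨t, rfl⟩
    rw [hL]
    have h1 := hT (u (Function.extend φ t 0))
    have h2 := hS (u (Function.extend φ t 0))
    have h3 : ‖S (u (Function.extend φ t 0))‖ ≤ hi * ‖T (u (Function.extend φ t 0))‖ := by
      refine (pow_le_pow_iff_left₀ (norm_nonneg _) (mul_nonneg hhi (norm_nonneg _)) two_ne_zero).1 ?_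
      rw [mul_pow, e1, e2, Finset.mul_sum]
      refine Finset.sum_le_sum fun j _ => ?_
      rw [mul_pow]
      exact mul_le_mul_of_nonneg_right (pow_le_pow_left₀ (hs _).le (hj j) 2) (sq_nonneg _)
    calc r (u (Function.extend φ t 0)) ≤ C * ‖S (u (Function.extend φ t 0))‖ := h2.2
      _ ≤ C * (hi * ‖T (u (Function.extend φ t 0))‖) := mul_le_mul_of_nonneg_left h3 (by linarith)
      _ ≤ C * (hi * p (u (Function.extend φ t 0))) :=
          mul_le_mul_of_nonneg_left (mul_le_mul_of_nonneg_left h1.1 hhi) (by linarith)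
      _ = C * hi * p (u (Function.extend φ t 0)) := by ring

theorem p_SPL (h1 : Stmt_SDG) : Stmt_SPL := by
  intro V _ _ _ p r C R μ hp hr hC hR E hE h h'
  have hpE : Def (p.comp E.subtype) := hp.comp E.subtype E.injective_subtype
  have hrE : Def (r.comp E.subtype) := hr.comp E.subtype E.injective_subtype
  obtain ⟨T, hT⟩ := h.exists_equiv hpE
  obtain ⟨S, hS⟩ := h'.exists_equiv hrE
  obtain ⟨u, s, hs, hpos, hu1, hu2⟩ := h1 E (finrank ℝ E) (finrank ℝ E) T.toLinearMap S.toLinearMap rfl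
    T.injective S.injective
  have key := SPL_sub p r C hC E (finrank ℝ E) (finrank ℝ E) T.toLinearMap S.toLinearMap hT hS u s hpos hu1 hu2
  obtain ⟨Y, hY1, hY2, hY3, -⟩ := key μ (fun j => ⟨j, by omega⟩) fun j j' hj => by
    have := congrArg Fin.val hj
    exact Fin.ext this
  obtain ⟨Y', hY1', hY2', -, hY4'⟩ := key μ (fun j => ⟨finrank ℝ E - μ + j, by omega⟩) fun j j' hj => by
    have h2 : finrank ℝ E - μ + (j : ℕ) = finrank ℝ E - μ + j' := congrArg Fin.val hj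
    exact Fin.ext (by omega)
  obtain ⟨E₁, hE1, hE2, hE3, hE4⟩ := key (finrank ℝ E - 2 * μ) (fun j => ⟨μ + j, by omega⟩) fun j j' hj => by
    have h2 : μ + (j : ℕ) = μ + j' := congrArg Fin.val hj
    exact Fin.ext (by omega)
  have hμ : μ < finrank ℝ E := by omega
  have hν : finrank ℝ E - μ - 1 < finrank ℝ E := by omega
  set α := s ⟨μ, hμ⟩ with hα
  set β := s ⟨finrank ℝ E - μ - 1, hν⟩ with hβ
  have hα0 : 0 < α := hpos _
  have hβ0 : 0 < β := hpos _
  have hC0 : 0 < C := by linarith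
  rcases le_or_gt (R * (C * β) * C) α with hcase | hcase
  · left
    refine ⟨Y, Y', C * β, hY1, hY1', hY2, hY2', by positivity, fun y hy => ?_, fun y hy => ?_⟩
    · have h2 := hY3 α hα0.le (fun j => hs (by show (j : ℕ) ≤ μ; exact j.2.le)) y hy
      have h3 : C * (R * (C * β) * p y) ≤ C * r y := by
        calc C * (R * (C * β) * p y) = (R * (C * β) * C) * p y := by ring
          _ ≤ α * p y := mul_le_mul_of_nonneg_right hcase (apply_nonneg _ _)
          _ ≤ C * r y := h2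
      exact le_of_mul_le_mul_left h3 hC0
    · exact hY4' β hβ0.le (fun j => hs (by show finrank ℝ E - μ - 1 ≤ finrank ℝ E - μ + (j : ℕ); omega)) y hy
  · right
    refine ⟨E₁, C / β, hE1, by omega, by positivity, fun x hx => ?_⟩
    have h2 := hE3 β hβ0.le (fun j => hs (by show μ + (j : ℕ) ≤ finrank ℝ E - μ - 1; omega)) x hx
    have h3 := hE4 α hα0.le (fun j => hs (by show μ ≤ μ + (j : ℕ); omega)) x hx
    constructor
    · rw [div_mul_eq_mul_div, le_div_iff₀ hβ0]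
      linarith
    · rw [div_mul_eq_mul_div, div_le_iff₀ hβ0]
      calc C * r x ≤ C * (C * α * p x) := mul_le_mul_of_nonneg_left h3 hC0.le
        _ ≤ C * (C * (R * (C * β) * C) * p x) := by
            refine mul_le_mul_of_nonneg_left ?_ hC0.le
            refine mul_le_mul_of_nonneg_right ?_ (apply_nonneg _ _)
            exact mul_le_mul_of_nonneg_left hcase.le hC0.le
        _ = R * C ^ 4 * p x * β := by ring

end Pool.EH
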