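import Pool.Agent.Work.MP_3e8c7a_h.Interface

/-! Block STP of THEOREM H (helper4). -/

set_option autoImplicit false

namespace Pool.EH

open Module Pool.Agent.MP3e8c7a

/-- The local theory at all scales needed in case (ii). -/
lemma STP_loc (hSCL : Stmt_SCL) (hLOB : Stmt_LOB) (θ C₁ : ℝ) (hθ : 0 < θ) (hθ1 : θ ≤ 1) (hC₁ : 1 ≤ C₁) :
    ∃ C₃ : ℝ, 1 ≤ C₃ ∧ ∀ (V : Type) [AddCommGroup V] [Module ℝ V] [FiniteDimensional ℝ V] (N : Seminorm ℝ V)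
      (m : ℕ), Def N → Loc C₁ ⌊θ * m⌋₊ N → Loc C₃ ((4 * m + 2) * (4 * m + 2) + (4 * m + 2) + 1) N := by
  obtain ⟨κ, hκ⟩ := pow_unbounded_of_one_lt (162 / θ ^ 2) (one_lt_two (α := ℝ))
  obtain ⟨A, hA⟩ := exists_nat_ge ((8 / θ + 2) * (8 / θ + 2) + (8 / θ + 2) + 1)
  obtain ⟨Ca, hCa, ha⟩ := hSCL C₁ (κ + 2) hC₁
  obtain ⟨Cb, hCb, hb⟩ := hLOB A
  refine ⟨max Ca Cb, hCa.trans (le_max_left _ _), fun V _ _ _ N m hN hL => ?_⟩
  rcases le_or_gt 2 ⌊θ * m⌋₊ with h2 | h2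
  · refine (ha V N ⌊θ * m⌋₊ hN h2 hL).mono (le_max_left _ _) ?_
    obtain ⟨a, ha'⟩ : ∃ a, ⌊θ * m⌋₊ = a := ⟨_, rfl⟩
    rw [ha'] at h2 ⊢
    have h3 : θ * m < a + 1 := by rw [← ha']; exact Nat.lt_floor_add_one _
    have h4 : (2 : ℝ) ≤ a := by exact_mod_cast h2
    have h5 : (4 * m + 2 : ℝ) ≤ 9 * a / θ := by
      rw [le_div_iff₀ hθ]
      nlinarith
    have h6 : (2 : ℝ) ≤ 4 * m + 2 := by
      have : (0 : ℝ) ≤ m := Nat.cast_nonneg _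
      linarith
    have h7 : ((4 * m + 2) * (4 * m + 2) + (4 * m + 2) + 1 : ℝ) ≤ (a : ℝ) ^ (κ + 2) := by
      have e1 : ((4 * m + 2) * (4 * m + 2) + (4 * m + 2) + 1 : ℝ) ≤ 2 * (4 * m + 2) ^ 2 := by nlinarith
      have e2 : (4 * m + 2 : ℝ) ^ 2 ≤ (9 * a / θ) ^ 2 := pow_le_pow_left₀ (by linarith) h5 2
      have e3 : (2 : ℝ) * (9 * a / θ) ^ 2 = 162 / θ ^ 2 * a ^ 2 := by
        field_simp
        ring
      have e4 : (2 : ℝ) ^ κ ≤ (a : ℝ) ^ κ := pow_le_pow_left₀ (by norm_num) h4 κ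
      calc ((4 * m + 2) * (4 * m + 2) + (4 * m + 2) + 1 : ℝ) ≤ 2 * (4 * m + 2) ^ 2 := e1
        _ ≤ 2 * (9 * a / θ) ^ 2 := by linarith
        _ = 162 / θ ^ 2 * a ^ 2 := e3
        _ ≤ a ^ κ * a ^ 2 := mul_le_mul_of_nonneg_right (hκ.le.trans e4) (by positivity)
        _ = (a : ℝ) ^ (κ + 2) := by rw [pow_add]
    exact_mod_cast h7
  · refine (hb V N hN).mono (le_max_right _ _) ?_
    have h3 : θ * m < 2 := by
      by_contra h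
      rw [not_lt] at h
      have : 2 ≤ ⌊θ * m⌋₊ := Nat.le_floor (by exact_mod_cast h)
      omega
    have h4 : (4 * m + 2 : ℝ) ≤ 8 / θ + 2 := by
      have : (m : ℝ) ≤ 2 / θ := by
        rw [le_div_iff₀ hθ]
        linarith
      have e : 8 / θ = 4 * (2 / θ) := by ring
      linarith
    have h6 : (0 : ℝ) ≤ 4 * m + 2 := by positivity
    have h7 : ((4 * m + 2) * (4 * m + 2) + (4 * m + 2) + 1 : ℝ) ≤ A := by
      refine le_trans ?_ hA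
      have e1 : ((4 * m + 2) * (4 * m + 2) : ℝ) ≤ (8 / θ + 2) * (8 / θ + 2) :=
        mul_le_mul h4 h4 h6 (h6.trans h4)
      linarith
    exact_mod_cast h7

theorem p_STP (hSCL : Stmt_SCL) (hLOB : Stmt_LOB) (hDET : Stmt_DET) (hJOI : Stmt_JOI) (hLAR : Stmt_LAR)
    (hONE : Stmt_ONE) : Stmt_STP := by
  classical
  intro α β b C Λ hα hβ hβ1 hb hC hΛ
  obtain ⟨θ, R, C₁, hθ, hθ1, hR, hC₁, hone⟩ := hONE β b C Λ hβ hβ1 hb hC hΛ
  obtain ⟨C₃, hC₃, hloc⟩ := STP_loc hSCL hLOB θ C₁ hθ hθ1 hC₁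
  have hC₃4 : 1 ≤ C₃ ^ 4 := one_le_pow₀ hC₃
  have hΛ' : 1 ≤ 2 * C₃ ^ 4 * R := by
    have : 1 ≤ C₃ ^ 4 * R := one_le_mul_of_one_le_of_one_le hC₃4 hR
    linarith
  obtain ⟨C₄, hC₄, hjoi⟩ := hJOI C₃ (2 * C₃ ^ 4 * R) hC₃ hΛ'
  set δ : ℝ := θ * min 1 α / 2 with hδ
  have hmin : 0 < min 1 α := lt_min one_pos hα
  have hδ0 : 0 < δ := by positivity
  have hδθ : δ ≤ θ := by
    have : min 1 α ≤ 1 := min_le_left _ _
    have : θ * min 1 α ≤ θ * 1 := mul_le_mul_of_nonneg_left this hθ.le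
    rw [hδ]; linarith
  have hδα : δ ≤ α := by
    have h1 : min 1 α ≤ α := min_le_right _ _
    have h2 : θ * min 1 α ≤ 1 * α := mul_le_mul hθ1 h1 hmin.le zero_le_one
    rw [hδ]; linarith
  obtain ⟨C₂, n₁, hC₂, hlar⟩ := hLAR (θ * δ / 2) C₁ (by positivity) hC₁
  obtain ⟨n₂, hn₂⟩ := exists_nat_ge (4 / (θ * δ))
  refine ⟨C₂ * C₂ + C₄, max n₁ n₂, ?_, ?_⟩
  · have : 1 ≤ C₂ * C₂ := one_le_mul_of_one_le_of_one_le hC₂ hC₂
    linarith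
  intro V _ _ _ p r k hp hr H hn hαk E hE hEp hEr hE2
  obtain ⟨n, hnV⟩ : ∃ n, finrank ℝ V = n := ⟨_, rfl⟩
  have hn' : (n₂ : ℝ) ≤ n := by
    rw [hnV] at hn
    exact_mod_cast (le_max_right _ _).trans hn
  have hnn : 4 ≤ θ * δ * n := by
    have h1 := hn₂.trans hn'
    rw [div_le_iff₀ (by positivity)] at h1
    linarith
  have hn0 : (0 : ℝ) ≤ n := Nat.cast_nonneg _
  obtain ⟨m₁, hm₁⟩ : ∃ m₁, ⌊δ * n⌋₊ = m₁ := ⟨_, rfl⟩
  have hm₁a : (m₁ : ℝ) ≤ δ * n := by rw [← hm₁]; exact Nat.floor_le (by positivity)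
  have hm₁b : δ * n < m₁ + 1 := by rw [← hm₁]; exact Nat.lt_floor_add_one _
  have hm₁k : m₁ ≤ k := by
    have h1 : (m₁ : ℝ) ≤ k := by
      rw [hnV] at hαk
      calc (m₁ : ℝ) ≤ δ * n := hm₁a
        _ ≤ α * n := mul_le_mul_of_nonneg_right hδα hn0
        _ ≤ k := hαk
    exact_mod_cast h1
  let P : ℕ → Prop := fun m => ∃ G : Submodule ℝ V, finrank ℝ G = m ∧
    ((∀ y ∈ G, R * p y ≤ r y) ∨ ∀ y ∈ G, R * r y ≤ p y)
  have hP0 : P 0 := by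
    refine ⟨⊥, finrank_bot ℝ V, Or.inl fun y hy => ?_⟩
    rw [(Submodule.mem_bot ℝ).1 hy, map_zero, map_zero, mul_zero]
  obtain ⟨m, hm, hPm, hmax⟩ : ∃ m, m ≤ m₁ ∧ P m ∧ ∀ j, m < j → j ≤ m₁ → ¬ P j :=
    ⟨Nat.findGreatest P m₁, Nat.findGreatest_le _, Nat.findGreatest_spec (Nat.zero_le _) hP0,
      fun j h1 h2 => Nat.findGreatest_is_greatest h1 h2⟩
  obtain ⟨G, hG, hGd⟩ := hPm
  have hmm : (m : ℝ) ≤ m₁ := by exact_mod_cast hm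
  have hlocal : ∀ F : Submodule ℝ V, finrank ℝ F ≤ ⌊θ * m⌋₊ → Eu C₁ (p.comp F.subtype) ∧ Eu C₁ (r.comp F.subtype) := by
    intro F hF
    refine hone V p r k hp hr H E G hE ?_ ?_ hEp hEr hE2 hGd F ?_
    · rw [hG, hnV]
      calc (m : ℝ) ≤ m₁ := hmm
        _ ≤ δ * n := hm₁a
        _ ≤ θ * n := mul_le_mul_of_nonneg_right hδθ hn0
    · rw [hG]; exact hm.trans hm₁k
    · rw [hG]
      have h1 : (finrank ℝ F : ℝ) ≤ (⌊θ * m⌋₊ : ℝ) := by exact_mod_cast hF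
      exact h1.trans (Nat.floor_le (by positivity))
  have hLp : Loc C₁ ⌊θ * m⌋₊ p := fun F hF => (hlocal F hF).1
  have hLr : Loc C₁ ⌊θ * m⌋₊ r := fun F hF => (hlocal F hF).2
  have hCC : 1 ≤ C₂ * C₂ := one_le_mul_of_one_le_of_one_le hC₂ hC₂
  rcases hm.eq_or_lt with heq | hlt
  · -- case (i)
    have hc : θ * δ / 2 * finrank ℝ V ≤ (⌊θ * m⌋₊ : ℝ) := by
      rw [hnV, heq]
      have h1 : θ * m₁ < ⌊θ * m₁⌋₊ + 1 := Nat.lt_floor_add_one _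
      have h2 : θ * (δ * n) ≤ θ * (m₁ + 1) := mul_le_mul_of_nonneg_left hm₁b.le hθ.le
      have h3 : θ * (m₁ + 1) = θ * m₁ + θ := by ring
      have h4 : θ * (δ * n) = θ * δ * n := by ring
      have h5 : θ * δ / 2 * n = (θ * δ * n) / 2 := by ring
      rw [h5]
      linarith
    have hn1 : n₁ ≤ finrank ℝ V := (le_max_left _ _).trans hn
    have e1 := hlar V p ⌊θ * m⌋₊ hp hn1 hc hLp
    have e2 := hlar V r ⌊θ * m⌋₊ hr hn1 hc hLr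
    exact (e1.iso hp hr hC₂ e2 rfl).mono (by linarith)
  · -- case (ii)
    have hnP : ¬ P (m + 1) := hmax (m + 1) (Nat.lt_succ_self m) hlt
    have hex1 : ∀ G : Submodule ℝ V, finrank ℝ G = m + 1 → ∃ y ∈ G, r y < R * p y := by
      intro G' hG'
      by_contra h
      push Not at h
      exact hnP ⟨G', hG', Or.inl h⟩
    have hex2 : ∀ G : Submodule ℝ V, finrank ℝ G = m + 1 → ∃ y ∈ G, p y < R * r y := by
      intro G' hG'
      by_contra h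
      push Not at h
      exact hnP ⟨G', hG', Or.inr h⟩
    have hL3p := hloc V p m hp hLp
    have hL3r := hloc V r m hr hLr
    have hle : 2 * m + 2 ≤ (4 * m + 2) * (4 * m + 2) + (4 * m + 2) + 1 := by nlinarith
    obtain ⟨X₁, hX₁, hX₁'⟩ := hDET V p r C₃ R m hp hr hC₃ (by linarith) (hL3p.mono le_rfl hle)
      (hL3r.mono le_rfl hle) hex1
    obtain ⟨X₂, hX₂, hX₂'⟩ := hDET V r p C₃ R m hr hp hC₃ (by linarith) (hL3r.mono le_rfl hle)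
      (hL3p.mono le_rfl hle) hex2
    have hdim := Submodule.finrank_sup_add_finrank_inf_eq X₁ X₂
    have hsup : finrank ℝ (X₁ ⊔ X₂ : Submodule ℝ V) ≤ finrank ℝ V := Submodule.finrank_le _
    have hinf : finrank ℝ (X₁ ⊓ X₂ : Submodule ℝ V) ≤ finrank ℝ V := Submodule.finrank_le _
    obtain ⟨n', hn'⟩ := Nat.exists_eq_add_of_le hinf
    have hn'N : n' ≤ 4 * m + 2 := by omega
    have hle2 : n' * n' + n' + 1 ≤ (4 * m + 2) * (4 * m + 2) + (4 * m + 2) + 1 := by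
      have := Nat.mul_le_mul hn'N hn'N
      omega
    refine (hjoi V p r n' (X₁ ⊓ X₂) hp hr hn'.symm (hL3p.mono le_rfl hle2) (hL3r.mono le_rfl hle2) ?_).mono
      (by linarith)
    intro x hx
    exact ⟨hX₂' x hx.2, hX₁' x hx.1⟩

end Pool.EH
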