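import Pool.Agent.Work.MP_3e8c7a_h.Interface

set_option autoImplicit false

namespace Pool.EH

open Module Pool.Agent.MP3e8c7a

theorem STZ_super {W : Type} [AddCommGroup W] [Module ℝ W] [FiniteDimensional ℝ W]
    (F : Submodule ℝ W) (j : ℕ) (hj : finrank ℝ F + j ≤ finrank ℝ W) :
    ∃ F' : Submodule ℝ W, F ≤ F' ∧ finrank ℝ F' = finrank ℝ F + j := by
  induction j with
  | zero => exact ⟨F, le_refl _, rfl⟩
  | succ j ih =>
    obtain ⟨F', h1, h2⟩ := ih (by omega)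
    have hlt : finrank ℝ F' < finrank ℝ W := by omega
    have hne : ∃ x, x ∉ F' := by
      by_contra h
      push Not at h
      have h3 : F' = ⊤ := (Submodule.eq_top_iff').2 h
      rw [h3, finrank_top] at hlt
      omega
    obtain ⟨v, hv⟩ := hne
    refine ⟨F' ⊔ Submodule.span ℝ {v}, h1.trans le_sup_left, ?_⟩
    rw [Submodule.finrank_sup_span_singleton hv, h2]
    omega

theorem STZ_iso {W W' : Type} [AddCommGroup W] [Module ℝ W] [AddCommGroup W'] [Module ℝ W']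
    {b M : ℝ} (hb : 0 ≤ b) {p : Seminorm ℝ W} {r : Seminorm ℝ W'} (h : Iso b p r) (hp : Eu M p) :
    Eu (b * M) r := by
  obtain ⟨T, hT⟩ := h
  obtain ⟨d, S, hS⟩ := hp
  refine ⟨d, S ∘ₗ T.symm.toLinearMap, fun y => ?_⟩
  have e : (S ∘ₗ T.symm.toLinearMap) y = S (T.symm y) := rfl
  have e2 : T (T.symm y) = y := T.apply_symm_apply y
  have h1 := hT (T.symm y)
  rw [e2] at h1
  have h2 := hS (T.symm y)
  rw [e]
  refine ⟨h2.1.trans h1.1, h1.2.trans ?_⟩
  rw [mul_assoc]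
  exact mul_le_mul_of_nonneg_left h2.2 hb

theorem p_STZ (hLAR : Stmt_LAR) : Stmt_STZ := by
  intro α b M hα hb hM
  have hbM : 1 ≤ b * M := by nlinarith
  obtain ⟨C', n₁, hC', hL⟩ := hLAR α (b * M) hα hbM
  refine ⟨C', ⌈(n₁ : ℝ) / α⌉₊, hC', ?_⟩
  intro V _ _ _ p r k E hp hr hyp hn hk hkE hEu
  have h1 : (n₁ : ℝ) / α ≤ finrank ℝ V := (Nat.le_ceil _).trans (by exact_mod_cast hn)
  have h2 : (n₁ : ℝ) ≤ α * finrank ℝ V := by
    rw [div_le_iff₀ hα] at h1
    linarith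
  have h3 : n₁ ≤ finrank ℝ E := by
    have h4 : (n₁ : ℝ) ≤ (k : ℝ) := h2.trans hk
    have h5 : n₁ ≤ k := by exact_mod_cast h4
    exact h5.trans hkE
  have h6 : α * finrank ℝ E ≤ k := by
    have h7 : finrank ℝ E ≤ finrank ℝ V := Submodule.finrank_le E
    have h8 : (finrank ℝ E : ℝ) ≤ finrank ℝ V := by exact_mod_cast h7
    exact (mul_le_mul_of_nonneg_left h8 hα.le).trans hk
  refine hL E (r.comp E.subtype) k (hr.comp _ Subtype.val_injective) h3 h6 ?_
  intro F hF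
  obtain ⟨F', hFF, hF'⟩ := STZ_super F (k - finrank ℝ F) (by omega)
  have hF'k : finrank ℝ F' = k := by omega
  have hinj : Function.Injective (E.subtype ∘ₗ F'.subtype) :=
    Subtype.val_injective.comp Subtype.val_injective
  have h9 : Iso b (p.comp (E.subtype ∘ₗ F'.subtype)) (r.comp (E.subtype ∘ₗ F'.subtype)) :=
    hyp.inj _ hinj hF'k
  have h10 : Eu M (p.comp (E.subtype ∘ₗ F'.subtype)) := hEu.comp F'.subtype
  have h11 : Eu (b * M) (r.comp (E.subtype ∘ₗ F'.subtype)) := STZ_iso (by linarith) h9 h10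
  have h12 : Eu (b * M) ((r.comp E.subtype).comp F'.subtype) := h11
  exact h12.sub hFF

end Pool.EH
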