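import Pool.Agent.Work.MP_3e8c7a_h.Interface

/-! Block TRF of THEOREM H (helper11). -/

set_option autoImplicit false

namespace Pool.EH

open Module Pool.Agent.MP3e8c7a

/-- The sum map `(w, x) ↦ u w + x`. -/
noncomputable def TRF_map {V W : Type} [AddCommGroup V] [Module ℝ V] [AddCommGroup W] [Module ℝ W]
    (u : W →ₗ[ℝ] V) (E : Submodule ℝ V) : (W × E) →ₗ[ℝ] V := LinearMap.coprod u E.subtype

lemma TRF_map_apply {V W : Type} [AddCommGroup V] [Module ℝ V] [AddCommGroup W] [Module ℝ W]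
    (u : W →ₗ[ℝ] V) (E : Submodule ℝ V) (z : W × E) : TRF_map u E z = u z.1 + (z.2 : V) := by
  simp [TRF_map, LinearMap.coprod_apply]

/-- Two Euclidean spaces side by side. -/
lemma TRF_pair {W W' : Type} [AddCommGroup W] [Module ℝ W] [AddCommGroup W'] [Module ℝ W'] {d d' : ℕ}
    (T : W →ₗ[ℝ] EuclideanSpace ℝ (Fin d)) (S : W' →ₗ[ℝ] EuclideanSpace ℝ (Fin d')) :
    ∃ (e : ℕ) (R : (W × W') →ₗ[ℝ] EuclideanSpace ℝ (Fin e)), ∀ z, ‖R z‖ ^ 2 = ‖T z.1‖ ^ 2 + ‖S z.2‖ ^ 2 := by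
  let P := WithLp 2 (EuclideanSpace ℝ (Fin d) × EuclideanSpace ℝ (Fin d'))
  let b := stdOrthonormalBasis ℝ P
  let J : (EuclideanSpace ℝ (Fin d) × EuclideanSpace ℝ (Fin d')) ≃ₗ[ℝ] P :=
    (WithLp.linearEquiv 2 ℝ (EuclideanSpace ℝ (Fin d) × EuclideanSpace ℝ (Fin d'))).symm
  refine ⟨_, b.repr.toLinearEquiv.toLinearMap ∘ₗ J.toLinearMap ∘ₗ (LinearMap.prodMap T S), fun z => ?_⟩
  have h1 : ‖(b.repr.toLinearEquiv.toLinearMap ∘ₗ J.toLinearMap ∘ₗ (LinearMap.prodMap T S)) z‖ =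
      ‖J (T z.1, S z.2)‖ := by
    show ‖b.repr (J (T z.1, S z.2))‖ = _
    rw [LinearIsometryEquiv.norm_map]
  rw [h1, WithLp.prod_norm_sq_eq_of_L2]
  rfl

theorem p_TRF : Stmt_TRF := by
  intro V W _ _ _ _ _ _ p r k b C C₂ D u E hp hr hH hb hC hC₂ hD hu hk hpos hE hW
  obtain ⟨d₁, T, hT⟩ := hW
  obtain ⟨d₂, S, hS⟩ := hE
  obtain ⟨e, R, hR⟩ := TRF_pair T S
  have hinj : Function.Injective (TRF_map u E) := by
    rw [injective_iff_map_eq_zero]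
    intro z hz
    rw [TRF_map_apply] at hz
    have h1 := hpos z.1 z.2 z.2.2
    rw [hz, map_zero, mul_zero] at h1
    have h2 : p (u z.1) = 0 := le_antisymm (by linarith [apply_nonneg p (z.2 : V)]) (apply_nonneg _ _)
    have h3 : p (z.2 : V) = 0 := le_antisymm (by linarith [apply_nonneg p (u z.1)]) (apply_nonneg _ _)
    have h4 : z.1 = 0 := hu (by rw [hp _ h2, map_zero])
    exact Prod.ext h4 (Subtype.ext (hp _ h3))
  have hfin : finrank ℝ (W × E) = k := by rw [Module.finrank_prod]; exact hk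
  obtain ⟨Q, hQ⟩ := hH.inj (TRF_map u E) hinj hfin
  -- the Hilbert norm on the product
  have key : ∀ z : W × E, C₂⁻¹ * ‖R z‖ ≤ p (TRF_map u E z) ∧ p (TRF_map u E z) ≤ 2 * C * D * ‖R z‖ := by
    intro z
    have hC₂0 : 0 < C₂ := by linarith
    have ht := hT z.1
    have hs := hS z.2
    have ht' : ‖T z.1‖ ≤ p (u z.1) ∧ p (u z.1) ≤ D * ‖T z.1‖ := ht
    have hs' : ‖S z.2‖ ≤ p (z.2 : V) ∧ p (z.2 : V) ≤ C * ‖S z.2‖ := hs
    have hRz := hR z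
    have n1 := norm_nonneg (T z.1)
    have n2 := norm_nonneg (S z.2)
    have n3 := norm_nonneg (R z)
    have hRle : ‖R z‖ ≤ ‖T z.1‖ + ‖S z.2‖ := by nlinarith
    have hTle : ‖T z.1‖ ≤ ‖R z‖ := by nlinarith [sq_nonneg ‖S z.2‖]
    have hSle : ‖S z.2‖ ≤ ‖R z‖ := by nlinarith [sq_nonneg ‖T z.1‖]
    rw [TRF_map_apply]
    constructor
    · rw [inv_mul_le_iff₀ hC₂0]
      have h1 := hpos z.1 z.2 z.2.2
      linarith [ht'.1, hs'.1]
    · calc p (u z.1 + (z.2 : V)) ≤ p (u z.1) + p (z.2 : V) := map_add_le_add p _ _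
        _ ≤ D * ‖R z‖ + C * ‖R z‖ := by
            refine add_le_add (ht'.2.trans (mul_le_mul_of_nonneg_left hTle (by linarith)))
              (hs'.2.trans (mul_le_mul_of_nonneg_left hSle (by linarith)))
        _ = (D + C) * ‖R z‖ := by ring
        _ ≤ 2 * C * D * ‖R z‖ := by
            refine mul_le_mul_of_nonneg_right ?_ n3
            nlinarith
  -- transfer to r
  refine ⟨e, C₂⁻¹ • (R ∘ₗ Q.symm.toLinearMap ∘ₗ LinearMap.inl ℝ W E), fun w => ?_⟩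
  have hC₂0 : 0 < C₂ := by linarith
  have h1 := hQ (Q.symm (w, 0))
  rw [LinearEquiv.apply_symm_apply] at h1
  have h2 : (r.comp (TRF_map u E)) (w, 0) = r (u w) := by
    show r (TRF_map u E (w, 0)) = _
    rw [TRF_map_apply]
    simp
  rw [h2] at h1
  have h3 := key (Q.symm (w, 0))
  have h4 : ‖(C₂⁻¹ • (R ∘ₗ Q.symm.toLinearMap ∘ₗ LinearMap.inl ℝ W E)) w‖ = C₂⁻¹ * ‖R (Q.symm (w, 0))‖ := by
    show ‖C₂⁻¹ • (R (Q.symm (w, 0)))‖ = _
    rw [norm_smul, Real.norm_eq_abs, abs_of_pos (inv_pos.2 hC₂0)]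
  rw [h4]
  have h5 : (p.comp (TRF_map u E)) (Q.symm (w, 0)) = p (TRF_map u E (Q.symm (w, 0))) := rfl
  rw [h5] at h1
  refine ⟨h3.1.trans h1.1, ?_⟩
  calc (r.comp u) w ≤ b * p (TRF_map u E (Q.symm (w, 0))) := h1.2
    _ ≤ b * (2 * C * D * ‖R (Q.symm (w, 0))‖) := mul_le_mul_of_nonneg_left h3.2 (by linarith)
    _ = 2 * b * C * C₂ * D * (C₂⁻¹ * ‖R (Q.symm (w, 0))‖) := by field_simp

end Pool.EH
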