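import Pool.Agent.Work.MP_3e8c7a_h.Interface

/-! Block TYL (helper89). -/

namespace Pool.EH

open Module Pool.Agent.MP3e8c7a

theorem TYL_par {E : Type} [NormedAddCommGroup E] [InnerProductSpace ℝ E] : ∀ (a : ℕ)
    (v : Fin a → E), ∑ g : Fin a → Bool, ‖∑ l, sg (g l) • v l‖ ^ 2 = 2 ^ a * ∑ l, ‖v l‖ ^ 2 := by
  intro a
  induction a with
  | zero =>
    intro v
    simp
  | succ a ih =>
    intro v
    rw [← (Fin.consEquiv (fun _ : Fin (a + 1) => Bool)).sum_comp, Fintype.sum_prod_type,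
      Fintype.sum_bool, ← Finset.sum_add_distrib]
    have h : ∀ g : Fin a → Bool,
        ‖∑ l, sg ((Fin.consEquiv (fun _ : Fin (a + 1) => Bool)) (true, g) l) • v l‖ ^ 2 +
        ‖∑ l, sg ((Fin.consEquiv (fun _ : Fin (a + 1) => Bool)) (false, g) l) • v l‖ ^ 2
        = 2 * ‖v 0‖ ^ 2 + 2 * ‖∑ l : Fin a, sg (g l) • v l.succ‖ ^ 2 := by
      intro g
      rw [Fin.sum_univ_succ, Fin.sum_univ_succ]
      simp only [Fin.consEquiv_apply, Fin.cons_zero, Fin.cons_succ]
      set s : E := ∑ l : Fin a, sg (g l) • v l.succ with hs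
      have e1 : sg true • v 0 + s = s + v 0 := by
        simp [sg, add_comm]
      have e2 : sg false • v 0 + s = s - v 0 := by
        simp [sg, sub_eq_add_neg, add_comm]
      rw [e1, e2]
      have := parallelogram_law_with_norm ℝ s (v 0)
      nlinarith [this]
    rw [Finset.sum_congr rfl fun g _ => h g, Finset.sum_add_distrib, ← Finset.mul_sum,
      ← Finset.mul_sum, ih (fun l => v l.succ), Fin.sum_univ_succ, Finset.sum_const]
    simp only [Finset.card_univ, Fintype.card_fun, Fintype.card_bool, Fintype.card_fin,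
      nsmul_eq_mul, Nat.cast_pow, Nat.cast_ofNat]
    ring

theorem p_TYL : Stmt_TYL := by
  intro V _ _ _ N C a hC hL
  have key : ∀ x : Fin a → V, ∃ (d : ℕ) (w : Fin a → EuclideanSpace ℝ (Fin d)),
      (∀ l, ‖w l‖ ≤ N (x l) ∧ N (x l) ≤ C * ‖w l‖) ∧ ∀ g : Fin a → Bool,
        ‖∑ l, sg (g l) • w l‖ ≤ N (∑ l, sg (g l) • x l) ∧
          N (∑ l, sg (g l) • x l) ≤ C * ‖∑ l, sg (g l) • w l‖ := by
    intro x
    have hF : finrank ℝ (Submodule.span ℝ (Set.range x)) ≤ a := by
      have := finrank_range_le_card (R := ℝ) x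
      rwa [Set.finrank, Fintype.card_fin] at this
    obtain ⟨d, T, hT⟩ := hL _ hF
    let X : Fin a → Submodule.span ℝ (Set.range x) := fun l =>
      ⟨x l, Submodule.subset_span ⟨l, rfl⟩⟩
    refine ⟨d, fun l => T (X l), fun l => hT (X l), fun g => ?_⟩
    have h := hT (∑ l, sg (g l) • X l)
    have e : (N.comp (Submodule.span ℝ (Set.range x)).subtype) (∑ l, sg (g l) • X l) =
        N (∑ l, sg (g l) • x l) := by
      rw [Seminorm.comp_apply, map_sum]
      simp [X]
    rw [e, map_sum] at h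
    simpa using h
  constructor
  · intro x
    obtain ⟨d, w, hw, hg⟩ := key x
    have hp := TYL_par a w
    calc ∑ g : Fin a → Bool, N (∑ l, sg (g l) • x l) ^ 2
        ≤ ∑ g : Fin a → Bool, C ^ 2 * ‖∑ l, sg (g l) • w l‖ ^ 2 := by
          refine Finset.sum_le_sum fun g _ => ?_
          rw [← mul_pow]
          exact pow_le_pow_left₀ (apply_nonneg _ _) (hg g).2 2
      _ = C ^ 2 * (2 ^ a * ∑ l, ‖w l‖ ^ 2) := by rw [← Finset.mul_sum, hp]
      _ ≤ C ^ 2 * (2 ^ a * ∑ l, N (x l) ^ 2) := by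
          refine mul_le_mul_of_nonneg_left (mul_le_mul_of_nonneg_left
            (Finset.sum_le_sum fun l _ => ?_) (by positivity)) (by positivity)
          exact pow_le_pow_left₀ (norm_nonneg _) (hw l).1 2
      _ = 2 ^ a * (C ^ 2 * ∑ l, N (x l) ^ 2) := by ring
  · intro x
    obtain ⟨d, w, hw, hg⟩ := key x
    have hp := TYL_par a w
    calc 2 ^ a * ∑ l, N (x l) ^ 2
        ≤ 2 ^ a * ∑ l, C ^ 2 * ‖w l‖ ^ 2 := by
          refine mul_le_mul_of_nonneg_left (Finset.sum_le_sum fun l _ => ?_) (by positivity)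
          rw [← mul_pow]
          exact pow_le_pow_left₀ (apply_nonneg _ _) (hw l).2 2
      _ = C ^ 2 * (2 ^ a * ∑ l, ‖w l‖ ^ 2) := by rw [← Finset.mul_sum]; ring
      _ = C ^ 2 * ∑ g : Fin a → Bool, ‖∑ l, sg (g l) • w l‖ ^ 2 := by rw [hp]
      _ ≤ C ^ 2 * ∑ g : Fin a → Bool, N (∑ l, sg (g l) • x l) ^ 2 := by
          refine mul_le_mul_of_nonneg_left (Finset.sum_le_sum fun g _ => ?_) (by positivity)
          exact pow_le_pow_left₀ (norm_nonneg _) (hg g).1 2

end Pool.EH
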