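import Pool.Agent.Work.MP_3e8c7a_h.Interface

set_option autoImplicit false

namespace Pool.EH

open Module Pool.Agent.MP3e8c7a

theorem TYM_sg (x y : Bool) : sg (!(xor x y)) = sg x * sg y := by
  cases x <;> cases y <;> simp [sg]

/-- Reindexing of the signs. -/
theorem TYM_reindex {V : Type} [AddCommGroup V] [Module ℝ V] (N : Seminorm ℝ V) (a b : ℕ)
    (x : Fin (a * b) → V) :
    ∑ g : Fin (a * b) → Bool, N (∑ l, sg (g l) • x l) ^ 2 =
      ∑ G : Fin a → Fin b → Bool, N (∑ k, ∑ i, sg (G k i) • x (finProdFinEquiv (k, i))) ^ 2 := by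
  let e : (Fin a → Fin b → Bool) ≃ (Fin (a * b) → Bool) :=
    (Equiv.curry (Fin a) (Fin b) Bool).symm.trans (Equiv.arrowCongr finProdFinEquiv (Equiv.refl Bool))
  rw [← e.sum_comp]
  refine Finset.sum_congr rfl fun G _ => ?_
  congr 2
  rw [← finProdFinEquiv.sum_comp, Fintype.sum_prod_type]
  refine Finset.sum_congr rfl fun k _ => Finset.sum_congr rfl fun i _ => ?_
  simp [e, Equiv.arrowCongr, Function.uncurry]

theorem TYM_flip (a b : ℕ) (f : (Fin a → Fin b → Bool) → ℝ) (h : Fin a → Bool) :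
    ∑ G : Fin a → Fin b → Bool, f (fun k i => !(xor (h k) (G k i))) = ∑ G, f G := by
  have hinv : Function.Involutive (fun (G : Fin a → Fin b → Bool) => fun k i => !(xor (h k) (G k i))) := by
    intro G
    funext k i
    show (!(xor (h k) (!(xor (h k) (G k i))))) = G k i
    cases h k <;> cases G k i <;> rfl
  exact Equiv.sum_comp hinv.toPerm f

theorem TYM_avg {V : Type} [AddCommGroup V] [Module ℝ V] (N : Seminorm ℝ V) (a b : ℕ)
    (X : Fin a → Fin b → V) :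
    (2 : ℝ) ^ a * ∑ G : Fin a → Fin b → Bool, N (∑ k, ∑ i, sg (G k i) • X k i) ^ 2 =
      ∑ G : Fin a → Fin b → Bool, ∑ h : Fin a → Bool,
        N (∑ k, sg (h k) • ∑ i, sg (G k i) • X k i) ^ 2 := by
  rw [Finset.sum_comm]
  have : ∀ h : Fin a → Bool,
      ∑ G : Fin a → Fin b → Bool, N (∑ k, sg (h k) • ∑ i, sg (G k i) • X k i) ^ 2 =
        ∑ G : Fin a → Fin b → Bool, N (∑ k, ∑ i, sg (G k i) • X k i) ^ 2 := by
    intro h
    rw [← TYM_flip a b (fun G => N (∑ k, ∑ i, sg (G k i) • X k i) ^ 2) h]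
    refine Finset.sum_congr rfl fun G _ => ?_
    congr 2
    refine Finset.sum_congr rfl fun k _ => ?_
    rw [Finset.smul_sum]
    refine Finset.sum_congr rfl fun i _ => ?_
    rw [TYM_sg, mul_smul]
  rw [Finset.sum_congr rfl fun h _ => this h]
  simp

theorem TYM_marg (a b : ℕ) (k : Fin a) (F : (Fin b → Bool) → ℝ) :
    (2 : ℝ) ^ b * ∑ G : Fin a → Fin b → Bool, F (G k) = 2 ^ (a * b) * ∑ g, F g := by
  classical
  have h1 := Finset.prod_univ_sum (fun _ : Fin a => (Finset.univ : Finset (Fin b → Bool)))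
    (fun (j : Fin a) (g : Fin b → Bool) => if j = k then F g else (1 : ℝ))
  rw [Fintype.piFinset_univ] at h1
  have h2 : ∀ G : Fin a → Fin b → Bool, ∏ j, (if j = k then F (G j) else (1 : ℝ)) = F (G k) := by
    intro G
    simp
  rw [Finset.sum_congr rfl fun G _ => h2 G] at h1
  rw [← h1, ← Finset.mul_prod_erase Finset.univ _ (Finset.mem_univ k)]
  have h3 : ∏ j ∈ Finset.univ.erase k, ∑ g : Fin b → Bool, (if j = k then F g else (1 : ℝ)) =
      (2 ^ b) ^ (a - 1) := by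
    rw [Finset.prod_congr rfl (g := fun _ => (2 : ℝ) ^ b)]
    · rw [Finset.prod_const, Finset.card_erase_of_mem (Finset.mem_univ k)]
      simp
    · intro j hj
      have : j ≠ k := Finset.ne_of_mem_erase hj
      simp [this]
  rw [h3]
  simp only [if_true]
  have ha : 0 < a := k.pos
  have h4 : (2 : ℝ) ^ (a * b) = (2 ^ b) * (2 ^ b) ^ (a - 1) := by
    rw [← pow_succ', Nat.sub_add_cancel ha, ← pow_mul, mul_comm]
  rw [h4]
  ring

theorem p_TYM : Stmt_TYM := by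
  intro V _ _ N T S a b
  refine ⟨fun hT hS => ?_, fun hT hS => ?_⟩
  · intro x
    rw [TYM_reindex]
    set X : Fin a → Fin b → V := fun k i => x (finProdFinEquiv (k, i)) with hX
    have hsum : ∑ l, N (x l) ^ 2 = ∑ k, ∑ i, N (X k i) ^ 2 := by
      rw [← finProdFinEquiv.sum_comp, Fintype.sum_prod_type]
    rw [hsum]
    set Tot := ∑ G : Fin a → Fin b → Bool, N (∑ k, ∑ i, sg (G k i) • X k i) ^ 2 with hTot
    have h1 : (2 : ℝ) ^ a * Tot ≤ ∑ G : Fin a → Fin b → Bool,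
        2 ^ a * (T ^ 2 * ∑ k, N (∑ i, sg (G k i) • X k i) ^ 2) := by
      rw [hTot, TYM_avg]
      exact Finset.sum_le_sum fun G _ => hT fun k => ∑ i, sg (G k i) • X k i
    rw [← Finset.mul_sum, ← Finset.mul_sum, Finset.sum_comm] at h1
    have h2 : Tot ≤ T ^ 2 * ∑ k, ∑ G : Fin a → Fin b → Bool, N (∑ i, sg (G k i) • X k i) ^ 2 :=
      le_of_mul_le_mul_left h1 (by positivity)
    have h3 : ∀ k : Fin a, (2 : ℝ) ^ b * ∑ G : Fin a → Fin b → Bool, N (∑ i, sg (G k i) • X k i) ^ 2 ≤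
        2 ^ b * (2 ^ (a * b) * (S ^ 2 * ∑ i, N (X k i) ^ 2)) := by
      intro k
      rw [TYM_marg a b k (fun g => N (∑ i, sg (g i) • X k i) ^ 2)]
      have := hS (X k)
      calc (2 : ℝ) ^ (a * b) * ∑ g : Fin b → Bool, N (∑ i, sg (g i) • X k i) ^ 2
          ≤ 2 ^ (a * b) * (2 ^ b * (S ^ 2 * ∑ i, N (X k i) ^ 2)) :=
            mul_le_mul_of_nonneg_left this (by positivity)
        _ = _ := by ring
    have h4 : ∀ k : Fin a, ∑ G : Fin a → Fin b → Bool, N (∑ i, sg (G k i) • X k i) ^ 2 ≤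
        2 ^ (a * b) * (S ^ 2 * ∑ i, N (X k i) ^ 2) :=
      fun k => le_of_mul_le_mul_left (h3 k) (by positivity)
    calc Tot ≤ T ^ 2 * ∑ k, ∑ G : Fin a → Fin b → Bool, N (∑ i, sg (G k i) • X k i) ^ 2 := h2
      _ ≤ T ^ 2 * ∑ k, 2 ^ (a * b) * (S ^ 2 * ∑ i, N (X k i) ^ 2) :=
        mul_le_mul_of_nonneg_left (Finset.sum_le_sum fun k _ => h4 k) (by positivity)
      _ = 2 ^ (a * b) * ((T * S) ^ 2 * ∑ k, ∑ i, N (X k i) ^ 2) := by
        rw [← Finset.mul_sum, ← Finset.mul_sum]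
        ring
  · intro x
    rw [TYM_reindex]
    set X : Fin a → Fin b → V := fun k i => x (finProdFinEquiv (k, i)) with hX
    have hsum : ∑ l, N (x l) ^ 2 = ∑ k, ∑ i, N (X k i) ^ 2 := by
      rw [← finProdFinEquiv.sum_comp, Fintype.sum_prod_type]
    rw [hsum]
    set Tot := ∑ G : Fin a → Fin b → Bool, N (∑ k, ∑ i, sg (G k i) • X k i) ^ 2 with hTot
    have h1 : ∑ G : Fin a → Fin b → Bool, 2 ^ a * ∑ k, N (∑ i, sg (G k i) • X k i) ^ 2 ≤
        T ^ 2 * ((2 : ℝ) ^ a * Tot) := by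
      rw [hTot, TYM_avg, Finset.mul_sum]
      exact Finset.sum_le_sum fun G _ => hT fun k => ∑ i, sg (G k i) • X k i
    rw [← Finset.mul_sum, Finset.sum_comm, mul_left_comm] at h1
    have h2 : ∑ k, ∑ G : Fin a → Fin b → Bool, N (∑ i, sg (G k i) • X k i) ^ 2 ≤ T ^ 2 * Tot :=
      le_of_mul_le_mul_left h1 (by positivity)
    have h3 : ∀ k : Fin a, (2 : ℝ) ^ b * (2 ^ (a * b) * ∑ i, N (X k i) ^ 2) ≤
        2 ^ b * (S ^ 2 * ∑ G : Fin a → Fin b → Bool, N (∑ i, sg (G k i) • X k i) ^ 2) := by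
      intro k
      have h5 := TYM_marg a b k (fun g => N (∑ i, sg (g i) • X k i) ^ 2)
      have := hS (X k)
      calc (2 : ℝ) ^ b * (2 ^ (a * b) * ∑ i, N (X k i) ^ 2)
          = 2 ^ (a * b) * (2 ^ b * ∑ i, N (X k i) ^ 2) := by ring
        _ ≤ 2 ^ (a * b) * (S ^ 2 * ∑ g : Fin b → Bool, N (∑ i, sg (g i) • X k i) ^ 2) :=
            mul_le_mul_of_nonneg_left this (by positivity)
        _ = S ^ 2 * (2 ^ (a * b) * ∑ g : Fin b → Bool, N (∑ i, sg (g i) • X k i) ^ 2) := by ring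
        _ = S ^ 2 * (2 ^ b * ∑ G : Fin a → Fin b → Bool, N (∑ i, sg (G k i) • X k i) ^ 2) := by
            rw [← h5]
        _ = _ := by ring
    have h4 : ∀ k : Fin a, 2 ^ (a * b) * ∑ i, N (X k i) ^ 2 ≤
        S ^ 2 * ∑ G : Fin a → Fin b → Bool, N (∑ i, sg (G k i) • X k i) ^ 2 :=
      fun k => le_of_mul_le_mul_left (h3 k) (by positivity)
    calc (2 : ℝ) ^ (a * b) * ∑ k, ∑ i, N (X k i) ^ 2
        = ∑ k, 2 ^ (a * b) * ∑ i, N (X k i) ^ 2 := by rw [Finset.mul_sum]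
      _ ≤ ∑ k, S ^ 2 * ∑ G : Fin a → Fin b → Bool, N (∑ i, sg (G k i) • X k i) ^ 2 :=
        Finset.sum_le_sum fun k _ => h4 k
      _ = S ^ 2 * ∑ k, ∑ G : Fin a → Fin b → Bool, N (∑ i, sg (G k i) • X k i) ^ 2 := by
        rw [Finset.mul_sum]
      _ ≤ S ^ 2 * (T ^ 2 * Tot) := mul_le_mul_of_nonneg_left h2 (by positivity)
      _ = (T * S) ^ 2 * Tot := by ring

end Pool.EH
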