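import Pool.Agent.Work.MP_3e8c7a_h.Interface

set_option autoImplicit false

namespace Pool.EH

open Module Pool.Agent.MP3e8c7a MeasureTheory ProbabilityTheory
open scoped RealInnerProductSpace

theorem p_VRT (hRND : Stmt_RND) (hPCK : Stmt_PCK) : Stmt_VRT := by
  intro η A hη hη1 hA
  have hκ : (1 : ℝ) ≤ 2 / η := by
    rw [le_div_iff₀ hη]; linarith
  have h2A : (1 : ℝ) ≤ 2 * A := by linarith
  have hΓ : (1 : ℝ) ≤ (2 * A) ^ (2 / η) := Real.one_le_rpow h2A (by linarith)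
  obtain ⟨τ, hτ, hτ1, hR⟩ := hRND (2 / η) ((2 * A) ^ (2 / η)) hκ hΓ
  have hRpos : (0 : ℝ) < 4 / τ := by positivity
  have hR1 : (1 : ℝ) ≤ 4 / τ := by
    rw [le_div_iff₀ hτ]; linarith
  refine ⟨4 / τ, hR1, ?_⟩
  intro n p hn hp hvol
  obtain ⟨T, hTc, hT1, hT2⟩ := hPCK n p A (4 / τ) (τ / 2) hA (by positivity)
    (by rw [div_mul_div_comm, le_div_iff₀ (by positivity)]; nlinarith) hp hvol
  have hη0 : (0 : ℝ) ≤ η * n := by linarith
  have hcle : ((⌊η * n⌋₊ : ℕ) : ℝ) ≤ η * n := Nat.floor_le hη0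
  have hclt : η * n < (⌊η * n⌋₊ : ℕ) + 1 := Nat.lt_floor_add_one _
  have hc1 : 1 ≤ ⌊η * n⌋₊ := by
    rw [Nat.one_le_floor_iff]; linarith
  have hc2 : (n : ℝ) ≤ 2 / η * (⌊η * n⌋₊ : ℕ) := by
    rw [div_mul_eq_mul_div, le_div_iff₀ hη]
    nlinarith
  have hcard : (T.card : ℝ) ≤ ((2 * A) ^ (2 / η)) ^ ⌊η * n⌋₊ := by
    refine hTc.trans ?_
    rw [← Real.rpow_natCast (2 * A) n, ← Real.rpow_natCast ((2 * A) ^ (2 / η)) ⌊η * n⌋₊,
      ← Real.rpow_mul (by linarith)]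
    exact Real.rpow_le_rpow_of_exponent_le h2A hc2
  obtain ⟨E, hE1, hE2⟩ := hR n ⌊η * n⌋₊ hc1 hc2 T hT1 hcard
  refine ⟨E, ?_, ?_⟩
  · have h1 : (n : ℝ) ≤ finrank ℝ E + (⌊η * n⌋₊ : ℕ) := by exact_mod_cast hE1
    nlinarith
  · have key : ∀ y ∈ E, (4 / τ)⁻¹ * ‖y‖ ≤ p y := by
      intro y hy
      by_contra hcon
      rw [not_le] at hcon
      have hy0 : 0 < ‖y‖ := by
        by_contra h0
        have h0' : ‖y‖ = 0 := le_antisymm (not_lt.1 h0) (norm_nonneg _)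
        rw [h0', mul_zero] at hcon
        exact absurd hcon (not_lt.2 (apply_nonneg p y))
      have hx1 : ‖(‖y‖⁻¹ : ℝ) • y‖ = 1 := by
        rw [norm_smul, norm_inv, norm_norm, inv_mul_cancel₀ hy0.ne']
      have hx2 : p ((‖y‖⁻¹ : ℝ) • y) ≤ 1 / (4 / τ) := by
        rw [map_smul_eq_mul, norm_inv, norm_norm, one_div, inv_mul_le_iff₀ hy0]
        linarith
      obtain ⟨z, hz, hz2⟩ := hT2 _ hx1 hx2
      have h3 := hE2 z hz _ (E.smul_mem (‖y‖⁻¹ : ℝ) hy)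
      rw [norm_sub_rev] at h3
      linarith
    refine ⟨n, (4 / τ)⁻¹ • E.subtype, fun x => ?_⟩
    have e : ‖((4 / τ)⁻¹ • E.subtype) x‖ = (4 / τ)⁻¹ * ‖(x : EuclideanSpace ℝ (Fin n))‖ := by
      rw [LinearMap.smul_apply, norm_smul, Real.norm_eq_abs, abs_of_pos (inv_pos.2 hRpos)]
      rfl
    rw [e]
    constructor
    · exact key x x.2
    · have h4 : 4 / τ * ((4 / τ)⁻¹ * ‖(x : EuclideanSpace ℝ (Fin n))‖) =
          ‖(x : EuclideanSpace ℝ (Fin n))‖ := by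
        rw [← mul_assoc, mul_inv_cancel₀ hRpos.ne', one_mul]
      rw [h4]
      exact hp x

end Pool.EH
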