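import Pool.Agent.Work.MP_3e8c7a_h.Interface

/-!
# MP_3e8c7a_an, THEOREM H: from norms to bodies
-/

set_option autoImplicit false

namespace Pool.EH

open Module Pool.Agent.MP3e8c7a MeasureTheory

/-- `K` has a section of dimension `m` within the factor `M` of an ellipsoid. -/
def HasEllSection (M : ℝ) (m : ℕ) {n : ℕ} (K : Set (Fin n → ℝ)) : Prop :=
  ∃ i : (Fin m → ℝ) →ₗ[ℝ] (Fin n → ℝ), Function.Injective i ∧
    (∀ x, ∑ l, x l ^ 2 ≤ 1 → i x ∈ K) ∧ ∀ x, i x ∈ K → ∑ l, x l ^ 2 ≤ M ^ 2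

/-- `K` contains an ellipsoid `T(B)` with `vol K ≤ M ^ n vol T(B)`. -/
def VolRatio (M : ℝ) {n : ℕ} (K : Set (Fin n → ℝ)) : Prop :=
  ∃ T : (Fin n → ℝ) ≃ₗ[ℝ] (Fin n → ℝ), T '' {x | ∑ l, x l ^ 2 ≤ 1} ⊆ K ∧
    volume K ≤ ENNReal.ofReal (M ^ n) * volume (T '' {x | ∑ l, x l ^ 2 ≤ 1})

/-- The identity from `EuclideanSpace` to functions. -/
noncomputable def oL (n : ℕ) : EuclideanSpace ℝ (Fin n) ≃ₗ[ℝ] (Fin n → ℝ) := WithLp.linearEquiv 2 ℝ (Fin n → ℝ)

lemma oL_norm {n : ℕ} (x : EuclideanSpace ℝ (Fin n)) : ‖x‖ ^ 2 = ∑ l, (oL n x) l ^ 2 := by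
  rw [EuclideanSpace.norm_sq_eq]
  refine Finset.sum_congr rfl fun l _ => ?_
  rw [Real.norm_eq_abs, sq_abs]
  rfl

lemma oL_symm_norm {n : ℕ} (x : Fin n → ℝ) : ‖(oL n).symm x‖ ^ 2 = ∑ l, x l ^ 2 := by
  rw [oL_norm, LinearEquiv.apply_symm_apply]

/-- Homogeneity. -/
lemma le_of_unit {U : Type} [AddCommGroup U] [Module ℝ U] (a c : Seminorm ℝ U) {C : ℝ} (hC : 0 ≤ C)
    (h : ∀ u, a u ≤ 1 → c u ≤ C) (u : U) : c u ≤ C * a u := by
  rcases (apply_nonneg a u).lt_or_eq with h0 | h0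
  · have h1 : a ((a u)⁻¹ • u) ≤ 1 := by
      rw [map_smul_eq_mul, Real.norm_eq_abs, abs_of_pos (inv_pos.2 h0), inv_mul_cancel₀ h0.ne']
    have h2 := h _ h1
    rw [map_smul_eq_mul, Real.norm_eq_abs, abs_of_pos (inv_pos.2 h0), inv_mul_le_iff₀ h0] at h2
    linarith
  · rw [← h0, mul_zero]
    by_contra h1
    have h1 : 0 < c u := not_le.1 h1
    have h2 : a (((C + 1) / c u) • u) ≤ 1 := by
      rw [map_smul_eq_mul, ← h0, mul_zero]
      exact zero_le_one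
    have h3 := h _ h2
    rw [map_smul_eq_mul, Real.norm_eq_abs, abs_of_pos (by positivity), div_mul_cancel₀ _ h1.ne'] at h3
    linarith

/-- An ellipsoidal section in terms of norms. -/
lemma ell_data {M : ℝ} (hM : 1 ≤ M) {m n : ℕ} {K : Set (Fin n → ℝ)} {p : Seminorm ℝ (Fin n → ℝ)}
    (hK : ∀ x, x ∈ K ↔ p x ≤ 1) (h : HasEllSection M m K) :
    ∃ E : Submodule ℝ (Fin n → ℝ), finrank ℝ E = m ∧ Eu M (p.comp E.subtype) := by
  obtain ⟨i, hi, h1, h2⟩ := h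
  have hM0 : 0 < M := by linarith
  let e : (Fin m → ℝ) ≃ₗ[ℝ] LinearMap.range i := LinearEquiv.ofInjective i hi
  refine ⟨LinearMap.range i, ?_, ?_⟩
  · rw [← e.finrank_eq, Module.finrank_fintype_fun_eq_card, Fintype.card_fin]
  · have key : ∀ x : EuclideanSpace ℝ (Fin m), p (i (oL m x)) ≤ ‖x‖ ∧ ‖x‖ ≤ M * p (i (oL m x)) := by
      intro x
      constructor
      · have h3 := le_of_unit (normSeminorm ℝ (EuclideanSpace ℝ (Fin m))) (p.comp (i ∘ₗ (oL m).toLinearMap))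
          zero_le_one (fun u hu => ?_) x
        · have h4 : p (i (oL m x)) ≤ 1 * ‖x‖ := h3
          linarith
        · have h5 : ∑ l, (oL m u) l ^ 2 ≤ 1 := by
            rw [← oL_norm]
            have h6 : ‖u‖ ≤ 1 := hu
            nlinarith [norm_nonneg u]
          exact (hK _).1 (h1 _ h5)
      · refine le_of_unit (p.comp (i ∘ₗ (oL m).toLinearMap)) (normSeminorm ℝ (EuclideanSpace ℝ (Fin m)))
          hM0.le (fun u hu => ?_) x
        have h5 : i (oL m u) ∈ K := (hK _).2 hu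
        have h6 := h2 _ h5
        rw [← oL_norm] at h6
        exact abs_le_of_sq_le_sq' h6 hM0.le |>.2
    refine ⟨m, M⁻¹ • ((oL m).symm.toLinearMap ∘ₗ e.symm.toLinearMap), fun x => ?_⟩
    have h3 := key ((oL m).symm (e.symm x))
    rw [LinearEquiv.apply_symm_apply] at h3
    have h4 : i (e.symm x) = (x : Fin n → ℝ) := by
      have := congrArg (fun z : LinearMap.range i => (z : Fin n → ℝ)) (e.apply_symm_apply x)
      exact this
    rw [h4] at h3
    have h5 : ‖(M⁻¹ • ((oL m).symm.toLinearMap ∘ₗ e.symm.toLinearMap)) x‖ = M⁻¹ * ‖(oL m).symm (e.symm x)‖ := by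
      show ‖M⁻¹ • ((oL m).symm (e.symm x))‖ = _
      rw [norm_smul, Real.norm_eq_abs, abs_of_pos (inv_pos.2 hM0)]
    have h6 : (p.comp (LinearMap.range i).subtype) x = p (x : Fin n → ℝ) := rfl
    rw [h5, h6]
    constructor
    · rw [inv_mul_le_iff₀ hM0]
      exact h3.2
    · calc p (x : Fin n → ℝ) ≤ ‖(oL m).symm (e.symm x)‖ := h3.1
        _ = M * (M⁻¹ * ‖(oL m).symm (e.symm x)‖) := by field_simp

/-- Bounded volume ratio gives a Euclidean section. -/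
lemma vol_data (hV : Stmt_VRT) {η A : ℝ} (hη : 0 < η) (hη1 : η ≤ 1) (hA : 1 ≤ A) : ∃ M : ℝ, 1 ≤ M ∧
    ∀ (n : ℕ), 2 ≤ η * n → ∀ (K : Set (Fin n → ℝ)) (p : Seminorm ℝ (Fin n → ℝ)), IsClosed K → (∀ x, x ∈ K ↔ p x ≤ 1) →
      VolRatio A K → ∃ E : Submodule ℝ (Fin n → ℝ), (1 - η) * n ≤ finrank ℝ E ∧ Eu M (p.comp E.subtype) := by
  obtain ⟨M, hM, hV⟩ := hV η A hη hη1 hA
  refine ⟨M, hM, fun n hn K p hc hK h => ?_⟩
  obtain ⟨T, hT1, hT2⟩ := h
  let J : EuclideanSpace ℝ (Fin n) ≃ₗ[ℝ] (Fin n → ℝ) := (oL n).trans T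
  have hB : ∀ x : EuclideanSpace ℝ (Fin n), ‖x‖ ≤ 1 ↔ oL n x ∈ {x : Fin n → ℝ | ∑ l, x l ^ 2 ≤ 1} := by
    intro x
    show ‖x‖ ≤ 1 ↔ ∑ l, (oL n x) l ^ 2 ≤ 1
    rw [← oL_norm, sq_le_one_iff₀ (norm_nonneg x)]
  have hp1 : ∀ x, (p.comp J.toLinearMap) x ≤ ‖x‖ := by
    intro x
    have h3 := le_of_unit (normSeminorm ℝ (EuclideanSpace ℝ (Fin n))) (p.comp J.toLinearMap)
      zero_le_one (fun u hu => ?_) x
    · have h4 : (p.comp J.toLinearMap) x ≤ 1 * ‖x‖ := h3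
      linarith
    · have h6 : ‖u‖ ≤ 1 := hu
      have h7 : T (oL n u) ∈ K := hT1 ⟨_, (hB u).1 h6, rfl⟩
      exact (hK _).1 h7
  have hdet : LinearMap.det (T : (Fin n → ℝ) →ₗ[ℝ] (Fin n → ℝ)) ≠ 0 := (LinearEquiv.isUnit_det' T).ne_zero
  have hvol : volume {x : EuclideanSpace ℝ (Fin n) | (p.comp J.toLinearMap) x ≤ 1} ≤
      ENNReal.ofReal (A ^ n) * volume (Metric.closedBall (0 : EuclideanSpace ℝ (Fin n)) 1) := by
    have mp := PiLp.volume_preserving_ofLp (ι := Fin n)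
    have e1 : volume {x : EuclideanSpace ℝ (Fin n) | (p.comp J.toLinearMap) x ≤ 1} = volume (T ⁻¹' K) := by
      have h0 : {x : EuclideanSpace ℝ (Fin n) | (p.comp J.toLinearMap) x ≤ 1} =
          (@WithLp.ofLp 2 (Fin n → ℝ)) ⁻¹' (T ⁻¹' K) := by
        ext x
        exact ((hK _).symm : _)
      rw [h0]
      refine mp.measure_preimage ?_
      have hT : Continuous T := LinearMap.continuous_of_finiteDimensional (T : (Fin n → ℝ) →ₗ[ℝ] (Fin n → ℝ))
      exact (hc.preimage hT).measurableSet.nullMeasurableSet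
    have e2 : volume (Metric.closedBall (0 : EuclideanSpace ℝ (Fin n)) 1) =
        volume {x : Fin n → ℝ | ∑ l, x l ^ 2 ≤ 1} := by
      have h0 : Metric.closedBall (0 : EuclideanSpace ℝ (Fin n)) 1 =
          (@WithLp.ofLp 2 (Fin n → ℝ)) ⁻¹' {x : Fin n → ℝ | ∑ l, x l ^ 2 ≤ 1} := by
        ext x
        rw [Metric.mem_closedBall, dist_zero_right]
        exact hB x
      rw [h0]
      refine mp.measure_preimage ?_
      have hc : IsClosed {x : Fin n → ℝ | ∑ l, x l ^ 2 ≤ 1} :=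
        isClosed_le (by fun_prop) continuous_const
      exact hc.measurableSet.nullMeasurableSet
    have e3 : volume (T ⁻¹' K) = ENNReal.ofReal |(LinearMap.det (T : (Fin n → ℝ) →ₗ[ℝ] (Fin n → ℝ)))⁻¹| * volume K :=
      Measure.addHaar_preimage_linearMap volume hdet K
    have e4 : volume {x : Fin n → ℝ | ∑ l, x l ^ 2 ≤ 1} =
        ENNReal.ofReal |(LinearMap.det (T : (Fin n → ℝ) →ₗ[ℝ] (Fin n → ℝ)))⁻¹| *
          volume (T '' {x : Fin n → ℝ | ∑ l, x l ^ 2 ≤ 1}) := by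
      rw [← Measure.addHaar_preimage_linearMap volume hdet]
      congr 1
      ext x
      constructor
      · intro hx
        exact ⟨x, hx, rfl⟩
      · rintro ⟨y, hy, hyx⟩
        have : y = x := T.injective hyx
        rwa [← this]
    rw [e1, e2, e3, e4]
    calc ENNReal.ofReal |(LinearMap.det (T : (Fin n → ℝ) →ₗ[ℝ] (Fin n → ℝ)))⁻¹| * volume K
        ≤ ENNReal.ofReal |(LinearMap.det (T : (Fin n → ℝ) →ₗ[ℝ] (Fin n → ℝ)))⁻¹| *
          (ENNReal.ofReal (A ^ n) * volume (T '' {x | ∑ l, x l ^ 2 ≤ 1})) := by gcongr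
      _ = _ := by ring
  obtain ⟨E, hE1, hE2⟩ := hV n (p.comp J.toLinearMap) hn hp1 hvol
  refine ⟨E.map J.toLinearMap, ?_, ?_⟩
  · have : finrank ℝ (E.map J.toLinearMap) = finrank ℝ E :=
      (Submodule.equivMapOfInjective J.toLinearMap J.injective E).finrank_eq.symm
    rw [this]
    exact hE1
  · let e := Submodule.equivMapOfInjective J.toLinearMap J.injective E
    have h1 := hE2.comp e.symm.toLinearMap
    have h2 : ((p.comp J.toLinearMap).comp E.subtype).comp e.symm.toLinearMap =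
        p.comp (E.map J.toLinearMap).subtype := by
      ext x
      have h3 : e (e.symm x) = x := e.apply_symm_apply x
      have h4 : J ((e.symm x : E) : EuclideanSpace ℝ (Fin n)) = (x : Fin n → ℝ) := by
        conv_rhs => rw [← h3]
        rfl
      show p (J ((e.symm x : E) : EuclideanSpace ℝ (Fin n))) = p (x : Fin n → ℝ)
      rw [h4]
    rw [h2] at h1
    exact h1

/-- **THEOREM H** for bodies. -/
theorem bodies (hL : Stmt_LOB) (hMA : Stmt_MAI) (hV : Stmt_VRT) (α ε b M : ℝ) (hα : 0 < α) (hα1 : α < 1)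
    (hε : 0 < ε) (hM : 1 ≤ M) : ∃ C : ℝ, ∀ n : ℕ, 0 < n → ∀ K L : Set (Fin n → ℝ), IsBody K → IsBody L →
      SectionsClose ⌈α * n⌉₊ b K L →
      ((∃ N : ℕ, (α + ε) * n ≤ N ∧ HasEllSection M N K) ∨ (∃ N : ℕ, (α + ε) * n ≤ N ∧ HasEllSection M N L) ∨
        VolRatio M K ∨ VolRatio M L) → dBM K L ≤ ENNReal.ofReal C := by
  have hb : 1 ≤ |b| + 1 := by linarith [abs_nonneg b]
  set η : ℝ := (1 - α) / 2 with hη
  have hη0 : 0 < η := by rw [hη]; linarith
  have hη1 : η ≤ 1 := by rw [hη]; linarith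
  obtain ⟨M₁, hM₁, hvol⟩ := vol_data hV hη0 hη1 hM
  set ε' : ℝ := min (min (ε / 2) (η / 2)) 1 with hε'
  have hε0 : 0 < ε' := by rw [hε']; positivity
  have hεa : ε' ≤ ε / 2 := (min_le_left _ _).trans (min_le_left _ _)
  have hεb : ε' ≤ η / 2 := (min_le_left _ _).trans (min_le_right _ _)
  have hε1 : ε' ≤ 1 := min_le_right _ _
  set M' : ℝ := max M M₁ with hM'
  have hM'1 : 1 ≤ M' := hM.trans (le_max_left _ _)
  obtain ⟨C₁, hC₁, hmain⟩ := hMA α ε' (|b| + 1) M' hα hε0 hε1 hb hM'1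
  obtain ⟨n₀, hn₀⟩ := exists_nat_ge (max (2 / η) (max (2 / ε) (2 / η)))
  obtain ⟨C₂, hC₂, hsmall⟩ := hL n₀
  refine ⟨C₁ + C₂ * C₂, fun n hn K L hK hL' hS hpair => ?_⟩
  have hCC : 1 ≤ C₂ * C₂ := by nlinarith
  have hC0 : 1 ≤ C₁ + C₂ * C₂ := by linarith
  obtain ⟨p, hp, hKp⟩ := hK.exists_seminorm
  obtain ⟨r, hr, hLr⟩ := hL'.exists_seminorm
  have H : Hyp (|b| + 1) ⌈α * n⌉₊ p r := hS.hyp hp hr hKp hLr
  have hfr : finrank ℝ (Fin n → ℝ) = n := by
    rw [Module.finrank_fintype_fun_eq_card, Fintype.card_fin]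
  rcases lt_or_ge n n₀ with hlt | hge
  · -- small dimension
    have hEu : ∀ q : Seminorm ℝ (Fin n → ℝ), Def q → Eu C₂ q := by
      intro q hq
      have h1 := hsmall (Fin n → ℝ) q hq ⊤ (by rw [finrank_top, hfr]; exact hlt.le)
      have h2 := h1.comp (Submodule.topEquiv (R := ℝ) (M := Fin n → ℝ)).symm.toLinearMap
      have h3 : (q.comp (⊤ : Submodule ℝ (Fin n → ℝ)).subtype).comp
          (Submodule.topEquiv (R := ℝ) (M := Fin n → ℝ)).symm.toLinearMap = q := by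
        ext x; rfl
      rwa [h3] at h2
    have h4 := (hEu p hp).iso hp hr hC₂ (hEu r hr) rfl
    exact (h4.mono (by linarith)).dBM_le hC0 hKp hLr
  · have hge' : (n₀ : ℝ) ≤ n := by exact_mod_cast hge
    have hb1 : 2 / η ≤ n := (le_max_left _ _).trans (hn₀.trans hge')
    have hb2 : 2 / ε ≤ n := ((le_max_left _ _).trans (le_max_right _ _)).trans (hn₀.trans hge')
    have hη2 : 2 ≤ η * n := by rw [div_le_iff₀ hη0] at hb1; linarith
    have hε2 : 2 ≤ ε * n := by rw [div_le_iff₀ hε] at hb2; linarith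
    have hn0 : (0 : ℝ) < n := by exact_mod_cast hn
    have hk1 : α * n ≤ (⌈α * n⌉₊ : ℝ) := Nat.le_ceil _
    have hk2 : (⌈α * n⌉₊ : ℝ) < α * n + 1 := Nat.ceil_lt_add_one (by positivity)
    -- the section
    have hsec : ∀ (A : Set (Fin n → ℝ)) (q : Seminorm ℝ (Fin n → ℝ)), (∀ x, x ∈ A ↔ q x ≤ 1) →
        IsClosed A → ((∃ N : ℕ, (α + ε) * n ≤ N ∧ HasEllSection M N A) ∨ VolRatio M A) →
        ∃ E : Submodule ℝ (Fin n → ℝ), ((⌈α * n⌉₊ : ℕ) : ℝ) + ε' * n ≤ finrank ℝ E ∧ Eu M' (q.comp E.subtype) := by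
      intro A q hA hcl h
      rcases h with ⟨N, hN, hsec⟩ | hv
      · obtain ⟨E, hE1, hE2⟩ := ell_data hM hA hsec
        refine ⟨E, ?_, hE2.mono (le_max_left _ _)⟩
        rw [hE1]
        have : ε' * n ≤ ε / 2 * n := mul_le_mul_of_nonneg_right hεa hn0.le
        nlinarith
      · obtain ⟨E, hE1, hE2⟩ := hvol n hη2 A q hcl hA hv
        refine ⟨E, ?_, hE2.mono (le_max_right _ _)⟩
        have h1 : ε' * n ≤ η / 2 * n := mul_le_mul_of_nonneg_right hεb hn0.le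
        have h2 : (1 - η) * n = α * n + η * n := by rw [hη]; ring
        nlinarith
    have hfin : Iso C₁ p r := by
      have hcase : ((∃ N : ℕ, (α + ε) * n ≤ N ∧ HasEllSection M N K) ∨ VolRatio M K) ∨
          ((∃ N : ℕ, (α + ε) * n ≤ N ∧ HasEllSection M N L) ∨ VolRatio M L) := by
        rcases hpair with h | h | h | h
        · exact Or.inl (Or.inl h)
        · exact Or.inr (Or.inl h)
        · exact Or.inl (Or.inr h)
        · exact Or.inr (Or.inr h)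
      rcases hcase with h | h
      · obtain ⟨E, hE1, hE2⟩ := hsec K p hKp hK.2.1.isClosed h
        exact hmain (Fin n → ℝ) p r _ hp hr H (by rw [hfr]; exact hk1) E (by rw [hfr]; exact hE1) hE2
      · obtain ⟨E, hE1, hE2⟩ := hsec L r hLr hL'.2.1.isClosed h
        exact (hmain (Fin n → ℝ) r p _ hr hp (H.symm (by linarith)) (by rw [hfr]; exact hk1) E
          (by rw [hfr]; exact hE1) hE2).symm (by linarith)
    exact (hfin.mono (by linarith)).dBM_le hC0 hKp hLr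

end Pool.EH
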