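import Pool.Agent.Work.MP_3e8c7a_h.B_GEX
import Pool.Agent.Work.MP_3e8c7a_h.B_ROW
import Pool.Agent.Work.MP_3e8c7a_h.B_NE1
import Pool.Agent.Work.MP_3e8c7a_h.B_NET
import Pool.Agent.Work.MP_3e8c7a_h.B_RND
import Pool.Agent.Work.MP_3e8c7a_h.B_PO1
import Pool.Agent.Work.MP_3e8c7a_h.B_POS
import Pool.Agent.Work.MP_3e8c7a_h.B_TYL
import Pool.Agent.Work.MP_3e8c7a_h.B_TYM
import Pool.Agent.Work.MP_3e8c7a_h.B_ORT
import Pool.Agent.Work.MP_3e8c7a_h.B_GRM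
import Pool.Agent.Work.MP_3e8c7a_h.B_KWA
import Pool.Agent.Work.MP_3e8c7a_h.B_SCL
import Pool.Agent.Work.MP_3e8c7a_h.B_LOB
import Pool.Agent.Work.MP_3e8c7a_h.B_SDG
import Pool.Agent.Work.MP_3e8c7a_h.B_TRF
import Pool.Agent.Work.MP_3e8c7a_h.B_GAP
import Pool.Agent.Work.MP_3e8c7a_h.B_SLF
import Pool.Agent.Work.MP_3e8c7a_h.B_HAD
import Pool.Agent.Work.MP_3e8c7a_h.B_DT1
import Pool.Agent.Work.MP_3e8c7a_h.B_DT2
import Pool.Agent.Work.MP_3e8c7a_h.B_DET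
import Pool.Agent.Work.MP_3e8c7a_h.B_CAR
import Pool.Agent.Work.MP_3e8c7a_h.B_ORL
import Pool.Agent.Work.MP_3e8c7a_h.B_LFW
import Pool.Agent.Work.MP_3e8c7a_h.B_MMX
import Pool.Agent.Work.MP_3e8c7a_h.B_LIF
import Pool.Agent.Work.MP_3e8c7a_h.B_JOI
import Pool.Agent.Work.MP_3e8c7a_h.B_LAR
import Pool.Agent.Work.MP_3e8c7a_h.B_STZ
import Pool.Agent.Work.MP_3e8c7a_h.B_GPL
import Pool.Agent.Work.MP_3e8c7a_h.B_SFL
import Pool.Agent.Work.MP_3e8c7a_h.B_ONE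
import Pool.Agent.Work.MP_3e8c7a_h.B_STP
import Pool.Agent.Work.MP_3e8c7a_h.B_SPL
import Pool.Agent.Work.MP_3e8c7a_h.B_MAI
import Pool.Agent.Work.MP_3e8c7a_h.B_PCK
import Pool.Agent.Work.MP_3e8c7a_h.B_VRT
import Pool.Agent.Work.MP_3e8c7a_h.Bodies

/-!
# MP_3e8c7a_an, THEOREM H: assembly
-/

set_option autoImplicit false

namespace Pool.EH

open Pool.Agent.MP3e8c7a

theorem q_GEX : Stmt_GEX := p_GEX

theorem q_ROW : Stmt_ROW := p_ROW q_GEX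

theorem q_NE1 : Stmt_NE1 := p_NE1

theorem q_NET : Stmt_NET := p_NET q_NE1

theorem q_RND : Stmt_RND := p_RND q_ROW q_NE1

theorem q_PO1 : Stmt_PO1 := p_PO1 q_NET q_RND

theorem q_POS : Stmt_POS := p_POS q_PO1

theorem q_TYL : Stmt_TYL := p_TYL

theorem q_TYM : Stmt_TYM := p_TYM

theorem q_ORT : Stmt_ORT := p_ORT

theorem q_GRM : Stmt_GRM := p_GRM

theorem q_KWA : Stmt_KWA := p_KWA q_GRM

theorem q_SCL : Stmt_SCL := p_SCL q_TYL q_TYM q_ORT q_KWA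

theorem q_LOB : Stmt_LOB := p_LOB

theorem q_SDG : Stmt_SDG := p_SDG

theorem q_TRF : Stmt_TRF := p_TRF

theorem q_GAP : Stmt_GAP := p_GAP q_TRF

theorem q_SLF : Stmt_SLF := p_SLF q_TRF

theorem q_HAD : Stmt_HAD := p_HAD

theorem q_DT1 : Stmt_DT1 := p_DT1

theorem q_DT2 : Stmt_DT2 := p_DT2 q_HAD q_SDG q_DT1

theorem q_DET : Stmt_DET := p_DET q_DT1 q_DT2

theorem q_CAR : Stmt_CAR := p_CAR

theorem q_ORL : Stmt_ORL := p_ORL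

theorem q_LFW : Stmt_LFW := p_LFW q_CAR q_ORL

theorem q_MMX : Stmt_MMX := p_MMX

theorem q_LIF : Stmt_LIF := p_LIF q_NE1 q_LFW q_MMX

theorem q_JOI : Stmt_JOI := p_JOI q_LIF

theorem q_LAR : Stmt_LAR := p_LAR q_SCL

theorem q_STZ : Stmt_STZ := p_STZ q_LAR

theorem q_GPL : Stmt_GPL := p_GPL q_POS q_GAP

theorem q_SFL : Stmt_SFL := p_SFL q_POS q_SLF

theorem q_ONE : Stmt_ONE := p_ONE q_GPL q_SFL

theorem q_STP : Stmt_STP := p_STP q_SCL q_LOB q_DET q_JOI q_LAR q_ONE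

theorem q_SPL : Stmt_SPL := p_SPL q_SDG

theorem q_MAI : Stmt_MAI := p_MAI q_LOB q_LAR q_STZ q_GPL q_STP q_SPL

theorem q_PCK : Stmt_PCK := p_PCK

theorem q_VRT : Stmt_VRT := p_VRT q_RND q_PCK

/-- **THEOREM H.** -/
theorem volume_ratio (α ε b M : ℝ) (hα : 0 < α) (hα1 : α < 1) (hε : 0 < ε) (hM : 1 ≤ M) :
    ∃ C : ℝ, ∀ n : ℕ, 0 < n → ∀ K L : Set (Fin n → ℝ), IsBody K → IsBody L →
      SectionsClose ⌈α * n⌉₊ b K L →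
      ((∃ N : ℕ, (α + ε) * n ≤ N ∧ HasEllSection M N K) ∨ (∃ N : ℕ, (α + ε) * n ≤ N ∧ HasEllSection M N L) ∨
        VolRatio M K ∨ VolRatio M L) → dBM K L ≤ ENNReal.ofReal C :=
  bodies q_LOB q_MAI q_VRT α ε b M hα hα1 hε hM

end Pool.EH
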