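import Pool.Agent.Work.MP_3e8c7a_h.Interface

/-! Block DET (helper89). -/

namespace Pool.EH

open Module Pool.Agent.MP3e8c7a

theorem p_DET (h1 : Stmt_DT1) (h2 : Stmt_DT2) : Stmt_DET := by
  intro V _ _ _ p r C ρ m hp hr hC hρ hLp hLr hG
  by_contra hcon
  push Not at hcon
  obtain ⟨hD0, _, hD⟩ := h1 V p r hp hr
  set ρ₁ : ℝ := 2 * C ^ 4 * ρ with hρ₁
  have hC0 : 0 < C := lt_of_lt_of_le one_pos hC
  have hρ₁0 : 0 < ρ₁ := by positivity
  have hstep : ∀ j, j ≤ 2 * m + 1 → ρ₁ * DD p r j ≤ DD p r (j + 1) := by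
    intro j hj
    refine hD j ρ₁ hρ₁0 fun X hX => ?_
    obtain ⟨z, hz, hz2⟩ := hcon X (by omega)
    exact ⟨z, hz, hz2⟩
  have hpos : ∀ j, j ≤ 2 * m + 2 → 0 < DD p r j := by
    intro j
    induction j with
    | zero =>
      intro _
      rw [hD0]
      exact one_pos
    | succ j ih =>
      intro hj
      exact lt_of_lt_of_le (mul_pos hρ₁0 (ih (by omega))) (hstep j (by omega))
  have hlow : ∀ i, m + i ≤ 2 * m + 2 → ρ₁ ^ i * DD p r m ≤ DD p r (m + i) := by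
    intro i
    induction i with
    | zero =>
      intro _
      simp
    | succ i ih =>
      intro hi
      calc ρ₁ ^ (i + 1) * DD p r m = ρ₁ * (ρ₁ ^ i * DD p r m) := by ring
        _ ≤ ρ₁ * DD p r (m + i) := mul_le_mul_of_nonneg_left (ih (by omega)) hρ₁0.le
        _ ≤ DD p r (m + i + 1) := hstep (m + i) (by omega)
        _ = DD p r (m + (i + 1)) := by rw [add_assoc]
  have h3 := hlow (m + 2) (by omega)
  have hLp' : Loc C (m + (m + 2)) p := hLp.mono le_rfl (by omega)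
  have hLr' : Loc C (m + (m + 2)) r := hLr.mono le_rfl (by omega)
  have h4 := h2 V p r C ρ m (m + 2) hp hr hC hρ hLp' hLr' hG
  have hm := hpos m (by omega)
  have h5 : ρ₁ ^ (m + 2) * DD p r m ≤ C ^ (2 * m + (m + 2)) * (C * ρ) ^ (m + 2) * DD p r m :=
    h3.trans h4
  have h6 := le_of_mul_le_mul_right h5 hm
  have e1 : ρ₁ ^ (m + 2) = 2 ^ (m + 2) * (C ^ (4 * m + 8) * ρ ^ (m + 2)) := by
    rw [hρ₁, mul_pow, mul_pow, ← pow_mul]
    have : 4 * (m + 2) = 4 * m + 8 := by ring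
    rw [this]
    ring
  have e2 : C ^ (2 * m + (m + 2)) * (C * ρ) ^ (m + 2) = C ^ (4 * m + 4) * ρ ^ (m + 2) := by
    rw [mul_pow, ← mul_assoc, ← pow_add]
    have : 2 * m + (m + 2) + (m + 2) = 4 * m + 4 := by ring
    rw [this]
  rw [e1, e2] at h6
  have h7 : C ^ (4 * m + 4) * ρ ^ (m + 2) ≤ C ^ (4 * m + 8) * ρ ^ (m + 2) :=
    mul_le_mul_of_nonneg_right (pow_le_pow_right₀ hC (by omega)) (by positivity)
  have h8 : 0 < C ^ (4 * m + 8) * ρ ^ (m + 2) := by positivity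
  have h9 : (1 : ℝ) < 2 ^ (m + 2) := one_lt_pow₀ (by norm_num) (by omega)
  nlinarith [mul_lt_mul_of_pos_right h9 h8]

end Pool.EH
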