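import Pool.Agent.Work.MP_3e8c7a_h.Interface

/-!
# Block GEX: one Gaussian functional (helper46)
-/

set_option autoImplicit false

namespace Pool.EH

open Module Pool.Agent.MP3e8c7a MeasureTheory ProbabilityTheory
open scoped RealInnerProductSpace

theorem GEX_law (d : ℕ) (x : EuclideanSpace ℝ (Fin d)) :
    (stdGaussian (EuclideanSpace ℝ (Fin d))).map (fun g => ⟪g, x⟫) =
      gaussianReal 0 (‖x‖ ^ 2).toNNReal := by
  have h := IsGaussian.map_eq_gaussianReal (μ := stdGaussian (EuclideanSpace ℝ (Fin d)))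
    (innerSL ℝ x)
  rw [integral_strongDual_stdGaussian, variance_dual_stdGaussian, innerSL_apply_norm] at h
  rw [← h]
  congr 1
  ext g
  rw [innerSL_apply_apply, real_inner_comm]

theorem GEX_meas (d : ℕ) (x : EuclideanSpace ℝ (Fin d)) :
    Measurable (fun g : EuclideanSpace ℝ (Fin d) => ⟪g, x⟫) :=
  (continuous_id.inner continuous_const).measurable

theorem GEX_abs (a : ℝ) (ha : 0 < a) : ∫ t : ℝ, Real.exp (-|t| / a) = 2 * a := by
  have h := integral_comp_abs (f := fun t : ℝ => Real.exp (-a⁻¹ * t))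
  rw [integral_exp_mul_Ioi (by simpa using ha)] at h
  have h2 : ∀ t : ℝ, Real.exp (-a⁻¹ * |t|) = Real.exp (-|t| / a) := by
    intro t
    congr 1
    field_simp
  simp only [h2] at h
  rw [h, mul_zero, Real.exp_zero]
  field_simp

theorem GEX_int (a : ℝ) (ha : 0 < a) : Integrable (fun t : ℝ => Real.exp (-|t| / a)) := by
  by_contra h
  have h1 := integral_undef h
  rw [GEX_abs a ha] at h1
  linarith

theorem GEX_pdf (t : ℝ) : gaussianPDFReal 0 1 t ≤ 1 / 2 := by
  rw [gaussianPDFReal_def]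
  have h1 : (2 : ℝ) ≤ √(2 * Real.pi * ((1 : NNReal) : ℝ)) := by
    apply Real.le_sqrt_of_sq_le
    rw [NNReal.coe_one]
    have := Real.pi_gt_three
    linarith
  have h2 : (√(2 * Real.pi * ((1 : NNReal) : ℝ)))⁻¹ ≤ 1 / 2 := by
    rw [one_div]
    exact inv_anti₀ (by norm_num) h1
  have h3 : Real.exp (-(t - 0) ^ 2 / (2 * ((1 : NNReal) : ℝ))) ≤ 1 := by
    rw [Real.exp_le_one_iff]
    apply div_nonpos_of_nonpos_of_nonneg
    · have := sq_nonneg (t - 0)
      linarith
    · rw [NNReal.coe_one]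
      norm_num
  calc (√(2 * Real.pi * ((1 : NNReal) : ℝ)))⁻¹ * Real.exp (-(t - 0) ^ 2 / (2 * ((1 : NNReal) : ℝ)))
      ≤ 1 / 2 * 1 := mul_le_mul h2 h3 (Real.exp_pos _).le (by norm_num)
    _ = 1 / 2 := mul_one _

theorem p_GEX : Stmt_GEX := by
  intro d x
  have hmeas := GEX_meas d x
  have hlaw := GEX_law d x
  constructor
  · intro hx a ha
    have hv : (‖x‖ ^ 2).toNNReal = 1 := by rw [hx, one_pow, Real.toNNReal_one]
    rw [hv] at hlaw
    have hf : Measurable (fun t : ℝ => Real.exp (-|t| / a)) := by fun_prop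
    have h1 : ∫ g, Real.exp (-|⟪g, x⟫| / a) ∂(stdGaussian (EuclideanSpace ℝ (Fin d))) =
        ∫ t, Real.exp (-|t| / a) ∂(gaussianReal 0 1) := by
      rw [← hlaw, integral_map hmeas.aemeasurable hf.aestronglyMeasurable]
    rw [h1, integral_gaussianReal_eq_integral_smul one_ne_zero]
    calc ∫ t, gaussianPDFReal 0 1 t • Real.exp (-|t| / a)
        ≤ ∫ t, 1 / 2 * Real.exp (-|t| / a) := by
          apply integral_mono_of_nonneg
          · exact Filter.Eventually.of_forall fun t =>
              mul_nonneg (gaussianPDFReal_nonneg _ _ _) (Real.exp_pos _).le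
          · exact (GEX_int a ha).const_mul _
          · exact Filter.Eventually.of_forall fun t =>
              mul_le_mul_of_nonneg_right (GEX_pdf t) (Real.exp_pos _).le
      _ = a := by
          rw [integral_const_mul, GEX_abs a ha]
          ring
  · intro hx
    have hI : ∀ s : ℝ, Integrable (fun g => Real.exp (s * ⟪g, x⟫))
        (stdGaussian (EuclideanSpace ℝ (Fin d))) := by
      intro s
      have h := integrable_exp_mul_gaussianReal (μ := 0) (v := (‖x‖ ^ 2).toNNReal) s
      rw [← hlaw] at h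
      exact h.comp_measurable hmeas
    have hM : ∀ s : ℝ, s ^ 2 = 1 → ∫ g, Real.exp (s * ⟪g, x⟫)
        ∂(stdGaussian (EuclideanSpace ℝ (Fin d))) ≤ 2 := by
      intro s hs
      have h := mgf_gaussianReal hlaw s
      rw [mgf] at h
      rw [h, Real.coe_toNNReal _ (sq_nonneg _), hs]
      have h2 : Real.exp (0 * s + ‖x‖ ^ 2 * 1 / 2) ≤ Real.exp (1 / 2) := by
        apply Real.exp_le_exp.2
        have : ‖x‖ ^ 2 ≤ 1 := pow_le_one₀ (norm_nonneg _) hx
        linarith
      refine h2.trans ?_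
      have h3 : Real.exp (1 / 2) ^ 2 = Real.exp 1 := by
        rw [← Real.exp_nat_mul]
        norm_num
      have h4 := Real.exp_one_lt_d9
      by_contra hcon
      push Not at hcon
      nlinarith [Real.exp_pos (1 / 2 : ℝ)]
    have hbd : ∀ g : EuclideanSpace ℝ (Fin d), Real.exp |⟪g, x⟫| ≤
        Real.exp (1 * ⟪g, x⟫) + Real.exp (-1 * ⟪g, x⟫) := by
      intro g
      rcases abs_cases (⟪g, x⟫ : ℝ) with ⟨h, -⟩ | ⟨h, -⟩
      · rw [h, one_mul]
        linarith [Real.exp_pos (-1 * ⟪g, x⟫)]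
      · rw [h, ← neg_one_mul]
        linarith [Real.exp_pos (1 * ⟪g, x⟫)]
    have hsum := (hI 1).add (hI (-1))
    have hint : Integrable (fun g => Real.exp |⟪g, x⟫|)
        (stdGaussian (EuclideanSpace ℝ (Fin d))) := by
      refine hsum.mono' ?_ ?_
      · have : Measurable (fun g : EuclideanSpace ℝ (Fin d) => Real.exp |⟪g, x⟫|) := by
          fun_prop
        exact this.aestronglyMeasurable
      · refine Filter.Eventually.of_forall fun g => ?_
        rw [Real.norm_of_nonneg (Real.exp_pos _).le]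
        exact hbd g
    refine ⟨hint, ?_⟩
    calc ∫ g, Real.exp |⟪g, x⟫| ∂(stdGaussian (EuclideanSpace ℝ (Fin d)))
        ≤ ∫ g, (Real.exp (1 * ⟪g, x⟫) + Real.exp (-1 * ⟪g, x⟫))
          ∂(stdGaussian (EuclideanSpace ℝ (Fin d))) := integral_mono hint hsum hbd
      _ = (∫ g, Real.exp (1 * ⟪g, x⟫) ∂(stdGaussian (EuclideanSpace ℝ (Fin d)))) +
          ∫ g, Real.exp (-1 * ⟪g, x⟫) ∂(stdGaussian (EuclideanSpace ℝ (Fin d))) :=
        integral_add (hI 1) (hI (-1))
      _ ≤ 2 + 2 := add_le_add (hM 1 (by norm_num)) (hM (-1) (by norm_num))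
      _ = 4 := by norm_num

end Pool.EH
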