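import Pool.Agent.Work.MP_3e8c7a_h.Interface

set_option autoImplicit false

namespace Pool.EH

open Module Pool.Agent.MP3e8c7a

open scoped RealInnerProductSpace

/-- Equal Gram matrices, in a finite-dimensional inner product space. -/
lemma GRM_iso {E : Type} [NormedAddCommGroup E] [InnerProductSpace ℝ E] [FiniteDimensional ℝ E]
    {d : ℕ} (X Y : Fin d → E) (h : ∀ i j, ⟪X i, X j⟫ = ⟪Y i, Y j⟫) :
    ∃ L : E →ₗᵢ[ℝ] E, ∀ i, L (X i) = Y i := by
  let A : (Fin d → ℝ) →ₗ[ℝ] E := Fintype.linearCombination ℝ X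
  let B : (Fin d → ℝ) →ₗ[ℝ] E := Fintype.linearCombination ℝ Y
  have hA : ∀ v, A v = ∑ i, v i • X i := fun v => Fintype.linearCombination_apply ℝ X v
  have hB : ∀ v, B v = ∑ i, v i • Y i := fun v => Fintype.linearCombination_apply ℝ Y v
  have hn : ∀ v, ‖B v‖ = ‖A v‖ := by
    intro v
    have h2 : ⟪B v, B v⟫ = ⟪A v, A v⟫ := by
      rw [hA, hB]
      simp only [sum_inner, inner_sum, inner_smul_left, inner_smul_right, h]
    rw [← sq_eq_sq₀ (norm_nonneg _) (norm_nonneg _), ← real_inner_self_eq_norm_sq,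
      ← real_inner_self_eq_norm_sq, h2]
  obtain ⟨g, hg⟩ := LinearMap.exists_rightInverse_of_surjective A.rangeRestrict
    A.range_rangeRestrict
  have hg' : ∀ s : LinearMap.range A, A (g s) = s := by
    intro s
    have := LinearMap.congr_fun hg s
    exact congrArg Subtype.val this
  let L0 : LinearMap.range A →ₗᵢ[ℝ] E :=
    { toLinearMap := B ∘ₗ g
      norm_map' := by
        intro s
        show ‖B (g s)‖ = ‖s‖
        rw [hn, hg']
        rfl }
  refine ⟨L0.extend, fun i => ?_⟩
  have e1 : A (Pi.single i 1) = X i := by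
    rw [hA, Finset.sum_eq_single i]
    · simp
    · intro j _ hj
      simp [Pi.single_eq_of_ne hj]
    · simp
  have e2 : B (Pi.single i 1) = Y i := by
    rw [hB, Finset.sum_eq_single i]
    · simp
    · intro j _ hj
      simp [Pi.single_eq_of_ne hj]
    · simp
  have hi : X i ∈ LinearMap.range A := ⟨_, e1⟩
  have h3 : L0.extend (X i) = L0 ⟨X i, hi⟩ := L0.extend_apply ⟨X i, hi⟩
  rw [h3]
  show B (g ⟨X i, hi⟩) = Y i
  rw [← e2, ← sub_eq_zero, ← map_sub, ← norm_eq_zero, hn, map_sub, hg', e1, norm_eq_zero, sub_self]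

theorem p_GRM : Stmt_GRM := by
  intro m d x y h
  obtain ⟨L, hL⟩ := GRM_iso (E := EuclideanSpace ℝ (Fin m))
    (fun i => WithLp.toLp 2 (fun l => x l i)) (fun i => WithLp.toLp 2 (fun l => y l i)) (by
      intro i j
      simp only [PiLp.inner_apply, RCLike.inner_apply, conj_trivial]
      have := h i j
      simp only [mul_comm] at this ⊢
      exact this)
  refine ⟨Matrix.of fun j i => L (EuclideanSpace.single i 1) j, ?_, ?_⟩
  · rw [Matrix.mem_orthogonalGroup_iff']
    ext i i'
    rw [Matrix.mul_apply]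
    have h1 : ⟪L (EuclideanSpace.single i (1 : ℝ)), L (EuclideanSpace.single i' (1 : ℝ))⟫ =
        ⟪EuclideanSpace.single i (1 : ℝ), EuclideanSpace.single i' (1 : ℝ)⟫ := L.inner_map_map _ _
    rw [PiLp.inner_apply, PiLp.inner_apply] at h1
    simp only [RCLike.inner_apply, conj_trivial] at h1
    show ∑ j, (L (EuclideanSpace.single i (1 : ℝ))).ofLp j *
        (L (EuclideanSpace.single i' (1 : ℝ))).ofLp j = (1 : Matrix (Fin m) (Fin m) ℝ) i i'
    rw [Finset.sum_congr rfl fun _ _ => mul_comm _ _, h1]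
    simp [Matrix.one_apply, Pi.single_apply, eq_comm]
  · intro j
    funext k
    have h2 : (WithLp.toLp 2 (fun l => x l k) : EuclideanSpace ℝ (Fin m)) =
        ∑ i, x i k • EuclideanSpace.single i (1 : ℝ) := by
      ext l
      simp [Finset.sum_apply, Pi.single_apply]
    have h3 := hL k
    simp only at h3
    rw [h2, map_sum] at h3
    have h4 := congrArg (fun w : EuclideanSpace ℝ (Fin m) => w j) h3
    simp only [map_smul, WithLp.ofLp_sum, Finset.sum_apply, PiLp.smul_apply, smul_eq_mul] at h4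
    simp only [Finset.sum_apply, Pi.smul_apply, smul_eq_mul, Matrix.of_apply]
    rw [← h4]
    exact Finset.sum_congr rfl fun _ _ => mul_comm _ _

end Pool.EH
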