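import Pool.Agent.Work.MP_3e8c7a_h.B_GPL

/-! Block ONE of THEOREM H (helper11). -/

set_option autoImplicit false

namespace Pool.EH

open Module Pool.Agent.MP3e8c7a

theorem p_ONE (hGPL : Stmt_GPL) (hSFL : Stmt_SFL) : Stmt_ONE := by
  intro β b C Λ hβ hβ1 hb hC hΛ
  obtain ⟨θ₁, R₁, C₁', hθ₁, hθ₁1, hR₁, hC₁', hsfl⟩ := hSFL β b C Λ hβ hβ1 hb hC hΛ
  set C₁ : ℝ := max C C₁' with hC₁
  have hC₁1 : 1 ≤ C₁ := hC.trans (le_max_left _ _)
  obtain ⟨θ₂, R₂, C₂, hθ₂, hθ₂1, hR₂, hC₂, hgpl⟩ := hGPL β b C₁ hβ hβ1 hb hC₁1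
  have key : ∀ (V : Type) [AddCommGroup V] [Module ℝ V] [FiniteDimensional ℝ V] (p r : Seminorm ℝ V) (k : ℕ),
      Def p → Def r → Hyp b k p r →
      ∀ E G : Submodule ℝ V, k + β * finrank ℝ V ≤ finrank ℝ E →
      (finrank ℝ G : ℝ) ≤ min θ₁ (θ₂ / 3) * finrank ℝ V → finrank ℝ G ≤ k →
      Eu C (p.comp E.subtype) → Eu C (r.comp E.subtype) → (∀ x ∈ E, p x ≤ Λ * r x ∧ r x ≤ Λ * p x) →
      (∀ y ∈ G, max R₁ (R₂ * Λ) * p y ≤ r y) →
      ∀ F : Submodule ℝ V, (finrank ℝ F : ℝ) ≤ min θ₁ (θ₂ / 3) * finrank ℝ G →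
        Eu C₂ (p.comp F.subtype) ∧ Eu C₂ (r.comp F.subtype) := by
    intro V _ _ _ p r k hp hr hH E G hE hG hGk hEp hEr hΛE hdev F hF
    have hn0 : (0 : ℝ) ≤ finrank ℝ V := Nat.cast_nonneg _
    have hg0 : (0 : ℝ) ≤ finrank ℝ G := Nat.cast_nonneg _
    have hk0 : (0 : ℝ) ≤ β * finrank ℝ V := by positivity
    have hG1 : (finrank ℝ G : ℝ) ≤ θ₁ * finrank ℝ V :=
      hG.trans (mul_le_mul_of_nonneg_right (min_le_left _ _) hn0)
    have hG2 : 3 * (finrank ℝ G : ℝ) ≤ θ₂ * finrank ℝ V := by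
      have : (finrank ℝ G : ℝ) ≤ θ₂ / 3 * finrank ℝ V :=
        hG.trans (mul_le_mul_of_nonneg_right (min_le_right _ _) hn0)
      linarith
    obtain ⟨hGp, hGr⟩ := hsfl V p r k hp hr hH E G hE hG1 hGk hEp hEr hΛE (fun y hy =>
      (mul_le_mul_of_nonneg_right (le_max_left _ _) (apply_nonneg _ _)).trans (hdev y hy))
    have hkE : k ≤ finrank ℝ E := by
      have : (k : ℝ) ≤ finrank ℝ E := by linarith
      exact_mod_cast this
    obtain ⟨Y', hY'E, hY'⟩ := GPL_sub E (d := finrank ℝ G) (hGk.trans hkE)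
    have hCC : C ≤ C₁ := le_max_left _ _
    have hCC' : C₁' ≤ C₁ := le_max_right _ _
    refine hgpl V p r k (finrank ℝ G) Λ hp hr hH E G Y' hE rfl hY' hG2 hGk (hEp.mono hCC) (hEr.mono hCC)
      (hGp.mono hCC') (hGr.mono hCC') ((hEp.sub hY'E).mono hCC) ((hEr.sub hY'E).mono hCC) (by linarith)
      (fun y hy => (mul_le_mul_of_nonneg_right (le_max_right _ _) (apply_nonneg _ _)).trans (hdev y hy))
      (fun y hy => (hΛE y (hY'E hy)).2) F
      (hF.trans (mul_le_mul_of_nonneg_right ((min_le_right _ _).trans (by linarith)) hg0))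
  refine ⟨min θ₁ (θ₂ / 3), max R₁ (R₂ * Λ), C₂, by positivity, (min_le_left _ _).trans hθ₁1,
    hR₁.trans (le_max_left _ _), hC₂, ?_⟩
  intro V _ _ _ p r k hp hr hH E G hE hG hGk hEp hEr hΛE hdev F hF
  rcases hdev with hdev | hdev
  · exact key V p r k hp hr hH E G hE hG hGk hEp hEr hΛE hdev F hF
  · exact (key V r p k hr hp (hH.symm (by linarith)) E G hE hG hGk hEr hEp (fun x hx => (hΛE x hx).symm) hdev
      F hF).symm

end Pool.EH
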