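import Pool.Agent.Work.MP_3e8c7a.Glue
import Pool.Agent.Work.MP_3e8c7a_r.B_NET
import Pool.Agent.Work.MP_3e8c7a_r.B_BAS

/-!
# MP_3e8c7a_an, THEOREM H (Euclidean sections): definitions and first lemmas
-/

set_option autoImplicit false

namespace Pool.EH

open Module Pool.Agent.MP3e8c7a

/-- `N` is `C`-Euclidean: `‖T x‖ ≤ N x ≤ C ‖T x‖` for a linear map `T` into a Euclidean space. -/
def Eu (C : ℝ) {W : Type} [AddCommGroup W] [Module ℝ W] (N : Seminorm ℝ W) : Prop :=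
  ∃ (d : ℕ) (T : W →ₗ[ℝ] EuclideanSpace ℝ (Fin d)), ∀ x, ‖T x‖ ≤ N x ∧ N x ≤ C * ‖T x‖

/-- All subspaces of dimension at most `a` are `C`-Euclidean. -/
def Loc (C : ℝ) (a : ℕ) {V : Type} [AddCommGroup V] [Module ℝ V] (N : Seminorm ℝ V) : Prop :=
  ∀ F : Submodule ℝ V, finrank ℝ F ≤ a → Eu C (N.comp F.subtype)

/-- Good position. -/
def Pos (C : ℝ) {V : Type} [AddCommGroup V] [Module ℝ V] (N : Seminorm ℝ V) (F E : Submodule ℝ V) : Prop :=
  ∀ w ∈ F, ∀ x ∈ E, N w ≤ C * N (w + x)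

/-- The sign of a Boolean. -/
def sg (c : Bool) : ℝ := if c then 1 else -1

/-- Type 2 inequality for `m` vectors. -/
def Ty (T : ℝ) (m : ℕ) {V : Type} [AddCommGroup V] [Module ℝ V] (N : Seminorm ℝ V) : Prop :=
  ∀ x : Fin m → V, ∑ g : Fin m → Bool, N (∑ l, sg (g l) • x l) ^ 2 ≤ 2 ^ m * (T ^ 2 * ∑ l, N (x l) ^ 2)

/-- Cotype 2 inequality for `m` vectors. -/
def Co (T : ℝ) (m : ℕ) {V : Type} [AddCommGroup V] [Module ℝ V] (N : Seminorm ℝ V) : Prop :=
  ∀ x : Fin m → V, 2 ^ m * ∑ l, N (x l) ^ 2 ≤ T ^ 2 * ∑ g : Fin m → Bool, N (∑ l, sg (g l) • x l) ^ 2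

/-- The supremum of the determinants of the matrices `f i (x l)`, `|f i| ≤ r`, `p (x l) ≤ 1`. -/
noncomputable def DD {V : Type} [AddCommGroup V] [Module ℝ V] (p r : Seminorm ℝ V) (j : ℕ) : ℝ :=
  sSup {D : ℝ | ∃ (f : Fin j → (V →ₗ[ℝ] ℝ)) (x : Fin j → V), (∀ i v, |f i v| ≤ r v) ∧ (∀ l, p (x l) ≤ 1) ∧
    D = |(Matrix.of fun i l => f i (x l)).det|}

section lemmas

variable {V W : Type} [AddCommGroup V] [Module ℝ V] [AddCommGroup W] [Module ℝ W]

lemma Eu.mono {C C' : ℝ} {N : Seminorm ℝ W} (h : Eu C N) (hC : C ≤ C') : Eu C' N := by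
  obtain ⟨d, T, hT⟩ := h
  exact ⟨d, T, fun x => ⟨(hT x).1, (hT x).2.trans (mul_le_mul_of_nonneg_right hC (norm_nonneg _))⟩⟩

lemma Eu.comp {C : ℝ} {N : Seminorm ℝ W} (h : Eu C N) (u : V →ₗ[ℝ] W) : Eu C (N.comp u) := by
  obtain ⟨d, T, hT⟩ := h
  exact ⟨d, T ∘ₗ u, fun x => hT (u x)⟩

/-- If `N ≤ A N'` and `N' ≤ B N` then `N'` is `A B C`-Euclidean. -/
lemma Eu.equiv {C A B : ℝ} {N N' : Seminorm ℝ W} (h : Eu C N) (hA : 0 < A) (hB : 0 ≤ B)
    (h1 : ∀ x, N x ≤ A * N' x) (h2 : ∀ x, N' x ≤ B * N x) : Eu (A * B * C) N' := by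
  obtain ⟨d, T, hT⟩ := h
  refine ⟨d, A⁻¹ • T, fun x => ?_⟩
  have e : ‖(A⁻¹ • T) x‖ = A⁻¹ * ‖T x‖ := by
    rw [LinearMap.smul_apply, norm_smul, Real.norm_eq_abs, abs_of_pos (inv_pos.2 hA)]
  rw [e]
  constructor
  · rw [inv_mul_le_iff₀ hA]
    exact (hT x).1.trans (h1 x)
  · calc N' x ≤ B * N x := h2 x
      _ ≤ B * (C * ‖T x‖) := mul_le_mul_of_nonneg_left (hT x).2 hB
      _ = A * B * C * (A⁻¹ * ‖T x‖) := by field_simp

lemma Eu.sub {C : ℝ} {N : Seminorm ℝ V} {E F : Submodule ℝ V} (h : Eu C (N.comp E.subtype)) (hF : F ≤ E) :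
    Eu C (N.comp F.subtype) := h.comp (Submodule.inclusion hF)

lemma Loc.mono {C C' : ℝ} {a a' : ℕ} {N : Seminorm ℝ V} (h : Loc C a N) (hC : C ≤ C') (ha : a' ≤ a) :
    Loc C' a' N := fun F hF => (h F (hF.trans ha)).mono hC

lemma Eu.loc {C : ℝ} {N : Seminorm ℝ V} (h : Eu C N) (a : ℕ) : Loc C a N := fun F _ => h.comp F.subtype

lemma Loc.comp {C : ℝ} {a : ℕ} {N : Seminorm ℝ V} (h : Loc C a N) (u : W →ₗ[ℝ] V) (hu : Function.Injective u) :
    Loc C a (N.comp u) := by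
  intro F hF
  have h1 := h (F.map u) (by rw [← (Submodule.equivMapOfInjective u hu F).finrank_eq]; exact hF)
  exact h1.comp ((u.domRestrict F).codRestrict (F.map u) fun x => Submodule.mem_map_of_mem x.2)

lemma Pos.mono {C C' : ℝ} {N : Seminorm ℝ V} {F F' E E' : Submodule ℝ V} (h : Pos C N F E) (hC : C ≤ C')
    (hF : F' ≤ F) (hE : E' ≤ E) : Pos C' N F' E' := fun w hw x hx =>
  (h w (hF hw) x (hE hx)).trans (mul_le_mul_of_nonneg_right hC (apply_nonneg _ _))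

/-- Good position splits the norm. -/
lemma Pos.split {C : ℝ} {N : Seminorm ℝ V} {F E : Submodule ℝ V} (h : Pos C N F E) :
    ∀ w ∈ F, ∀ x ∈ E, N w + N x ≤ (2 * C + 1) * N (w + x) := by
  intro w hw x hx
  have h1 := h w hw x hx
  have h2 : N x ≤ N (w + x) + N w := by
    have e : x = (w + x) - w := by abel
    calc N x = N ((w + x) - w) := by rw [← e]
      _ ≤ N (w + x) + N w := map_sub_le_add N _ _
  linarith

lemma Eu.inj {N : Seminorm ℝ W} (hN : Def N) {d : ℕ} {T : W →ₗ[ℝ] EuclideanSpace ℝ (Fin d)} {C : ℝ}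
    (hT : ∀ x, ‖T x‖ ≤ N x ∧ N x ≤ C * ‖T x‖) : Function.Injective T := by
  rw [injective_iff_map_eq_zero]
  intro x hx
  have h := (hT x).2
  rw [hx, norm_zero, mul_zero] at h
  exact hN _ (le_antisymm h (apply_nonneg _ _))

/-- The linear map can be chosen bijective. -/
lemma Eu.exists_equiv [FiniteDimensional ℝ W] {C : ℝ} {N : Seminorm ℝ W} (hN : Def N) (h : Eu C N) :
    ∃ T : W ≃ₗ[ℝ] EuclideanSpace ℝ (Fin (finrank ℝ W)), ∀ x, ‖T x‖ ≤ N x ∧ N x ≤ C * ‖T x‖ := by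
  obtain ⟨d, T, hT⟩ := h
  have hi := Eu.inj hN hT
  let R := LinearMap.range T
  let e1 : W ≃ₗ[ℝ] R := LinearEquiv.ofInjective T hi
  have hR : finrank ℝ R = finrank ℝ W := e1.finrank_eq.symm
  let b := (stdOrthonormalBasis ℝ R).reindex (finCongr hR)
  refine ⟨e1.trans b.repr.toLinearEquiv, fun x => ?_⟩
  have e : ‖(e1.trans b.repr.toLinearEquiv) x‖ = ‖T x‖ := by
    show ‖b.repr (e1 x)‖ = _
    rw [LinearIsometryEquiv.norm_map]
    rfl
  rw [e]
  exact hT x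

/-- Two Euclidean norms of the same dimension are isomorphic. -/
lemma Eu.iso [FiniteDimensional ℝ V] [FiniteDimensional ℝ W] {C D : ℝ} {p : Seminorm ℝ V} {r : Seminorm ℝ W}
    (hp : Def p) (hr : Def r) (hC : 1 ≤ C) (h : Eu C p) (h' : Eu D r) (hd : finrank ℝ V = finrank ℝ W) :
    Iso (C * D) p r := by
  obtain ⟨T, hT⟩ := h.exists_equiv hp
  obtain ⟨S, hS⟩ := h'.exists_equiv hr
  let J : EuclideanSpace ℝ (Fin (finrank ℝ V)) ≃ₗᵢ[ℝ] EuclideanSpace ℝ (Fin (finrank ℝ W)) :=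
    LinearIsometryEquiv.piLpCongrLeft 2 ℝ ℝ (finCongr hd)
  refine Iso.of_bounds ((T.trans J.toLinearEquiv).trans S.symm) (by linarith) (fun x => ?_) (fun x => ?_)
  · have h1 := (hS (((T.trans J.toLinearEquiv).trans S.symm) x)).1
    have e : S (((T.trans J.toLinearEquiv).trans S.symm) x) = J (T x) := by
      show S (S.symm (J (T x))) = _
      rw [LinearEquiv.apply_symm_apply]
    rw [e, LinearIsometryEquiv.norm_map] at h1
    exact (hT x).2.trans (mul_le_mul_of_nonneg_left h1 (by linarith))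
  · have h1 := (hS (((T.trans J.toLinearEquiv).trans S.symm) x)).2
    have e : S (((T.trans J.toLinearEquiv).trans S.symm) x) = J (T x) := by
      show S (S.symm (J (T x))) = _
      rw [LinearEquiv.apply_symm_apply]
    rw [e, LinearIsometryEquiv.norm_map] at h1
    have hD : 0 ≤ D ∨ ‖T x‖ = 0 := by
      by_contra hcon
      rw [not_or, not_le] at hcon
      have h2 : 0 < ‖T x‖ := lt_of_le_of_ne (norm_nonneg _) (Ne.symm hcon.2)
      have h3 := apply_nonneg r (((T.trans J.toLinearEquiv).trans S.symm) x)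
      nlinarith [mul_neg_of_neg_of_pos hcon.1 h2]
    rcases hD with hD | hD
    · exact h1.trans (mul_le_mul_of_nonneg_left (hT x).1 hD)
    · have h2 := (hT x).2
      rw [hD, mul_zero] at h2
      have h3 : p x = 0 := le_antisymm h2 (apply_nonneg _ _)
      rw [hD, mul_zero] at h1
      rw [h3, mul_zero]
      exact h1

end lemmas

end Pool.EH
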