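import Pool.Agent.Work.MP_3e8c7a_h.Base

/-!
# MP_3e8c7a_an, THEOREM H (Euclidean sections): the blocks

Paper proof: note 3385 of the row. `Eu C N`: the seminorm `N` is `C`-Euclidean (`‖T x‖ ≤ N x ≤ C ‖T x‖`). `Loc C a N`: all subspaces of dimension `≤ a` are `C`-Euclidean.
`Pos C N F E`: good position. `Ty`, `Co`: type and cotype inequalities for `m` vectors. `DD p r j`: supremum of determinants. `Iso`, `Hyp`, `Def`, `exists_ext` (Hahn-Banach) are in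
`Pool.Agent.MP3e8c7a` (files `Base`, `Step`, `Hyper`, `Glue`: `Iso.of_bounds`, `Iso.symm`, `Iso.trans`, `Iso.mono`, `Hyp.inj`, `Hyp.comp`, `Hyp.symm`, `Def.comp`).

RULES. Every block is one file `B_X.lean` in this folder, `import Pool.Agent.Work.MP_3e8c7a_h.Interface`, `namespace Pool.EH`, `open Module Pool.Agent.MP3e8c7a`
(for the blocks with Gaussian measures or integrals also `open MeasureTheory ProbabilityTheory`, `open scoped RealInnerProductSpace`), `theorem p_X (h1 : Stmt_Y) .. : Stmt_X` with exactly the blocks named after `uses` as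
hypotheses in that order (`theorem p_X : Stmt_X` if it uses nothing); auxiliary lemmas with the prefix `X_`. No straight double quotes. In `Base.lean` (proved): `Eu.mono`, `Eu.comp`, `Eu.equiv` (`N ≤ A N'`, `N' ≤ B N` gives
`Eu (A * B * C) N'`), `Eu.sub`, `Loc.mono`, `Eu.loc`, `Loc.comp`, `Pos.mono`, `Pos.split`, `Eu.inj`, `Eu.exists_equiv` (the map may be taken bijective), `Eu.iso`.
-/

set_option autoImplicit false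

namespace Pool.EH

open Module Pool.Agent.MP3e8c7a MeasureTheory ProbabilityTheory
open scoped RealInnerProductSpace

/-! ## 1. Random kernels, position -/

/-- **GEX** (200; uses nothing). ONE GAUSSIAN FUNCTIONAL. The law of `⟪g, x⟫` under `stdGaussian` is `gaussianReal 0 ‖x‖²` (`IsGaussian` and `variance_dual_stdGaussian`, `integral_strongDual_stdGaussian`, `IsGaussian.map_eq_gaussianReal`; `innerSL`). (1) `‖x‖ = 1`: the density `gaussianPDFReal 0 1` is at most `1 / √(2 π) ≤ 1/2`, so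
`∫ exp (-|t| / a) ≤ (1/2) ∫ exp (-|t| / a) dt = (1/2) 2 a = a`. (2) `‖x‖ ≤ 1`: `exp |t| ≤ exp t + exp (-t)`, `∫ exp (± t) = exp (‖x‖² / 2) ≤ exp (1/2) ≤ 2` (`mgf_gaussianReal`). -/
def Stmt_GEX : Prop := ∀ (d : ℕ) (x : EuclideanSpace ℝ (Fin d)),
  (‖x‖ = 1 → ∀ a : ℝ, 0 < a → ∫ g, Real.exp (-|⟪g, x⟫| / a) ∂(stdGaussian (EuclideanSpace ℝ (Fin d))) ≤ a) ∧
  (‖x‖ ≤ 1 → Integrable (fun g => Real.exp |⟪g, x⟫|) (stdGaussian (EuclideanSpace ℝ (Fin d))) ∧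
    ∫ g, Real.exp |⟪g, x⟫| ∂(stdGaussian (EuclideanSpace ℝ (Fin d))) ≤ 4)

/-- **ROW** (200; uses GEX). GOOD MATRICES. `P` = `Measure.pi (fun _ : Fin c => stdGaussian _)` on `Fin c → EuclideanSpace ℝ (Fin d)`, a probability measure. For `x ∈ T`: `P {∑ |⟪g s, x⟫| ≤ a c} ≤ exp c ∫ ∏ s, exp (-|⟪g s, x⟫| / a) ≤ (exp 1 * a) ^ c` (Markov, `mul_meas_ge_le_integral_of_nonneg`; `integral_fintype_prod_eq_prod`).
For `x ∈ S`: `P {∑ |⟪g s, x⟫| ≥ t c} ≤ exp (-t c) 4 ^ c`. The sum of the probabilities of the bad events is `< 1`, so some `g` is outside all of them (`measure_biUnion_finset_le`; a set of measure `< 1` is not everything). -/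
def Stmt_ROW : Prop := ∀ (d c : ℕ) (a t : ℝ), 0 < a → ∀ T S : Finset (EuclideanSpace ℝ (Fin d)), (∀ x ∈ T, ‖x‖ = 1) → (∀ x ∈ S, ‖x‖ ≤ 1) →
  (T.card : ℝ) * (Real.exp 1 * a) ^ c + (S.card : ℝ) * (4 * Real.exp (-t)) ^ c < 1 →
  ∃ g : Fin c → EuclideanSpace ℝ (Fin d), (∀ x ∈ T, a * c < ∑ s, |⟪g s, x⟫|) ∧ ∀ x ∈ S, ∑ s, |⟪g s, x⟫| < t * c

/-- **NE1** (120; uses nothing). A `1/2`-NET WITH `5^d` POINTS. `Besicovitch.card_le_of_separated` for the norm `N` on `W` (normed space structure from `N` as in `riesz_half` of `MP_3e8c7a/Hyper.lean`): a set of points of the unit ball with mutual distances `> 1/2` (or `≥ 1/2`), multiplied by `2`, is in the ball of radius `2` and `1`-separated: at most `5 ^ d` points.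
A set of this kind with the maximal number of points is a `1/2`-net. -/
def Stmt_NE1 : Prop := ∀ (W : Type) [AddCommGroup W] [Module ℝ W] [FiniteDimensional ℝ W] (N : Seminorm ℝ W), Def N →
  ∃ T : Finset W, T.card ≤ 5 ^ finrank ℝ W ∧ (∀ y ∈ T, N y ≤ 1) ∧ ∀ w, N w ≤ 1 → ∃ y ∈ T, N (w - y) ≤ 1 / 2

/-- **NET** (100; uses NE1). Induction on `j`: `j = 0`: `{0}`. `T (j+1)` = the image of `T j × T₁` under `(w, v) ↦ w + (1 / 2 ^ j) • v` (`T₁` of NE1): `N (w₀ - w) ≤ 1 / 2 ^ j`, so `2 ^ j • (w₀ - w)` is in the unit ball. -/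
def Stmt_NET : Prop := ∀ (W : Type) [AddCommGroup W] [Module ℝ W] [FiniteDimensional ℝ W] (N : Seminorm ℝ W), Def N → ∀ j : ℕ,
  ∃ T : Finset W, T.card ≤ 5 ^ (j * finrank ℝ W) ∧ ∀ w, N w ≤ 1 → ∃ y ∈ T, N (w - y) ≤ 1 / 2 ^ j

/-- **RND** (180; uses ROW NE1). RANDOM KERNELS. `a = 1 / (16 Γ)` (so `Γ exp 1 a ≤ 1/4`, `exp 1 < 3`), `t ≥ 1` with `5 ^ κ * 4 * exp (-t) ≤ 1/4` (`Real.rpow`), `S` = NE1 for the norm of `EuclideanSpace ℝ (Fin d)`: `S.card ≤ 5 ^ d ≤ (5 ^ κ) ^ c`. `c ≥ 1`: the sum in ROW is at most `(1/4) ^ c + (1/4) ^ c ≤ 1/2`. `g` of ROW, `E = ⨅ s, ker ⟪g s, ·⟫` (the kernel of the map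
`y ↦ (⟪g s, y⟫)_s` into `Fin c → ℝ`, rank-nullity). `Λ(y) = ∑ |⟪g s, y⟫|` is a seminorm, `Λ ≤ t c` on `S`; for `‖y‖ ≤ 1`: let `Λ₀` be any bound of `Λ` on the unit ball (e.g. `∑ ‖g s‖`): `Λ(y) ≤ t c + Λ₀ / 2`; so the least bound is `≤ 2 t c`. For `x ∈ T`, `y ∈ E`: `a c < Λ(x) = Λ(x - y) ≤ 2 t c ‖x - y‖`. `τ = a / (2 t)`. -/
def Stmt_RND : Prop := ∀ κ Γ : ℝ, 1 ≤ κ → 1 ≤ Γ → ∃ τ : ℝ, 0 < τ ∧ τ ≤ 1 ∧ ∀ d c : ℕ, 1 ≤ c → (d : ℝ) ≤ κ * c →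
  ∀ T : Finset (EuclideanSpace ℝ (Fin d)), (∀ x ∈ T, ‖x‖ = 1) → (T.card : ℝ) ≤ Γ ^ c →
  ∃ E : Submodule ℝ (EuclideanSpace ℝ (Fin d)), d ≤ finrank ℝ E + c ∧ ∀ x ∈ T, ∀ y ∈ E, τ ≤ ‖x - y‖

/-- **PO1** (260; uses NET RND). POSITION. `κ = 2 / η`, `Γ = 2`, `τ` of RND, `C₁ = 32 C / τ`, `j ≥ 1` with `2 ^ j ≥ C₁`, `θ = min (η / 2) (1 / (3 κ j))`. Let `m = finrank F`, `e = finrank E`. `m = 0`: `E' = E`. Otherwise `e ≥ 1 / θ ≥ 2 / η`, `c = ⌊η e⌋₊ ≥ η e / 2 ≥ 1`, `e ≤ κ c`, `m j ≤ θ e j ≤ θ κ c j ≤ c / 3`, and `5 ^ (m j) ≤ 2 ^ c`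
(`125 ≤ 512 = 2 ^ 9`, i.e. `5 ^ (3 u) ≤ 2 ^ (9 u)`: better take `θ = min (η / 2) (1 / (9 κ j))` and use `5 ≤ 2 ^ 3`: `5 ^ (m j) ≤ 2 ^ (3 m j) ≤ 2 ^ c`). `T : E ≃ EuclideanSpace ℝ (Fin e)` of `Eu.exists_equiv`, `T_F` = NET for `(F, N)` and `j`. For `w' ∈ T_F` choose `x_w' ∈ E` with `N (w' + x_w') ≤ 2 / C₁`, `‖T x_w'‖ ≥ 1 / (4 C)` if possible (otherwise ignore `w'`).
RND for the set of the vectors `T x_w' / ‖T x_w'‖`: `E₁`, `E' = {x ∈ E : T x ∈ E₁}`, `finrank E' ≥ e - c ≥ (1 - η) e`. Suppose `w ∈ F`, `x ∈ E'`, `N w > C₁ N (w + x)`; scale to `N w = 1`. `w' ∈ T_F` with `N (w - w') ≤ 1 / 2 ^ j ≤ 1 / C₁`; `N (w' + x) ≤ 2 / C₁`; `N x ≥ 1 - 1 / C₁ ≥ 1/2`, `‖T x‖ ≥ 1 / (2 C) ≥ 1 / (4 C)`: so `x_w'` exists, `N (x - x_w') ≤ 4 / C₁`,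
`‖T x - T x_w'‖ ≤ 4 / C₁`, and with `β = ‖T x_w'‖ ≥ 1 / (4 C)`: `‖T x_w' / β - T x / β‖ ≤ 16 C / C₁ = τ / 2 < τ`, but `T x / β ∈ E₁`: contradiction. -/
def Stmt_PO1 : Prop := ∀ η C : ℝ, 0 < η → η ≤ 1 → 1 ≤ C → ∃ θ C₁ : ℝ, 0 < θ ∧ θ ≤ 1 ∧ 1 ≤ C₁ ∧
  ∀ (V : Type) [AddCommGroup V] [Module ℝ V] [FiniteDimensional ℝ V] (N : Seminorm ℝ V), Def N → ∀ E F : Submodule ℝ V,
    Eu C (N.comp E.subtype) → (finrank ℝ F : ℝ) ≤ θ * finrank ℝ E →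
    ∃ E' : Submodule ℝ V, E' ≤ E ∧ (1 - η) * finrank ℝ E ≤ finrank ℝ E' ∧ Pos C₁ N F E'

/-- **POS** (60; uses PO1). POSITION FOR TWO NORMS. PO1 for `η / 2` and `p`: `E₁ ≤ E`, `finrank E₁ ≥ (1 - η / 2) finrank E ≥ (1/2) finrank E`; PO1 for `η / 2`, `r` and `E₁` (`Eu.sub`), `θ` = half of the `θ` of PO1; `(1 - η / 2)² ≥ 1 - η`; `Pos.mono`. -/
def Stmt_POS : Prop := ∀ η C : ℝ, 0 < η → η ≤ 1 → 1 ≤ C → ∃ θ C₁ : ℝ, 0 < θ ∧ θ ≤ 1 ∧ 1 ≤ C₁ ∧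
  ∀ (V : Type) [AddCommGroup V] [Module ℝ V] [FiniteDimensional ℝ V] (p r : Seminorm ℝ V), Def p → Def r → ∀ E F : Submodule ℝ V,
    Eu C (p.comp E.subtype) → Eu C (r.comp E.subtype) → (finrank ℝ F : ℝ) ≤ θ * finrank ℝ E →
    ∃ E' : Submodule ℝ V, E' ≤ E ∧ (1 - η) * finrank ℝ E ≤ finrank ℝ E' ∧ Pos C₁ p F E' ∧ Pos C₁ r F E'

/-! ## 2. Scales -/

/-- **TYL** (120; uses nothing). For `x : Fin a → V` let `F` be the span of the `x l` (dimension `≤ a`), `T` as in `Eu`: `∑ g, ‖∑ l, sg (g l) • T (x l)‖² = 2 ^ a ∑ l, ‖T (x l)‖²` (parallelogram law: induction on `a`, or expand the inner products, `∑ g, sg (g l) sg (g l') = 0` for `l ≠ l'`). Type: `N ≤ C ‖T ·‖` and `‖T (x l)‖ ≤ N (x l)`; cotype in the same way. -/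
def Stmt_TYL : Prop := ∀ (V : Type) [AddCommGroup V] [Module ℝ V] [FiniteDimensional ℝ V] (N : Seminorm ℝ V) (C : ℝ) (a : ℕ), 1 ≤ C →
  Loc C a N → Ty C a N ∧ Co C a N

/-- **TYM** (220; uses nothing). SUBMULTIPLICATIVITY. `x` indexed by `Fin (a * b) ≃ Fin a × Fin b` (`finProdFinEquiv`), signs `g (k, i)`. Type: for every `h : Fin a → Bool` the map `g ↦ (h k xor g (k, i))` is a bijection, so `2 ^ a ∑ g, N (∑ k, ∑ i, sg (g (k, i)) x (k, i))² = ∑ g, ∑ h, N (∑ k, sg (h k) • Y_k g)²`, `Y_k g = ∑ i, sg (g (k, i)) x (k, i)`,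
`≤ ∑ g, 2 ^ a T² ∑ k, N (Y_k g)²`, and `∑ g, N (Y_k g)² = 2 ^ (a b - b) ∑ (g' : Fin b → Bool), N (∑ i, sg (g' i) x (k, i))² ≤ 2 ^ (a b) S² ∑ i, N (x (k, i))²`. Cotype: the same with all inequalities reversed. -/
def Stmt_TYM : Prop := ∀ (V : Type) [AddCommGroup V] [Module ℝ V] (N : Seminorm ℝ V) (T S : ℝ) (a b : ℕ),
  (Ty T a N → Ty S b N → Ty (T * S) (a * b) N) ∧ (Co T a N → Co S b N → Co (T * S) (a * b) N)

/-- **ORT** (260; uses nothing). ROTATIONS. `B` = the unit ball of `EuclideanSpace ℝ (Fin m)`, `I x = ∫ t in B, N (∑ i, t i • x i) ^ 2` (a continuous function on a bounded set: `t ↦ N (∑ ..)` is a seminorm on `ℝ^m`, at most `∑ |t i| N (x i)`, hence Lipschitz), `c = ∫ t in B, (t i) ^ 2` (the same for all `i` by a permutation of the coordinates; `> 0`; `m = 0` is trivial).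
For signs `g` the map `t ↦ (sg (g i) t i)` is a linear isometry, preserves `volume` and `B` (`LinearIsometryEquiv.measurePreserving`), so `2 ^ m I x = ∫ t in B, ∑ g, N (∑ i, sg (g i) • (t i • x i)) ^ 2 ≤ ∫ t in B, 2 ^ m T² ∑ i, (t i)² N (x i)² = 2 ^ m T² c ∑ N (x i)²`; in the same way `2 ^ m c ∑ N (y j)² ≤ S² 2 ^ m I y`. `∑ j, t j • y j = ∑ i, (Uᵀ t) i • x i` and
`Uᵀ` is an isometry: `I y = I x`. -/
def Stmt_ORT : Prop := ∀ (V : Type) [AddCommGroup V] [Module ℝ V] [FiniteDimensional ℝ V] (N : Seminorm ℝ V) (T S : ℝ) (m : ℕ), 0 ≤ T → 0 ≤ S →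
  Ty T m N → Co S m N → ∀ U ∈ Matrix.orthogonalGroup (Fin m) ℝ, ∀ x y : Fin m → V, (∀ j, y j = ∑ i, U j i • x i) →
  ∑ j, N (y j) ^ 2 ≤ (T * S) ^ 2 * ∑ i, N (x i) ^ 2

/-- **GRM** (150; uses nothing). EQUAL GRAM MATRICES. Let `A, B : EuclideanSpace ℝ (Fin d) → EuclideanSpace ℝ (Fin m)`, `(A v) l = ∑ i, x l i * v i`, `(B v) l = ∑ i, y l i * v i`: `‖A v‖² = ∑ i j, v i v j ∑ l, x l i x l j = ‖B v‖²`. So `A v ↦ B v` is a well defined linear isometry `range A → EuclideanSpace ℝ (Fin m)`; `LinearIsometry.extend` gives an isometry of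
`EuclideanSpace ℝ (Fin m)`; `U` = its matrix (orthogonal), `U A = B`, i.e. `y j i = ∑ l, U j l * x l i`. -/
def Stmt_GRM : Prop := ∀ (m d : ℕ) (x y : Fin m → Fin d → ℝ), (∀ i j, ∑ l, x l i * x l j = ∑ l, y l i * y l j) →
  ∃ U ∈ Matrix.orthogonalGroup (Fin m) ℝ, ∀ j, y j = ∑ i, U j i • x i

/-- **KWA** (280; uses GRM). KWAPIEN. Transport `N` to `Fin d → ℝ`, `d = finrank W` (a linear equivalence). In `M = Matrix (Fin d) (Fin d) ℝ` (finite dimensional, `finrank = d * d`; take any norm or work in `Fin d → Fin d → ℝ`) let `A = convexHull {x xᵀ : N x = 1}`, `B = convexHull {y yᵀ : N y = K'}`; both compact (the sets are compact: `N` is equivalent to the norm;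
`IsCompact.convexHull` in finite dimension) and not empty if `d ≥ 1` (`d = 0`: trivial). Disjoint: a common point `s` is `∑ w_i x_i x_iᵀ` with at most `d² + 1 ≤ m` terms (`eq_pos_convex_span_of_mem_convexHull`, `AffineIndependent.card_le_finrank_succ`), `N (x_i) = 1`, and `∑ v_j y_j y_jᵀ`, `N (y_j) = K'`. The vectors `√w_i x_i`, `√v_j y_j` (completed by zeros to `m` vectors)
have equal Gram matrices; GRM and the hypothesis give `K'² = ∑ N (√v_j y_j)² ≤ K² ∑ N (√w_i x_i)² = K²`, a contradiction. `geometric_hahn_banach_compact_closed`: `f < u < v < f'`: `f (x xᵀ) < u`, `v < f (y yᵀ)`. For `N x = 1`, `y = K' x`: `K'² f (x xᵀ) > v > u > f (x xᵀ)`, so `f (x xᵀ) > 0` and `u > 0`. `Q (x, y) = f ((x yᵀ + y xᵀ) / 2) / u` is a symmetric bilinear form with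
`N x ² / K'² ≤ Q (x, x) ≤ N x ²`, positive definite: `Q (x, x) = ‖T x‖²` for a linear `T : ℝ^d → EuclideanSpace ℝ (Fin d)` (e.g. `Matrix.PosDef` / `InnerProductSpace.ofCore` and an orthonormal basis). `Eu K'`. -/
def Stmt_KWA : Prop := ∀ (W : Type) [AddCommGroup W] [Module ℝ W] [FiniteDimensional ℝ W] (N : Seminorm ℝ W) (m : ℕ) (K K' : ℝ), Def N →
  finrank ℝ W * finrank ℝ W + 1 ≤ m → 1 ≤ K → K < K' →
  (∀ U ∈ Matrix.orthogonalGroup (Fin m) ℝ, ∀ x y : Fin m → W, (∀ j, y j = ∑ i, U j i • x i) → ∑ j, N (y j) ^ 2 ≤ K ^ 2 * ∑ i, N (x i) ^ 2) →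
  Eu K' N

/-- **SCL** (120; uses TYL TYM ORT KWA). CHANGE OF SCALE. `j = 2 κ + 1`, `C' = C ^ (2 * j) + 1`. By induction `Ty (C ^ j) (a ^ j) N`, `Co (C ^ j) (a ^ j) N` (`j ≥ 1`). For `F` with `finrank F ≤ a ^ κ`: `Ty`, `Co` pass to `N.comp F.subtype`, ORT with `m = a ^ j ≥ 2 a ^ (2 κ) ≥ (finrank F)² + 1`, `K = C ^ j * C ^ j`, KWA. -/
def Stmt_SCL : Prop := ∀ (C : ℝ) (κ : ℕ), 1 ≤ C → ∃ C' : ℝ, 1 ≤ C' ∧ ∀ (V : Type) [AddCommGroup V] [Module ℝ V] [FiniteDimensional ℝ V]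
  (N : Seminorm ℝ V) (a : ℕ), Def N → 2 ≤ a → Loc C a N → Loc C' (a ^ κ) N

/-! ## 3. Linear algebra -/

/-- **LOB** (60; uses nothing). SMALL DIMENSIONS. `Pool.RX.p_BAS` for `F` of dimension `m ≤ a`: `‖e x‖ ≤ 2 ^ m s x`, `s x ≤ ∑ |e x i|`. `T x = (m 2 ^ m + 1)⁻¹ • e x` as an element of `EuclideanSpace` (`(EuclideanSpace.equiv ..).symm` or `WithLp.toLp 2`): `‖e x‖_2 ≤ ∑ |e x i| ≤ m ‖e x‖ ≤ m 2 ^ m s x`, `s x ≤ ∑ |e x i| ≤ m ‖e x‖_2`. `C = (a 2 ^ a + 1) (a + 1)`. -/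
def Stmt_LOB : Prop := ∀ a : ℕ, ∃ C : ℝ, 1 ≤ C ∧ ∀ (V : Type) [AddCommGroup V] [Module ℝ V] [FiniteDimensional ℝ V] (N : Seminorm ℝ V),
  Def N → Loc C a N

/-- **SDG** (180; uses nothing). SIMULTANEOUS DIAGONALISATION. `T` is bijective onto `E = EuclideanSpace ℝ (Fin e)` (`finrank W = e`, injective). `A = (S ∘ T⁻¹)* ∘ (S ∘ T⁻¹)` is symmetric and positive definite on `E`; `LinearMap.IsSymmetric.eigenvectorBasis`, `eigenvalues` (decreasing). `u t = T⁻¹ (∑ t i • v i)`, `s i = √(eigenvalue i) > 0`: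
`‖T (u t)‖² = ∑ t i²`, `‖S (u t)‖² = ⟪A x, x⟫ = ∑ λ i t i²`. -/
def Stmt_SDG : Prop := ∀ (W : Type) [AddCommGroup W] [Module ℝ W] [FiniteDimensional ℝ W] (e d : ℕ) (T : W →ₗ[ℝ] EuclideanSpace ℝ (Fin e))
  (S : W →ₗ[ℝ] EuclideanSpace ℝ (Fin d)), finrank ℝ W = e → Function.Injective T → Function.Injective S →
  ∃ (u : (Fin e → ℝ) ≃ₗ[ℝ] W) (s : Fin e → ℝ), Antitone s ∧ (∀ i, 0 < s i) ∧ (∀ t, ‖T (u t)‖ ^ 2 = ∑ i, t i ^ 2) ∧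
    ∀ t, ‖S (u t)‖ ^ 2 = ∑ i, (s i * t i) ^ 2

/-! ## 4. Transfer, gap -/

/-- **TRF** (150; uses nothing). TRANSFER. `z = (w, x) ∈ W × E`, `û z = u w + x` is injective (by the inequality and `Def p`), `finrank (W × E) = k`. With `T_W`, `T_E` of the two `Eu`: `‖(T_W w, T_E x)‖` in `EuclideanSpace ℝ (Fin (d₁ + d₂))` (or `WithLp 2 (_ × _)` and an orthonormal basis): `p (û z) ≤ D ‖T_W w‖ + C ‖T_E x‖ ≤ 2 C D ‖(..)‖`,
`p (û z) ≥ (‖T_W w‖ + ‖T_E x‖) / C₂ ≥ ‖(..)‖ / C₂`: `Eu (2 * C * D * C₂) (p.comp û)`. `Hyp.inj`: `Iso b (p.comp û) (r.comp û)`, `R`: `p (û z) ≤ r (û (R z)) ≤ b p (û z)`; so `r.comp û` is `b`-equivalent to `(p.comp û).comp R⁻¹`: `Eu (b * (2 * C * D * C₂)) (r.comp û)`; restrict to `x = 0`. -/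
def Stmt_TRF : Prop := ∀ (V W : Type) [AddCommGroup V] [Module ℝ V] [FiniteDimensional ℝ V] [AddCommGroup W] [Module ℝ W] [FiniteDimensional ℝ W]
  (p r : Seminorm ℝ V) (k : ℕ) (b C C₂ D : ℝ) (u : W →ₗ[ℝ] V) (E : Submodule ℝ V), Def p → Def r → Hyp b k p r → 1 ≤ b → 1 ≤ C → 1 ≤ C₂ → 1 ≤ D →
  Function.Injective u → finrank ℝ W + finrank ℝ E = k → (∀ w, ∀ x ∈ E, p (u w) + p x ≤ C₂ * p (u w + x)) →
  Eu C (p.comp E.subtype) → Eu D (p.comp u) → Eu (2 * b * C * C₂ * D) (r.comp u)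

/-- **GAP** (280; uses TRF). THE GAP LEMMA. `K₁ = 2 b C C₂`, `K₂ = 2 K₁² C² C₂⁴`, `R = 2 K₂ C²`, `s₀ = R / C²`-scale as follows. Let `h₀` be a Hilbert norm on `F` with `h₀ ≤ r ≤ D h₀` (`Eu D (r.comp F.subtype)`, the map taken bijective; `D ≥ 1`), `|·|_r` on `Y` (bijective map), `σ = R / C² = 2 K₂`. `U : F → Y` linear with `|U w|_r = σ h₀ w`
(compose the isometries with an isometric embedding `EuclideanSpace (Fin m) → EuclideanSpace (Fin μ)`, `m ≤ μ`). `u w = w + U w`: `(σ / C₂) h₀ w ≤ r (u w) ≤ (D + C σ) h₀ w`, so `Eu (C₂ (C + D / σ)) (r.comp u)`; TRF (`r` to `p`, `Hyp.symm`): `Eu (K₁ C₂ (C + D / σ)) (p.comp u)`. `h w = |U w|_p` (the Hilbert norm of `p` on `Y`), `U' : F → Y'` with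
`|U' w|_p = h w` (Hilbert norm of `p` on `Y'`), `u' w = w + U' w`: `p (u' w) ≤ p w + C h w`, `p (u w) ≥ (p w + h w) / C₂`, `p (u w) ≤ p w + C h w`, `p (u' w) ≥ (p w + h w) / C₂`: `Eu.equiv` with `A = B = C C₂`; TRF (`p` to `r`): `Eu (K₁ (C C₂)² K₁ C₂ (C + D / σ)) (r.comp u')`.
`r (U' w) ≤ s p (U' w) ≤ s C h w ≤ s C p (U w) ≤ (C / R) r (U w) ≤ (C / R) C σ h₀ w = h₀ w ≤ r w`, so `r (u' w) ≤ 2 r w`, `r w ≤ C₂ r (u' w)`: `Eu (K₂ (C + D / σ)) (r.comp F.subtype)`, `σ = 2 K₂`. So every admissible `D ≥ 1` may be replaced by `K₂ C + D / 2`; iterate (or take the infimum): `Eu (2 K₂ C + 1)`. For `p`: TRF with `u = F.subtype`.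
(In TRF the hypothesis on `Fin`-dimension: `finrank F + finrank E = k`. `Eu D` for some `D`: every `Def` seminorm on a finite dimensional space, `Pool.RX.p_BAS` as in LOB, or the infimum argument for a `D` from norm equivalence.) -/
def Stmt_GAP : Prop := ∀ b C C₂ : ℝ, 1 ≤ b → 1 ≤ C → 1 ≤ C₂ → ∃ R C' : ℝ, 1 ≤ R ∧ 1 ≤ C' ∧
  ∀ (V : Type) [AddCommGroup V] [Module ℝ V] [FiniteDimensional ℝ V] (p r : Seminorm ℝ V) (k : ℕ) (s : ℝ), Def p → Def r → Hyp b k p r →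
  ∀ F Y Y' E : Submodule ℝ V, finrank ℝ F ≤ finrank ℝ Y → finrank ℝ F ≤ finrank ℝ Y' → finrank ℝ F + finrank ℝ E = k →
  (∀ w ∈ F, ∀ y ∈ Y, p w + p y ≤ C₂ * p (w + y) ∧ r w + r y ≤ C₂ * r (w + y)) →
  (∀ w ∈ F, ∀ y ∈ Y', p w + p y ≤ C₂ * p (w + y) ∧ r w + r y ≤ C₂ * r (w + y)) →
  (∀ z ∈ F ⊔ Y, ∀ x ∈ E, p z + p x ≤ C₂ * p (z + x) ∧ r z + r x ≤ C₂ * r (z + x)) →
  (∀ z ∈ F ⊔ Y', ∀ x ∈ E, p z + p x ≤ C₂ * p (z + x) ∧ r z + r x ≤ C₂ * r (z + x)) →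
  Eu C (p.comp E.subtype) → Eu C (r.comp E.subtype) → Eu C (p.comp Y.subtype) → Eu C (r.comp Y.subtype) → Eu C (p.comp Y'.subtype) →
  0 < s → (∀ y ∈ Y, R * s * p y ≤ r y) → (∀ y ∈ Y', r y ≤ s * p y) →
  Eu C' (p.comp F.subtype) ∧ Eu C' (r.comp F.subtype)

/-- **SLF** (220; uses TRF). THE SELF VERSION. `K₁ = 2 b C C₂`, `K₃ = 2 C₂² K₁²`, `λ = 2 K₃`, `R = 2 K₃ Λ C`. `Eu D (p.comp G.subtype)`, `D ≥ 1`, Hilbert norm `h₀`; `U : G → Y` with `|U w|_p = λ h₀ w`, `u w = w + U w`: `(λ / C₂) h₀ w ≤ p (u w) ≤ (D + C λ) h₀ w`: `Eu (C₂ (C + D / λ)) (p.comp u)`; TRF: `Eu (K₁ C₂ (C + D / λ)) (r.comp u)`.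
`r (U w) ≤ Λ p (U w) ≤ Λ C λ h₀ w ≤ R p w ≤ r w` (`h₀ ≤ p`), so `r (u w) ≤ 2 r w`, `r w ≤ C₂ r (u w)`: `Eu (2 C₂ K₁ C₂ (C + D / λ)) (r.comp G.subtype)`; TRF (`r` to `p`, `u` = the inclusion): `Eu (K₃ (C + D / λ)) (p.comp G.subtype)`: `D` may be replaced by `K₃ C + D / 2`; as in GAP `Eu (2 K₃ C + 1) (p.comp G.subtype)`, and TRF once more for `r`. -/
def Stmt_SLF : Prop := ∀ b C C₂ Λ : ℝ, 1 ≤ b → 1 ≤ C → 1 ≤ C₂ → 1 ≤ Λ → ∃ R C' : ℝ, 1 ≤ R ∧ 1 ≤ C' ∧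
  ∀ (V : Type) [AddCommGroup V] [Module ℝ V] [FiniteDimensional ℝ V] (p r : Seminorm ℝ V) (k : ℕ), Def p → Def r → Hyp b k p r →
  ∀ G Y E : Submodule ℝ V, finrank ℝ G ≤ finrank ℝ Y → finrank ℝ G + finrank ℝ E = k →
  (∀ w ∈ G, ∀ y ∈ Y, p w + p y ≤ C₂ * p (w + y) ∧ r w + r y ≤ C₂ * r (w + y)) →
  (∀ z ∈ G ⊔ Y, ∀ x ∈ E, p z + p x ≤ C₂ * p (z + x) ∧ r z + r x ≤ C₂ * r (z + x)) →
  Eu C (p.comp E.subtype) → Eu C (r.comp E.subtype) → Eu C (p.comp Y.subtype) →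
  (∀ y ∈ Y, r y ≤ Λ * p y) → (∀ y ∈ G, R * p y ≤ r y) →
  Eu C' (p.comp G.subtype) ∧ Eu C' (r.comp G.subtype)

/-! ## 5. Maximal determinants -/

/-- **HAD** (60; uses nothing). HADAMARD'S INEQUALITY. `Orientation.abs_volumeForm_apply_le` for the rows in `EuclideanSpace ℝ (Fin j)` (`Orientation.volumeForm_robust`, the determinant with respect to the standard basis), or Gram-Schmidt, or the matrix `A Aᵀ`. -/
def Stmt_HAD : Prop := ∀ (j : ℕ) (A : Matrix (Fin j) (Fin j) ℝ), |A.det| ≤ ∏ i, Real.sqrt (∑ l, A i l ^ 2)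

/-- **DT1** (200; uses nothing). The sets in `DD` are bounded (`r ≤ Λ₀ p` by finite dimension, entries `≤ Λ₀`, `Matrix.det_le` or `Matrix.det_apply` and `j! Λ₀^j`) and not empty (`f = 0`, `x = 0`); `DD p r 0 = 1`. Recursion: for a system `(f, x)` of size `j` let `X₀ = ⨅ i, ker (f i)` (codimension `≤ j`), `z ∈ X₀` with `ρ p z < r z`; then `z ≠ 0`, scale to `p z = 1`. `h` a norming functional
of `z` (`exists_ext` from the span of `z`): `h z = r z`, `|h| ≤ r`. The matrix of size `j + 1` of `(f, h)`, `(x, z)` (`Fin.snoc`) has last column `(0, .., 0, r z)`: determinant `= det · r z` (`Matrix.det_succ_column` or block triangular, `Matrix.det_fromBlocks_zero₁₂`). So `ρ |det| ≤ DD (j+1)`. The case `finrank V ≤ j` cannot occur in the hypothesis (`X₀ = ⊥`), or is not needed. -/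
def Stmt_DT1 : Prop := ∀ (V : Type) [AddCommGroup V] [Module ℝ V] [FiniteDimensional ℝ V] (p r : Seminorm ℝ V), Def p → Def r →
  DD p r 0 = 1 ∧ (∀ j, BddAbove {D : ℝ | ∃ (f : Fin j → (V →ₗ[ℝ] ℝ)) (x : Fin j → V), (∀ i v, |f i v| ≤ r v) ∧ (∀ l, p (x l) ≤ 1) ∧
    D = |(Matrix.of fun i l => f i (x l)).det|}) ∧
  ∀ (j : ℕ) (ρ : ℝ), 0 < ρ → (∀ X : Submodule ℝ V, finrank ℝ V ≤ finrank ℝ X + j → ∃ z ∈ X, ρ * p z < r z) → ρ * DD p r j ≤ DD p r (j + 1)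

/-- **DT2** (280; uses HAD SDG DT1). UPPER BOUND. Let `(f, x)` be a system of size `J = m + n`. If the `x l` are linearly dependent the determinant is `0` (`DD ≥ 0`). Otherwise `X` = their span, `finrank X = J`, `T` for `p`, `S` for `r` on `X` (both injective), SDG: `u`, `s` (`e = J`; use `Fin.cast` or state for `e = m + n`). (1) `s i < C ρ` for `i ≥ m`: otherwise on
`G = u (span of the first m + 1 unit vectors)`: `r x ≥ ‖S x‖ ≥ s m ‖T x‖ ≥ (s m / C) p x ≥ ρ p x`, against the hypothesis (`s` antitone; if `n = 0` nothing to show). (2) `x l = u (Ξ l)`: `∑ i, Ξ l i ² = ‖T (x l)‖² ≤ 1`. `Φ i l = f i (u e_l) / s l`: for all `t`: `∑ l, Φ i l t l = f i (u (t / s)) ≤ r (..) ≤ C ‖S (u (t / s))‖ = C |t|`, so `∑ l, Φ i l² ≤ C²`.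
`f i (x l) = ∑ a, Φ i a s a Ξ l a`: `det = det Φ · ∏ s · det Ξᵀ`, HAD twice: `|det| ≤ C ^ J ∏ s ≤ C ^ J (∏ i < m, s i) (C ρ) ^ n`. (3) `∏ i < m, s i ≤ C ^ m DD p r m`: the system `x l = C⁻¹ • u e_l`, `f l` = an extension (`exists_ext` from `X.subtype`) of `u t ↦ s l t l` (`|s l t l| ≤ ‖S (u t)‖ ≤ r`): diagonal matrix `s l / C`. -/
def Stmt_DT2 : Prop := ∀ (V : Type) [AddCommGroup V] [Module ℝ V] [FiniteDimensional ℝ V] (p r : Seminorm ℝ V) (C ρ : ℝ) (m n : ℕ), Def p → Def r →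
  1 ≤ C → 0 < ρ → Loc C (m + n) p → Loc C (m + n) r →
  (∀ G : Submodule ℝ V, finrank ℝ G = m + 1 → ∃ y ∈ G, r y < ρ * p y) →
  DD p r (m + n) ≤ C ^ (2 * m + n) * (C * ρ) ^ n * DD p r m

/-- **DET** (100; uses DT1 DT2). `ρ₁ = 2 C⁴ ρ`. Suppose the claim fails: for every `X` of codimension `≤ 2 m + 1` some `z ∈ X` has `ρ₁ p z < r z` (so `finrank V > 2 m + 1`). DT1 for `j ≤ 2 m + 1`: `DD j ≥ ρ₁ ^ j > 0`, `DD (2 m + 2) ≥ ρ₁ ^ (m + 2) DD m`. DT2 with `n = m + 2`: `DD (2 m + 2) ≤ C ^ (3 m + 2) (C ρ) ^ (m + 2) DD m = C ^ (4 m + 4) ρ ^ (m + 2) DD m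
< (2 C⁴ ρ) ^ (m + 2) DD m`. Contradiction. -/
def Stmt_DET : Prop := ∀ (V : Type) [AddCommGroup V] [Module ℝ V] [FiniteDimensional ℝ V] (p r : Seminorm ℝ V) (C ρ : ℝ) (m : ℕ), Def p → Def r →
  1 ≤ C → 0 < ρ → Loc C (2 * m + 2) p → Loc C (2 * m + 2) r →
  (∀ G : Submodule ℝ V, finrank ℝ G = m + 1 → ∃ y ∈ G, r y < ρ * p y) →
  ∃ X : Submodule ℝ V, finrank ℝ V ≤ finrank ℝ X + (2 * m + 1) ∧ ∀ z ∈ X, r z ≤ 2 * C ^ 4 * ρ * p z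

/-! ## 6. Complemented subspaces -/

/-- **CAR** (120; uses nothing). CARATHEODORY FOR QUADRATIC FORMS. In `Fin n → Fin n → ℝ` (dimension `n * n`) the point `∑ z, μ z • (z ⊗ z)` is in the convex hull of `{z i ⊗ z i}`; `eq_pos_convex_span_of_mem_convexHull` and `AffineIndependent.card_le_finrank_succ`: at most `n * n + 1` points. Choose an index for each of them. The identity for `z ⊗ z` gives it for all `A`. -/
def Stmt_CAR : Prop := ∀ (n : ℕ) (ι : Type) [Fintype ι] (z : ι → Fin n → ℝ) (μ : ι → ℝ), (∀ i, 0 ≤ μ i) → ∑ i, μ i = 1 →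
  ∃ (I : Finset ι) (c : ι → ℝ), I.card ≤ n * n + 1 ∧ (∀ i, 0 ≤ c i) ∧ ∑ i ∈ I, c i = 1 ∧
    ∀ A : Fin n → Fin n → ℝ, ∑ i ∈ I, c i * ∑ a, ∑ b, A a b * z i a * z i b = ∑ i, μ i * ∑ a, ∑ b, A a b * z i a * z i b

/-- **ORL** (120; uses nothing). ORTHOGONAL LIFTING. `T` injective: transport to `E = range T` (inner product space). `K = ker q`, transported; `L y` = the element of `H` orthogonal to `K` with `q = y` (`Kᗮ → Q` is bijective). `‖T x‖² = ‖T (L (q x))‖² + ‖T (x - L (q x))‖²`. -/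
def Stmt_ORL : Prop := ∀ (H Q : Type) [AddCommGroup H] [Module ℝ H] [FiniteDimensional ℝ H] [AddCommGroup Q] [Module ℝ Q] (d : ℕ)
  (T : H →ₗ[ℝ] EuclideanSpace ℝ (Fin d)) (q : H →ₗ[ℝ] Q), Function.Injective T → Function.Surjective q →
  ∃ L : Q →ₗ[ℝ] H, (∀ y, q (L y) = y) ∧ ∀ x, ‖T (L (q x))‖ ≤ ‖T x‖

/-- **LFW** (180; uses CAR ORL). LIFTING WITH WEIGHTS. CAR: `I`, `c`. `H` = the span of the `v i`, `i ∈ I`, and of liftings of the unit vectors of `Fin n → ℝ` (`q` is onto): `finrank H ≤ n * n + 1 + n`. `Loc`: `T : H → EuclideanSpace`, `‖T x‖ ≤ p x ≤ C ‖T x‖`. ORL for `q` restricted to `H`: `L₀`, `L = H.subtype ∘ L₀`. `‖T (L₀ (z i))‖ = ‖T (L₀ (q (v i)))‖ ≤ ‖T (v i)‖ ≤ p (v i) ≤ 1`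
for `i ∈ I`. `y ↦ ‖T (L₀ y)‖²` is a quadratic form `∑ A a b y a y b` (`A a b = ⟪T (L₀ e_a), T (L₀ e_b)⟫`), so `∑ μ i ‖T (L₀ (z i))‖² = ∑ i ∈ I, c i ‖..‖² ≤ 1`, and `p ≤ C ‖T ·‖`. -/
def Stmt_LFW : Prop := ∀ (V : Type) [AddCommGroup V] [Module ℝ V] [FiniteDimensional ℝ V] (p : Seminorm ℝ V) (n : ℕ) (C : ℝ)
  (q : V →ₗ[ℝ] (Fin n → ℝ)) (ι : Type) [Fintype ι] (z : ι → Fin n → ℝ) (v : ι → V) (μ : ι → ℝ), Def p → 1 ≤ C → Function.Surjective q →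
  Loc C (n * n + n + 1) p → (∀ i, q (v i) = z i) → (∀ i, p (v i) ≤ 1) → (∀ i, 0 ≤ μ i) → ∑ i, μ i = 1 →
  ∃ L : (Fin n → ℝ) →ₗ[ℝ] V, (∀ y, q (L y) = y) ∧ ∑ i, μ i * p (L (z i)) ^ 2 ≤ C ^ 2

/-- **MMX** (150; uses nothing). MINIMAX. `A = {t : ι → ℝ | ∃ L ∈ 𝓛, ∀ i, f i L ≤ t i}` is convex (`𝓛` convex, `f i` convex), `B = {t | ∀ i, t i < τ}` is convex and open. If `A ∩ B` is empty, `geometric_hahn_banach_open`: a linear `φ t = ∑ φ i t i` and `u` with `φ t < u` on `B`, `u ≤ φ t` on `A`. `A` is upward closed and not empty, so `φ i ≥ 0`; `φ ≠ 0` (otherwise `0 < u ≤ 0`),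
normalise `∑ φ i = 1`; `u ≥ τ` (points `t = (τ - δ, ..)`). So `∑ φ i f i L ≥ τ` for all `L ∈ 𝓛`: contradicts the hypothesis. (If `ι` is empty take any `L`.) -/
def Stmt_MMX : Prop := ∀ (X : Type) [AddCommGroup X] [Module ℝ X] (𝓛 : Set X) (ι : Type) [Fintype ι] (f : ι → X → ℝ) (τ : ℝ), Convex ℝ 𝓛 → 𝓛.Nonempty →
  (∀ i, ConvexOn ℝ 𝓛 (f i)) → (∀ μ : ι → ℝ, (∀ i, 0 ≤ μ i) → ∑ i, μ i = 1 → ∃ L ∈ 𝓛, ∑ i, μ i * f i L < τ) →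
  ∃ L ∈ 𝓛, ∀ i, f i L < τ

/-- **LIF** (180; uses NE1 LFW MMX). COMPLEMENTED SUBSPACES. `q : V → (Fin n → ℝ)` linear, onto, with kernel `X` (a basis of `V / X`). NE1 for `(V, p)`: `T`, `p v ≤ 1` on `T`, every `w` with `p w ≤ 1` has `v ∈ T` with `p (w - v) ≤ 1/2`. `ι = T`, `z v = q v`. LFW for all weights on `T`, MMX with `𝓛` = the set of the linear liftings `L` (`q (L y) = y`) in
`(Fin n → ℝ) →ₗ[ℝ] V`, `f v L = p (L (q v)) ^ 2` (convex), `τ = (C + 1) ^ 2`: one lifting `L` with `p (L (q v)) < C + 1` for all `v ∈ T`. Let `A` be the least constant with `p (L (q x)) ≤ A p x` (it exists: finite dimension; or argue with any such constant and halve the excess): for `p x ≤ 1`: `p (L (q x)) ≤ p (L (q v)) + p (L (q (x - v))) ≤ C + 1 + A / 2`,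
so `A ≤ 2 (C + 1)`. `P = 1 - L q`: `P x ∈ X`, `P x = x` on `X`, `p (P x) ≤ (2 C + 3) p x`. -/
def Stmt_LIF : Prop := ∀ (V : Type) [AddCommGroup V] [Module ℝ V] [FiniteDimensional ℝ V] (p : Seminorm ℝ V) (n : ℕ) (C : ℝ) (X : Submodule ℝ V),
  Def p → 1 ≤ C → finrank ℝ X + n = finrank ℝ V → Loc C (n * n + n + 1) p →
  ∃ P : V →ₗ[ℝ] V, (∀ x, P x ∈ X) ∧ (∀ x ∈ X, P x = x) ∧ ∀ x, p (P x) ≤ (2 * C + 3) * p x

/-- **JOI** (150; uses LIF). TWO NORMS. LIF for `p` and `r`: `P`, `Q` projections onto `X`. `V → X × ker P`, `x ↦ (P x, x - P x)` and `V → X × ker Q` are linear equivalences (`ker P`, `ker Q` of dimension `n ≤ n * n + n + 1`, so `C`-Euclidean for `p`, `r`): `p x ≤ p (P x) + p (x - P x) ≤ (4 C + 7) p x`. `p ≤ Λ r ≤ Λ² p` on `X`; `Eu.iso` for `ker P`, `ker Q`: a linear equivalence `S`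
with `p z ≤ r (S z) ≤ C² p z`. `T (x) = P x + S (x - P x)`. `C' = (4 C + 7)² (Λ + C²) Λ` or any larger constant. -/
def Stmt_JOI : Prop := ∀ C Λ : ℝ, 1 ≤ C → 1 ≤ Λ → ∃ C' : ℝ, 1 ≤ C' ∧ ∀ (V : Type) [AddCommGroup V] [Module ℝ V] [FiniteDimensional ℝ V]
  (p r : Seminorm ℝ V) (n : ℕ) (X : Submodule ℝ V), Def p → Def r → finrank ℝ X + n = finrank ℝ V → Loc C (n * n + n + 1) p → Loc C (n * n + n + 1) r →
  (∀ x ∈ X, p x ≤ Λ * r x ∧ r x ≤ Λ * p x) → Iso C' p r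

/-! ## 7. Assembly for norms -/

/-- **LAR** (100; uses SCL). LARGE SUBSPACES. `κ` with `2 ^ (κ - 1) ≥ 2 / c`, `n₀ ≥ 4 / c`: `a ≥ c n ≥ 4`, `a ^ κ = a a ^ (κ - 1) ≥ a 2 ^ (κ - 1) ≥ c n 2 / c ≥ n`. SCL for `κ`, `F = ⊤` (`Loc` for `⊤`, then `Eu.comp` with `LinearEquiv` `V ≃ ⊤`). -/
def Stmt_LAR : Prop := ∀ c C : ℝ, 0 < c → 1 ≤ C → ∃ (C' : ℝ) (n₀ : ℕ), 1 ≤ C' ∧ ∀ (V : Type) [AddCommGroup V] [Module ℝ V] [FiniteDimensional ℝ V]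
  (N : Seminorm ℝ V) (a : ℕ), Def N → n₀ ≤ finrank ℝ V → c * finrank ℝ V ≤ a → Loc C a N → Eu C' N

/-- **STZ** (100; uses LAR). THE OTHER NORM IS EUCLIDEAN TOO. `n = finrank V`. A subspace `F ≤ E` of dimension `≤ k` lies in a subspace `F' ≤ E` of dimension `k` (`k ≤ finrank E`); `Iso b (p.comp F'.subtype) (r.comp F'.subtype)` and `Eu M (p.comp F'.subtype)` give `Eu (b M) (r.comp F'.subtype)`. So `Loc (b M) k (r.comp E.subtype)`, LAR for `E` with `c = α`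
(`k ≥ α n ≥ α finrank E`; `finrank E ≥ k ≥ α n` is large if `n` is). -/
def Stmt_STZ : Prop := ∀ α b M : ℝ, 0 < α → 1 ≤ b → 1 ≤ M → ∃ (C : ℝ) (n₀ : ℕ), 1 ≤ C ∧ ∀ (V : Type) [AddCommGroup V] [Module ℝ V] [FiniteDimensional ℝ V]
  (p r : Seminorm ℝ V) (k : ℕ) (E : Submodule ℝ V), Def p → Def r → Hyp b k p r → n₀ ≤ finrank ℝ V → α * finrank ℝ V ≤ k → k ≤ finrank ℝ E →
  Eu M (p.comp E.subtype) → Eu C (r.comp E.subtype)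

/-- **GPL** (200; uses POS GAP). GAP WITH POSITIONS. `θ₁, C₁` = POS for `η = β`, `θ₂, C₂'` = POS for `η = 1/2`; `θ = min (θ₁ β) (min θ₂ (1/2))`, `C₂ = (2 C₁ + 1) + (2 C₂' + 1)`; `R`, `C'` of GAP. `F` with `m = finrank F ≤ θ μ ≤ μ / 2 ≤ k`. POS for `E` and `F ⊔ Y ⊔ Y'` (dimension `≤ 3 μ ≤ θ₁ β n ≤ θ₁ finrank E`, as `finrank E ≥ β n`): `E' ≤ E`, `finrank E' ≥ (1 - β) finrank E ≥ k` (`finrank E ≥ k + β n`,
`finrank E ≤ n`); `E'' ≤ E'` of dimension `k - m`. POS for `Y` and `F` (`η = 1/2`): `Y₁ ≤ Y`, `finrank Y₁ ≥ μ / 2 ≥ m`; for `Y'` and `F`: `Y₁'`. `Pos.split`, `Pos.mono`, GAP for `F, Y₁, Y₁', E''`. -/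
def Stmt_GPL : Prop := ∀ β b C : ℝ, 0 < β → β ≤ 1 → 1 ≤ b → 1 ≤ C → ∃ θ R C' : ℝ, 0 < θ ∧ θ ≤ 1 ∧ 1 ≤ R ∧ 1 ≤ C' ∧
  ∀ (V : Type) [AddCommGroup V] [Module ℝ V] [FiniteDimensional ℝ V] (p r : Seminorm ℝ V) (k μ : ℕ) (s : ℝ), Def p → Def r → Hyp b k p r →
  ∀ E Y Y' : Submodule ℝ V, k + β * finrank ℝ V ≤ finrank ℝ E → finrank ℝ Y = μ → finrank ℝ Y' = μ → 3 * (μ : ℝ) ≤ θ * finrank ℝ V → μ ≤ k →
  Eu C (p.comp E.subtype) → Eu C (r.comp E.subtype) → Eu C (p.comp Y.subtype) → Eu C (r.comp Y.subtype) → Eu C (p.comp Y'.subtype) →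
  Eu C (r.comp Y'.subtype) → 0 < s → (∀ y ∈ Y, R * s * p y ≤ r y) → (∀ y ∈ Y', r y ≤ s * p y) →
  ∀ F : Submodule ℝ V, (finrank ℝ F : ℝ) ≤ θ * μ → Eu C' (p.comp F.subtype) ∧ Eu C' (r.comp F.subtype)

/-- **SFL** (200; uses POS SLF). SELF VERSION WITH POSITIONS. `θ₁, C₁` = POS for `η = β`, `θ = θ₁ β`. `m = finrank G`. POS for `E` and `G`: `E' ≤ E`, `finrank E' ≥ k` (as in GPL). `E' ⊇ E'' , Y` of dimensions `k - m`, `m`, orthogonal for the Hilbert norm of `p` on `E'`: `p y + p x ≤ C √2 |y + x| ≤ 2 C p (y + x)`, and `r y + r x ≤ Λ (p y + p x) ≤ 2 C Λ p (y + x) ≤ 2 C Λ² r (y + x)`.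
For `w ∈ G`, `y ∈ Y`, `x ∈ E''`: `N w + N (y + x) ≤ (2 C₁ + 1) N (w + y + x)`, so with `z = w + y`: `N z + N x ≤ N w + N y + N x ≤ C₂ N (z + x)`, `C₂ = (2 C₁ + 1) (2 C Λ² + 1)`; the same for `w`, `y`. SLF (`r ≤ Λ p` on `Y`). -/
def Stmt_SFL : Prop := ∀ β b C Λ : ℝ, 0 < β → β ≤ 1 → 1 ≤ b → 1 ≤ C → 1 ≤ Λ → ∃ θ R C' : ℝ, 0 < θ ∧ θ ≤ 1 ∧ 1 ≤ R ∧ 1 ≤ C' ∧
  ∀ (V : Type) [AddCommGroup V] [Module ℝ V] [FiniteDimensional ℝ V] (p r : Seminorm ℝ V) (k : ℕ), Def p → Def r → Hyp b k p r →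
  ∀ E G : Submodule ℝ V, k + β * finrank ℝ V ≤ finrank ℝ E → (finrank ℝ G : ℝ) ≤ θ * finrank ℝ V → finrank ℝ G ≤ k →
  Eu C (p.comp E.subtype) → Eu C (r.comp E.subtype) → (∀ x ∈ E, p x ≤ Λ * r x ∧ r x ≤ Λ * p x) → (∀ y ∈ G, R * p y ≤ r y) →
  Eu C' (p.comp G.subtype) ∧ Eu C' (r.comp G.subtype)

/-- **ONE** (160; uses GPL SFL). ONE LARGE DEVIATION. SFL: `θ₁, R₁, C₁` (`C₁ ≥ C`); GPL for `β, b, C₁`: `θ₂, R₂, C₂`. `θ = min θ₁ (θ₂ / 3)`, `R = max R₁ (R₂ Λ)`. `G` with `m = finrank G ≤ θ n`, `m ≤ k`. By symmetry (exchange `p`, `r`; `Hyp.symm`) let `R p ≤ r` on `G`. SFL: `G` is `C₁`-Euclidean for `p`, `r`. GPL with `Y = G`, `Y'` = a subspace of `E` of dimension `m` (`m ≤ k ≤ finrank E`), `s = Λ`. -/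
def Stmt_ONE : Prop := ∀ β b C Λ : ℝ, 0 < β → β ≤ 1 → 1 ≤ b → 1 ≤ C → 1 ≤ Λ → ∃ θ R C' : ℝ, 0 < θ ∧ θ ≤ 1 ∧ 1 ≤ R ∧ 1 ≤ C' ∧
  ∀ (V : Type) [AddCommGroup V] [Module ℝ V] [FiniteDimensional ℝ V] (p r : Seminorm ℝ V) (k : ℕ), Def p → Def r → Hyp b k p r →
  ∀ E G : Submodule ℝ V, k + β * finrank ℝ V ≤ finrank ℝ E → (finrank ℝ G : ℝ) ≤ θ * finrank ℝ V → finrank ℝ G ≤ k →
  Eu C (p.comp E.subtype) → Eu C (r.comp E.subtype) → (∀ x ∈ E, p x ≤ Λ * r x ∧ r x ≤ Λ * p x) →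
  ((∀ y ∈ G, R * p y ≤ r y) ∨ ∀ y ∈ G, R * r y ≤ p y) →
  ∀ F : Submodule ℝ V, (finrank ℝ F : ℝ) ≤ θ * finrank ℝ G → Eu C' (p.comp F.subtype) ∧ Eu C' (r.comp F.subtype)

/-- **STP** (260; uses SCL LOB DET JOI LAR ONE). CASE B. ONE: `θ, R, C₁`. `m₁ = ⌊θ min(1, α) n / 2⌋₊` (`≤ θ n`, `≤ k`). `m` = the largest number `≤ m₁` such that some `G` of dimension `m` has `R p ≤ r` on `G` or `R r ≤ p` on `G` (`m = 0` is possible: `G = ⊥`; `Nat.findGreatest`). So `Loc C₁ ⌊θ m⌋₊` for `p` and `r`. (i) `m = m₁`: `⌊θ m₁⌋₊ ≥ c n` for large `n`, LAR: `Eu C₂` for `p`, `r`, `Eu.iso`.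
(ii) `m < m₁`: no `G` of dimension `m + 1` (in the form of DET: `∃ y ∈ G, r y < R p y`, and `∃ y ∈ G, p y < R r y`). `N = 4 m + 2`, `N² + N + 1 ≤ a ^ κ` with `a = ⌊θ m⌋₊` if `a ≥ 2` (`m ≤ 2 a / θ`, `κ` large: `2 ^ (κ - 2)` beats the constant), SCL; and if `a < 2` then `m < 2 / θ`: LOB for the number `(8 / θ + 2)² ..`: in both cases `Loc C₃ (N² + N + 1)` for `p`, `r`. DET for `(p, r)` and `(r, p)`:
`X₁ ⊓ X₂ = X`, codimension `n' ≤ N`, `p ≤ Λ' r`, `r ≤ Λ' p` on `X`, `Λ' = 2 C₃⁴ R`. JOI. -/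
def Stmt_STP : Prop := ∀ α β b C Λ : ℝ, 0 < α → 0 < β → β ≤ 1 → 1 ≤ b → 1 ≤ C → 1 ≤ Λ → ∃ (C' : ℝ) (n₀ : ℕ), 1 ≤ C' ∧
  ∀ (V : Type) [AddCommGroup V] [Module ℝ V] [FiniteDimensional ℝ V] (p r : Seminorm ℝ V) (k : ℕ), Def p → Def r → Hyp b k p r →
  n₀ ≤ finrank ℝ V → α * finrank ℝ V ≤ k → ∀ E : Submodule ℝ V, k + β * finrank ℝ V ≤ finrank ℝ E →
  Eu C (p.comp E.subtype) → Eu C (r.comp E.subtype) → (∀ x ∈ E, p x ≤ Λ * r x ∧ r x ≤ Λ * p x) → Iso C' p r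

/-- **SPL** (220; uses SDG). SPLITTING `E`. `e = finrank E`, `T`, `S` the bijective maps for `p`, `r` on `E`, SDG: `u`, `s`. `Y` = the image of the first `μ` unit vectors, `Y'` of the last `μ`, `E₁` of the others (`e - 2 μ`). `t = C * s (e - μ - 1)` (index of the last vector of `E₁`, `2 μ < e`), `t₁ = s μ / C`. On `Y`: `r ≥ ‖S ·‖ ≥ s μ ‖T ·‖ ≥ t₁ p`; on `Y'`: `r ≤ C ‖S ·‖ ≤ t ‖T ·‖ ≤ t p`.
If `t₁ ≥ R t` the first alternative. Otherwise `s μ ≤ R C² s (e - μ - 1)`, and on `E₁`: `r ≥ ‖S ·‖ ≥ s (e-μ-1) ‖T ·‖ ≥ (s (e-μ-1) / C) p`, `r ≤ C s μ ‖T ·‖ ≤ R C³ s (e-μ-1) p`: with `λ = C / s (e-μ-1)`: `p ≤ λ r ≤ R C⁴ p`. -/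
def Stmt_SPL : Prop := ∀ (V : Type) [AddCommGroup V] [Module ℝ V] [FiniteDimensional ℝ V] (p r : Seminorm ℝ V) (C R : ℝ) (μ : ℕ), Def p → Def r →
  1 ≤ C → 1 ≤ R → ∀ E : Submodule ℝ V, 2 * μ < finrank ℝ E → Eu C (p.comp E.subtype) → Eu C (r.comp E.subtype) →
  (∃ (Y Y' : Submodule ℝ V) (t : ℝ), Y ≤ E ∧ Y' ≤ E ∧ finrank ℝ Y = μ ∧ finrank ℝ Y' = μ ∧ 0 < t ∧ (∀ y ∈ Y, R * t * p y ≤ r y) ∧ ∀ y ∈ Y', r y ≤ t * p y) ∨
  ∃ (E₁ : Submodule ℝ V) (lam : ℝ), E₁ ≤ E ∧ finrank ℝ E₁ + 2 * μ = finrank ℝ E ∧ 0 < lam ∧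
    ∀ x ∈ E₁, p x ≤ lam * r x ∧ lam * r x ≤ R * C ^ 4 * p x

/-- **MAI** (220; uses LOB LAR STZ GPL STP SPL). THE MAIN THEOREM FOR NORMS. `n = finrank V`. `n < n₀`: LOB and `Eu.iso`. `n ≥ n₀`: STZ (`C₀ ≥ M`), GPL for `β = ε / 2`, `C₀`: `θ, R, C₁`. `μ = ⌊δ n⌋₊`, `δ = min (θ / 3) (min (ε / 8) (α / 2))`; SPL with `R`. First alternative: GPL (`E`, `Y`, `Y'`, `s = t`): `Loc C₁ ⌊θ μ⌋₊` for `p`, `r`, LAR with `c = θ δ / 2` (large `n`), `Eu.iso`. Second alternative: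
`r' = lam • r` (`Hyp b k p r'`, `Def`, `Eu` are preserved; `lam : ℝ≥0` or a seminorm with values `lam * r x`), `finrank E₁ ≥ finrank E - 2 μ ≥ k + ε n - ε n / 4 ≥ k + (ε / 2) n`, STP with `β = ε / 2`, `Λ = R C₀⁴`: `Iso C' p r'`, hence `Iso C' p r`. -/
def Stmt_MAI : Prop := ∀ α ε b M : ℝ, 0 < α → 0 < ε → ε ≤ 1 → 1 ≤ b → 1 ≤ M → ∃ C : ℝ, 1 ≤ C ∧
  ∀ (V : Type) [AddCommGroup V] [Module ℝ V] [FiniteDimensional ℝ V] (p r : Seminorm ℝ V) (k : ℕ), Def p → Def r → Hyp b k p r →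
  α * finrank ℝ V ≤ k → ∀ E : Submodule ℝ V, k + ε * finrank ℝ V ≤ finrank ℝ E → Eu M (p.comp E.subtype) → Iso C p r

/-! ## 8. Volume ratio -/

/-- **PCK** (180; uses nothing). PACKING. `B = closedBall 0 1 ⊆ K`, `K = {p ≤ 1}` convex symmetric. For a finite `T` of unit vectors with `p x ≤ 1 / R` and mutual distances `> τ` (`R τ ≥ 2`): the balls `R x + (R τ / 2) B°` are disjoint and contained in `K + (R τ / 2) B ⊆ (1 + R τ / 2) K`. Volumes (`EuclideanSpace.volume_ball`-free: `Measure.addHaar_ball_mul` / `addHaar_smul`):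
`|T| (R τ / 2) ^ n vol B ≤ (1 + R τ / 2) ^ n A ^ n vol B`, `|T| ≤ A ^ n (1 + 2 / (R τ)) ^ n ≤ (2 A) ^ n`. Take `T` with the maximal number of points: every unit vector `x` with `p x ≤ 1 / R` has distance `≤ τ` to `T`. -/
def Stmt_PCK : Prop := ∀ (n : ℕ) (p : Seminorm ℝ (EuclideanSpace ℝ (Fin n))) (A R τ : ℝ), 1 ≤ A → 0 < τ → 2 ≤ R * τ → (∀ x, p x ≤ ‖x‖) →
  volume {x : EuclideanSpace ℝ (Fin n) | p x ≤ 1} ≤ ENNReal.ofReal (A ^ n) * volume (Metric.closedBall (0 : EuclideanSpace ℝ (Fin n)) 1) →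
  ∃ T : Finset (EuclideanSpace ℝ (Fin n)), (T.card : ℝ) ≤ (2 * A) ^ n ∧ (∀ x ∈ T, ‖x‖ = 1) ∧
    ∀ x, ‖x‖ = 1 → p x ≤ 1 / R → ∃ y ∈ T, ‖x - y‖ ≤ τ

/-- **VRT** (150; uses RND PCK). EUCLIDEAN SECTIONS FROM THE VOLUME RATIO. `κ = 2 / η`, `Γ = (2 A) ^ κ`, `τ` of RND, `R = 4 / τ`, `M = R`. `n < 2 / η`: small dimension: `E = ⊥` if `(1 - η) n < 1`...: better: `c = ⌈η n⌉₊` is not allowed (codimension must be `≤ η n`), so for `n < 1 / η` take `E = ⊤` and LOB-like constants; therefore the statement is only for `n ≥ 2 / η`: `c = ⌊η n⌋₊ ≥ 1`, `n ≤ κ c`.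
PCK with `τ / 2`: `|T| ≤ (2 A) ^ n ≤ Γ ^ c`. RND: `E`, codimension `≤ c ≤ η n`. A unit vector `y ∈ E` with `p y ≤ 1 / R` would have a point of `T` at distance `≤ τ / 2 < τ`: impossible. So `p y ≥ ‖y‖ / R` on `E`, `p ≤ ‖·‖`: `Eu R` with `T = R⁻¹ •` inclusion. -/
def Stmt_VRT : Prop := ∀ η A : ℝ, 0 < η → η ≤ 1 → 1 ≤ A → ∃ M : ℝ, 1 ≤ M ∧ ∀ (n : ℕ) (p : Seminorm ℝ (EuclideanSpace ℝ (Fin n))), 2 ≤ η * n →
  (∀ x, p x ≤ ‖x‖) →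
  volume {x : EuclideanSpace ℝ (Fin n) | p x ≤ 1} ≤ ENNReal.ofReal (A ^ n) * volume (Metric.closedBall (0 : EuclideanSpace ℝ (Fin n)) 1) →
  ∃ E : Submodule ℝ (EuclideanSpace ℝ (Fin n)), (1 - η) * n ≤ finrank ℝ E ∧ Eu M (p.comp E.subtype)

end Pool.EH
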